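import Pool.Agent.Run7.h418.Z.Ngt

/-!
Entire curves of bounded derivative in varieties with an immersive family of symmetric
differentials.
-/

set_option autoImplicit false

open MvPolynomial Set LinearAlgebra.Projectivization

namespace Run7.h418.Z

open Pool.Agent.Y190.OP Pool.Agent.W602.GT Pool.Agent.N155 Pool.Agent.TH182.TC

section rel

variable {n : ℕ} {f : ℂ → Mat (n + 1)} {D : Fin (n + 1) → Dr (Fin (n + 1) ⊕ Fin (n + 1))} {C : ℝ}
  {M : Type} [Field M] [Algebra ℂ M] {ev : Fin (n + 1) → Rn (n + 1) →ₐ[ℂ] M}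
  {δ : Derivation ℂ M M}

theorem ev_rename (k : Fin (n + 1)) (H : MvPolynomial (Fin (n + 1)) ℂ) :
    ev k (rename Sum.inl H) = val (fun r => ev k (X (Sum.inl r))) H := by
  unfold val
  rw [← AlgHom.comp_apply]
  congr 1
  apply MvPolynomial.algHom_ext
  intro r
  rw [aeval_X, AlgHom.comp_apply, rename_X]

/-- forms which vanish on the curve -/
theorem form_rel (h : Dat f D C) (hM : IsFd f D ev δ) {i : Fin (n + 1)} (hi : ∃ z, f z i i ≠ 0)
    {H : MvPolynomial (Fin (n + 1)) ℂ} (hH : IsForm H) :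
    ev i (rename Sum.inl H) = 0 ↔
      ∀ (z : ℂ) (u : Fin (n + 1) → ℂ), u ≠ 0 → Phi u = f z → eval u H = 0 := by
  constructor
  · intro h0 z u hu hz
    obtain ⟨k, hk⟩ := PM.exists_diag (h.hol.mem_PM (mem_univ z))
    have hkf : ∃ z, f z k k ≠ 0 := ⟨z, hk⟩
    obtain ⟨e, he⟩ := hH
    have h1 : ev k (rename Sum.inl H) = 0 := by
      rw [ev_rename]
      have h2 : (fun r => ev k (X (Sum.inl r))) =
          fun r => ev k (X (Sum.inl i)) * ev i (X (Sum.inl r)) := by
        funext r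
        rw [mul_comm]
        exact (hM.inl k i hkf hi r).symm
      rw [h2, val_smul he, ← ev_rename, h0, mul_zero]
    have h2 := (hM.ker k hkf _).1 h1 z hk
    rw [eval_inl] at h2
    refine form_zero ⟨e, he⟩ (PM.chart_ne hk) hu ?_ h2
    rw [hz]
    exact PM.Phi_chart (h.hol.mem_PM (mem_univ z)) hk
  · intro h0
    rw [hM.ker i hi]
    intro z hz
    rw [eval_inl]
    exact h0 z _ (PM.chart_ne hz) (PM.Phi_chart (h.hol.mem_PM (mem_univ z)) hz)

theorem form_curve {p : ℂ → ℙ ℂ (Fin (n + 1) → ℂ)} {H : MvPolynomial (Fin (n + 1)) ℂ}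
    (hH : IsForm H) : (∀ (z : ℂ) (u : Fin (n + 1) → ℂ), u ≠ 0 → Phi u = Phi (p z).rep →
      eval u H = 0) ↔ ∀ z, eval (p z).rep H = 0 := by
  constructor
  · intro h z
    exact h z _ (p z).rep_nonzero rfl
  · intro h z u hu he
    exact form_zero hH (p z).rep_nonzero hu he.symm (h z)

end rel

section fin

variable {n : ℕ} {ι κ : Type} {F : ι → MvPolynomial (Fin (n + 1)) ℂ}
  {σ : κ → (Fin (n + 1) → ℂ) → (Fin (n + 1) → ℂ) → ℂ} {m : κ → ℕ}

/-- **Curves of bounded derivative.** -/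
theorem main [Finite κ] (hF : ∀ i, IsForm (F i)) (hm : ∀ j, 0 < m j)
    (hσ : ∀ j, SymForm F (m j) (σ j)) (him : Immersive F σ)
    {p : ℂ → ℙ ℂ (Fin (n + 1) → ℂ)} (hp : HolMap p) (hpF : ∀ z, (p z).rep ∈ Cone F)
    (hb : BoundedDer p) (hne : ∃ z w, p z ≠ p w) :
    ∃ (w : ℕ) (b : Module.Basis (Fin (2 * w)) ℝ (Fin w → ℂ)) (g : (Fin w → ℂ) → PS n)
      (d : Fin w → ℂ), 0 < w ∧ (∀ t, ImmAt g t) ∧ (∀ t, OnX F (g t)) ∧
      (∀ t i, g (t + b i) = g t) ∧ (∀ z : ℂ, g (z • d) = p z) ∧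
      (∀ G : MvPolynomial (Fin (n + 1)) ℂ, IsForm G → (∀ z, eval (p z).rep G = 0) →
        ∀ t, eval (g t).rep G = 0) ∧
      (∃ (K : Type) (_ : Field K) (_ : Algebra ℂ K) (y : Fin (n + 1) → K), SubVar F K w y ∧
        ∀ G : MvPolynomial (Fin (n + 1)) ℂ, IsForm G →
          (val y G = 0 ↔ ∀ z, eval (p z).rep G = 0)) ∧
      ∀ (K : Type) [Field K] [Algebra ℂ K] (w' : ℕ) (y : Fin (n + 1) → K), SubVar F K w' y →
        (∀ G : MvPolynomial (Fin (n + 1)) ℂ, IsForm G →
          (val y G = 0 ↔ ∀ z, eval (p z).rep G = 0)) → w' = w ∧ ¬ GeneralType ℂ K w := by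
  classical
  obtain ⟨c, D, C, hD, hV⟩ := dat_of_bounded hF hm hσ him hp hpF hb hne
  obtain ⟨M, hMf, hMa, ev, δ, i, w, z0, v0, V, act, ε, d, hi, T, hx⟩ := exists_td hD hσ him hV
  obtain ⟨b, g, h1, h2, h3, h4, h5⟩ := T.torus hF hV
  have hgp : ∀ z : ℂ, g (z • d) = p z := fun z => proj_eq (h4 z)
  have hform : ∀ H : MvPolynomial (Fin (n + 1)) ℂ, IsForm H →
      (ev i (rename Sum.inl H) = 0 ↔ ∀ z, eval (p z).rep H = 0) := fun H hH =>
    (form_rel hD T.fd hi hH).trans (form_curve hH)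
  have hyi : ev i (X (Sum.inl i)) = 1 := by
    have h2 : ev i (X (Sum.inl i) - 1) = 0 := by
      rw [T.fd.ker i hi]
      intro z hz
      rw [map_sub, eval_X, map_one, hD.inl i _ (fun G hG => hG z hz), sub_self]
    rw [map_sub, map_one] at h2
    exact sub_eq_zero.1 h2
  have hXi : ∀ (K : Type) [Field K] [Algebra ℂ K] (y : Fin (n + 1) → K),
      (∀ G : MvPolynomial (Fin (n + 1)) ℂ, IsForm G →
        (val y G = 0 ↔ ∀ z, eval (p z).rep G = 0)) → y i ≠ 0 := by
    intro K _ _ y hy h0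
    have h1 : val y (X i : MvPolynomial (Fin (n + 1)) ℂ) = 0 := by
      unfold val
      rw [aeval_X]
      exact h0
    have h2 := (hform _ ⟨1, isHomogeneous_X ℂ i⟩).2 ((hy _ ⟨1, isHomogeneous_X ℂ i⟩).1 h1)
    rw [rename_X, hyi] at h2
    exact one_ne_zero h2
  -- the generic points
  have hgen : ∀ (K : Type) [Field K] [Algebra ℂ K] (w' : ℕ) (y : Fin (n + 1) → K),
      SubVar F K w' y → (∀ G : MvPolynomial (Fin (n + 1)) ℂ, IsForm G →
          (val y G = 0 ↔ ∀ z, eval (p z).rep G = 0)) → w' = w ∧ ¬ GeneralType ℂ K w := by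
    intro K _ _ w' y hy hyG
    have hyi0 := hXi K y hyG
    set y' : Fin (n + 1) → K := fun r => (y i)⁻¹ * y r with hy'
    have hy'i : y' i = 1 := inv_mul_cancel₀ hyi0
    have htop : IntermediateField.adjoin ℂ (Set.range y') = ⊤ := by
      rw [eq_top_iff, ← hy.gen]
      unfold coords
      rw [IntermediateField.adjoin_le_iff]
      rintro _ ⟨a, b, hb, rfl⟩
      have h6 : y a / y b = y' a / y' b := by
        rw [hy']
        field_simp
      rw [h6]
      exact div_mem (IntermediateField.subset_adjoin ℂ _ ⟨a, rfl⟩)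
        (IntermediateField.subset_adjoin ℂ _ ⟨b, rfl⟩)
    have hfr : ∀ m : K, ∃ P Q : MvPolynomial (Fin (n + 1)) ℂ, aeval y' Q ≠ 0 ∧
        m * aeval y' Q = aeval y' P := by
      intro m
      have h6 : m ∈ IntermediateField.adjoin ℂ (Set.range y') := by
        rw [htop]
        trivial
      obtain ⟨P, Q, rfl⟩ := (IntermediateField.mem_adjoin_range_iff ℂ y' m).1 h6
      by_cases hQ : aeval y' Q = 0
      · refine ⟨0, 1, by simp, ?_⟩
        rw [hQ]
        simp
      · exact ⟨P, Q, hQ, div_mul_cancel₀ _ hQ⟩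
    have hk : ∀ G, aeval y' G = 0 ↔ ((ev i).comp (rename Sum.inl)) G = 0 := by
      intro G
      obtain ⟨H, ⟨e, hH⟩, hHG⟩ := exists_homog i G
      have h6 : aeval y' G = aeval y' H := (hHG K y' hy'i).symm
      have h7 : ((ev i).comp (rename Sum.inl)) G = ev i (rename Sum.inl H) := by
        rw [AlgHom.comp_apply, ev_rename, ev_rename]
        exact (hHG M (fun r => ev i (X (Sum.inl r))) hyi).symm
      have h8 : aeval y' H = (y i)⁻¹ ^ e * val y H := val_smul hH (y i)⁻¹ y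
      rw [h6, h7, hform H ⟨e, hH⟩, ← hyG H ⟨e, hH⟩, h8, mul_eq_zero]
      exact ⟨fun h9 => h9.resolve_left (pow_ne_zero _ (inv_ne_zero hyi0)), fun h9 => Or.inr h9⟩
    obtain ⟨j, hj⟩ := exists_lift_field (aeval y' : MvPolynomial (Fin (n + 1)) ℂ →ₐ[ℂ] K)
      ((ev i).comp (rename Sum.inl)) hfr hk
    letI : Algebra K M := j.toRingHom.toAlgebra
    haveI : IsScalarTower ℂ K M := IsScalarTower.of_algebraMap_eq fun x => (j.commutes x).symm
    haveI : Algebra.EssFiniteType ℂ K := by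
      rw [← IntermediateField.fg_top_iff, ← htop]
      exact IntermediateField.fg_adjoin_of_finite (Set.finite_range y')
    have hjy : ∀ k, algebraMap K M (y' k) = ev i (X (Sum.inl k)) := by
      intro k
      have h6 := hj (X k)
      rw [aeval_X, AlgHom.comp_apply, rename_X] at h6
      exact h6
    obtain ⟨h7, h8⟩ := T.not_general hi hx hjy
    refine ⟨?_, h8⟩
    have h9 := hy.dim
    rw [h7] at h9
    exact_mod_cast h9.symm
  -- existence
  have hex : ∃ (K : Type) (_ : Field K) (_ : Algebra ℂ K) (y : Fin (n + 1) → K),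
      SubVar F K w y ∧ ∀ G : MvPolynomial (Fin (n + 1)) ℂ, IsForm G →
          (val y G = 0 ↔ ∀ z, eval (p z).rep G = 0) := by
    set y : Fin (n + 1) → M := fun k => ev i (X (Sum.inl k)) with hy
    have hyi0 : y i ≠ 0 := by
      rw [hy]
      change ev i (X (Sum.inl i)) ≠ 0
      rw [hyi]
      exact one_ne_zero
    have hval : ∀ H : MvPolynomial (Fin (n + 1)) ℂ, IsForm H →
        (val y H = 0 ↔ ∀ z, eval (p z).rep H = 0) := by
      intro H hH
      rw [← hform H hH, ev_rename]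
    have hmem : ∀ e, val y (F e) = 0 := fun e => (hval _ (hF e)).2 fun z => by
      rw [← val_ev]
      exact (hpF z).2 e
    obtain ⟨y', hy'i, hy'F, hy'gen, hy'G⟩ := Pool.Agent.W602.GT.repr
      (F := fun G : {G : MvPolynomial (Fin (n + 1)) ℂ // IsForm G ∧ val y G = 0} => G.1)
      (fun G => G.2.1) y hyi0 fun G => G.2.2
    have hval' : ∀ H : MvPolynomial (Fin (n + 1)) ℂ, IsForm H →
        (val y' H = 0 ↔ ∀ z, eval (p z).rep H = 0) := by
      intro H hH
      rw [← hval H hH]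
      exact ⟨hy'G H hH, fun h6 => hy'F ⟨H, hH, h6⟩⟩
    have hfin : Algebra.EssFiniteType ℂ (coords ℂ y) := by
      rw [IntermediateField.essFiniteType_iff]
      refine IntermediateField.fg_adjoin_of_finite ?_
      refine (Set.finite_range fun p : Fin (n + 1) × Fin (n + 1) => y p.1 / y p.2).subset ?_
      rintro x ⟨a, b, -, rfl⟩
      exact ⟨(a, b), rfl⟩
    obtain ⟨w', hw'⟩ := Cardinal.lt_aleph0.1 (trdeg_lt_aleph0 ℂ (coords ℂ y))
    have hsub : SubVar F (coords ℂ y) w' y' := ⟨fun h0 => by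
      rw [h0] at hy'i
      exact zero_ne_one hy'i, fun e => hy'F ⟨F e, hF e, hmem e⟩, hy'gen, hw'⟩
    obtain ⟨rfl, -⟩ := hgen _ w' y' hsub hval'
    exact ⟨_, _, _, y', hsub, hval'⟩
  exact ⟨w, b, g, d, T.pos hi, h1, h2, h3, hgp, fun G hG hGp => h5 G hG fun z => by
    rw [hgp]
    exact hGp z, hex, hgen⟩

end fin

end Run7.h418.Z
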