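import Pool.Agent.Run7.h418.Defs
import Pool.Agent.Run7.h418.TorDefs
import Pool.Agent.N155.L.SDefs

/-!
Zariski closures of curves, and curves which are contained in a torus.
-/

set_option autoImplicit false

open Filter Topology Pool.Agent.TH182.TC Pool.Agent.W602.GT

namespace Run7.h418.Z

variable {n : ℕ} {ι : Type}

/-- The form `G` vanishes on the curve `p`. -/
def Van (p : ℂ → PS n) (G : MvPolynomial (Fin (n + 1)) ℂ) : Prop :=
  ∀ z, MvPolynomial.eval (p z).rep G = 0

/-- The Zariski closure of the curve `p` in `X = {F = 0}` is the closed subvariety of dimension `w`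
of `X` with function field `K` and generic point `y`. -/
def IsClosure (F : ι → MvPolynomial (Fin (n + 1)) ℂ) (p : ℂ → PS n) (K : Type) [Field K]
    [Algebra ℂ K] (w : ℕ) (y : Fin (n + 1) → K) : Prop :=
  SubVar F K w y ∧ ∀ G : MvPolynomial (Fin (n + 1)) ℂ, IsForm G → (val y G = 0 ↔ Van p G)

/-- There is a holomorphic immersion `g` of a complex torus `ℂ^w / Λ` (the lattice `Λ` is generated
by a basis `b` of the real vector space `ℂ^w`) into `X = {F = 0}`, such that `p z = g (z d)` for a
vector `d`, and such that the image of `g` is contained in the Zariski closure of `p`. -/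
def InTorus (F : ι → MvPolynomial (Fin (n + 1)) ℂ) (p : ℂ → PS n) (w : ℕ) : Prop :=
  ∃ (b : Module.Basis (Fin (2 * w)) ℝ (Fin w → ℂ)) (g : (Fin w → ℂ) → PS n) (d : Fin w → ℂ),
    (∀ t, ImmAt g t) ∧ (∀ t, OnX F (g t)) ∧ (∀ t i, g (t + b i) = g t) ∧
    (∀ z : ℂ, g (z • d) = p z) ∧ ∀ G : MvPolynomial (Fin (n + 1)) ℂ, IsForm G → Van p G →
      ∀ t, MvPolynomial.eval (g t).rep G = 0

end Run7.h418.Z
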