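import Pool.Agent.Run7.h418.Z.Fin
import Pool.Agent.Run7.h418.Z.Defs

/-!
Entire curves of bounded derivative in varieties with an immersive family of symmetric
differentials: the theorems.
-/

set_option autoImplicit false

open MvPolynomial Set LinearAlgebra.Projectivization

namespace Run7.h418.Z

open Pool.Agent.Y190.OP Pool.Agent.W602.GT Pool.Agent.N155 Pool.Agent.TH182.TC

variable {n : ℕ} {ι κ : Type} {F : ι → MvPolynomial (Fin (n + 1)) ℂ}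
  {σ : κ → (Fin (n + 1) → ℂ) → (Fin (n + 1) → ℂ) → ℂ} {m : κ → ℕ}

theorem thm_torus [Finite κ] (hF : ∀ i, IsForm (F i)) (hm : ∀ j, 0 < m j)
    (hσ : ∀ j, SymForm F (m j) (σ j)) (him : Immersive F σ)
    {p : ℂ → ℙ ℂ (Fin (n + 1) → ℂ)} (hp : HolMap p) (hpF : ∀ z, (p z).rep ∈ Cone F)
    (hb : BoundedDer p) (hne : ∃ z w, p z ≠ p w) :
    ∃ w : ℕ, 0 < w ∧ InTorus F p w ∧
      (∃ (K : Type) (_ : Field K) (_ : Algebra ℂ K) (y : Fin (n + 1) → K),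
        IsClosure F p K w y) ∧
      ∀ (K : Type) [Field K] [Algebra ℂ K] (w' : ℕ) (y : Fin (n + 1) → K),
        IsClosure F p K w' y → w' = w ∧ ¬ GeneralType ℂ K w := by
  obtain ⟨w, b, g, d, h0, h1, h2, h3, h4, h5, ⟨K, hK1, hK2, y, hy1, hy2⟩, h7⟩ :=
    main hF hm hσ him hp hpF hb hne
  exact ⟨w, h0, ⟨b, g, d, h1, h2, h3, h4, h5⟩, ⟨K, hK1, hK2, y, hy1, hy2⟩,
    fun K _ _ w' y hy => h7 K w' y hy.1 hy.2⟩

theorem thm_general [Finite κ] (hF : ∀ i, IsForm (F i)) (hm : ∀ j, 0 < m j)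
    (hσ : ∀ j, SymForm F (m j) (σ j)) (him : Immersive F σ) {K : Type} [Field K] [Algebra ℂ K]
    {w : ℕ} {y : Fin (n + 1) → K} (hy : SubVar F K w y) (hgt : GeneralType ℂ K w)
    {p : ℂ → ℙ ℂ (Fin (n + 1) → ℂ)} (hp : HolMap p) (hpV : ∀ z, (p z).rep ∈ VarPts ℂ y)
    (hb : BoundedDer p) (hne : ∃ z w, p z ≠ p w) :
    ∃ G : MvPolynomial (Fin (n + 1)) ℂ, IsForm G ∧ val y G ≠ 0 ∧ Van p G := by
  by_contra hcon
  push Not at hcon
  have hpF : ∀ z, (p z).rep ∈ Cone F := fun z =>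
    ⟨(hpV z).1, fun i => (hpV z).2 (F i) (hF i) (hy.mem i)⟩
  obtain ⟨w0, -, -, -, h7⟩ := thm_torus hF hm hσ him hp hpF hb hne
  have hcl : IsClosure F p K w y := ⟨hy, fun G hG => ⟨fun h0 z => by
    rw [← val_ev]
    exact (hpV z).2 G hG h0, fun h0 => by
    by_contra h1
    exact hcon G hG h1 h0⟩⟩
  obtain ⟨rfl, h8⟩ := h7 K w y hcl
  exact h8 hgt

end Run7.h418.Z
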