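import Pool.Agent.Run7.h418.Fld
import Pool.Agent.Run7.h418.Z.Wsp

/-!
The field generated by the coordinates of the curve and their derivatives.
-/

set_option autoImplicit false

open Metric Set Filter Topology MvPolynomial TensorProduct

namespace Run7.h418.Z

open Pool.Agent.Y190.OP

section field

variable {N : ℕ} {f : ℂ → Mat N} {D : Fin N → Dr (Fin N ⊕ Fin N)} {C : ℝ}

/-- a field containing the coordinates of the curve and their derivatives -/
structure IsFd (f : ℂ → Mat N) (D : Fin N → Dr (Fin N ⊕ Fin N)) {M : Type} [Field M] [Algebra ℂ M]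
    (ev : Fin N → Rn N →ₐ[ℂ] M) (δ : Derivation ℂ M M) : Prop where
  ker : ∀ k, (∃ z, f z k k ≠ 0) → ∀ G, ev k G = 0 ↔ G ∈ Rel f k
  frac : ∀ k, (∃ z, f z k k ≠ 0) → ∀ m : M, ∃ p q : Rn N, ev k q ≠ 0 ∧ m * ev k q = ev k p
  der : ∀ k, (∃ z, f z k k ≠ 0) → ∀ G, δ (ev k G) = ev k (D k G)
  inl : ∀ k l, (∃ z, f z k k ≠ 0) → (∃ z, f z l l ≠ 0) → ∀ r,
    ev l (X (Sum.inl r)) * ev k (X (Sum.inl l)) = ev k (X (Sum.inl r))
  val : ∀ k l, (∃ z, f z k k ≠ 0) → (∃ z, f z l l ≠ 0) → ∀ G H, ev k G = ev l H → ∀ z,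
    f z k k ≠ 0 → f z l l ≠ 0 → eval (pr k f z) G = eval (pr l f z) H
  germ : ∃ Φ : M →+* Germ (𝓝[≠] (0 : ℂ)) ℂ, ∀ k, (∃ z, f z k k ≠ 0) → ∀ G,
    Φ (ev k G) = gev f k 0 G

theorem Dat.isPrime (h : Dat f D C) {i : Fin N} (hi : ∃ z, f z i i ≠ 0) : (Rel f i).IsPrime := by
  obtain ⟨z, hz⟩ := hi
  refine ⟨fun htop => ?_, fun {G H} hGH => rel_prime h.hol hz hGH⟩
  have h1 : (1 : Rn N) ∈ Rel f i := by rw [htop]; trivial
  have h2 := h1 z hz
  rw [map_one] at h2
  exact one_ne_zero h2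

theorem Dat.exists_field (h : Dat f D C) {i : Fin N} (hi : ∃ z, f z i i ≠ 0) :
    ∃ (M : Type) (_ : Field M) (_ : Algebra ℂ M) (ev : Fin N → Rn N →ₐ[ℂ] M)
      (δ : Derivation ℂ M M), IsFd f D ev δ := by
  have hp := h.isPrime hi
  let B := Rn N ⧸ Rel f i
  let M := FractionRing B
  let evi : Rn N →ₐ[ℂ] M := (IsScalarTower.toAlgHom ℂ B M).comp (Ideal.Quotient.mkₐ ℂ (Rel f i))
  have hevi : ∀ G, evi G = algebraMap B M (Ideal.Quotient.mk (Rel f i) G) := fun G => rfl
  have hker : ∀ G, evi G = 0 ↔ G ∈ Rel f i := by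
    intro G
    rw [hevi, ← map_zero (algebraMap B M), (IsFractionRing.injective B M).eq_iff,
      Ideal.Quotient.eq_zero_iff_mem]
  have hfrac : ∀ m : M, ∃ p q : Rn N, evi q ≠ 0 ∧ m * evi q = evi p := by
    intro m
    obtain ⟨a, b, hb, rfl⟩ := IsFractionRing.div_surjective B m
    obtain ⟨p, rfl⟩ := Ideal.Quotient.mk_surjective a
    obtain ⟨q, rfl⟩ := Ideal.Quotient.mk_surjective b
    have h1 : algebraMap B M (Ideal.Quotient.mk (Rel f i) q) ≠ 0 :=
      IsFractionRing.to_map_ne_zero_of_mem_nonZeroDivisors hb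
    exact ⟨p, q, h1, div_mul_cancel₀ _ h1⟩
  -- the germs
  have hΦ : ∀ z : ℂ, ∃ Φ : M →+* Germ (𝓝[≠] z) ℂ, ∀ G, Φ (evi G) = gev f i z G := by
    intro z
    have h1 : ∀ G ∈ Rel f i, gev f i z G = 0 := by
      intro G hG
      rw [gev_apply]
      refine Germ.coe_eq.2 ?_
      filter_upwards [ev_chart h.hol hi z] with w hw
      exact hG w hw
    let g : B →+* Germ (𝓝[≠] z) ℂ := Ideal.Quotient.lift (Rel f i) (gev f i z) h1
    have hg : ∀ y : nonZeroDivisors B, IsUnit (g y) := by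
      rintro ⟨y, hy⟩
      obtain ⟨q, rfl⟩ := Ideal.Quotient.mk_surjective y
      change IsUnit (gev f i z q)
      refine gev_unit h.hol hi (fun hq => ?_) z
      have h2 : Ideal.Quotient.mk (Rel f i) q = 0 := Ideal.Quotient.eq_zero_iff_mem.2 hq
      exact nonZeroDivisors.ne_zero hy h2
    refine ⟨IsLocalization.lift (M := nonZeroDivisors B) (S := M) hg, fun G => ?_⟩
    rw [hevi, IsLocalization.lift_eq]
    rfl
  choose Φ hΦ' using hΦ
  have hinj : ∀ z, Function.Injective (Φ z) := fun z => (Φ z).injective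
  -- the charts
  let x : Fin N → M := fun r => evi (X (Sum.inl r))
  let ξ : Fin N → M := fun r => evi (X (Sum.inr r))
  let ev : Fin N → Rn N →ₐ[ℂ] M := fun k => aeval (Sum.elim (fun r => x r / x k)
    fun r => (ξ r * x k - x r * ξ k) / x k ^ 2)
  have hx0 : ∀ k, (∃ z, f z k k ≠ 0) → x k ≠ 0 := by
    intro k hk h1
    exact X_notMem h.hol hi hk ((hker _).1 h1)
  have hev : ∀ k, (∃ z, f z k k ≠ 0) → ∀ z G, Φ z (ev k G) = gev f k z G := by
    intro k hk z
    have hu : IsUnit (Φ z (x k)) := (isUnit_iff_ne_zero.2 (hx0 k hk)).map _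
    have hxk : Φ z (x k) = gev f i z (X (Sum.inl k)) := hΦ' z _
    have hnear : ∀ᶠ w in 𝓝[≠] z, pr i f w (Sum.inl k) ≠ 0 ∧ pr k f w = cc k (pr i f w) := by
      filter_upwards [ev_chart h.hol hi z, ev_chart h.hol hk z] with w h1 h2
      exact pr_cc isOpen_univ h.hol (mem_univ w) h1 h2
    have h1 : (Φ z).comp (ev k).toRingHom = gev f k z := by
      refine MvPolynomial.ringHom_ext (fun c => ?_) fun l => ?_
      · change Φ z (ev k (MvPolynomial.C c)) = _
        have h2 : ev k (MvPolynomial.C c) = evi (MvPolynomial.C c) := by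
          change aeval _ (MvPolynomial.C c) = _
          rw [aeval_C]
          exact (evi.commutes c).symm
        rw [h2, hΦ', gev_apply, gev_apply]
        simp only [eval_C]
      · change Φ z (ev k (X l)) = _
        rcases l with r | r
        · have h2 : ev k (X (Sum.inl r)) = x r / x k := by
            change aeval _ (X (Sum.inl r)) = _
            rw [aeval_X]
            rfl
          refine hu.mul_left_injective ?_
          change Φ z (ev k (X (Sum.inl r))) * Φ z (x k) = gev f k z (X (Sum.inl r)) * Φ z (x k)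
          rw [← map_mul, h2, div_mul_cancel₀ _ (hx0 k hk), hxk]
          change Φ z (evi (X (Sum.inl r))) = _
          rw [hΦ', gev_apply, gev_apply, gev_apply, ← Germ.coe_mul]
          refine Germ.coe_eq.2 ?_
          filter_upwards [hnear] with w hw
          simp only [eval_X, Pi.mul_apply]
          rw [hw.2, cc_inl, div_mul_cancel₀ _ hw.1]
        · have h2 : ev k (X (Sum.inr r)) = (ξ r * x k - x r * ξ k) / x k ^ 2 := by
            change aeval _ (X (Sum.inr r)) = _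
            rw [aeval_X]
            rfl
          refine (hu.pow 2).mul_left_injective ?_
          change Φ z (ev k (X (Sum.inr r))) * Φ z (x k) ^ 2 =
            gev f k z (X (Sum.inr r)) * Φ z (x k) ^ 2
          rw [← map_pow, ← map_mul, h2, div_mul_cancel₀ _ (pow_ne_zero 2 (hx0 k hk)), map_sub,
            map_mul, map_mul, map_pow, hxk]
          change Φ z (evi (X (Sum.inr r))) * _ - Φ z (evi (X (Sum.inl r))) *
            Φ z (evi (X (Sum.inr k))) = _
          rw [hΦ', hΦ', hΦ', ← map_mul, ← map_mul, ← map_sub, ← map_pow, gev_apply, gev_apply,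
            gev_apply, ← Germ.coe_mul]
          refine Germ.coe_eq.2 ?_
          filter_upwards [hnear] with w hw
          simp only [map_sub, map_mul, map_pow, eval_X, Pi.mul_apply]
          rw [hw.2, cc_inr, div_mul_cancel₀ _ (pow_ne_zero 2 hw.1)]
    intro G
    exact congrArg (fun φ : Rn N →+* Germ (𝓝[≠] z) ℂ => φ G) h1
  have hevi' : ∀ G, ev i G = evi G := fun G => hinj 0 (by rw [hev i hi, hΦ'])
  -- homogenisation
  have hhom : ∀ k l, (∃ z, f z k k ≠ 0) → (∃ z, f z l l ≠ 0) → ∀ G, ∃ (m : ℕ) (G' : Rn N),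
      ev k G' = ev k (X (Sum.inl l)) ^ m * ev l G := by
    intro k l hk hl G
    obtain ⟨m, G', hG'⟩ := homog l G
    refine ⟨m, G', hinj 0 ?_⟩
    rw [map_mul, map_pow, hev k hk, hev k hk, hev l hl, gev_apply, gev_apply, gev_apply,
      ← Germ.coe_pow, ← Germ.coe_mul]
    refine Germ.coe_eq.2 ?_
    filter_upwards [ev_chart h.hol hk 0, ev_chart h.hol hl 0] with w h1 h2
    obtain ⟨h3, h4⟩ := pr_cc isOpen_univ h.hol (mem_univ w) h1 h2
    simp only [Pi.mul_apply, Pi.pow_apply, eval_X]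
    rw [h4]
    exact hG' _ h3
  have hkerk : ∀ k, (∃ z, f z k k ≠ 0) → ∀ G, ev k G = 0 ↔ G ∈ Rel f k := by
    intro k hk G
    constructor
    · intro h1
      by_contra hG
      obtain ⟨z, hz⟩ := (ev_ne h.hol hk hG 0).exists
      have h2 := hev k hk 0 G
      rw [h1, map_zero, gev_apply] at h2
      have h3 : ∀ᶠ w in 𝓝[≠] (0 : ℂ), (0 : ℂ) = eval (pr k f w) G := Germ.coe_eq.1 h2
      obtain ⟨w, hw1, hw2⟩ := (h3.and (ev_ne h.hol hk hG 0)).exists
      exact hw2 hw1.symm
    · intro hG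
      refine hinj 0 ?_
      rw [hev k hk, map_zero, gev_apply]
      refine Germ.coe_eq.2 ?_
      filter_upwards [ev_chart h.hol hk 0] with w hw
      exact hG w hw
  have hX : ∀ k l, (∃ z, f z k k ≠ 0) → (∃ z, f z l l ≠ 0) → ev k (X (Sum.inl l)) ≠ 0 := by
    intro k l hk hl h1
    exact X_notMem h.hol hk hl ((hkerk k hk _).1 h1)
  -- the derivation
  have hmk : Function.Surjective (Ideal.Quotient.mkₐ ℂ (Rel f i)) :=
    Ideal.Quotient.mkₐ_surjective ℂ _
  have hDi : ∀ G, Ideal.Quotient.mkₐ ℂ (Rel f i) G = 0 →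
      Ideal.Quotient.mkₐ ℂ (Rel f i) (D i G) = 0 := by
    intro G hG
    rw [Ideal.Quotient.mkₐ_eq_mk, Ideal.Quotient.eq_zero_iff_mem] at hG ⊢
    exact h.stab hG
  obtain ⟨δ, hδ⟩ := der_frac (Derivation.liftOfSurjective hmk hDi)
  have hδi : ∀ G, δ (evi G) = evi (D i G) := by
    intro G
    rw [hevi, hevi, hδ]
    congr 1
    exact Derivation.liftOfSurjective_apply hmk hDi G
  have hode : ∀ k z G, f z k k ≠ 0 →
      HasDerivAt (fun w => eval (pr k f w) G) (eval (pr k f z) (D k G)) z := by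
    intro k z G hk
    exact hasDerivAt_eval (D k)
      (h.ode univ f isOpen_univ (sol_self h.hol) z (mem_univ z) k hk).self_of_nhds G
  have hdg : ∀ (m : M) (g : ℂ → ℂ), Φ 0 m = (g : Germ (𝓝[≠] (0 : ℂ)) ℂ) →
      Φ 0 (δ m) = (deriv g : Germ (𝓝[≠] (0 : ℂ)) ℂ) := by
    intro m g hm
    obtain ⟨p, q, hq, hpq⟩ := hfrac m
    have hu : IsUnit (Φ 0 (evi q)) := (isUnit_iff_ne_zero.2 hq).map _
    have h1 := congrArg (Φ 0) hpq
    rw [map_mul, hm, hΦ', hΦ', gev_apply, gev_apply, ← Germ.coe_mul] at h1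
    have h2 : ∀ᶠ w in 𝓝[≠] (0 : ℂ), g w * eval (pr i f w) q = eval (pr i f w) p :=
      Germ.coe_eq.1 h1
    have hq' : q ∉ Rel f i := fun hq' => hq ((hker q).2 hq')
    have h3 : ∀ᶠ w in 𝓝[≠] (0 : ℂ), deriv g w * eval (pr i f w) q =
        eval (pr i f w) (D i p) - g w * eval (pr i f w) (D i q) := by
      filter_upwards [eventually_eventually_nhdsWithin.2 h2, self_mem_nhdsWithin,
        ev_ne h.hol hi hq' 0, ev_chart h.hol hi 0] with w hw hw0 hqw hiw
      rw [isOpen_compl_singleton.nhdsWithin_eq hw0] at hw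
      have hp1 := hode i w p hiw
      have hq1 := hode i w q hiw
      have hg : g =ᶠ[𝓝 w] fun w => eval (pr i f w) p / eval (pr i f w) q := by
        filter_upwards [hw, hq1.continuousAt.eventually_ne hqw] with v hv hqv
        rw [← hv, mul_div_cancel_right₀ _ hqv]
      rw [hg.deriv_eq, (hp1.fun_div hq1 hqw).deriv, hg.eq_of_nhds]
      field_simp
    have h4 := congrArg δ hpq
    rw [Derivation.leibniz, smul_eq_mul, smul_eq_mul, hδi, hδi] at h4
    have h5 := congrArg (Φ 0) h4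
    rw [map_add, map_mul, map_mul, hm, hΦ', hΦ', hΦ'] at h5
    refine hu.mul_left_injective ?_
    change Φ 0 (δ m) * Φ 0 (evi q) = _ * Φ 0 (evi q)
    rw [hΦ']
    have h6 : Φ 0 (δ m) * gev f i 0 q = gev f i 0 (D i p) - (g : Germ (𝓝[≠] (0 : ℂ)) ℂ) *
      gev f i 0 (D i q) := by
      rw [← h5]; ring
    rw [h6, gev_apply, gev_apply, gev_apply, ← Germ.coe_mul, ← Germ.coe_mul, ← Germ.coe_sub]
    refine Germ.coe_eq.2 ?_
    filter_upwards [h3] with w hw
    simp only [Pi.mul_apply, Pi.sub_apply]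
    exact hw.symm
  refine ⟨M, inferInstance, inferInstance, ev, δ, ⟨hkerk, ?_, ?_, ?_, ?_,
    Φ 0, fun k hk G => hev k hk 0 G⟩⟩
  · intro k hk m
    obtain ⟨p, q, hq, hpq⟩ := hfrac m
    obtain ⟨a, p', hp'⟩ := hhom k i hk hi p
    obtain ⟨b, q', hq'⟩ := hhom k i hk hi q
    have hXk := hX k i hk hi
    refine ⟨X (Sum.inl i) ^ b * p', X (Sum.inl i) ^ a * q', ?_, ?_⟩
    · rw [map_mul, map_pow, hq', hevi']
      exact mul_ne_zero (pow_ne_zero _ hXk) (mul_ne_zero (pow_ne_zero _ hXk) hq)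
    · rw [map_mul, map_pow, hq', hevi', map_mul, map_pow, hp', hevi', ← hpq]
      ring
  · intro k hk G
    refine hinj 0 ?_
    rw [hev k hk, gev_apply]
    rw [hdg (ev k G) (fun w => eval (pr k f w) G) (by rw [hev k hk, gev_apply])]
    refine Germ.coe_eq.2 ?_
    filter_upwards [ev_chart h.hol hk 0] with w hw
    exact (hode k w G hw).deriv
  · intro k l hk hl r
    refine hinj 0 ?_
    rw [map_mul, hev k hk, hev l hl, hev k hk, gev_apply, gev_apply, gev_apply, ← Germ.coe_mul]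
    refine Germ.coe_eq.2 ?_
    filter_upwards [ev_chart h.hol hk 0, ev_chart h.hol hl 0] with w h1 h2
    obtain ⟨h3, h4⟩ := pr_cc isOpen_univ h.hol (mem_univ w) h1 h2
    simp only [Pi.mul_apply, eval_X]
    rw [h4, cc_inl, div_mul_cancel₀ _ h3]
  · intro k l hk hl G H hGH z hkz hlz
    have h1 := congrArg (Φ z) hGH
    rw [hev k hk, hev l hl, gev_apply, gev_apply] at h1
    have h2 : (fun w => eval (pr k f w) G) =ᶠ[𝓝[≠] z] fun w => eval (pr l f w) H :=
      Germ.coe_eq.1 h1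
    have h3 : ContinuousAt (fun w => eval (pr k f w) G) z := (hode k z G hkz).continuousAt
    have h4 : ContinuousAt (fun w => eval (pr l f w) H) z := (hode l z H hlz).continuousAt
    have h5 := (h3.tendsto.mono_left nhdsWithin_le_nhds).congr' h2
    exact tendsto_nhds_unique h5 (h4.tendsto.mono_left nhdsWithin_le_nhds)

end field

end Run7.h418.Z
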