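import Pool.Agent.Run7.h418.Alg
import Pool.Agent.Run7.h418.Z.Fld

/-!
Derivations of the field of the curve.
-/

set_option autoImplicit false

open MvPolynomial

namespace Run7.h418.Z

open Pool.Agent.Y190.OP

section alg

variable {N : ℕ} {f : ℂ → Mat N} {D : Fin N → Dr (Fin N ⊕ Fin N)} {C : ℝ} {M : Type} [Field M]
  [Algebra ℂ M] {ev : Fin N → Rn N →ₐ[ℂ] M} {δ : Derivation ℂ M M}

theorem IsFd.fr (hM : IsFd f D ev δ) {k : Fin N} (hk : ∃ z, f z k k ≠ 0) (m : M) :
    ∃ a b : M, a ∈ (ev k).range ∧ b ∈ (ev k).range ∧ b ≠ 0 ∧ m * b = a := by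
  obtain ⟨p, q, hq, hpq⟩ := hM.frac k hk m
  exact ⟨ev k p, ev k q, ⟨p, rfl⟩, ⟨q, rfl⟩, hq, hpq⟩

theorem IsFd.ess (hM : IsFd f D ev δ) {k : Fin N} (hk : ∃ z, f z k k ≠ 0) :
    Algebra.EssFiniteType ℂ M := by
  have h1 : IsFractionRing (ev k).range M := by
    refine IsFractionRing.of_field (ev k).range M fun z => ?_
    obtain ⟨a, b, ha, hb, hb0, hab⟩ := hM.fr hk z
    refine ⟨⟨a, ha⟩, ⟨b, hb⟩, ?_⟩
    change z = a / b
    rw [← hab, mul_div_cancel_right₀ _ hb0]
  have h2 : Algebra.FiniteType ℂ (ev k).range := (Subalgebra.fg_iff_finiteType _).1 (fg_range _)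
  have h3 : Algebra.EssFiniteType (ev k).range M :=
    Algebra.EssFiniteType.of_isLocalization M (nonZeroDivisors (ev k).range)
  exact Algebra.EssFiniteType.comp ℂ (ev k).range M

/-- derivations of the field are induced by polynomial vector fields, up to denominators -/
theorem IsFd.exists_lift (hM : IsFd f D ev δ) {k : Fin N} (hk : ∃ z, f z k k ≠ 0)
    (v : Derivation ℂ M M) : ∃ (q : Rn N) (E : Dr (Fin N ⊕ Fin N)), ev k q ≠ 0 ∧
      ∀ G, ev k (E G) = ev k q * v (ev k G) := by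
  classical
  choose p q hq hpq using fun l => hM.frac k hk (v (ev k (X l)))
  refine ⟨∏ l, q l, mkDerivation ℂ fun l => (∏ l' ∈ Finset.univ.erase l, q l') * p l, ?_,
    fun G => ?_⟩
  · rw [map_prod]
    exact Finset.prod_ne_zero_iff.2 fun l _ => hq l
  · induction G using MvPolynomial.induction_on with
    | C c =>
      rw [← MvPolynomial.algebraMap_eq, Derivation.map_algebraMap, map_zero, AlgHom.commutes,
        Derivation.map_algebraMap, mul_zero]
    | add p q hp hq => rw [map_add, map_add, hp, hq, map_add, map_add, mul_add]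
    | mul_X p' l hp =>
      have h1 : (∏ l' ∈ Finset.univ.erase l, q l') * q l = ∏ l, q l :=
        Finset.prod_erase_mul _ _ (Finset.mem_univ l)
      rw [Derivation.leibniz, mkDerivation_X, map_add, smul_eq_mul, smul_eq_mul, map_mul, map_mul,
        map_mul, hp, map_mul, Derivation.leibniz, smul_eq_mul, smul_eq_mul, ← hpq, ← h1, map_mul]
      ring

end alg

section frame

variable {n : ℕ} {f : ℂ → Mat (n + 1)} {D : Fin (n + 1) → Dr (Fin (n + 1) ⊕ Fin (n + 1))} {C : ℝ}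
  {M : Type} [Field M] [Algebra ℂ M] {ev : Fin (n + 1) → Rn (n + 1) →ₐ[ℂ] M}
  {δ : Derivation ℂ M M}

/-- the relative forms are invariant -/
theorem IsFd.lam_comm (hM : IsFd f D ev δ) {i : Fin (n + 1)} (hi : ∃ z, f z i i ≠ 0)
    {P : Rn (n + 1)} {H : MvPolynomial (Fin (n + 1)) ℂ} (hH : ev i (rename Sum.inl H) ≠ 0)
    (hT : ∀ E : Dr (Fin (n + 1) ⊕ Fin (n + 1)), (∀ G ∈ Rel f i, E G ∈ Rel f i) →
      Tm (D i) (HH H) (th P H) E 1 ∈ Rel f i)
    (v : Derivation ℂ M M) : lam (ev i) P H ⁅δ, v⁆ = δ (lam (ev i) P H v) := by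
  obtain ⟨q, E, hq, hE⟩ := hM.exists_lift hi v
  have hEp : ∀ G ∈ Rel f i, E G ∈ Rel f i := fun G hG =>
    (hM.ker i hi _).1 (by rw [hE, (hM.ker i hi G).2 hG, map_zero, mul_zero])
  have h1 := (hM.ker i hi _).2 (hT E hEp)
  unfold Tm at h1
  have h2 : (Lie (D i))^[1] (th P H) = Lie (D i) (th P H) := rfl
  have h3 : (D i)^[1] (HH H) = D i (HH H) := rfl
  rw [h2, h3, Lie_pair, map_sub, map_mul, map_mul, map_sub, ← hM.der i hi, ← hM.der i hi] at h1
  have hpair : ∀ (E' : Dr (Fin (n + 1) ⊕ Fin (n + 1))), ev i (pairE (th P H) E') =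
      ev i (rename Sum.inl H) * ∑ k, ev i (pderiv (Sum.inr k) P) * ev i (E' (X (Sum.inl k))) := by
    intro E'
    unfold pairE th
    rw [Fintype.sum_sum_type]
    simp only [Sum.elim_inl, Sum.elim_inr, zero_mul, Finset.sum_const_zero, add_zero, map_sum,
      map_mul]
    rw [Finset.mul_sum]
    exact Finset.sum_congr rfl fun k _ => by ring
  have hh : ev i (HH H) = ev i (rename Sum.inl H) ^ 2 := by
    unfold HH
    rw [map_pow]
  have ht : ev i (pairE (th P H) E) = ev i q * (ev i (rename Sum.inl H) ^ 2 *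
      lam (ev i) P H v) := by
    rw [hpair]
    have h4 : ∑ k, ev i (pderiv (Sum.inr k) P) * ev i (E (X (Sum.inl k))) =
        ev i q * ∑ k, ev i (pderiv (Sum.inr k) P) * v (ev i (X (Sum.inl k))) := by
      rw [Finset.mul_sum]
      exact Finset.sum_congr rfl fun k _ => by rw [hE]; ring
    rw [h4, lam_mul _ hH]
    ring
  have ht' : ev i (pairE (th P H) ⁅D i, E⁆) = δ (ev i q) * (ev i (rename Sum.inl H) ^ 2 *
      lam (ev i) P H v) + ev i q * (ev i (rename Sum.inl H) ^ 2 * lam (ev i) P H ⁅δ, v⁆) := by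
    rw [hpair]
    have h4 : ∑ k, ev i (pderiv (Sum.inr k) P) * ev i (⁅D i, E⁆ (X (Sum.inl k))) =
        δ (ev i q) * ∑ k, ev i (pderiv (Sum.inr k) P) * v (ev i (X (Sum.inl k))) +
        ev i q * ∑ k, ev i (pderiv (Sum.inr k) P) * ⁅δ, v⁆ (ev i (X (Sum.inl k))) := by
      rw [Finset.mul_sum, Finset.mul_sum, ← Finset.sum_add_distrib]
      refine Finset.sum_congr rfl fun k _ => ?_
      rw [Derivation.commutator_apply, Derivation.commutator_apply, map_sub, hE, ← hM.der i hi,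
        hE, ← hM.der i hi, Derivation.leibniz, smul_eq_mul, smul_eq_mul]
      ring
    rw [h4, lam_mul _ hH, lam_mul _ hH]
    ring
  rw [ht, ht', hh, Derivation.leibniz, Derivation.leibniz, smul_eq_mul, smul_eq_mul, smul_eq_mul,
    smul_eq_mul] at h1
  have h5 : ev i q * ev i (rename Sum.inl H) ^ 4 *
      (lam (ev i) P H ⁅δ, v⁆ - δ (lam (ev i) P H v)) = 0 := by
    linear_combination -h1
  have h6 := (mul_eq_zero.1 h5).resolve_left (mul_ne_zero hq (pow_ne_zero _ hH))
  exact sub_eq_zero.1 h6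

end frame

end Run7.h418.Z
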