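import Pool.Agent.Run7.h418.Cmp
import Pool.Agent.Run7.h418.Z.Alg

/-!
Vector fields on the space of the curve and its tangent vectors; change of charts; sums of commuting
vector fields.
-/

set_option autoImplicit false

open MvPolynomial Metric Set Filter Topology

namespace Run7.h418.Z

open Pool.Agent.Y190.OP

section cmp

variable {N : ℕ} {f : ℂ → Mat N} {D : Fin N → Dr (Fin N ⊕ Fin N)} {C : ℝ}

variable {M : Type} [Field M] [Algebra ℂ M] {ev : Fin N → Rn N →ₐ[ℂ] M} {δ : Derivation ℂ M M}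

theorem IsFd.X_ne (h : Dat f D C) (hM : IsFd f D ev δ) {k l : Fin N} (hk : ∃ z, f z k k ≠ 0)
    (hl : ∃ z, f z l l ≠ 0) : ev k (X (Sum.inl l)) ≠ 0 := fun h1 =>
  X_notMem h.hol hk hl ((hM.ker k hk _).1 h1)

theorem IsFd.ev_cc (h : Dat f D C) (hM : IsFd f D ev δ) {k l : Fin N} (hk : ∃ z, f z k k ≠ 0)
    (hl : ∃ z, f z l l ≠ 0) (m : Fin N ⊕ Fin N) :
    ev l (X m) * ev k (ccQ l m) = ev k (ccP l m) := by
  have h0 := hM.X_ne h hk hl
  rcases m with r | r
  · exact hM.inl k l hk hl r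
  · have h1 := congrArg δ (hM.inl k l hk hl r)
    have h2 := hM.inl k l hk hl r
    rw [Derivation.leibniz, smul_eq_mul, smul_eq_mul, hM.der l hl, hM.der k hk, hM.der k hk,
      h.Dinl, h.Dinl, h.Dinl] at h1
    simp only [ccP, ccQ, Sum.elim_inr, map_sub, map_mul, map_pow]
    rw [← h1, ← h2]
    ring

/-- homogenisation in the field -/
theorem IsFd.homog (h : Dat f D C) (hM : IsFd f D ev δ) {k l : Fin N} (hk : ∃ z, f z k k ≠ 0)
    (hl : ∃ z, f z l l ≠ 0) (G : Rn N) : ∃ (e : ℕ) (G' : Rn N),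
      (∀ a : Fin N ⊕ Fin N → ℂ, a (Sum.inl l) ≠ 0 →
        eval a G' = a (Sum.inl l) ^ e * eval (cc l a) G) ∧
      ev k G' = ev k (X (Sum.inl l)) ^ e * ev l G := by
  induction G using MvPolynomial.induction_on with
  | C c =>
    refine ⟨0, MvPolynomial.C c, fun a _ => by simp, ?_⟩
    rw [pow_zero, one_mul, ← MvPolynomial.algebraMap_eq, AlgHom.commutes, AlgHom.commutes]
  | add p q hp hq =>
    obtain ⟨e, p', hp', hp2⟩ := hp
    obtain ⟨e', q', hq', hq2⟩ := hq
    refine ⟨e + e', X (Sum.inl l) ^ e' * p' + X (Sum.inl l) ^ e * q', fun a ha => ?_, ?_⟩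
    · simp only [map_add, map_mul, map_pow, eval_X, hp' a ha, hq' a ha, pow_add]
      ring
    · simp only [map_add, map_mul, map_pow, hp2, hq2, pow_add]
      ring
  | mul_X p m hp =>
    obtain ⟨e, p', hp', hp2⟩ := hp
    have h1 := hM.ev_cc h hk hl m
    rcases m with r | r
    · refine ⟨e + 1, p' * X (Sum.inl r), fun a ha => ?_, ?_⟩
      · rw [map_mul, map_mul, eval_X, eval_X, hp' a ha, cc_inl]
        generalize (eval (cc l a)) p = e
        field_simp
        ring
      · simp only [ccP, ccQ, Sum.elim_inl] at h1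
        rw [map_mul, map_mul, hp2, ← h1, pow_succ]
        ring
    · refine ⟨e + 2, p' * (X (Sum.inr r) * X (Sum.inl l) - X (Sum.inl r) * X (Sum.inr l)),
        fun a ha => ?_, ?_⟩
      · rw [map_mul, map_mul, map_sub, map_mul, map_mul, eval_X, eval_X, eval_X, eval_X, eval_X,
          hp' a ha, cc_inr]
        generalize (eval (cc l a)) p = e
        field_simp
        ring
      · simp only [ccP, ccQ, Sum.elim_inr] at h1
        rw [map_mul, map_mul, hp2, ← h1, map_pow]
        ring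

/-- derivations of the field which are regular give compatible vector fields -/
theorem Cmp.of_der (h : Dat f D C) (hM : IsFd f D ev δ) {v : Derivation ℂ M M}
    {V : Fin N → Dr (Fin N ⊕ Fin N)}
    (hV : ∀ k, (∃ z, f z k k ≠ 0) → ∀ G, ev k (V k G) = v (ev k G)) : Cmp f V := by
  refine ⟨fun k G hG => ?_, fun k l a ha hal m => ?_⟩
  · by_cases hk : ∃ z, f z k k ≠ 0
    · rw [← hM.ker k hk, hV k hk, (hM.ker k hk G).2 hG, map_zero]
    · push Not at hk
      exact fun z hz => absurd (hk z) hz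
  · have hk := chart_of_mem ha
    have hl := chart_of_ne h.hol ha hal
    obtain ⟨e, W, hW, hW'⟩ := hM.homog h hk hl (V l (X m))
    have h1 := hM.ev_cc h hk hl m
    have h2 := congrArg v h1
    rw [Derivation.leibniz, smul_eq_mul, smul_eq_mul, ← hV l hl, ← hV k hk, ← hV k hk] at h2
    have h3 : W * ccQ l m ^ 2 - X (Sum.inl l) ^ e * (V k (ccP l m) * ccQ l m -
        ccP l m * V k (ccQ l m)) ∈ Rel f k := by
      rw [← hM.ker k hk]
      simp only [map_sub, map_mul, map_pow]
      rw [hW', ← h1, ← h2]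
      ring
    have h4 := ha _ h3
    simp only [map_sub, map_mul, map_pow, eval_X] at h4
    rw [hW a hal] at h4
    have h5 : a (Sum.inl l) ^ e ≠ 0 := pow_ne_zero _ hal
    have h6 : a (Sum.inl l) ^ e * (eval (cc l a) (V l (X m)) * eval a (ccQ l m) ^ 2 -
        (eval a (V k (ccP l m)) * eval a (ccQ l m) - eval a (ccP l m) *
          eval a (V k (ccQ l m)))) = 0 := by
      linear_combination h4
    exact sub_eq_zero.1 ((mul_eq_zero.1 h6).resolve_left h5)

/-- lifts of regular derivations -/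
theorem IsFd.exists_V (_hM : IsFd f D ev δ) {v : Derivation ℂ M M}
    (hv : ∀ k, (∃ z, f z k k ≠ 0) → ∀ a ∈ (ev k).range, v a ∈ (ev k).range) :
    ∃ V : Fin N → Dr (Fin N ⊕ Fin N), ∀ k, (∃ z, f z k k ≠ 0) → ∀ G,
      ev k (V k G) = v (ev k G) := by
  have h1 : ∀ k, (∃ z, f z k k ≠ 0) → ∀ m, ∃ W : Rn N, ev k W = v (ev k (X m)) :=
    fun k hk m => hv k hk _ ⟨X m, rfl⟩
  choose! W hW using h1
  refine ⟨fun k => mkDerivation ℂ (W k), fun k hk G => ?_⟩
  induction G using MvPolynomial.induction_on with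
  | C c =>
    rw [← MvPolynomial.algebraMap_eq, Derivation.map_algebraMap, map_zero, AlgHom.commutes,
      Derivation.map_algebraMap]
  | add p q hp hq => rw [map_add, map_add, hp, hq, map_add, map_add]
  | mul_X p' l hp =>
    rw [Derivation.leibniz, mkDerivation_X, map_add, smul_eq_mul, smul_eq_mul, map_mul, map_mul,
      map_mul, hp, hW k hk, Derivation.leibniz, smul_eq_mul, smul_eq_mul]

end cmp

section l1

variable {N : ℕ} {f : ℂ → Mat N} {D V : Fin N → Dr (Fin N ⊕ Fin N)} {C B : ℝ}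

/-- flows do not depend on the chart -/
theorem fl_cc (h : Dat f D C) (hV : Cmp f V) {k l : Fin N} (hRk : Rad (V k) B 2)
    (hRl : Rad (V l) B 2) {a : Fin N ⊕ Fin N → ℂ} (ha : a ∈ Vs (Rel f) k) (haB : ‖a‖ ≤ B)
    (hl : a (Sum.inl l) ≠ 0) (hbB : ‖cc l a‖ ≤ B) {z : ℂ} (hz : ‖z‖ < 2) :
    fl (V k) a z (Sum.inl l) ≠ 0 ∧ cc l (fl (V k) a z) = fl (V l) (cc l a) z := by
  have hmem : ∀ z : ℂ, ‖z‖ < 2 → fl (V k) a z ∈ Vs (Rel f) k := fun z hz =>
    fl_mem (hV.pres k) hRk ha haB hz.le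
  have hdα : ∀ z : ℂ, ‖z‖ < 2 → ∀ m, HasDerivAt (fun w => fl (V k) a w m)
      (eval (fl (V k) a z) (V k (X m))) z := fun z hz m => hRk.hasDerivAt_fl haB hz m
  have hdG : ∀ z : ℂ, ‖z‖ < 2 → ∀ G : Rn N, HasDerivAt (fun w => eval (fl (V k) a w) G)
      (eval (fl (V k) a z) (V k G)) z := fun z hz G => hasDerivAt_eval (V k) (hdα z hz) G
  have h0 : fl (V k) a 0 = a := fl_zero _ _
  have hcont : ContinuousAt (fun w => fl (V k) a w (Sum.inl l)) 0 :=
    (hdα 0 (by simp) _).continuousAt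
  have hne : ∀ᶠ w in 𝓝 (0 : ℂ), fl (V k) a w (Sum.inl l) ≠ 0 :=
    hcont.eventually_ne (by rw [h0]; exact hl)
  have hball : ∀ᶠ w in 𝓝 (0 : ℂ), ‖w‖ < 2 := by
    filter_upwards [ball_mem_nhds (0 : ℂ) two_pos] with w hw
    exact mem_ball_zero_iff.1 hw
  have hsol1 : SolAt (V l) (fun w => cc l (fl (V k) a w)) 0 := by
    filter_upwards [hne, hball] with w hw hw2 m
    have h1 := hdG w hw2 (ccP l m)
    have h2 := hdG w hw2 (ccQ l m)
    have h3 := ccQ_ne hw m
    have h4 := h1.fun_div h2 h3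
    have h5 := hV.cmp k l _ (hmem w hw2) hw m
    have h6 : (fun w => cc l (fl (V k) a w) m) = fun w =>
        eval (fl (V k) a w) (ccP l m) / eval (fl (V k) a w) (ccQ l m) := by
      funext w
      exact cc_eq l m _
    have h7 : eval (cc l (fl (V k) a w)) (V l (X m)) = (eval (fl (V k) a w) (V k (ccP l m)) *
        eval (fl (V k) a w) (ccQ l m) - eval (fl (V k) a w) (ccP l m) *
          eval (fl (V k) a w) (V k (ccQ l m))) / eval (fl (V k) a w) (ccQ l m) ^ 2 := by
      rw [eq_div_iff (pow_ne_zero 2 h3), h5]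
    rw [h6]
    change HasDerivAt _ (eval (cc l (fl (V k) a w)) (V l (X m))) w
    rw [h7]
    exact h4
  have hsol2 : SolAt (V l) (fun w => fl (V l) (cc l a) w) 0 := by
    have := hRl.solAt hbB 0 (z := 0) (by simp)
    simpa using this
  have heq := hsol1.eq_of hsol2 (by
    change cc l (fl (V k) a 0) = fl (V l) (cc l a) 0
    rw [h0, fl_zero])
  have hid : ∀ m, ∀ z : ℂ, ‖z‖ < 2 → eval (fl (V k) a z) (ccP l m) =
      fl (V l) (cc l a) z m * eval (fl (V k) a z) (ccQ l m) := by
    intro m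
    have hP : AnalyticOnNhd ℂ (fun z => eval (fl (V k) a z) (ccP l m)) (ball 0 2) := by
      refine DifferentiableOn.analyticOnNhd (fun z hz => ?_) isOpen_ball
      exact (hdG z (mem_ball_zero_iff.1 hz) _).differentiableAt.differentiableWithinAt
    have hQ : AnalyticOnNhd ℂ (fun z => fl (V l) (cc l a) z m * eval (fl (V k) a z) (ccQ l m))
        (ball 0 2) := by
      refine DifferentiableOn.analyticOnNhd (fun z hz => ?_) isOpen_ball
      exact ((hRl.hasDerivAt_fl hbB (mem_ball_zero_iff.1 hz) m).differentiableAt.mul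
        (hdG z (mem_ball_zero_iff.1 hz) _).differentiableAt).differentiableWithinAt
    have h1 := hP.eqOn_of_preconnected_of_eventuallyEq hQ (convex_ball _ _).isPreconnected
      (mem_ball_self two_pos) (by
        filter_upwards [hne, heq] with w hw hw2
        have h2 : cc l (fl (V k) a w) m = fl (V l) (cc l a) w m := congrFun hw2 m
        rw [← h2, cc_eq, div_mul_cancel₀ _ (ccQ_ne hw m)])
    exact fun z hz => h1 (mem_ball_zero_iff.2 hz)
  have hne' : fl (V k) a z (Sum.inl l) ≠ 0 := by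
    intro h1
    have h2 := hid (Sum.inl k) z hz
    have h3 := h.inl k _ (hmem z hz)
    simp only [ccP, ccQ, Sum.elim_inl, eval_X] at h2
    rw [h1, mul_zero, h3] at h2
    exact one_ne_zero h2
  refine ⟨hne', ?_⟩
  funext m
  rw [cc_eq, hid m z hz, mul_div_cancel_right₀ _ (ccQ_ne hne' m)]

end l1

end Run7.h418.Z
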