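import Pool.Agent.Run7.h418.Fam
import Pool.Agent.Run7.h418.Z.Wsp

/-!
Holomorphic families of curves.
-/

set_option autoImplicit false

open Metric Set Filter Topology MvPolynomial

namespace Run7.h418.Z

open Pool.Agent.Y190.OP

variable {N : ℕ}

section fam

variable {f : ℂ → Mat N} {D : Fin N → Dr (Fin N ⊕ Fin N)} {C : ℝ}

/-- propagation of holomorphy -/
theorem Dat.propagate (h : Dat f D C) : ∃ ρ : ℝ, 0 < ρ ∧ ∀ (y : ℂ → ℂ → Mat N) (z0 s0 : ℂ)
    (k : Fin N), (∀ᶠ s in 𝓝 s0, Sol (Vs (Rel f)) univ (y s)) →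
    (∀ᶠ s in 𝓝 s0, y s z0 k k ≠ 0 ∧ DifferentiableAt ℂ (fun s => pr k (y s) z0) s) →
    ∀ z ∈ ball z0 ρ, ∀ i, y s0 z i i ≠ 0 → Good y z s0 i := by
  obtain ⟨ρ, hρ, hR⟩ := h.radii
  refine ⟨ρ, hρ, fun y z0 s0 k hy hk z hz i hi => ?_⟩
  have hy0 := hy.self_of_nhds
  obtain ⟨hk0, hd0⟩ := hk.self_of_nhds
  obtain ⟨k', hk', hk'V, hk'K⟩ := h.exists_Kc (hy0.2 z0 (mem_univ z0) k hk0)
  obtain ⟨B, hB, hBa⟩ := hR k' _ hk'V hk'K
  set st : ℂ → Fin N ⊕ Fin N → ℂ := fun s => cc k' (pr k (y s) z0) with hst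
  have hc : ContinuousAt (fun s => pr k (y s) z0 (Sum.inl k')) s0 :=
    (differentiableAt_pi.1 hd0 (Sum.inl k')).continuousAt
  have hstd0 : DifferentiableAt ℂ st s0 := diff_cc hd0 hk'
  have hev : ∀ᶠ s in 𝓝 s0, Sol (Vs (Rel f)) univ (y s) ∧ y s z0 k' k' ≠ 0 ∧
      pr k' (y s) z0 = st s ∧ DifferentiableAt ℂ st s ∧ ‖st s‖ < B ∧ st s ∈ Vs (Rel f) k' := by
    filter_upwards [hy, hk, hc.eventually_ne hk', hstd0.continuousAt.norm.eventually_lt_const hBa]
      with s h1 h2 h3 h4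
    have h5 := diag_of_inl (h1.1.mem_PM (mem_univ z0)) h2.1 h3
    have h6 := (pr_cc isOpen_univ h1.1 (mem_univ z0) h2.1 h5).2
    have h7 := h1.2 z0 (mem_univ z0) k' h5
    rw [h6] at h7
    exact ⟨h1, h5, h6, diff_cc h2.2 h3, h4, h7⟩
  obtain ⟨V, hVs, hV, hsV⟩ := _root_.mem_nhds_iff.1 hev
  have key : ∀ s ∈ V, ∀ w ∈ ball z0 ρ, y s w k' k' ≠ 0 ∧
      pr k' (y s) w = fl (D k') (st s) (w - z0) := by
    intro s hs
    obtain ⟨h1, h2, h3, h4, h5, h6⟩ := hVs hs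
    obtain ⟨h7, h8⟩ := h.chart_sol (U := ball z0 ρ) isOpen_ball (i := k')
      (γ := fun z => fl (D k') (st s) (z - z0)) (fun z hz => by
        refine fl_mem (fun G hG => h.stab hG) hB h6 h5.le ?_
        exact (mem_ball_iff_norm.1 hz).le) (fun z hz l =>
        (hB.hasDerivAt_fl h5.le (mem_ball_iff_norm.1 hz) l).comp_sub_const z z0)
    obtain ⟨h9, h10⟩ := h8 z0 (mem_ball_self hρ)
    have h11 := h.unique isOpen_univ isOpen_ball h1 h7 (mem_univ z0) (mem_ball_self hρ) h2 h9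
      (by rw [h3, h10, sub_self, fl_zero])
    have h12 := h.eqOn isOpen_univ isOpen_ball convex_univ (convex_ball _ _) h1 h7 (mem_univ z0)
      (mem_ball_self hρ) h11
    intro w hw
    have h13 : y s =ᶠ[𝓝 w] fun z => Phi (fl (D k') (st s) (z - z0) ∘ Sum.inl) := by
      filter_upwards [isOpen_ball.mem_nhds hw] with x hx
      exact h12 ⟨mem_univ x, hx⟩
    obtain ⟨h14, h15⟩ := h8 w hw
    refine ⟨?_, ?_⟩
    · rw [h13.eq_of_nhds]
      exact h14
    · rw [pr_congr h13, h15]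
  have hgood : Good y z s0 k' := by
    have hO : (ball z0 ρ ×ˢ V : Set (ℂ × ℂ)) ∈ 𝓝 (z, s0) :=
      (isOpen_ball.prod hV).mem_nhds ⟨hz, hsV⟩
    have hO' : ∀ᶠ p : ℂ × ℂ in 𝓝 (z, s0), ∀ᶠ q in 𝓝 p, q ∈ ball z0 ρ ×ˢ V :=
      Filter.Eventually.eventually_nhds hO
    filter_upwards [hO'] with p hp
    have hp0 := hp.self_of_nhds
    refine ⟨(key p.2 hp0.2 p.1 hp0.1).1, ?_⟩
    have h1 : (fun p : ℂ × ℂ => pr k' (y p.2) p.1) =ᶠ[𝓝 p] fun p =>
        fl (D k') (st p.2) (p.1 - z0) := by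
      filter_upwards [hp] with q hq
      exact (key q.2 hq.2 q.1 hq.1).2
    refine DifferentiableAt.congr_of_eventuallyEq ?_ h1
    obtain ⟨-, -, -, h4, h5, -⟩ := hVs hp0.2
    have h6 := hB.diff_fl h5 (mem_ball_iff_norm.1 hp0.1)
    have h7 : DifferentiableAt ℂ (fun q : ℂ × ℂ => (st q.2, q.1 - z0)) p := by
      refine DifferentiableAt.prodMk ?_ (by fun_prop)
      exact h4.comp p differentiableAt_snd
    exact DifferentiableAt.comp (g := fun q : (Fin N ⊕ Fin N → ℂ) × ℂ => fl (D k') q.1 q.2)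
      (f := fun q : ℂ × ℂ => (st q.2, q.1 - z0)) p h6 h7
  exact hgood.change (hy.mono fun s hs => hs.1) hi

theorem Dat.good_all (h : Dat f D C) {y : ℂ → ℂ → Mat N} {s0 : ℂ} {k : Fin N}
    (hy : ∀ᶠ s in 𝓝 s0, Sol (Vs (Rel f)) univ (y s))
    (hk : ∀ᶠ s in 𝓝 s0, y s 0 k k ≠ 0 ∧ DifferentiableAt ℂ (fun s => pr k (y s) 0) s) (z : ℂ)
    (i : Fin N) (hi : y s0 z i i ≠ 0) : Good y z s0 i := by
  obtain ⟨ρ, hρ, hprop⟩ := h.propagate
  have hstep : ∀ n : ℕ, ∀ z ∈ ball (0 : ℂ) (ρ * (n + 1) / 2), ∀ i, y s0 z i i ≠ 0 →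
      Good y z s0 i := by
    intro n
    induction n with
    | zero =>
      intro z hz i hi
      refine hprop y 0 s0 k hy hk z (ball_subset_ball ?_ hz) i hi
      push_cast
      linarith
    | succ n ih =>
      intro z hz i hi
      set q : ℝ := ((n : ℝ) + 1) / (n + 2) with hq
      have hq0 : 0 < q := by positivity
      have hq1 : q < 1 := by
        rw [hq, div_lt_one (by positivity)]
        linarith
      set z' : ℂ := (q : ℂ) * z with hz'
      rw [mem_ball_zero_iff] at hz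
      have hz'n : z' ∈ ball (0 : ℂ) (ρ * (n + 1) / 2) := by
        rw [mem_ball_zero_iff, hz', norm_mul, Complex.norm_real, Real.norm_of_nonneg hq0.le]
        calc q * ‖z‖ < q * (ρ * ((n + 1 : ℕ) + 1) / 2) := mul_lt_mul_of_pos_left hz hq0
          _ = ρ * (n + 1) / 2 := by
              rw [hq]
              push_cast
              field_simp
              ring
      have hzz' : z ∈ ball z' ρ := by
        rw [mem_ball_iff_norm, hz']
        have h1 : z - (q : ℂ) * z = ((1 - q : ℝ) : ℂ) * z := by push_cast; ring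
        rw [h1, norm_mul, Complex.norm_real, Real.norm_of_nonneg (by linarith)]
        calc (1 - q) * ‖z‖ < (1 - q) * (ρ * ((n + 1 : ℕ) + 1) / 2) :=
              mul_lt_mul_of_pos_left hz (by linarith)
          _ = ρ / 2 := by
              rw [hq]
              push_cast
              field_simp
              ring
          _ < ρ := by linarith
      obtain ⟨k', hk'⟩ := PM.exists_diag (hy.self_of_nhds.1.mem_PM (mem_univ z'))
      have h2 := ih z' hz'n k' hk'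
      refine hprop y z' s0 k' hy ?_ z hzz' i hi
      have h3 := eventually_slice2 h2
      filter_upwards [h3] with s hs
      refine ⟨hs.1, ?_⟩
      have h4 : DifferentiableAt ℂ (fun t : ℂ => (z', t)) s := by fun_prop
      exact DifferentiableAt.comp (g := fun p : ℂ × ℂ => pr k' (y p.2) p.1)
        (f := fun t : ℂ => (z', t)) s hs.2 h4
  obtain ⟨n, hn⟩ := exists_nat_gt (2 * ‖z‖ / ρ)
  refine hstep n z ?_ i hi
  rw [mem_ball_zero_iff]
  rw [div_lt_iff₀ hρ] at hn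
  have : ρ * (n + 1) / 2 = (n * ρ) / 2 + ρ / 2 := by ring
  rw [this]
  linarith

/-- the family of curves defined by a vector field on the space of relations -/
theorem Dat.exists_family (h : Dat f D C) {i : Fin N} {φ : ℂ → Mat N}
    (hφ : Sol (Vs (Rel f)) univ φ) (hi : φ 0 i i ≠ 0) {E : Dr (Fin N ⊕ Fin N)}
    (hE : ∀ G ∈ Rel f i, E G ∈ Rel f i) {B ρ : ℝ} (hR : Rad E B ρ) (hB : ‖pr i φ 0‖ < B) :
    ∃ y : ℂ → ℂ → Mat N, y 0 = φ ∧ (∀ s ∈ ball (0 : ℂ) ρ, Sol (Vs (Rel f)) univ (y s) ∧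
      y s 0 i i ≠ 0 ∧ pr i (y s) 0 = fl E (pr i φ 0) s) ∧
      ∀ s ∈ ball (0 : ℂ) ρ, ∀ z k, y s z k k ≠ 0 → Good y z s k := by
  have h1 : ∀ s : ℂ, ∃ ψ : ℂ → Mat N, s ∈ ball (0 : ℂ) ρ → Sol (Vs (Rel f)) univ ψ ∧
      ψ 0 i i ≠ 0 ∧ pr i ψ 0 = fl E (pr i φ 0) s := by
    intro s
    by_cases hs : s ∈ ball (0 : ℂ) ρ
    · have h2 : fl E (pr i φ 0) s ∈ Vs (Rel f) i :=
        fl_mem hE hR (hφ.2 0 (mem_univ 0) i hi) hB.le (mem_ball_zero_iff.1 hs).le
      obtain ⟨ψ, h3, h4, h5⟩ := h.exists_sol h2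
      exact ⟨ψ, fun _ => ⟨h3, h4, h5⟩⟩
    · exact ⟨φ, fun h => absurd h hs⟩
  choose y hy using h1
  have h0 : (0 : ℂ) ∈ ball (0 : ℂ) ρ := mem_ball_self hR.pos
  refine ⟨y, ?_, hy, fun s hs z k hk => ?_⟩
  · obtain ⟨h3, h4, h5⟩ := hy 0 h0
    have h6 := h.unique isOpen_univ isOpen_univ h3 hφ (mem_univ 0) (mem_univ 0) h4 hi
      (by rw [h5, fl_zero])
    funext z
    have h7 := h.eqOn isOpen_univ isOpen_univ convex_univ convex_univ h3 hφ (mem_univ 0)
      (mem_univ 0) h6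
    exact h7 ⟨mem_univ z, mem_univ z⟩
  · refine h.good_all (k := i) ?_ ?_ z k hk
    · filter_upwards [isOpen_ball.mem_nhds hs] with t ht
      exact (hy t ht).1
    · have h3 : ∀ᶠ t in 𝓝 s, ∀ᶠ t' in 𝓝 t, t' ∈ ball (0 : ℂ) ρ :=
        Filter.Eventually.eventually_nhds (isOpen_ball.mem_nhds hs)
      filter_upwards [h3] with t ht
      have ht0 := ht.self_of_nhds
      refine ⟨(hy t ht0).2.1, ?_⟩
      have h4 : (fun s => pr i (y s) 0) =ᶠ[𝓝 t] fun s => fl E (pr i φ 0) s := by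
        filter_upwards [ht] with t' ht'
        exact (hy t' ht').2.2
      refine DifferentiableAt.congr_of_eventuallyEq ?_ h4
      exact differentiableAt_pi.2 fun l =>
        (hR.hasDerivAt_fl hB.le (mem_ball_zero_iff.1 ht0) l).differentiableAt

end fam

end Run7.h418.Z
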