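import Pool.Agent.Run7.h418.Act
import Pool.Agent.Run7.h418.Z.Cmp
import Pool.Agent.Run7.h418.Z.Fam

/-!
Actions of vector groups on the space of curves.
-/

set_option autoImplicit false

open MvPolynomial Metric Set Filter Topology

namespace Run7.h418.Z

open Pool.Agent.Y190.OP

section loc

end loc

section act

variable {N : ℕ} {f : ℂ → Mat N} {D : Fin N → Dr (Fin N ⊕ Fin N)} {C : ℝ}

theorem Ws.ext' (h : Dat f D C) {φ ψ : Ws f} {k : Fin N} (hk : φ.1 0 k k ≠ 0)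
    (hk' : ψ.1 0 k k ≠ 0) (he : pr k φ.1 0 = pr k ψ.1 0) : φ = ψ := by
  apply Subtype.ext
  have h1 := h.unique isOpen_univ isOpen_univ φ.2 ψ.2 (mem_univ 0) (mem_univ 0) hk hk' he
  funext z
  exact holP_eqOn isOpen_univ isPreconnected_univ φ.2.1 ψ.2.1 (mem_univ 0) h1 (mem_univ z)

theorem Ws.norm_le (h : Dat f D C) (φ : Ws f) {k : Fin N} (hk : φ.1 0 k k ≠ 0)
    (hK : chart k (φ.1 0) ∈ Kc k) : ‖pr k φ.1 0‖ ≤ max 1 C := by
  rw [pi_norm_le_iff_of_nonneg (by positivity)]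
  have h1 := φ.2.2 0 (mem_univ 0) k hk
  rintro (l | l)
  · exact (norm_le_pi_norm (pr k φ.1 0 ∘ Sum.inl) l).trans (hK.2.trans (le_max_left _ _))
  · exact (norm_le_pi_norm (pr k φ.1 0 ∘ Sum.inr) l).trans
      ((h.bd _ _ h1 hK).trans (le_max_right _ _))

theorem exists_step (h : Dat f D C) {V : Fin N → Dr (Fin N ⊕ Fin N)} (hV : Cmp f V)
    (hS : Sm C V) (φ : Ws f) : ∃ ψ : Ws f, ∀ k, φ.1 0 k k ≠ 0 → ‖pr k φ.1 0‖ ≤ max 1 C + 1 →
      ψ.1 0 k k ≠ 0 ∧ pr k ψ.1 0 = fl (V k) (pr k φ.1 0) 1 := by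
  obtain ⟨i, hi, hiK⟩ := exists_max (φ.2.1.mem_PM (mem_univ (0 : ℂ)))
  have haB := Ws.norm_le h φ hi hiK
  have ha : pr i φ.1 0 ∈ Vs (Rel f) i := φ.2.2 0 (mem_univ 0) i hi
  have hb : fl (V i) (pr i φ.1 0) 1 ∈ Vs (Rel f) i :=
    fl_mem (hV.pres i) (hS i) ha (by linarith) (by simp)
  obtain ⟨ψ, hψ, hψi, hψb⟩ := h.exists_sol hb
  refine ⟨⟨ψ, hψ⟩, fun k hk hkB => ?_⟩
  obtain ⟨h1, h2⟩ := pr_cc isOpen_univ φ.2.1 (mem_univ 0) hi hk
  rw [h2] at hkB ⊢
  obtain ⟨h3, h4⟩ := fl_cc h hV (hS i) (hS k) ha (by linarith) h1 hkB (z := 1) (by simp)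
  rw [← hψb] at h3
  have h5 : ψ 0 k k ≠ 0 := diag_of_inl (hψ.1.mem_PM (mem_univ 0)) hψi h3
  refine ⟨h5, ?_⟩
  change pr k ψ 0 = _
  rw [(pr_cc isOpen_univ hψ.1 (mem_univ 0) hψi h5).2, hψb, h4]

open Classical in
/-- the time-one flow of a small vector field -/
noncomputable def stp (h : Dat f D C) (V : Fin N → Dr (Fin N ⊕ Fin N)) (φ : Ws f) : Ws f :=
  if hh : Cmp f V ∧ Sm C V then (exists_step h hh.1 hh.2 φ).choose else φ

theorem stp_spec (h : Dat f D C) {V : Fin N → Dr (Fin N ⊕ Fin N)} (hV : Cmp f V)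
    (hS : Sm C V) (φ : Ws f) {k : Fin N} (hk : φ.1 0 k k ≠ 0) (hkB : ‖pr k φ.1 0‖ ≤ max 1 C + 1) :
    (stp h V φ).1 0 k k ≠ 0 ∧ pr k (stp h V φ).1 0 = fl (V k) (pr k φ.1 0) 1 := by
  have hh : Cmp f V ∧ Sm C V := ⟨hV, hS⟩
  unfold stp
  rw [dif_pos hh]
  exact (exists_step h hh.1 hh.2 φ).choose_spec k hk hkB

theorem stp_add (h : Dat f D C) {V V' : Fin N → Dr (Fin N ⊕ Fin N)} (hV : Cmp f V)
    (hV' : Cmp f V') (hS : Sm C V) (hS' : Sm C V') (hSS : Sm C (V + V'))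
    (hc : ∀ k G, ⁅V k, V' k⁆ G ∈ Rel f k) (φ : Ws f) :
    stp h (V + V') φ = stp h V (stp h V' φ) := by
  obtain ⟨i, hi, hiK⟩ := exists_max (φ.2.1.mem_PM (mem_univ (0 : ℂ)))
  have haB := Ws.norm_le h φ hi hiK
  have ha : pr i φ.1 0 ∈ Vs (Rel f) i := φ.2.2 0 (mem_univ 0) i hi
  obtain ⟨h1, h2⟩ := stp_spec h hV' hS' φ hi (by linarith)
  have h3 : ‖pr i (stp h V' φ).1 0‖ ≤ max 1 C + 1 := by
    rw [h2]
    have h4 := (hS' i).norm_fl (a := pr i φ.1 0) (by linarith) (z := 1) (by simp)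
    have h5 := norm_le_norm_add_norm_sub' (fl (V' i) (pr i φ.1 0) 1) (pr i φ.1 0)
    linarith
  obtain ⟨h4, h5⟩ := stp_spec h hV hS (stp h V' φ) h1 h3
  obtain ⟨h6, h7⟩ := stp_spec h (hV.add hV') hSS φ hi (by linarith)
  refine Ws.ext' h h6 h4 ?_
  rw [h7, h5, h2]
  exact (flow_add (hV.pres i) (hV'.pres i) (hc i) (by positivity) (hS i) (hS' i) ha haB).symm

theorem stp_zero (h : Dat f D C) (hS : Sm C (0 : Fin N → Dr (Fin N ⊕ Fin N))) (φ : Ws f) :
    stp h 0 φ = φ := by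
  obtain ⟨i, hi, hiK⟩ := exists_max (φ.2.1.mem_PM (mem_univ (0 : ℂ)))
  have haB := Ws.norm_le h φ hi hiK
  obtain ⟨h1, h2⟩ := stp_spec h Cmp.zero hS φ hi (by linarith)
  refine Ws.ext' h h1 hi ?_
  rw [h2]
  funext l
  change gs _ _ _ _ = _
  unfold gs
  rw [tsum_eq_single 0]
  · simp [cf_zero]
  · intro k hk
    obtain ⟨j, rfl⟩ := Nat.exists_eq_succ_of_ne_zero hk
    unfold cf
    rw [Nat.succ_eq_add_one, Function.iterate_succ_apply']
    simp

/-- **The action of a vector group on the space of curves.** -/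
theorem exists_act (h : Dat f D C) {q : ℕ} {V : Fin q → Fin N → Dr (Fin N ⊕ Fin N)}
    (hV : ∀ b, Cmp f (V b)) (hc : ∀ b b' k G, ⁅V b k, V b' k⁆ G ∈ Rel f k) :
    ∃ (act : (Fin q → ℂ) → Ws f → Ws f) (ε : ℝ), 0 < ε ∧
      (∀ t t' φ, act (t + t') φ = act t (act t' φ)) ∧
      (∀ t : Fin q → ℂ, ‖t‖ ≤ ε → Sm C (∑ b, t b • V b)) ∧
      ∀ t : Fin q → ℂ, ‖t‖ ≤ ε → ∀ φ, act t φ = stp h (∑ b, t b • V b) φ := by
  obtain ⟨ε, hε, hsm⟩ := exists_small C V
  have hz : (∑ b, (0 : Fin q → ℂ) b • V b) = 0 := by simp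
  have hcomm : ∀ (t t' : Fin q → ℂ) k G, ⁅(∑ b, t b • V b) k, (∑ b, t' b • V b) k⁆ G ∈
      Rel f k := by
    intro t t' k G
    have e1 : ∀ (s : Fin q → ℂ) (H : Rn N), (∑ b, s b • V b) k H = ∑ b, MvPolynomial.C (s b) * V b k H := by
      intro s H
      rw [Finset.sum_apply, dsum_apply]
      refine Finset.sum_congr rfl fun b _ => ?_
      rw [Pi.smul_apply, Derivation.smul_apply, MvPolynomial.smul_eq_C_mul]
    have e2 : ∀ (W : Dr (Fin N ⊕ Fin N)) (c : ℂ) (H : Rn N), W (MvPolynomial.C c * H) = MvPolynomial.C c * W H := by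
      intro W c H
      rw [← MvPolynomial.smul_eq_C_mul, Derivation.map_smul, MvPolynomial.smul_eq_C_mul]
    have e3 : ⁅(∑ b, t b • V b) k, (∑ b, t' b • V b) k⁆ G =
        ∑ b, ∑ b', MvPolynomial.C (t b) * (MvPolynomial.C (t' b') * ⁅V b k, V b' k⁆ G) := by
      rw [Derivation.commutator_apply, e1 t' G, e1 t G, map_sum, map_sum]
      have e4 : ∀ x, (∑ b, t b • V b) k (MvPolynomial.C (t' x) * V x k G) =
          ∑ b, MvPolynomial.C (t b) * (MvPolynomial.C (t' x) * V b k (V x k G)) := by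
        intro x
        rw [e2, e1, Finset.mul_sum]
        exact Finset.sum_congr rfl fun b _ => by ring
      have e5 : ∀ x, (∑ b, t' b • V b) k (MvPolynomial.C (t x) * V x k G) =
          ∑ b, MvPolynomial.C (t x) * (MvPolynomial.C (t' b) * V b k (V x k G)) := by
        intro x
        rw [e2, e1, Finset.mul_sum]
      rw [Finset.sum_congr rfl fun x _ => e4 x, Finset.sum_congr rfl fun x _ => e5 x,
        Finset.sum_comm, ← Finset.sum_sub_distrib]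
      refine Finset.sum_congr rfl fun b _ => ?_
      rw [← Finset.sum_sub_distrib]
      refine Finset.sum_congr rfl fun b' _ => ?_
      rw [Derivation.commutator_apply]
      ring
    rw [e3]
    exact Ideal.sum_mem _ fun b _ => Ideal.sum_mem _ fun b' _ =>
      Ideal.mul_mem_left _ _ (Ideal.mul_mem_left _ _ (hc _ _ k G))
  obtain ⟨act, h1, h2⟩ := exists_action (E := Fin q → ℂ)
    (st := fun t φ => stp h (∑ b, t b • V b) φ) hε
    (fun φ => by
      simp only [hz]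
      refine stp_zero h ?_ φ
      rw [← hz]
      exact hsm 0 (by simpa using hε.le))
    (fun t t' ht ht' htt φ => by
      have h3 : (∑ b, (t + t') b • V b) = (∑ b, t b • V b) + ∑ b, t' b • V b := by
        rw [← Finset.sum_add_distrib]
        exact Finset.sum_congr rfl fun b _ => by rw [Pi.add_apply, add_smul]
      simp only [h3]
      refine stp_add h (Cmp.sum hV t) (Cmp.sum hV t') (hsm t ht) (hsm t' ht') ?_
        (fun k G => hcomm t t' k G) φ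
      rw [← h3]
      exact hsm _ htt)
  exact ⟨act, ε, hε, h1, hsm, h2⟩

end act

end Run7.h418.Z
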