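import Pool.Agent.Run7.h418.Avg3
import Pool.Agent.Run7.h418.Z.Wsp

/-!
The maximum principle for the growth of the curves of a family, II.
-/

set_option autoImplicit false

open Metric Set Filter Topology Real

namespace Run7.h418.Z

open Pool.Agent.Y190.OP

variable {N : ℕ}

attribute [local irreducible] dn nl an

open Classical in
/-- a curve with the largest growth -/
theorem Dat.exists_Tr {f : ℂ → Mat N} {D : Fin N → Dr (Fin N ⊕ Fin N)} {C : ℝ} (h : Dat f D C)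
    {r : ℝ} (hr : 0 < r) : ∃ φ, Sol (Vs (Rel f)) univ φ ∧
      ∀ ψ, Sol (Vs (Rel f)) univ ψ → Tr r ψ ≤ Tr r φ := by
  set A : Set ℝ := {t | ∃ φ, Sol (Vs (Rel f)) univ φ ∧ t = Tr r φ} with hA
  have hne : A.Nonempty := ⟨_, f, sol_self h.hol, rfl⟩
  set 𝓤 : Ultrafilter ℕ := hyperfilter ℕ with h𝓤
  have h𝓤t : (𝓤 : Filter ℕ) ≤ atTop := by
    rw [← Nat.cofinite_eq_atTop]
    exact hyperfilter_le_cofinite
  have hbdd : BddAbove A := by
    by_contra hcon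
    have h1 : ∀ k : ℕ, ∃ φ, Sol (Vs (Rel f)) univ φ ∧ (k : ℝ) < Tr r φ := by
      intro k
      rw [not_bddAbove_iff] at hcon
      obtain ⟨t, ⟨φ, hφ, rfl⟩, hk⟩ := hcon k
      exact ⟨φ, hφ, hk⟩
    choose φ hφ hφk using h1
    obtain ⟨ψ, hψ, hc⟩ := h.compact (𝓤 := 𝓤) hφ
    have h2 := Tr_tendsto hr (fun k => (hφ k).1) hψ.1 hc
    have h3 : ∀ᶠ k : ℕ in (𝓤 : Filter ℕ), Tr r ψ + 1 ≤ k :=
      h𝓤t (tendsto_natCast_atTop_atTop.eventually_ge_atTop _)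
    have h4 := h2.eventually_lt_const (lt_add_one (Tr r ψ))
    obtain ⟨k, hk1, hk2⟩ := (h3.and h4).exists
    linarith [hφk k]
  have h1 : ∀ k : ℕ, ∃ φ, Sol (Vs (Rel f)) univ φ ∧ sSup A - 1 / ((k : ℝ) + 1) < Tr r φ := by
    intro k
    obtain ⟨t, ⟨φ, hφ, rfl⟩, ht⟩ := exists_lt_of_lt_csSup hne
      (show sSup A - 1 / ((k : ℝ) + 1) < sSup A by
        have : 0 < 1 / ((k : ℝ) + 1) := by positivity
        linarith)
    exact ⟨φ, hφ, ht⟩
  choose φ hφ hφk using h1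
  obtain ⟨ψ, hψ, hc⟩ := h.compact (𝓤 := 𝓤) hφ
  have h2 := Tr_tendsto hr (fun k => (hφ k).1) hψ.1 hc
  have h3 : Tendsto (fun k : ℕ => sSup A - 1 / ((k : ℝ) + 1)) 𝓤 (𝓝 (sSup A)) := by
    have h4 := tendsto_one_div_add_atTop_nhds_zero_nat (𝕜 := ℝ)
    have h5 := (tendsto_const_nhds (x := sSup A)).sub (h4.mono_left h𝓤t)
    rwa [sub_zero] at h5
  have h4 : sSup A ≤ Tr r ψ := le_of_tendsto_of_tendsto h3 h2
    (Eventually.of_forall fun k => (hφk k).le)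
  exact ⟨ψ, hψ, fun φ' hφ' => (le_csSup hbdd ⟨φ', hφ', rfl⟩).trans h4⟩

end Run7.h418.Z
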