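import Pool.Agent.Run7.h418.Z.Fm
import Mathlib.Analysis.Complex.HasPrimitives

/-!
Analytic curves in the space of curves, and the maximum principle on them.
-/

set_option autoImplicit false

open Metric Set Filter Topology MvPolynomial

namespace Run7.h418.Z

open Pool.Agent.Y190.OP

/-- a bound for the roots of a monic polynomial -/
theorem root_bound {d : ℕ} {c : Fin d → ℂ} {M : ℝ} (hM : 0 ≤ M) (hc : ∀ j, ‖c j‖ ≤ M) {z : ℂ}
    (hz : z ^ d + ∑ j, c j * z ^ (j : ℕ) = 0) : ‖z‖ ≤ 1 + d * M := by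
  by_contra hcon
  push Not at hcon
  have hd0 : (0 : ℝ) ≤ d * M := by positivity
  have h1 : 1 < ‖z‖ := by linarith
  rcases Nat.eq_zero_or_pos d with rfl | hd
  · simp at hz
  have h2 : ‖z‖ ^ d ≤ ∑ j : Fin d, M * ‖z‖ ^ (d - 1) := by
    have h3 : z ^ d = -∑ j, c j * z ^ (j : ℕ) := eq_neg_of_add_eq_zero_left hz
    rw [← norm_pow, h3, norm_neg]
    refine (norm_sum_le _ _).trans (Finset.sum_le_sum fun j _ => ?_)
    rw [norm_mul, norm_pow]
    have h4 : ‖z‖ ^ (j : ℕ) ≤ ‖z‖ ^ (d - 1) := pow_le_pow_right₀ h1.le (by omega)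
    have := hc j
    gcongr
  rw [Finset.sum_const, Finset.card_univ, Fintype.card_fin, nsmul_eq_mul] at h2
  have h3 : ‖z‖ ^ d = ‖z‖ * ‖z‖ ^ (d - 1) := by
    rw [← pow_succ']
    congr 1
    omega
  rw [h3, ← mul_assoc] at h2
  have h4 : 0 < ‖z‖ ^ (d - 1) := by positivity
  have h5 := le_of_mul_le_mul_right h2 h4
  linarith

/-- circles which avoid the zeros of a polynomial -/
theorem exists_circle {w : ℕ} {g : MvPolynomial (Fin w) ℂ} {x1 : Fin w → ℂ}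
    (hg : eval x1 g ≠ 0) (R : ℝ) : ∃ c > 0, ∀ x0 ∈ closedBall (0 : Fin w → ℂ) R,
      ∃ ρ : ℝ, 1 ≤ ρ ∧ ρ ≤ 2 ∧ ∀ τ : ℂ, ‖τ‖ = ρ → c ≤ ‖eval (x0 + τ • (x1 - x0)) g‖ := by
  refine (isCompact_closedBall (0 : Fin w → ℂ) R).induction_on (p := fun S => ∃ c > 0, ∀ x0 ∈ S,
    ∃ ρ : ℝ, 1 ≤ ρ ∧ ρ ≤ 2 ∧ ∀ τ : ℂ, ‖τ‖ = ρ → c ≤ ‖eval (x0 + τ • (x1 - x0)) g‖) ?_ ?_ ?_ ?_
  · exact ⟨1, one_pos, fun x0 h => absurd h (notMem_empty _)⟩
  · rintro s t hst ⟨c, hc, h⟩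
    exact ⟨c, hc, fun x0 hx0 => h x0 (hst hx0)⟩
  · rintro s t ⟨c, hc, h⟩ ⟨c', hc', h'⟩
    refine ⟨min c c', lt_min hc hc', ?_⟩
    rintro x0 (hx0 | hx0)
    · obtain ⟨ρ, h1, h2, h3⟩ := h x0 hx0
      exact ⟨ρ, h1, h2, fun τ hτ => (min_le_left _ _).trans (h3 τ hτ)⟩
    · obtain ⟨ρ, h1, h2, h3⟩ := h' x0 hx0
      exact ⟨ρ, h1, h2, fun τ hτ => (min_le_right _ _).trans (h3 τ hτ)⟩
  · intro x0 _
    -- the polynomial in one variable
    let P : Polynomial ℂ := aeval (fun t => Polynomial.C (x0 t) +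
      Polynomial.X * Polynomial.C (x1 t - x0 t)) g
    have hP : ∀ τ : ℂ, P.eval τ = eval (x0 + τ • (x1 - x0)) g := by
      intro τ
      have h1 : ((Polynomial.evalRingHom τ).comp (aeval (fun t => Polynomial.C (x0 t) +
          Polynomial.X * Polynomial.C (x1 t - x0 t)) :
            MvPolynomial (Fin w) ℂ →ₐ[ℂ] Polynomial ℂ).toRingHom) =
          (eval (x0 + τ • (x1 - x0)) : MvPolynomial (Fin w) ℂ →+* ℂ) := by
        apply MvPolynomial.ringHom_ext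
        · intro c
          simp
        · intro t
          simp
      exact congrArg (fun φ : MvPolynomial (Fin w) ℂ →+* ℂ => φ g) h1
    have hP0 : P ≠ 0 := by
      intro h0
      have h1 := hP 1
      rw [h0, Polynomial.eval_zero, one_smul, add_sub_cancel] at h1
      exact hg h1.symm
    have hfin : ((fun τ : ℂ => ‖τ‖) '' {τ | P.IsRoot τ}).Finite :=
      (Polynomial.finite_setOf_isRoot hP0).image _
    obtain ⟨ρ, ⟨hρ1, hρ2⟩, hρ⟩ : ∃ ρ ∈ Icc (1 : ℝ) 2, ρ ∉ (fun τ : ℂ => ‖τ‖) '' {τ | P.IsRoot τ} :=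
      (Icc_infinite (by norm_num : (1 : ℝ) < 2)).exists_notMem_finite hfin
    have hne : ∀ τ : ℂ, ‖τ‖ = ρ → eval (x0 + τ • (x1 - x0)) g ≠ 0 := by
      intro τ hτ h0
      exact hρ ⟨τ, by rw [mem_setOf_eq, Polynomial.IsRoot, hP, h0], hτ⟩
    have hcont : Continuous fun p : (Fin w → ℂ) × ℂ => ‖eval (p.1 + p.2 • (x1 - p.1)) g‖ := by
      have h1 : Continuous fun v : Fin w → ℂ => eval v g := MvPolynomial.continuous_eval g
      exact (h1.comp (by fun_prop : Continuous fun p : (Fin w → ℂ) × ℂ =>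
        p.1 + p.2 • (x1 - p.1))).norm
    obtain ⟨τ0, hτ0, hmin⟩ := (isCompact_sphere (0 : ℂ) ρ).exists_isMinOn
      ⟨(ρ : ℂ), by
        rw [mem_sphere_zero_iff_norm, Complex.norm_real, Real.norm_of_nonneg (by linarith)]⟩
      ((hcont.comp (by fun_prop : Continuous fun τ : ℂ => (x0, τ))).continuousOn)
    rw [mem_sphere_zero_iff_norm] at hτ0
    have hc0 : 0 < ‖eval (x0 + τ0 • (x1 - x0)) g‖ := norm_pos_iff.2 (hne τ0 hτ0)
    set c := ‖eval (x0 + τ0 • (x1 - x0)) g‖ / 2 with hc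
    have h1 : ∀ᶠ x : Fin w → ℂ in 𝓝 x0, ∀ τ ∈ sphere (0 : ℂ) ρ,
        c < ‖eval (x + τ • (x1 - x)) g‖ := by
      refine (isCompact_sphere (0 : ℂ) ρ).eventually_forall_of_forall_eventually fun τ hτ => ?_
      refine hcont.continuousAt.eventually (lt_mem_nhds ?_)
      have h2 : ‖eval (x0 + τ0 • (x1 - x0)) g‖ ≤ ‖eval (x0 + τ • (x1 - x0)) g‖ := hmin hτ
      change c < ‖eval (x0 + τ • (x1 - x0)) g‖
      rw [hc]
      linarith
    refine ⟨_, mem_nhdsWithin_of_mem_nhds h1, c, by positivity, fun x hx => ?_⟩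
    exact ⟨ρ, hρ1, hρ2, fun τ hτ => (hx τ (mem_sphere_zero_iff_norm.2 hτ)).le⟩

/-- the limit of points with bounded coordinates in a chart -/
theorem chart_limit {N : ℕ} {φ : ℕ → Mat N} {ψ : Mat N} {𝓤 : Ultrafilter ℕ} {i : Fin N} {R : ℝ}
    (hφ : ∀ k, φ k ∈ PM) (hi : ∀ k, φ k i i ≠ 0) (hR : ∀ k, ‖chart i (φ k)‖ ≤ R)
    (h : Tendsto φ 𝓤 (𝓝 ψ)) : ψ i i ≠ 0 := by
  have hNp : 0 < N := i.pos
  have hRp : 1 ≤ R := by
    have h1 := norm_le_pi_norm (chart i (φ 0)) i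
    rw [PM.chart_self (hi 0), norm_one] at h1
    exact h1.trans (hR 0)
  have h1 : ∀ k, 1 / (N * R ^ 2) ≤ ‖φ k i i‖ := by
    intro k
    set u := chart i (φ k) with hu
    have hui : u i = 1 := PM.chart_self (hi k)
    have hu0 : u ≠ 0 := PM.chart_ne (hi k)
    have h2 : φ k i i = (nsq u)⁻¹ := by
      conv_lhs => rw [← PM.Phi_chart (hφ k) (hi k)]
      unfold Phi
      rw [← hu, hui]
      simp
    rw [h2, norm_inv, nsq_eq, Complex.norm_real]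
    have h3 : ‖∑ l, ‖u l‖ ^ 2‖ = sq u := Real.norm_of_nonneg (sq_nonneg u)
    rw [h3, one_div]
    have h4 : sq u ≤ N * R ^ 2 := (sq_le u).trans (by
      have := hR k
      gcongr)
    exact inv_anti₀ (sq_pos hu0) h4
  have h2 : Tendsto (fun k => ‖φ k i i‖) 𝓤 (𝓝 ‖ψ i i‖) :=
    (((continuous_apply_apply i i).tendsto ψ).comp h).norm
  have h3 : 1 / (N * R ^ 2) ≤ ‖ψ i i‖ := ge_of_tendsto' h2 h1
  have h4 : (0 : ℝ) < 1 / (N * R ^ 2) := by positivity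
  exact norm_pos_iff.1 (h4.trans_le h3)

end Run7.h418.Z
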