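import Pool.Agent.Run7.h418.Z.Bdry

/-!
The maximum principle on analytic curves in the space of curves.
-/

set_option autoImplicit false

open Metric Set Filter Topology MvPolynomial

namespace Run7.h418.Z

open Pool.Agent.Y190.OP

section bdry

variable {N : ℕ} {f : ℂ → Mat N} {D : Fin N → Dr (Fin N ⊕ Fin N)} {C : ℝ}

/-- the function which is maximized -/
noncomputable def Hf (r ε : ℝ) (i : Fin N) (q : Rn N) (φ : ℂ → Mat N) (τ : ℂ) : ℝ :=
  Tr r φ + lg (chart i (φ 0)) + ε * Real.log ‖eval (pr i φ 0) q‖ + ‖τ‖ ^ 2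

/-- the points of the analytic curve -/
structure Onc (f : ℂ → Mat N) (i : Fin N) {w : ℕ} (x : Fin w → Rn N) (x0 p : Fin w → ℂ) (ρ : ℝ)
    (φ : ℂ → Mat N) (τ : ℂ) : Prop where
  sol : Sol (Vs (Rel f)) univ φ
  dg : φ 0 i i ≠ 0
  le : ‖τ‖ ≤ ρ
  eq : ∀ t, eval (pr i φ 0) (x t) = x0 t + τ * p t

variable {i : Fin N} {w : ℕ} {x : Fin w → Rn N} {x0 p : Fin w → ℂ} {ρ r ε : ℝ} {q : Rn N}

theorem Onc.mem {φ : ℂ → Mat N} {τ : ℂ} (h : Onc f i x x0 p ρ φ τ) :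
    pr i φ 0 ∈ Vs (Rel f) i := h.sol.2 0 (mem_univ 0) i h.dg

/-- limits of points of the curve -/
theorem Onc.limit (h : Dat f D C) {R : ℝ}
    (hR : ∀ φ τ, Onc f i x x0 p ρ φ τ → ‖pr i φ 0‖ ≤ R) {𝓤 : Ultrafilter ℕ}
    {φ : ℕ → ℂ → Mat N} {τ : ℕ → ℂ} (hφ : ∀ k, Onc f i x x0 p ρ (φ k) (τ k)) :
    ∃ ψ τ', Onc f i x x0 p ρ ψ τ' ∧ CConv (𝓤 : Filter ℕ) univ φ ψ ∧
      Tendsto τ 𝓤 (𝓝 τ') ∧ Tendsto (fun k => pr i (φ k) 0) 𝓤 (𝓝 (pr i ψ 0)) := by
  obtain ⟨ψ, hψ, hc⟩ := h.compact (𝓤 := 𝓤) fun k => (hφ k).sol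
  have h0 : Tendsto (fun k => φ k 0) 𝓤 (𝓝 (ψ 0)) := by
    have h1 := hc 0 (mem_univ 0)
    have h2 : Tendsto (fun k : ℕ => (k, (0 : ℂ))) (𝓤 : Filter ℕ) ((𝓤 : Filter ℕ) ×ˢ 𝓝 0) :=
      tendsto_id.prodMk tendsto_const_nhds
    exact h1.comp h2
  have hi : ψ 0 i i ≠ 0 := by
    refine chart_limit (R := R) (fun k => (hφ k).sol.1.mem_PM (mem_univ 0)) (fun k => (hφ k).dg)
      (fun k => ?_) h0
    have h1 := hR _ _ (hφ k)
    have hR0 : 0 ≤ R := (norm_nonneg _).trans h1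
    exact (pi_norm_le_iff_of_nonneg hR0).2 fun l =>
      (norm_le_pi_norm (pr i (φ k) 0) (Sum.inl l)).trans h1
  obtain ⟨-, hpr⟩ := tendsto_pr (fun k => (hφ k).sol.1) hψ.1 hc hi
  have h1 : (𝓤.map τ : Filter ℂ) ≤ 𝓟 (closedBall 0 ρ) := by
    rw [Ultrafilter.coe_map, le_principal_iff, mem_map]
    exact Eventually.of_forall fun k => mem_closedBall_zero_iff.2 (hφ k).le
  obtain ⟨τ', hτ', hτ⟩ := (isCompact_closedBall (0 : ℂ) ρ).ultrafilter_le_nhds (𝓤.map τ) h1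
  have hτ1 : Tendsto τ 𝓤 (𝓝 τ') := hτ
  refine ⟨ψ, τ', ⟨hψ, hi, mem_closedBall_zero_iff.1 hτ', fun t => ?_⟩, hc, hτ1, hpr⟩
  have h2 : Tendsto (fun k => eval (pr i (φ k) 0) (x t)) 𝓤 (𝓝 (eval (pr i ψ 0) (x t))) :=
    ((continuous_eval' (x t)).tendsto _).comp hpr
  have h3 : Tendsto (fun k => x0 t + τ k * p t) 𝓤 (𝓝 (x0 t + τ' * p t)) :=
    tendsto_const_nhds.add (hτ1.mul_const _)
  exact tendsto_nhds_unique h2 (h3.congr fun k => ((hφ k).eq t).symm)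

theorem tendsto_lg {N : ℕ} {𝓤 : Ultrafilter ℕ} {u : ℕ → Fin N → ℂ} {v : Fin N → ℂ} (hv : v ≠ 0)
    (h : Tendsto u 𝓤 (𝓝 v)) : Tendsto (fun k => lg (u k)) 𝓤 (𝓝 (lg v)) :=
  (continuousAt_lg hv).tendsto.comp h

theorem lg_nonneg {N : ℕ} {i : Fin N} {u : Fin N → ℂ} (hi : u i = 1) : 0 ≤ lg u := by
  have h1 : 1 ≤ ‖u‖ := by
    have := norm_le_pi_norm u i
    rwa [hi, norm_one] at this
  have h2 := norm_sq_le u
  exact Real.log_nonneg (by nlinarith)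

theorem lg_le {N : ℕ} {u : Fin N → ℂ} (hu : u ≠ 0) {B : ℝ} (hB : ‖u‖ ≤ B) :
    lg u ≤ Real.log (N * B ^ 2) :=
  Real.log_le_log (sq_pos hu) ((sq_le u).trans (by gcongr))

/-- **The maximum is attained at the boundary.** -/
theorem exists_bdry (h : Dat f D C) {E : Dr (Fin N ⊕ Fin N)} (hE : ∀ G ∈ Rel f i, E G ∈ Rel f i)
    (hEx : ∀ t, E (x t) - MvPolynomial.C (p t) * q ∈ Rel f i) {R : ℝ}
    (hR : ∀ φ τ, Onc f i x x0 p ρ φ τ → ‖pr i φ 0‖ ≤ R) (hρ : 0 < ρ) (hr : 0 < r)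
    (hε : 0 < ε) {φ0 : ℂ → Mat N} {τ0 : ℂ} (h0 : Onc f i x x0 p ρ φ0 τ0)
    (hq0 : eval (pr i φ0 0) q ≠ 0) :
    ∃ ψ τ, Onc f i x x0 p ρ ψ τ ∧ ‖τ‖ = ρ ∧ Hf r ε i q φ0 τ0 ≤ Hf r ε i q ψ τ := by
  have hR0 : 0 ≤ R := (norm_nonneg _).trans (hR _ _ h0)
  obtain ⟨M, hM0, hM⟩ := exists_bd q R
  obtain ⟨φm, hφm, hmax⟩ := h.exists_Tr hr
  have hlgb : ∀ φ τ, Onc f i x x0 p ρ φ τ → lg (chart i (φ 0)) ≤ Real.log (N * R ^ 2) := by
    intro φ τ hφ
    refine lg_le (PM.chart_ne hφ.dg) ((pi_norm_le_iff_of_nonneg hR0).2 fun l => ?_)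
    exact (norm_le_pi_norm (pr i φ 0) (Sum.inl l)).trans (hR _ _ hφ)
  set K : ℝ := Tr r φm + Real.log (N * R ^ 2) + ρ ^ 2 with hK
  have hub : ∀ φ τ, Onc f i x x0 p ρ φ τ →
      Hf r ε i q φ τ ≤ K + ε * Real.log ‖eval (pr i φ 0) q‖ := by
    intro φ τ hφ
    have h1 := hmax φ hφ.sol
    have h2 := hlgb φ τ hφ
    have h3 : ‖τ‖ ^ 2 ≤ ρ ^ 2 := by
      have := hφ.le
      gcongr
    unfold Hf
    linarith
  set T : Set ℝ := {t | ∃ φ τ, Onc f i x x0 p ρ φ τ ∧ eval (pr i φ 0) q ≠ 0 ∧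
    t = Hf r ε i q φ τ} with hT
  have hTne : T.Nonempty := ⟨_, φ0, τ0, h0, hq0, rfl⟩
  have hTb : BddAbove T := by
    refine ⟨K + ε * Real.log (M + 1), ?_⟩
    rintro t ⟨φ, τ, hφ, hq, rfl⟩
    refine (hub φ τ hφ).trans ?_
    have h1 : Real.log ‖eval (pr i φ 0) q‖ ≤ Real.log (M + 1) :=
      Real.log_le_log (norm_pos_iff.2 hq) ((hM _ (hR _ _ hφ)).trans (by linarith))
    have := mul_le_mul_of_nonneg_left h1 hε.le
    linarith
  set S := sSup T with hS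
  -- an approximating sequence
  have hex : ∀ k : ℕ, ∃ φ τ, Onc f i x x0 p ρ φ τ ∧ eval (pr i φ 0) q ≠ 0 ∧
      S - 1 / ((k : ℝ) + 1) < Hf r ε i q φ τ := by
    intro k
    obtain ⟨t, ⟨φ, τ, hφ, hq, rfl⟩, ht⟩ := exists_lt_of_lt_csSup hTne
      (show S - 1 / ((k : ℝ) + 1) < sSup T by
        have : 0 < 1 / ((k : ℝ) + 1) := by positivity
        linarith)
    exact ⟨φ, τ, hφ, hq, ht⟩
  choose φ τ hφ hq hHk using hex
  set 𝓤 : Ultrafilter ℕ := hyperfilter ℕ with h𝓤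
  have h𝓤t : (𝓤 : Filter ℕ) ≤ atTop := by
    rw [← Nat.cofinite_eq_atTop]
    exact hyperfilter_le_cofinite
  obtain ⟨ψ, τ', hψ, hc, hτ', hpr⟩ := Onc.limit h hR (𝓤 := 𝓤) hφ
  have hqt : Tendsto (fun k => ‖eval (pr i (φ k) 0) q‖) 𝓤 (𝓝 ‖eval (pr i ψ 0) q‖) :=
    (((continuous_eval' q).tendsto _).comp hpr).norm
  have hqψ : eval (pr i ψ 0) q ≠ 0 := by
    intro hz
    rw [hz, norm_zero] at hqt
    -- a lower bound
    set e0 := Real.exp ((S - 1 - K) / ε) with he0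
    have h1 : ∀ k, e0 ≤ ‖eval (pr i (φ k) 0) q‖ := by
      intro k
      have h2 := (hHk k).le.trans (hub _ _ (hφ k))
      have h3 : 1 / ((k : ℝ) + 1) ≤ 1 := by
        rw [div_le_one (by positivity)]
        have : (0 : ℝ) ≤ k := Nat.cast_nonneg k
        linarith
      have h4 : (S - 1 - K) / ε ≤ Real.log ‖eval (pr i (φ k) 0) q‖ := by
        rw [div_le_iff₀ hε]
        linarith
      have h5 := Real.exp_le_exp.2 h4
      rwa [Real.exp_log (norm_pos_iff.2 (hq k))] at h5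
    have h2 : e0 ≤ 0 := ge_of_tendsto' hqt h1
    have h3 : 0 < e0 := Real.exp_pos _
    linarith
  have hHψ : Tendsto (fun k => Hf r ε i q (φ k) (τ k)) 𝓤 (𝓝 (Hf r ε i q ψ τ')) := by
    unfold Hf
    have h1 := Tr_tendsto hr (fun k => (hφ k).sol.1) hψ.sol.1 hc
    have h2 : Tendsto (fun k => chart i (φ k 0)) 𝓤 (𝓝 (chart i (ψ 0))) := by
      refine tendsto_pi_nhds.2 fun l => ?_
      exact (tendsto_pi_nhds.1 hpr) (Sum.inl l)
    have h3 := tendsto_lg (PM.chart_ne hψ.dg) h2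
    have h4 := ((Real.continuousAt_log (norm_pos_iff.2 hqψ).ne').tendsto.comp hqt).const_mul ε
    exact ((h1.add h3).add h4).add (hτ'.norm.pow 2)
  have hSψ : S ≤ Hf r ε i q ψ τ' := by
    have h4 : Tendsto (fun k : ℕ => S - 1 / ((k : ℝ) + 1)) 𝓤 (𝓝 S) := by
      have h4 := tendsto_one_div_add_atTop_nhds_zero_nat (𝕜 := ℝ)
      have h5 := (tendsto_const_nhds (x := S)).sub (h4.mono_left h𝓤t)
      rwa [sub_zero] at h5
    exact le_of_tendsto_of_tendsto h4 hHψ (Eventually.of_forall fun k => (hHk k).le)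
  refine ⟨ψ, τ', hψ, ?_, (le_csSup hTb ⟨φ0, τ0, h0, hq0, rfl⟩).trans hSψ⟩
  -- the maximum is at the boundary
  refine le_antisymm hψ.le ?_
  by_contra hlt
  push Not at hlt
  obtain ⟨ρE, hRE⟩ := exists_rad E (B := ‖pr i ψ 0‖ + 1) (by positivity)
  obtain ⟨y, hy0, hfm, hyfl⟩ := h.exists_fm hψ.sol hψ.dg hE hRE (lt_add_one _)
  set γ : ℂ → Fin N ⊕ Fin N → ℂ := fun s => pr i (y s) 0 with hγ
  have hγ0 : γ 0 = pr i ψ 0 := by rw [hγ]; simp only; rw [hy0]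
  have hgd : DifferentiableOn ℂ (fun s => eval (γ s) q) (ball 0 ρE) := fun s hs =>
    (hasDerivAt_eval E (hfm.ode s hs).self_of_nhds q).differentiableAt.differentiableWithinAt
  obtain ⟨T', hT0, hT'⟩ := (hgd.isExactOn_ball).with_val_at 0 0
  have hTd : DifferentiableOn ℂ T' (ball 0 ρE) := fun s hs =>
    (hT' s hs).differentiableAt.differentiableWithinAt
  -- the points of the disc are on the curve
  have hxs : ∀ s ∈ ball (0 : ℂ) ρE, ∀ t, eval (γ s) (x t) = x0 t + (τ' + T' s) * p t := by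
    intro s hs t
    have h1 : ∀ s ∈ ball (0 : ℂ) ρE,
        HasDerivAt (fun s => eval (γ s) (x t) - T' s * p t) 0 s := by
      intro s hs
      have h2 := hasDerivAt_eval E (hfm.ode s hs).self_of_nhds (x t)
      have h3 := (hT' s hs).mul_const (p t)
      have h4 := h2.sub h3
      have h5 : eval (γ s) (E (x t)) = p t * eval (γ s) q := by
        have h6 : γ s ∈ Vs (Rel f) i := (hfm.sol s hs).2 0 (mem_univ 0) i (hfm.dg s hs)
        have h7 := h6 _ (hEx t)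
        rw [map_sub, map_mul, eval_C] at h7
        exact sub_eq_zero.1 h7
      have h6 : eval (γ s) (E (x t)) - eval (γ s) q * p t = 0 := by rw [h5]; ring
      rw [← h6]
      exact h4
    have h2 : (fun s => eval (γ s) (x t) - T' s * p t) s =
        (fun s => eval (γ s) (x t) - T' s * p t) 0 := by
      refine isOpen_ball.is_const_of_deriv_eq_zero (convex_ball (0 : ℂ) ρE).isPreconnected
        (fun s hs => (h1 s hs).differentiableAt.differentiableWithinAt)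
        (fun s hs => (h1 s hs).deriv) hs hfm.mem0
    simp only [hT0, zero_mul, sub_zero] at h2
    rw [hγ0, hψ.eq t] at h2
    linear_combination h2
  -- small radius
  have hev1 : ∀ᶠ s in 𝓝 (0 : ℂ), eval (γ s) q ≠ 0 := by
    have h1 : ContinuousAt (fun s => eval (γ s) q) 0 :=
      (hgd.differentiableAt (isOpen_ball.mem_nhds hfm.mem0)).continuousAt
    refine h1.eventually_ne ?_
    rw [hγ0]
    exact hqψ
  have hev2 : ∀ᶠ s in 𝓝 (0 : ℂ), ‖τ' + T' s‖ < ρ := by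
    have h1 : ContinuousAt (fun s => ‖τ' + T' s‖) 0 := by
      have := (hTd.differentiableAt (isOpen_ball.mem_nhds hfm.mem0)).continuousAt
      fun_prop
    refine h1.eventually_lt_const ?_
    change ‖τ' + T' 0‖ < ρ
    rw [hT0, add_zero]
    exact hlt
  obtain ⟨ε1, hε1, hsub1⟩ := hfm.sub hr
  obtain ⟨ε2, hε2, hball⟩ := Metric.eventually_nhds_iff_ball.1
    ((hev1.and hev2).and (isOpen_ball.mem_nhds hfm.mem0))
  set ε3 : ℝ := min ε1 ε2 / 2 with hε3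
  have hmin : 0 < min ε1 ε2 := lt_min hε1 hε2
  have hε30 : 0 < ε3 := by positivity
  have hε31 : ε3 < ε1 := by
    have : min ε1 ε2 ≤ ε1 := min_le_left _ _
    linarith
  have hε32 : ε3 < ε2 := by
    have : min ε1 ε2 ≤ ε2 := min_le_right _ _
    linarith
  have hsph : sphere (0 : ℂ) ε3 ⊆ ball 0 ε2 := fun s hs => by
    rw [mem_sphere_zero_iff_norm] at hs
    exact mem_ball_zero_iff.2 (by rw [hs]; exact hε32)
  have hballE : ball (0 : ℂ) ε2 ⊆ ball 0 ρE := fun s hs => (hball s hs).2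
  have hle : ∀ s ∈ ball (0 : ℂ) ε2, Hf r ε i q (y s) (τ' + T' s) ≤ Hf r ε i q ψ τ' := by
    intro s hs
    have h1 := hball s hs
    have h2 : Onc f i x x0 p ρ (y s) (τ' + T' s) :=
      ⟨hfm.sol s h1.2, hfm.dg s h1.2, h1.1.2.le, hxs s h1.2⟩
    exact (le_csSup hTb ⟨_, _, h2, h1.1.1, rfl⟩).trans hSψ
  have hHW : ∀ s, Hf r ε i q (y s) (τ' + T' s) =
      Wf r i y s + (ε * Real.log ‖eval (γ s) q‖ + ‖τ' + T' s‖ ^ 2) := by
    intro s
    unfold Hf Wf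
    ring
  have hcW : ContinuousOn (Wf r i y) (sphere 0 ε3) :=
    (hfm.continuousOn hr).mono (hsph.trans hballE)
  have hcq : ContinuousOn (fun s => Real.log ‖eval (γ s) q‖) (sphere 0 ε3) := by
    intro s hs
    have h1 := (hgd.continuousOn.mono (hsph.trans hballE)) s hs
    exact h1.norm.log (norm_pos_iff.2 (hball s (hsph hs)).1.1).ne'
  have hcT : ContinuousOn (fun s => ‖τ' + T' s‖ ^ 2) (sphere 0 ε3) :=
    ((continuousOn_const.add (hTd.continuousOn.mono (hsph.trans hballE))).norm).pow 2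
  have hav1 : av ε3 (fun s => Wf r i y s + (ε * Real.log ‖eval (γ s) q‖ + ‖τ' + T' s‖ ^ 2)) ≤
      Hf r ε i q ψ τ' := by
    have hcs : ContinuousOn
        (fun s => Wf r i y s + (ε * Real.log ‖eval (γ s) q‖ + ‖τ' + T' s‖ ^ 2))
        (sphere 0 ε3) := hcW.add ((continuousOn_const.mul hcq).add hcT)
    have hle2 : ∀ s ∈ sphere (0 : ℂ) ε3,
        Wf r i y s + (ε * Real.log ‖eval (γ s) q‖ + ‖τ' + T' s‖ ^ 2) ≤ Hf r ε i q ψ τ' := by
      intro s hs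
      rw [← hHW]
      exact hle s (hsph hs)
    have h1 := av_mono hε30.le hcs (continuousOn_const (c := Hf r ε i q ψ τ')) hle2
    rwa [av_const] at h1
  rw [av_add (f := Wf r i y) (g := fun s => ε * Real.log ‖eval (γ s) q‖ + ‖τ' + T' s‖ ^ 2)
    hε30.le hcW ((continuousOn_const.mul hcq).add hcT),
    av_add (f := fun s => ε * Real.log ‖eval (γ s) q‖) (g := fun s => ‖τ' + T' s‖ ^ 2)
    hε30.le (continuousOn_const.mul hcq) hcT, av_mul] at hav1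
  have h1 := hsub1 ε3 hε30 hε31
  have h2 : av ε3 (fun s => Real.log ‖eval (γ s) q‖) = Real.log ‖eval (γ 0) q‖ :=
    av_log (U := ball 0 ε2) hε30.le isOpen_ball (closedBall_subset_ball hε32)
      (hgd.mono hballE) fun s hs => (hball s hs).1.1
  have h3 : ‖τ'‖ ^ 2 + ε3 ^ 2 * ‖eval (γ 0) q‖ ^ 2 ≤ av ε3 (fun s => ‖τ' + T' s‖ ^ 2) := by
    have h4 := av_deriv hε30.le hε32 (hTd.mono hballE) hT0
    rw [(hT' 0 hfm.mem0).deriv] at h4
    have h5 : av ε3 (fun s => ‖τ' + T' s‖ ^ 2) =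
        av ε3 (fun s => (‖τ'‖ ^ 2 + ‖T' s‖ ^ 2) + 2 * (T' s * (starRingEnd ℂ) τ').re) := by
      refine av_congr hε30.le fun s _ => ?_
      have := norm_sq_add (τ' + T' s) τ'
      rw [add_sub_cancel_left] at this
      exact this
    have hT'c : ContinuousOn T' (sphere 0 ε3) := hTd.continuousOn.mono (hsph.trans hballE)
    have hre : ContinuousOn (fun s => (T' s * (starRingEnd ℂ) τ').re) (sphere 0 ε3) :=
      Complex.continuous_re.comp_continuousOn (hT'c.mul continuousOn_const)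
    rw [h5, av_add (f := fun s => ‖τ'‖ ^ 2 + ‖T' s‖ ^ 2)
      (g := fun s => 2 * (T' s * (starRingEnd ℂ) τ').re) hε30.le
      (continuousOn_const.add (hT'c.norm.pow 2)) (continuousOn_const.mul hre),
      av_add (f := fun _ => ‖τ'‖ ^ 2) (g := fun s => ‖T' s‖ ^ 2) hε30.le continuousOn_const
      (hT'c.norm.pow 2), av_const, av_mul,
      av_re (g := fun s => T' s * (starRingEnd ℂ) τ') hε30.le hε32
        ((hTd.mono hballE).mul_const _), hT0]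
    simp only [zero_mul, Complex.zero_re, mul_zero, add_zero]
    linarith
  have h4 : Hf r ε i q ψ τ' = Wf r i y 0 + (ε * Real.log ‖eval (γ 0) q‖ + ‖τ'‖ ^ 2) := by
    have := hHW 0
    rw [hy0, hT0, add_zero] at this
    exact this
  have h5 : 0 < ε3 ^ 2 * ‖eval (γ 0) q‖ ^ 2 := by
    have h6 : 0 < ‖eval (γ 0) q‖ := by
      rw [hγ0]
      exact norm_pos_iff.2 hqψ
    positivity
  rw [h4, h2] at hav1
  linarith

end bdry

end Run7.h418.Z
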