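import Pool.Agent.Run7.h418.Z.Tor
import Pool.Agent.N155.L.SDefs

/-!
Entire curves of bounded derivative.
-/

set_option autoImplicit false

open MvPolynomial Metric Set Filter Topology LinearAlgebra.Projectivization

namespace Run7.h418.Z

open Pool.Agent.Y190.OP Pool.Agent.W602.GT Pool.Agent.N155

section bro

variable {n : ℕ} {ι κ : Type} {F : ι → MvPolynomial (Fin (n + 1)) ℂ}
  {σ : κ → (Fin (n + 1) → ℂ) → (Fin (n + 1) → ℂ) → ℂ} {m : κ → ℕ} {c : κ → ℂ}

/-- the data of a curve with constant values of the symmetric differentials -/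
theorem exists_dat0 [Finite κ] (hσ : ∀ j, SymForm F (m j) (σ j)) (hm : ∀ j, 0 < m j)
    (him : Immersive F σ) (hc : ∃ j, c j ≠ 0) {f : ℂ → Mat (n + 1)}
    (hf : Sol (Ep F σ c) univ f) :
    ∃ (D : Fin (n + 1) → Dr (Fin (n + 1) ⊕ Fin (n + 1))) (C : ℝ),
      Dat f D C ∧ ∀ i, Vs (Rel f) i ⊆ Ep F σ c i := by
  have hV := Vs_sub hσ hf
  choose D hD1 hD2 using exists_vf hσ hm him hc
  obtain ⟨R, hR⟩ := Finite.exists_le fun j => ‖c j‖
  choose C hC using fun i => exists_bound_v hm hσ him i R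
  obtain ⟨C', hC'⟩ := Finite.exists_le C
  refine ⟨D, C', ⟨hf.1, hD1, fun U φ hU hφ z hz i hi => hD2 i U φ hU (hφ.sub hV) z hz hi,
    fun i a ha => (hV i ha).1.1, fun i a ha => (hV i ha).1.2.1, fun i a ha h0 => ?_,
    fun i a ha haK => ?_⟩, hV⟩
  · obtain ⟨j, hj⟩ := hc
    apply hj
    have h1 := hV i ha
    rw [← h1.2 j]
    unfold sg
    rw [h0]
    have h2 := (hσ j).deg _ (Tg.cone h1.1) 0 (by intro j; simp) 0
    rw [smul_zero, zero_pow (hm j).ne', zero_mul] at h2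
    exact h2
  · have h1 := hV i ha
    refine (hC i a h1.1 haK fun j => ?_).trans (hC' i)
    rw [h1.2 j]
    exact hR j

/-- entire curves of bounded derivative -/
theorem bounded_fderiv {f : ℂ → ℙ ℂ (Fin (n + 1) → ℂ)} (hf : HolMap f) (hb : BoundedDer f) :
    ∃ K : ℝ, ∀ z, ‖fderiv ℝ (fun w => Phi (f w).rep) z‖ ≤ K := by
  obtain ⟨C, hC⟩ := hb
  obtain ⟨A, hA, hAb⟩ := norm_der (n + 1)
  have hΨ := holP_map hf
  set φ : ℂ → Mat (n + 1) := fun w => Phi (f w).rep with hφ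
  refine ⟨A * (|C| * (n + 1)), fun z => ?_⟩
  obtain ⟨i, hi, hiK⟩ := exists_max (hΨ.mem_PM (mem_univ z))
  refine (hAb univ φ isOpen_univ hΨ z (mem_univ z) i hi hiK).1.trans ?_
  refine mul_le_mul_of_nonneg_left ?_ hA.le
  rw [pi_norm_le_iff_of_nonneg (by positivity)]
  intro l
  have hVo : IsOpen {w | φ w i i ≠ 0} := by
    rw [isOpen_iff_eventually]
    intro w hw
    exact ev_diag hΨ (mem_univ w) hw
  have h1 := hC {w | φ w i i ≠ 0} (fun w => chart i (φ w)) hVo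
    (fun w hw => (hΨ.diff_chart (mem_univ w) hw).differentiableWithinAt)
    (fun w hw => by
      have h0 : chart i (φ w) ≠ 0 := PM.chart_ne hw
      refine ⟨h0, proj_eq ?_⟩
      obtain ⟨a, ha⟩ := Projectivization.exists_smul_eq_mk_rep ℂ (chart i (φ w)) h0
      have h2 : Phi ((a : ℂ) • chart i (φ w)) = Phi (chart i (φ w)) := Phi_smul a.ne_zero _
      rw [← ha]
      refine Eq.trans ?_ h2.symm
      exact (PM.Phi_chart (hΨ.mem_PM (mem_univ w)) hw).symm) z hi i l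
  have hdi : deriv (fun w => chart i (φ w) i) z = 0 := by
    have h2 : (fun w => chart i (φ w) i) =ᶠ[𝓝 z] fun _ => 1 := by
      filter_upwards [ev_diag hΨ (mem_univ z) hi] with w hw
      exact PM.chart_self hw
    rw [h2.deriv_eq, deriv_const]
  have hdl : deriv (fun w => chart i (φ w)) z l = deriv (fun w => chart i (φ w) l) z :=
    ((hasDerivAt_pi.1 (hΨ.diff_chart (mem_univ z) hi).hasDerivAt) l).deriv.symm
  rw [hdl]
  simp only [hdi, mul_zero, sub_zero, PM.chart_self hi, one_mul] at h1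
  refine h1.trans ?_
  have h2 : ∑ k, ‖chart i (φ z) k‖ ^ 2 ≤ n + 1 := by
    have h3 : ∀ k ∈ (Finset.univ : Finset (Fin (n + 1))), ‖chart i (φ z) k‖ ^ 2 ≤ 1 := by
      intro k _
      have h4 := (norm_le_pi_norm (chart i (φ z)) k).trans hiK.2
      nlinarith [norm_nonneg (chart i (φ z) k)]
    have h4 := Finset.sum_le_card_nsmul Finset.univ _ 1 h3
    rw [Finset.card_univ, Fintype.card_fin, nsmul_eq_mul, mul_one] at h4
    exact_mod_cast h4
  calc C * ∑ k, ‖chart i (φ z) k‖ ^ 2 ≤ |C| * ∑ k, ‖chart i (φ z) k‖ ^ 2 :=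
        mul_le_mul_of_nonneg_right (le_abs_self C) (Finset.sum_nonneg fun k _ => by positivity)
    _ ≤ |C| * (n + 1) := mul_le_mul_of_nonneg_left h2 (abs_nonneg C)

/-- the data of a nonconstant entire curve of bounded derivative -/
theorem dat_of_bounded [Finite κ] (hF : ∀ i, IsForm (F i)) (hm : ∀ j, 0 < m j)
    (hσ : ∀ j, SymForm F (m j) (σ j)) (him : Immersive F σ)
    {f : ℂ → ℙ ℂ (Fin (n + 1) → ℂ)} (hf : HolMap f) (hfF : ∀ z, (f z).rep ∈ Cone F)
    (hb : BoundedDer f) (hne : ∃ z w, f z ≠ f w) :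
    ∃ (c : κ → ℂ) (D : Fin (n + 1) → Dr (Fin (n + 1) ⊕ Fin (n + 1))) (C : ℝ),
      Dat (fun w => Phi (f w).rep) D C ∧
        ∀ i, Vs (Rel fun w => Phi (f w).rep) i ⊆ Ep F σ c i := by
  have hΨ := holP_map hf
  have hΨne : ¬ ∀ z, (fun w => Phi (f w).rep) z = (fun w => Phi (f w).rep) 0 := by
    intro h
    obtain ⟨z, w, hzw⟩ := hne
    apply hzw
    rw [proj_eq (h z), proj_eq (h w)]
  obtain ⟨K, hK⟩ := bounded_fderiv hf hb
  obtain ⟨c, hc⟩ := liouville hF hσ hΨ (fun z => ⟨_, hfF z, rfl⟩) hK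
  obtain ⟨D, C, hD, hV⟩ := exists_dat0 hσ hm him (const_ne hσ him hc hΨne) hc
  exact ⟨c, D, C, hD, hV⟩

end bro

end Run7.h418.Z
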