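import Pool.Agent.Run7.h418.Z.Sup
import Pool.Agent.Run7.h418.Frm

/-!
The relative forms do not depend on the chart.
-/

set_option autoImplicit false

open Metric Set Filter Topology MvPolynomial

namespace Run7.h418.Z

open Pool.Agent.Y190.OP Pool.Agent.W602.GT Pool.Agent.N155

section ext

variable {N : ℕ} {f : ℂ → Mat N} {D : Fin N → Dr (Fin N ⊕ Fin N)} {C : ℝ}
variable {M : Type} [Field M] [Algebra ℂ M] {ev : Fin N → Rn N →ₐ[ℂ] M} {δ : Derivation ℂ M M}

theorem IsFd.ext_prod (hM : IsFd f D ev δ) {k l : Fin N} (hk : ∃ z, f z k k ≠ 0)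
    (hl : ∃ z, f z l l ≠ 0) {G1 G2 H1 H2 : Rn N}
    (h : ∀ᶠ w in 𝓝[≠] (0 : ℂ), eval (pr k f w) G1 * eval (pr l f w) H1 =
      eval (pr l f w) H2 * eval (pr k f w) G2) : ev k G1 * ev l H1 = ev l H2 * ev k G2 := by
  obtain ⟨Φ, hΦ⟩ := hM.germ
  refine Φ.injective ?_
  rw [map_mul, map_mul, hΦ k hk, hΦ l hl, hΦ k hk, hΦ l hl, gev_apply, gev_apply, gev_apply,
    gev_apply, ← Germ.coe_mul, ← Germ.coe_mul]
  refine Germ.coe_eq.2 ?_
  filter_upwards [h] with w hw
  exact hw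

theorem IsFd.ev_prod (hM : IsFd f D ev δ) {k l : Fin N} (hk : ∃ z, f z k k ≠ 0)
    (hl : ∃ z, f z l l ≠ 0) {G1 G2 G3 H1 H2 H3 : Rn N}
    (h : ev k G1 * ev l H1 + ev l H2 * ev k G2 = ev l H3 * ev k G3) :
    ∀ᶠ w in 𝓝[≠] (0 : ℂ), eval (pr k f w) G1 * eval (pr l f w) H1 +
      eval (pr l f w) H2 * eval (pr k f w) G2 = eval (pr l f w) H3 * eval (pr k f w) G3 := by
  obtain ⟨Φ, hΦ⟩ := hM.germ
  have h1 := congrArg Φ h
  rw [map_add, map_mul, map_mul, map_mul, hΦ k hk, hΦ l hl, hΦ k hk, hΦ l hl, hΦ k hk, hΦ l hl,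
    gev_apply, gev_apply, gev_apply, gev_apply, gev_apply, gev_apply, ← Germ.coe_mul,
    ← Germ.coe_mul, ← Germ.coe_mul, ← Germ.coe_add] at h1
  filter_upwards [Germ.coe_eq.1 h1] with w hw
  exact hw

theorem ev_zero_of (hM : IsFd f D ev δ) {k : Fin N} (hk : ∃ z, f z k k ≠ 0) {q : Rn N}
    {E : Dr (Fin N ⊕ Fin N)} {v : Derivation ℂ M M} (hE : ∀ G, ev k (E G) = ev k q * v (ev k G)) :
    ∀ G ∈ Rel f k, E G ∈ Rel f k := fun G hG => (hM.ker k hk _).1 (by
      rw [hE, (hM.ker k hk G).2 hG, map_zero, mul_zero])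

end ext

section chg

variable {n : ℕ} {ι κ : Type} {F : ι → MvPolynomial (Fin (n + 1)) ℂ}
  {σ : κ → (Fin (n + 1) → ℂ) → (Fin (n + 1) → ℂ) → ℂ} {m : κ → ℕ} {c : κ → ℂ}
variable {f : ℂ → Mat (n + 1)} {D : Fin (n + 1) → Dr (Fin (n + 1) ⊕ Fin (n + 1))} {C : ℝ}
  {M : Type} [Field M] [Algebra ℂ M] {ev : Fin (n + 1) → Rn (n + 1) →ₐ[ℂ] M}
  {δ : Derivation ℂ M M}

/-- vector fields which preserve the relations are tangent -/
theorem tan_of_pres (hV : ∀ i, Vs (Rel f) i ⊆ Ep F σ c i) {k : Fin (n + 1)}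
    {E : Dr (Fin (n + 1) ⊕ Fin (n + 1))} (hE : ∀ G ∈ Rel f k, E G ∈ Rel f k)
    {a : Fin (n + 1) ⊕ Fin (n + 1) → ℂ} (ha : a ∈ Vs (Rel f) k) :
    Tan F (a ∘ Sum.inl) fun r => eval a (E (X (Sum.inl r))) := by
  intro j
  have h1 : (rename Sum.inl (F j) : Rn (n + 1)) ∈ Rel f k := by
    intro z hz
    rw [eval_inl]
    exact (hV k (fun G hG => hG z hz)).1.2.2.1 j
  have h2 := ha _ (hE _ h1)
  rw [der_sum E, map_sum, Fintype.sum_sum_type] at h2
  simp only [pderiv_inl_inl, pderiv_inr_inl, smul_eq_mul, map_mul, map_zero, zero_mul,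
    Finset.sum_const_zero, add_zero, eval_inl] at h2
  rw [← h2]

/-- **The relative forms do not depend on the chart.** -/
theorem lam_chart (hσ : ∀ j, SymForm F (m j) (σ j)) (h : Dat f D C) (hM : IsFd f D ev δ)
    (hV : ∀ i, Vs (Rel f) i ⊆ Ep F σ c i) {k l : Fin (n + 1)} (hk : ∃ z, f z k k ≠ 0)
    (hl : ∃ z, f z l l ≠ 0) {j : κ} {P P' : Rn (n + 1)} {H H' : MvPolynomial (Fin (n + 1)) ℂ}
    (hrep : Rep F σ j P H) (hrep' : Rep F σ j P' H') (hH : ev k (rename Sum.inl H) ≠ 0)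
    (hH' : ev l (rename Sum.inl H') ≠ 0) (v : Derivation ℂ M M) :
    lam (ev k) P H v = lam (ev l) P' H' v := by
  obtain ⟨q, E, hq, hE⟩ := hM.exists_lift hk v
  obtain ⟨q', E', hq', hE'⟩ := hM.exists_lift hl v
  have hEp := ev_zero_of hM hk hE
  have hEp' := ev_zero_of hM hl hE'
  have hX := hM.X_ne h hk hl
  -- the relation between the vectors
  have hrel : ∀ r, ∀ᶠ w in 𝓝[≠] (0 : ℂ), eval (pr k f w) (q * X (Sum.inl l)) *
      eval (pr l f w) (E' (X (Sum.inl r))) + eval (pr l f w) (q' * X (Sum.inl r)) *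
      eval (pr k f w) (E (X (Sum.inl l))) = eval (pr l f w) q' *
      eval (pr k f w) (E (X (Sum.inl r))) := by
    intro r
    refine hM.ev_prod hk hl ?_
    have h1 := congrArg v (hM.inl k l hk hl r)
    rw [Derivation.leibniz, smul_eq_mul, smul_eq_mul] at h1
    rw [map_mul, map_mul, hE', hE, hE, ← h1]
    ring
  have hrel' := (eventually_all.2 hrel)
  set GA : Rn (n + 1) := ∑ r, pderiv (Sum.inr r) P * E (X (Sum.inl r)) with hGA
  set GB : Rn (n + 1) := ∑ r, pderiv (Sum.inr r) P' * E' (X (Sum.inl r)) with hGB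
  have hqn : q ∉ Rel f k := fun h1 => hq ((hM.ker k hk _).2 h1)
  have hqn' : q' ∉ Rel f l := fun h1 => hq' ((hM.ker l hl _).2 h1)
  have hHn : rename Sum.inl H ∉ Rel f k := fun h1 => hH ((hM.ker k hk _).2 h1)
  have hHn' : rename Sum.inl H' ∉ Rel f l := fun h1 => hH' ((hM.ker l hl _).2 h1)
  have hmain : ev k GA * ev l (q' * rename Sum.inl H') =
      ev l GB * ev k (q * rename Sum.inl H) := by
    refine hM.ext_prod hk hl ?_
    filter_upwards [hrel', ev_chart h.hol hk 0, ev_chart h.hol hl 0, ev_ne h.hol hk hqn 0,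
      ev_ne h.hol hl hqn' 0, ev_ne h.hol hk hHn 0, ev_ne h.hol hl hHn' 0] with w h1 h2 h3 h4 h5 h6
      h7
    set a := pr k f w with ha
    set b := pr l f w with hb
    have haV : a ∈ Vs (Rel f) k := fun G hG => hG w h2
    have hbV : b ∈ Vs (Rel f) l := fun G hG => hG w h3
    obtain ⟨h8, h9⟩ := pr_cc isOpen_univ h.hol (mem_univ w) h2 h3
    rw [← ha] at h8 h9
    rw [← hb] at h9
    rw [eval_inl] at h6 h7
    set η : Fin (n + 1) → ℂ := fun r => eval a (E (X (Sum.inl r))) with hη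
    set η' : Fin (n + 1) → ℂ := fun r => eval b (E' (X (Sum.inl r))) with hη'
    have hT : Tan F (a ∘ Sum.inl) η := tan_of_pres hV hEp haV
    have hT' : Tan F (b ∘ Sum.inl) η' := tan_of_pres hV hEp' hbV
    have haT : a ∈ Tg F k := (hV k haV).1
    have hbT : b ∈ Tg F l := (hV l hbV).1
    set T : Fin (n + 1) → ℂ := fun r =>
      (η r * a (Sum.inl l) - a (Sum.inl r) * η l) / a (Sum.inl l) ^ 2 with hTdef
    have hTη : T = (eval a q / eval b q') • η' := by
      funext r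
      have e1 := h1 r
      simp only [map_mul, eval_X] at e1
      have e2 : b (Sum.inl r) = a (Sum.inl r) / a (Sum.inl l) := by rw [h9, cc_inl]
      rw [e2] at e1
      rw [hTdef]
      simp only [Pi.smul_apply, smul_eq_mul]
      rw [hη, hη'] at *
      field_simp
      field_simp at e1
      linear_combination -e1
    have hTT : Tan F (b ∘ Sum.inl) T := by
      rw [hTη]
      exact hT'.smul _
    have e1 := ds_cc hσ haT h8 hT j
    rw [← h9] at e1
    have e2 := ds_rep haT hT hrep h6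
    have e3 := ds_rep hbT hTT hrep' h7
    have e4 : eval a GA = ∑ r, eval a (pderiv (Sum.inr r) P) * η r := by
      rw [hGA, map_sum]
      exact Finset.sum_congr rfl fun r _ => by rw [map_mul]
    have e5 : eval b GB = ∑ r, eval b (pderiv (Sum.inr r) P') * η' r := by
      rw [hGB, map_sum]
      exact Finset.sum_congr rfl fun r _ => by rw [map_mul]
    have e6 : ∑ r, eval b (pderiv (Sum.inr r) P') * T r = (eval a q / eval b q') * eval b GB := by
      rw [e5, Finset.mul_sum]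
      refine Finset.sum_congr rfl fun r _ => ?_
      rw [hTη, Pi.smul_apply, smul_eq_mul]
      ring
    rw [← e4] at e2
    rw [e6] at e3
    have e7 : (eval a q / eval b q') * eval b GB / eval (b ∘ Sum.inl) H' =
        eval a GA / eval (a ∘ Sum.inl) H := by
      rw [← e3, ← e2]
      exact e1
    rw [map_mul, map_mul, eval_inl, eval_inl]
    field_simp at e7
    linear_combination -e7
  have hA : ev k GA = ev k q * (ev k (rename Sum.inl H) * lam (ev k) P H v) := by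
    rw [← lam_mul (ev k) hH, hGA, map_sum, Finset.mul_sum]
    exact Finset.sum_congr rfl fun r _ => by rw [map_mul, hE]; ring
  have hB : ev l GB = ev l q' * (ev l (rename Sum.inl H') * lam (ev l) P' H' v) := by
    rw [← lam_mul (ev l) hH', hGB, map_sum, Finset.mul_sum]
    exact Finset.sum_congr rfl fun r _ => by rw [map_mul, hE']; ring
  rw [hA, hB, map_mul, map_mul] at hmain
  have h1 : (ev k q * ev k (rename Sum.inl H) * ev l q' * ev l (rename Sum.inl H')) *
      (lam (ev k) P H v - lam (ev l) P' H' v) = 0 := by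
    linear_combination hmain
  have h2 := (mul_eq_zero.1 h1).resolve_left
    (mul_ne_zero (mul_ne_zero (mul_ne_zero hq hH) hq') hH')
  exact sub_eq_zero.1 h2

end chg

end Run7.h418.Z
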