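import Pool.Agent.Run7.h418.Fam2
import Pool.Agent.Run7.h418.Z.Fam

/-!
Infinitesimal deformations of a curve, and Lie derivatives of differential forms.
-/

set_option autoImplicit false

open Metric Set Filter Topology MvPolynomial

namespace Run7.h418.Z

open Pool.Agent.Y190.OP

variable {N : ℕ}

section slices

end slices

section lie

variable {τ : Type} [Fintype τ]

end lie

section inf

variable {f : ℂ → Mat N} {D : Fin N → Dr (Fin N ⊕ Fin N)} {C : ℝ}

theorem Jd_deriv (h : Dat f D C) {y : ℂ → ℂ → Mat N}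
    (hy : ∀ᶠ s in 𝓝 (0 : ℂ), Sol (Vs (Rel f)) univ (y s)) {i : Fin N} {z : ℂ}
    (hg : Good y z 0 i) (G : Rn N) :
    HasDerivAt (fun w => Jd y i w G) (Jd y i z (D i G)) z := by
  have h1 : ∀ᶠ p : ℂ × ℂ in 𝓝 (z, 0), DifferentiableAt ℂ
      (fun p : ℂ × ℂ => eval (pr i (y p.2) p.1) G) p := by
    filter_upwards [hg] with p hp
    exact diff_eval hp.2 G
  have h2 := mixed h1
  have h3 : (fun t => deriv (fun w => eval (pr i (y t) w) G) z) =ᶠ[𝓝 0]
      fun t => eval (pr i (y t) z) (D i G) := by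
    filter_upwards [hy, good_slice hg] with t ht ht2
    have h4 := h.ode univ (y t) isOpen_univ ht z (mem_univ z) i ht2.1
    exact (hasDerivAt_eval (D i) h4.self_of_nhds G).deriv
  have h5 : deriv (fun t => deriv (fun w => (fun p : ℂ × ℂ => eval (pr i (y p.2) p.1) G) (w, t)) z) 0
      = Jd y i z (D i G) := by
    unfold Jd
    exact h3.deriv_eq
  rw [h5] at h2
  exact h2

theorem hat_deriv (h : Dat f D C) {y : ℂ → ℂ → Mat N}
    (hy : ∀ᶠ s in 𝓝 (0 : ℂ), Sol (Vs (Rel f)) univ (y s)) {i : Fin N} {z : ℂ}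
    (hg : Good y z 0 i) (θ : Fin N ⊕ Fin N → Rn N) :
    HasDerivAt (hat y i θ) (hat y i (Lie (D i) θ) z) z := by
  have hz := h.ode univ (y 0) isOpen_univ hy.self_of_nhds z (mem_univ z) i hg.self_of_nhds.1
  have h1 : HasDerivAt (hat y i θ) (∑ l, (eval (pr i (y 0) z) (D i (θ l)) * Jd y i z (X l) +
      eval (pr i (y 0) z) (θ l) * Jd y i z (D i (X l)))) z := by
    unfold hat
    refine HasDerivAt.fun_sum fun l _ => ?_
    exact (hasDerivAt_eval (D i) hz.self_of_nhds (θ l)).mul (Jd_deriv h hy hg (X l))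
  refine h1.congr_deriv ?_
  unfold hat Lie
  simp only [map_add, map_sum, map_mul, add_mul, Finset.sum_add_distrib]
  congr 1
  simp only [Finset.sum_mul]
  rw [Finset.sum_comm]
  refine Finset.sum_congr rfl fun m _ => ?_
  rw [Jd_sum hg (D i (X m)), Finset.mul_sum]
  exact Finset.sum_congr rfl fun l _ => by ring

theorem hat_iter (h : Dat f D C) {y : ℂ → ℂ → Mat N}
    (hy : ∀ᶠ s in 𝓝 (0 : ℂ), Sol (Vs (Rel f)) univ (y s)) {i : Fin N} {z : ℂ}
    (hg : Good y z 0 i) (m : ℕ) : ∀ θ : Fin N ⊕ Fin N → Rn N,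
    iteratedDeriv m (hat y i θ) z = hat y i ((Lie (D i))^[m] θ) z := by
  have hgev : ∀ᶠ w in 𝓝 z, Good y w 0 i := eventually_slice1 hg.eventually_nhds
  induction m with
  | zero => intro θ; simp
  | succ m ih =>
    intro θ
    rw [iteratedDeriv_succ', Function.iterate_succ_apply, ← ih (Lie (D i) θ)]
    apply Filter.EventuallyEq.iteratedDeriv_eq
    filter_upwards [hgev] with w hw
    exact (hat_deriv h hy hw θ).deriv

end inf

end Run7.h418.Z
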