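import Pool.Agent.Run7.h418.Ds
import Pool.Agent.Run7.h418.Z.Fam2

/-!
The derivatives of the symmetric differentials in the direction of a family.
-/

set_option autoImplicit false

open Metric Set Filter Topology MvPolynomial

namespace Run7.h418.Z

open Pool.Agent.Y190.OP Pool.Agent.W602.GT Pool.Agent.N155

variable {n : ℕ} {ι κ : Type} {F : ι → MvPolynomial (Fin (n + 1)) ℂ}
  {σ : κ → (Fin (n + 1) → ℂ) → (Fin (n + 1) → ℂ) → ℂ} {m : κ → ℕ} {c : κ → ℂ}

section fam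

variable {f : ℂ → Mat (n + 1)} {D : Fin (n + 1) → Dr (Fin (n + 1) ⊕ Fin (n + 1))} {C : ℝ}

/-- the entire function of a family -/
theorem exists_entire_ds (h : Dat f D C) (hσ : ∀ j, SymForm F (m j) (σ j))
    (hV : ∀ i, Vs (Rel f) i ⊆ Ep F σ c i) {y : ℂ → ℂ → Mat (n + 1)}
    (hy : ∀ᶠ s in 𝓝 (0 : ℂ), Sol (Vs (Rel f)) univ (y s))
    (hg : ∀ z i, y 0 z i i ≠ 0 → Good y z 0 i) (j : κ) :
    ∃ g : ℂ → ℂ, Differentiable ℂ g ∧ ∀ z i, y 0 z i i ≠ 0 →
      g z = ds σ j (pr i (y 0) z) (eta y i z) := by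
  have hy0 := hy.self_of_nhds
  choose ix hix using fun z => PM.exists_diag (hy0.1.mem_PM (mem_univ z))
  have hTg : ∀ z i, y 0 z i i ≠ 0 → pr i (y 0) z ∈ Tg F i := fun z i hi =>
    (hV i (hy0.2 z (mem_univ z) i hi)).1
  have hs : ∀ z i, y 0 z i i ≠ 0 → ds σ j (pr (ix z) (y 0) z) (eta y (ix z) z) =
      ds σ j (pr i (y 0) z) (eta y i z) := by
    intro z i hi
    obtain ⟨h1, h2⟩ := pr_cc isOpen_univ hy0.1 (mem_univ z) (hix z) hi
    rw [eta_cc hy (hg z _ (hix z)) hi, h2]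
    exact (ds_cc hσ (hTg z _ (hix z)) h1 (eta_Tan hV hy (hg z _ (hix z))).1 j).symm
  refine ⟨fun z => ds σ j (pr (ix z) (y 0) z) (eta y (ix z) z), fun z => ?_, hs⟩
  have hi := hix z
  obtain ⟨P, H, hH, hrep⟩ := sg_rep hσ j (Tg.cone (hTg z _ hi))
  have hrep' : Rep F σ j P H := hrep
  have hpr : ∀ l, AnalyticAt ℂ (fun w => pr (ix z) (y 0) w l) z := fun l =>
    analyticAt_pr isOpen_univ hy0.1 (mem_univ z) hi l
  have hHH : AnalyticAt ℂ (fun w => eval (pr (ix z) (y 0) w) (HH H)) z := analyticAt_eval hpr _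
  have hHH0 : eval (pr (ix z) (y 0) z) (HH H) ≠ 0 := by
    unfold HH
    rw [map_pow, eval_inl]
    exact pow_ne_zero 2 hH
  have h1 : DifferentiableAt ℂ (fun w => hat y (ix z) (th P H) w /
      eval (pr (ix z) (y 0) w) (HH H)) z :=
    (hat_deriv h hy (hg z _ hi) _).differentiableAt.fun_div hHH.differentiableAt hHH0
  refine h1.congr_of_eventuallyEq ?_
  filter_upwards [hHH.continuousAt.eventually_ne hHH0, ev_diag hy0.1 (mem_univ z) hi] with w hw hwi
  rw [hs w _ hwi, hat_th hV hy (hg w _ hwi) hrep', mul_comm, mul_div_assoc, div_self hw, mul_one]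

end fam

end Run7.h418.Z
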