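import Pool.Agent.Run7.h418.Avg3

/-!
The growth of the curves of a family, as a function of the parameter.
-/

set_option autoImplicit false

open Metric Set Filter Topology Real

namespace Run7.h418.Z

open Pool.Agent.Y190.OP

variable {N : ℕ}

/-- the growth of a family -/
theorem main_av {Φ : ℂ → ℂ → Mat N} {r ε0 : ℝ} (hr : 0 < r) (hε0 : 0 < ε0)
    (h1 : ∀ s ∈ ball (0 : ℂ) ε0, HolP univ fun z => Φ z s)
    (h2 : ∀ z, HolP (ball 0 ε0) fun s => Φ z s)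
    (h3 : ContinuousOn (fun p : ℂ × ℂ => Φ p.1 p.2) (univ ×ˢ ball 0 ε0)) :
    ∃ ε1 > 0, ε1 ≤ ε0 ∧ ∃ L : ℂ → ℂ → Fin N → ℂ,
      (∀ z ∈ closedBall (0 : ℂ) r, IsLift (ball 0 ε1) (fun s => Φ z s) (L z)) ∧
      (∀ s ∈ ball (0 : ℂ) ε1, Tr r (fun z => Φ z s) = av r (fun z => lg (L z s)) - lg (L 0 s)) ∧
      ContinuousOn (fun s => av r (fun z => lg (L z s))) (ball 0 ε1) ∧
      ∀ ε, 0 < ε → ε < ε1 → ContinuousOn (fun z => tr ε (L z)) (sphere 0 r) ∧
        av r (fun z => tr ε (L z)) =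
          av ε (fun s => av r (fun z => lg (L z s))) - av r (fun z => lg (L z 0)) := by
  have h00 : (0 : ℂ) ∈ ball (0 : ℂ) ε0 := mem_ball_self hε0
  obtain ⟨G, hG, hG0, hGφ⟩ := zero_free (h1 0 h00)
  obtain ⟨l, hl, hpair⟩ := exists_partner hG hG0 (r + 2)
  set K : Set ℂ := closedBall 0 (r + 1) with hK
  set B : Set ℂ := ball 0 (r + 2) with hB
  have hKB : K ⊆ B := closedBall_subset_ball (by linarith)
  have hdc : ContinuousOn (fun p : ℂ × ℂ => dn (l p.1) (Φ p.1 p.2)) (B ×ˢ ball 0 ε0) := by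
    have h4 : ContinuousOn (fun p : ℂ × ℂ => (l p.1, Φ p.1 p.2)) (B ×ˢ ball 0 ε0) := by
      refine ContinuousOn.prodMk ?_ (h3.mono (Set.prod_mono (subset_univ _) le_rfl))
      exact hl.continuousOn.comp continuousOn_fst fun p hp => hp.1
    exact Continuous.comp_continuousOn (g := fun p : (Fin N → ℂ) × Mat N => dn p.1 p.2)
      (f := fun p : ℂ × ℂ => (l p.1, Φ p.1 p.2)) continuous_dn h4
  have hBo : IsOpen (B ×ˢ ball (0 : ℂ) ε0) := IsOpen.prod isOpen_ball isOpen_ball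
  set d : ℂ × ℂ → ℂ := fun p => dn (l p.1) (Φ p.1 p.2) with hd
  have hopen : IsOpen (B ×ˢ ball (0 : ℂ) ε0 ∩ d ⁻¹' {0}ᶜ) :=
    hdc.isOpen_inter_preimage hBo isOpen_compl_singleton
  have hsub : K ×ˢ ({0} : Set ℂ) ⊆ B ×ˢ ball (0 : ℂ) ε0 ∩ d ⁻¹' {0}ᶜ := by
    rintro ⟨z, s⟩ ⟨hz, hs⟩
    have hs0 : s = 0 := hs
    have hz' : z ∈ K := hz
    rw [hs0]
    have h4 : d (z, 0) ≠ 0 := by
      rw [hd]
      change dn (l z) (Φ z 0) ≠ 0
      rw [hGφ z, dn_ne (hG0 z), hpair z (hKB hz')]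
      exact one_ne_zero
    exact ⟨⟨hKB hz', h00⟩, h4⟩
  obtain ⟨u, v, hu, hv, hKu, h0v, huv⟩ := generalized_tube_lemma (isCompact_closedBall 0 (r + 1))
    isCompact_singleton hopen hsub
  obtain ⟨ε1, hε1, hε1v⟩ := Metric.isOpen_iff.1 hv 0 (h0v rfl)
  have hdn : ∀ z ∈ K, ∀ s ∈ ball (0 : ℂ) (min ε1 ε0), dn (l z) (Φ z s) ≠ 0 := by
    intro z hz s hs
    have h4 : (z, s) ∈ u ×ˢ v := ⟨hKu hz, hε1v (ball_subset_ball (min_le_left _ _) hs)⟩
    have h5 : d (z, s) ≠ 0 := (huv h4).2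
    exact h5
  have hmin : 0 < min ε1 ε0 := lt_min hε1 hε0
  set L : ℂ → ℂ → Fin N → ℂ := fun z s => nl (l z) (Φ z s) with hL
  have hb0 : ball (0 : ℂ) (min ε1 ε0) ⊆ ball 0 ε0 := ball_subset_ball (min_le_right _ _)
  have hr1 : ball (0 : ℂ) (r + 1) ⊆ K := ball_subset_closedBall
  have hLz : ∀ s ∈ ball (0 : ℂ) (min ε1 ε0), IsLift (ball 0 (r + 1)) (fun z => Φ z s)
      (fun z => L z s) := fun s hs => isLift_nl isOpen_ball ((h1 s (hb0 hs)).mono (subset_univ _))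
    (hl.mono (hr1.trans hKB)) fun z hz => hdn z (hr1 hz) s hs
  have hLs : ∀ z ∈ K, IsLift (ball 0 (min ε1 ε0)) (fun s => Φ z s) (fun s => L z s) :=
    fun z hz => isLift_nl isOpen_ball ((h2 z).mono hb0) (differentiableOn_const _)
      fun s hs => hdn z hz s hs
  have hcr : closedBall (0 : ℂ) r ⊆ ball 0 (r + 1) := closedBall_subset_ball (by linarith)
  have hsr : sphere (0 : ℂ) r ⊆ K := fun z hz => by
    rw [mem_sphere_zero_iff_norm] at hz
    exact mem_closedBall_zero_iff.2 (by rw [hz]; linarith)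
  set g : ℂ → ℂ → ℝ := fun z s => lg (L z s) with hg
  have hgc : ContinuousOn (fun p : ℂ × ℂ => g p.1 p.2) (K ×ˢ ball 0 (min ε1 ε0)) := by
    intro p hp
    have h4 : ContinuousWithinAt (fun p : ℂ × ℂ => (l p.1, Φ p.1 p.2))
        (K ×ˢ ball 0 (min ε1 ε0)) p := by
      refine ContinuousWithinAt.prodMk ?_ ((h3 p ⟨mem_univ _, hb0 hp.2⟩).mono
        (Set.prod_mono (subset_univ _) hb0))
      exact ((hl.continuousOn.mono hKB) p.1 hp.1).comp continuousWithinAt_fst fun q hq => hq.1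
    have h5 := (continuousAt_nl (p := (l p.1, Φ p.1 p.2)) (hdn _ hp.1 _ hp.2)).comp_continuousWithinAt
      (f := fun p : ℂ × ℂ => (l p.1, Φ p.1 p.2)) h4
    have h6 : ContinuousAt lg (L p.1 p.2) := continuousAt_lg ((hLs p.1 hp.1).2 p.2 hp.2).1
    exact ContinuousAt.comp_continuousWithinAt (g := lg)
      (f := fun p : ℂ × ℂ => nl (l p.1) (Φ p.1 p.2)) h6 h5
  have hgz : ∀ s ∈ ball (0 : ℂ) (min ε1 ε0), ContinuousOn (fun z => g z s) K := by
    intro s hs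
    exact hgc.comp (f := fun z => (z, s)) (by fun_prop) fun z hz => ⟨hz, hs⟩
  have h0K : (0 : ℂ) ∈ K := mem_closedBall_self (by linarith)
  have hm0 : (0 : ℂ) ∈ ball (0 : ℂ) (min ε1 ε0) := mem_ball_self hmin
  refine ⟨min ε1 ε0, hmin, min_le_right _ _, L, fun z hz => hLs z (hr1 (hcr hz)),
    fun s hs => ?_, ?_, fun ε hε hεm => ?_⟩
  · exact Tr_eq hr.le (h1 s (hb0 hs)) isOpen_ball hcr (hLz s hs)
  · refine av_cont hr.le (g := fun s z => g z s) ?_
    exact hgc.comp (f := fun p : ℂ × ℂ => (p.2, p.1)) (by fun_prop)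
      fun p hp => ⟨hsr hp.2, hp.1⟩
  · have hsε : sphere (0 : ℂ) ε ⊆ ball 0 (min ε1 ε0) := fun z hz => by
      rw [mem_sphere_zero_iff_norm] at hz
      exact mem_ball_zero_iff.2 (by rw [hz]; exact hεm)
    refine ⟨?_, ?_⟩
    · unfold tr
      refine ContinuousOn.sub ?_ ((hgz 0 hm0).mono hsr)
      exact av_cont hε.le (hgc.mono (Set.prod_mono hsr hsε))
    · unfold tr
      rw [av_sub (f := fun z => av ε (fun s => g z s)) (g := fun z => g z 0) hr.le
        (av_cont hε.le (hgc.mono (Set.prod_mono hsr hsε))) ((hgz 0 hm0).mono hsr),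
        av_swap hr.le hε.le (hgc.mono (Set.prod_mono hsr hsε))]

/-- the potential of a family of curves -/
noncomputable def Wf (r : ℝ) (i : Fin N) (y : ℂ → ℂ → Mat N) (s : ℂ) : ℝ :=
  Tr r (y s) + lg (chart i (y s 0))

/-- the potential is strictly subharmonic -/
theorem loc_low {y : ℂ → ℂ → Mat N} {r ε0 : ℝ} (hr : 0 < r) (hε0 : 0 < ε0) {i : Fin N}
    (h1 : ∀ s ∈ ball (0 : ℂ) ε0, HolP univ (y s))
    (h2 : ∀ z, HolP (ball 0 ε0) fun s => y s z)
    (h3 : ContinuousOn (fun p : ℂ × ℂ => y p.2 p.1) (univ ×ˢ ball 0 ε0)) (hi : y 0 0 i i ≠ 0)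
    {h : ℂ → ℂ} (hh : Continuous h) {K : ℝ}
    (hK : ∀ z k, y 0 z k k ≠ 0 → chart k (y 0 z) ∈ Kc k →
      ‖h z‖ ≤ K * ‖deriv (fun s => chart k (y s z)) 0‖) :
    ContinuousAt (Wf r i y) 0 ∧ ∃ ε1 > 0, ∀ ε, 0 < ε → ε < ε1 →
      ε ^ 2 * av r (fun z => ‖h z‖ ^ 2) ≤ 8 * N * K ^ 2 * (av ε (Wf r i y) - Wf r i y 0) := by
  have h00 : (0 : ℂ) ∈ ball (0 : ℂ) ε0 := mem_ball_self hε0
  obtain ⟨ε1, hε1, hε10, L, hL, hT, hLc, hLav⟩ := main_av (Φ := fun z s => y s z) hr hε0 h1 h2 h3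
  have hang : ∃ ε2 > 0, ∀ z ∈ closedBall (0 : ℂ) r, ∀ s ∈ ball (0 : ℂ) ε2,
      1 / 2 ≤ ‖an (y s z) (y 0 z)‖ := by
    set d : ℂ × ℂ → ℝ := fun p => ‖an (y p.2 p.1) (y 0 p.1)‖ with hd
    have hdc : ContinuousOn d (univ ×ˢ ball 0 ε0) := by
      have h4 : ContinuousOn (fun p : ℂ × ℂ => (y p.2 p.1, y 0 p.1)) (univ ×ˢ ball 0 ε0) := by
        refine ContinuousOn.prodMk h3 ?_
        exact h3.comp (f := fun p : ℂ × ℂ => (p.1, (0 : ℂ))) (by fun_prop)
          fun p _ => ⟨mem_univ _, h00⟩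
      exact (Continuous.comp_continuousOn (g := fun p : Mat N × Mat N => an p.1 p.2)
        (f := fun p : ℂ × ℂ => (y p.2 p.1, y 0 p.1)) continuous_an h4).norm
    have hopen : IsOpen (univ ×ˢ ball (0 : ℂ) ε0 ∩ d ⁻¹' Ioi (1 / 2)) :=
      hdc.isOpen_inter_preimage (isOpen_univ.prod isOpen_ball) isOpen_Ioi
    have hsub : closedBall (0 : ℂ) r ×ˢ ({0} : Set ℂ) ⊆
        univ ×ˢ ball (0 : ℂ) ε0 ∩ d ⁻¹' Ioi (1 / 2) := by
      rintro ⟨z, s⟩ ⟨-, hs⟩
      have hs0 : s = 0 := hs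
      rw [hs0]
      refine ⟨⟨mem_univ _, h00⟩, ?_⟩
      change 1 / 2 < ‖an (y 0 z) (y 0 z)‖
      rw [an_self ((h1 0 h00).mem_PM (mem_univ z)), norm_one]
      norm_num
    obtain ⟨u, v, hu, hv, hKu, h0v, huv⟩ := generalized_tube_lemma (isCompact_closedBall 0 r)
      isCompact_singleton hopen hsub
    obtain ⟨ε2, hε2, hε2v⟩ := Metric.isOpen_iff.1 hv 0 (h0v rfl)
    refine ⟨ε2, hε2, fun z hz s hs => ?_⟩
    have h4 : (z, s) ∈ u ×ˢ v := ⟨hKu hz, hε2v hs⟩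
    have h5 : 1 / 2 < d (z, s) := (huv h4).2
    exact h5.le
  obtain ⟨ε2, hε2, hang⟩ := hang
  obtain ⟨ε3, hε3, hε3'⟩ := Metric.eventually_nhds_iff_ball.1 (ev_diag (h2 0) h00 hi)
  set R : ℝ := min ε1 (min ε2 ε3) with hR
  have hR0 : 0 < R := lt_min hε1 (lt_min hε2 hε3)
  have hR1 : R ≤ ε1 := min_le_left _ _
  have hR2 : R ≤ ε2 := (min_le_right _ _).trans (min_le_left _ _)
  have hR3 : R ≤ ε3 := (min_le_right _ _).trans (min_le_right _ _)
  have h0r : (0 : ℂ) ∈ closedBall (0 : ℂ) r := mem_closedBall_self hr.le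
  -- the chart of the starting points
  have hψ : HolP (ball 0 R) (fun s => y s 0) := (h2 0).mono (ball_subset_ball (hR1.trans hε10))
  have hch : IsLift (ball 0 R) (fun s => y s 0) (fun s => chart i (y s 0)) :=
    isLift_chart hψ fun s hs => hε3' s (ball_subset_ball hR3 hs)
  have hL0 : IsLift (ball 0 R) (fun s => y s 0) (L 0) := (hL 0 h0r).mono (ball_subset_ball hR1)
  have hcc : ContinuousOn (fun s => lg (chart i (y s 0))) (ball 0 R) := hch.continuousOn_lg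
  have hcL : ContinuousOn (fun s => lg (L 0 s)) (ball 0 R) := hL0.continuousOn_lg
  have hWeq : ∀ s ∈ ball (0 : ℂ) R, Wf r i y s = av r (fun z => lg (L z s)) +
      (lg (chart i (y s 0)) - lg (L 0 s)) := by
    intro s hs
    unfold Wf
    have h4 := hT s (ball_subset_ball hR1 hs)
    change Tr r (y s) = _ at h4
    rw [h4]
    ring
  have hcc2 : ContinuousOn (fun s => lg (chart i (y s 0)) - lg (L 0 s)) (ball 0 R) := hcc.sub hcL
  have hLc' : ContinuousOn (fun s => av r (fun z => lg (L z s))) (ball 0 R) :=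
    hLc.mono (ball_subset_ball hR1)
  have h0R : (0 : ℂ) ∈ ball (0 : ℂ) R := mem_ball_self hR0
  refine ⟨?_, R, hR0, fun ε hε hεR => ?_⟩
  · have h4 : ContinuousAt (fun s => av r (fun z => lg (L z s)) +
        (lg (chart i (y s 0)) - lg (L 0 s))) 0 :=
      ((hLc'.add hcc2).continuousAt (isOpen_ball.mem_nhds h0R))
    refine h4.congr ?_
    filter_upwards [isOpen_ball.mem_nhds h0R] with s hs
    exact (hWeq s hs).symm
  · obtain ⟨hc, hav⟩ := hLav ε hε (hεR.trans_le hR1)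
    have hsR : sphere (0 : ℂ) ε ⊆ ball 0 R := fun z hz => by
      rw [mem_sphere_zero_iff_norm] at hz
      exact mem_ball_zero_iff.2 (by rw [hz]; exact hεR)
    have hW : av ε (Wf r i y) - Wf r i y 0 = av r (fun z => tr ε (L z)) := by
      have h4 : av ε (Wf r i y) = av ε (fun s => av r (fun z => lg (L z s)) +
          (lg (chart i (y s 0)) - lg (L 0 s))) := av_congr hε.le fun s hs => hWeq s (hsR hs)
      have h5 := tr_congr hε.le isOpen_ball (closedBall_subset_ball hεR) hch hL0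
      unfold tr at h5
      rw [h4, hWeq 0 h0R, av_add (f := fun s => av r (fun z => lg (L z s)))
        (g := fun s => lg (chart i (y s 0)) - lg (L 0 s)) hε.le (hLc'.mono hsR) (hcc2.mono hsR),
        av_sub (f := fun s => lg (chart i (y s 0))) (g := fun s => lg (L 0 s)) hε.le
          (hcc.mono hsR) (hcL.mono hsR), hav]
      linarith
    rw [hW]
    have hh2 : ∀ z ∈ sphere (0 : ℂ) r, ε ^ 2 * ‖h z‖ ^ 2 ≤ 8 * N * K ^ 2 * tr ε (L z) := by
      intro z hz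
      have hz' : z ∈ closedBall (0 : ℂ) r := sphere_subset_closedBall hz
      obtain ⟨k, hk, hkK⟩ := exists_max ((h1 0 h00).mem_PM (mem_univ z))
      have h4 := low hε hεR ((h2 z).mono (ball_subset_ball (hR1.trans hε10))) hk hkK
        (fun s hs => hang z hz' s (ball_subset_ball hR2 hs))
        ((hL z hz').mono (ball_subset_ball hR1))
      have h5 := hK z k hk hkK
      calc ε ^ 2 * ‖h z‖ ^ 2 ≤ ε ^ 2 * (K * ‖deriv (fun s => chart k (y s z)) 0‖) ^ 2 := by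
            gcongr
        _ = K ^ 2 * (ε ^ 2 * ‖deriv (fun s => chart k (y s z)) 0‖ ^ 2) := by ring
        _ ≤ K ^ 2 * (8 * N * tr ε (L z)) := by gcongr
        _ = _ := by ring
    calc ε ^ 2 * av r (fun z => ‖h z‖ ^ 2) = av r (fun z => ε ^ 2 * ‖h z‖ ^ 2) := by rw [av_mul]
      _ ≤ av r (fun z => 8 * N * K ^ 2 * tr ε (L z)) :=
          av_mono hr.le (by fun_prop) (continuousOn_const.mul hc) hh2
      _ = _ := by rw [av_mul]

/-- the maximum principle -/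
theorem exists_small {W q : ℂ → ℝ} {η A : ℝ} (hη : 0 < η)
    (hc : ContinuousOn W (closedBall 0 η))
    (hloc : ∀ s0 ∈ ball (0 : ℂ) η, ∃ ε1 > 0, ∀ ε, 0 < ε → ε < ε1 →
      ε ^ 2 * q s0 ≤ av ε (fun s => W (s0 + s)) - W s0)
    (hA : ∀ s ∈ closedBall (0 : ℂ) η, W s ≤ W 0 + A) :
    ∃ s ∈ ball (0 : ℂ) η, q s * η ^ 2 ≤ A + 1 := by
  by_contra hcon
  push Not at hcon
  set c : ℝ := (A + 1) / η ^ 2 with hcdef
  have hη2 : 0 < η ^ 2 := by positivity
  have hch : ContinuousOn (fun s => W s - c * ‖s‖ ^ 2) (closedBall 0 η) :=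
    hc.sub (by fun_prop)
  obtain ⟨s0, hs0, hmax⟩ := (isCompact_closedBall (0 : ℂ) η).exists_isMaxOn
    ⟨0, mem_closedBall_self hη.le⟩ hch
  have hmax' : ∀ s ∈ closedBall (0 : ℂ) η, W s - c * ‖s‖ ^ 2 ≤ W s0 - c * ‖s0‖ ^ 2 :=
    fun s hs => hmax hs
  rcases lt_or_eq_of_le (mem_closedBall_zero_iff.1 hs0) with hlt | heq
  · have hs0b : s0 ∈ ball (0 : ℂ) η := mem_ball_zero_iff.2 hlt
    obtain ⟨ε1, hε1, hε⟩ := hloc s0 hs0b
    set ε : ℝ := min ε1 (η - ‖s0‖) / 2 with hεd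
    have hm : 0 < min ε1 (η - ‖s0‖) := lt_min hε1 (by linarith)
    have hε0 : 0 < ε := by positivity
    have h1 : ε < ε1 := by
      have : min ε1 (η - ‖s0‖) ≤ ε1 := min_le_left _ _
      linarith
    have h2 : ε < η - ‖s0‖ := by
      have : min ε1 (η - ‖s0‖) ≤ η - ‖s0‖ := min_le_right _ _
      linarith
    have h3 := hε ε hε0 h1
    have hsub : ∀ s ∈ sphere (0 : ℂ) ε, s0 + s ∈ closedBall (0 : ℂ) η := by
      intro s hs
      rw [mem_sphere_zero_iff_norm] at hs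
      rw [mem_closedBall_zero_iff]
      have := norm_add_le s0 s
      rw [hs] at this
      linarith
    have hcs : ContinuousOn (fun s => W (s0 + s)) (sphere 0 ε) :=
      hc.comp (f := fun s => s0 + s) (by fun_prop) hsub
    have h4 : av ε (fun s => W (s0 + s)) ≤
        av ε (fun s => (W s0 - c * ‖s0‖ ^ 2 + c * (‖s0‖ ^ 2 + ε ^ 2)) +
          2 * c * (s * (starRingEnd ℂ) s0).re) := by
      refine av_mono hε0.le hcs (by fun_prop) fun s hs => ?_
      have h5 := hmax' _ (hsub s hs)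
      have h6 : ‖s0 + s‖ ^ 2 = ‖s0‖ ^ 2 + ‖s‖ ^ 2 + 2 * (s * (starRingEnd ℂ) s0).re := by
        have := norm_sq_add (s0 + s) s0
        rw [add_sub_cancel_left] at this
        exact this
      rw [mem_sphere_zero_iff_norm] at hs
      rw [h6, hs] at h5
      linarith
    have h5 : av ε (fun s => (W s0 - c * ‖s0‖ ^ 2 + c * (‖s0‖ ^ 2 + ε ^ 2)) +
          2 * c * (s * (starRingEnd ℂ) s0).re) = W s0 + c * ε ^ 2 := by
      rw [av_add (f := fun _ => W s0 - c * ‖s0‖ ^ 2 + c * (‖s0‖ ^ 2 + ε ^ 2)) hε0.le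
        continuousOn_const (by fun_prop), av_const, av_mul,
        av_re (g := fun s => s * (starRingEnd ℂ) s0) (R := ε + 1) hε0.le (by linarith)
          (by fun_prop)]
      simp
      ring
    have h6 : q s0 * ε ^ 2 ≤ c * ε ^ 2 := by linarith
    have h7 : q s0 ≤ c := le_of_mul_le_mul_right h6 (by positivity)
    have h8 := hcon s0 hs0b
    have h9 : q s0 * η ^ 2 ≤ A + 1 := by
      calc q s0 * η ^ 2 ≤ c * η ^ 2 := by gcongr
        _ = A + 1 := by rw [hcdef]; field_simp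
    linarith
  · have h1 := hmax' 0 (mem_closedBall_self hη.le)
    have h2 := hA s0 hs0
    have h3 : c * η ^ 2 = A + 1 := by rw [hcdef]; field_simp
    rw [norm_zero, heq] at h1
    have h4 : c * (0 : ℝ) ^ 2 = 0 := by ring
    linarith

end Run7.h418.Z
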