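import Pool.Agent.Run7.h418.Z.Ds
import Pool.Agent.Run7.h418.Z.Avg3
import Pool.Agent.Run7.h418.Z.Loc
import Pool.Agent.Run7.h418.Lim

/-!
Families of curves along the flow of a vector field.
-/

set_option autoImplicit false

open Metric Set Filter Topology MvPolynomial

namespace Run7.h418.Z

open Pool.Agent.Y190.OP Pool.Agent.W602.GT Pool.Agent.N155

section fm

variable {N : ℕ} {f : ℂ → Mat N} {D : Fin N → Dr (Fin N ⊕ Fin N)} {C : ℝ}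

/-- a family of curves along the flow of the vector field `E` -/
structure Fm (f : ℂ → Mat N) (i : Fin N) (E : Dr (Fin N ⊕ Fin N)) (ρ : ℝ)
    (y : ℂ → ℂ → Mat N) : Prop where
  pos : 0 < ρ
  sol : ∀ s ∈ ball (0 : ℂ) ρ, Sol (Vs (Rel f)) univ (y s)
  dg : ∀ s ∈ ball (0 : ℂ) ρ, y s 0 i i ≠ 0
  ode : ∀ s ∈ ball (0 : ℂ) ρ, SolAt E (fun s => pr i (y s) 0) s
  good : ∀ s ∈ ball (0 : ℂ) ρ, ∀ z k, y s z k k ≠ 0 → Good y z s k

theorem Dat.exists_fm (h : Dat f D C) {i : Fin N} {φ : ℂ → Mat N}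
    (hφ : Sol (Vs (Rel f)) univ φ) (hi : φ 0 i i ≠ 0) {E : Dr (Fin N ⊕ Fin N)}
    (hE : ∀ G ∈ Rel f i, E G ∈ Rel f i) {B ρ : ℝ} (hR : Rad E B ρ) (hB : ‖pr i φ 0‖ < B) :
    ∃ y : ℂ → ℂ → Mat N, y 0 = φ ∧ Fm f i E ρ y ∧
      ∀ s ∈ ball (0 : ℂ) ρ, pr i (y s) 0 = fl E (pr i φ 0) s := by
  obtain ⟨y, h0, h1, h2⟩ := h.exists_family hφ hi hE hR hB
  refine ⟨y, h0, ⟨hR.pos, fun s hs => (h1 s hs).1, fun s hs => (h1 s hs).2.1, fun s hs => ?_, h2⟩,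
    fun s hs => (h1 s hs).2.2⟩
  have h3 : ∀ᶠ t in 𝓝 s, ∀ᶠ t' in 𝓝 t, t' ∈ ball (0 : ℂ) ρ :=
    Filter.Eventually.eventually_nhds (isOpen_ball.mem_nhds hs)
  filter_upwards [h3] with t ht l
  have ht0 := ht.self_of_nhds
  have h4 : (fun s => pr i (y s) 0 l) =ᶠ[𝓝 t] fun s => fl E (pr i φ 0) s l := by
    filter_upwards [ht] with t' ht'
    rw [(h1 t' ht').2.2]
  refine HasDerivAt.congr_of_eventuallyEq ?_ h4
  rw [(h1 t ht0).2.2]
  exact hR.hasDerivAt_fl hB.le (mem_ball_zero_iff.1 ht0) l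

theorem Fm.shift {i : Fin N} {E : Dr (Fin N ⊕ Fin N)} {ρ ρ' : ℝ} {y : ℂ → ℂ → Mat N}
    (h : Fm f i E ρ y) {s0 : ℂ} (hρ' : 0 < ρ') (hs0 : ‖s0‖ + ρ' ≤ ρ) :
    Fm f i E ρ' (fun s => y (s0 + s)) := by
  have hm : ∀ s ∈ ball (0 : ℂ) ρ', s0 + s ∈ ball (0 : ℂ) ρ := by
    intro s hs
    rw [mem_ball_zero_iff] at hs ⊢
    have := norm_add_le s0 s
    linarith
  refine ⟨hρ', fun s hs => h.sol _ (hm s hs), fun s hs => h.dg _ (hm s hs), fun s hs => ?_,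
    fun s hs z k hk => ?_⟩
  · have h1 := h.ode _ (hm s hs)
    have hc : ContinuousAt (fun s : ℂ => s0 + s) s := by fun_prop
    filter_upwards [hc.eventually h1] with t ht l
    have h2 := ht l
    exact h2.comp_const_add s0 t
  · have h1 := h.good _ (hm s hs) z k hk
    have hc : ContinuousAt (fun p : ℂ × ℂ => (p.1, s0 + p.2)) (z, s) := by fun_prop
    have h2 : ∀ᶠ p : ℂ × ℂ in 𝓝 ((fun p : ℂ × ℂ => (p.1, s0 + p.2)) (z, s)),
        y p.2 p.1 k k ≠ 0 ∧ DifferentiableAt ℂ (fun p : ℂ × ℂ => pr k (y p.2) p.1) p := h1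
    filter_upwards [hc.eventually h2] with p hp
    refine ⟨hp.1, ?_⟩
    have h3 : DifferentiableAt ℂ (fun p : ℂ × ℂ => (p.1, s0 + p.2)) p := by fun_prop
    exact DifferentiableAt.comp (g := fun p : ℂ × ℂ => pr k (y p.2) p.1)
      (f := fun p : ℂ × ℂ => (p.1, s0 + p.2)) p hp.2 h3

theorem Fm.mem0 {i : Fin N} {E : Dr (Fin N ⊕ Fin N)} {ρ : ℝ} {y : ℂ → ℂ → Mat N}
    (h : Fm f i E ρ y) : (0 : ℂ) ∈ ball (0 : ℂ) ρ := mem_ball_self h.pos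

theorem Fm.ev {i : Fin N} {E : Dr (Fin N ⊕ Fin N)} {ρ : ℝ} {y : ℂ → ℂ → Mat N}
    (h : Fm f i E ρ y) : ∀ᶠ s in 𝓝 (0 : ℂ), Sol (Vs (Rel f)) univ (y s) := by
  filter_upwards [isOpen_ball.mem_nhds h.mem0] with s hs
  exact h.sol s hs

/-- the value of a form at the starting point -/
theorem Fm.hat_zero {i : Fin N} {E : Dr (Fin N ⊕ Fin N)} {ρ : ℝ} {y : ℂ → ℂ → Mat N}
    (h : Fm f i E ρ y) (θ : Fin N ⊕ Fin N → Rn N) :
    hat y i θ 0 = eval (pr i (y 0) 0) (pairE θ E) := by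
  unfold hat pairE
  rw [map_sum]
  refine Finset.sum_congr rfl fun l _ => ?_
  rw [map_mul]
  congr 1
  unfold Jd
  simp only [eval_X]
  exact ((h.ode 0 h.mem0).self_of_nhds l).deriv

theorem Fm.loc {i : Fin N} {E : Dr (Fin N ⊕ Fin N)} {ρ r : ℝ} (hr : 0 < r) {y : ℂ → ℂ → Mat N}
    (hy : Fm f i E ρ y) {h : ℂ → ℂ} (hh : Continuous h) {K : ℝ}
    (hK : ∀ z k, y 0 z k k ≠ 0 → chart k (y 0 z) ∈ Kc k →
      ‖h z‖ ≤ K * ‖deriv (fun s => chart k (y s z)) 0‖) :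
    ContinuousAt (Wf r i y) 0 ∧ ∃ ε1 > 0, ∀ ε, 0 < ε → ε < ε1 →
      ε ^ 2 * av r (fun z => ‖h z‖ ^ 2) ≤ 8 * N * K ^ 2 * (av ε (Wf r i y) - Wf r i y 0) :=
  loc_low hr hy.pos (fun s hs => (hy.sol s hs).1)
    (fun z => fam_holP (fun s hs => (hy.sol s hs).1) hy.good z)
    (fam_cont (fun s hs => (hy.sol s hs).1) hy.good) (hy.dg 0 hy.mem0) hh hK

theorem Wf_shift (r : ℝ) (i : Fin N) (y : ℂ → ℂ → Mat N) (s0 s : ℂ) :
    Wf r i (fun s => y (s0 + s)) s = Wf r i y (s0 + s) := rfl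

theorem Fm.continuousOn {i : Fin N} {E : Dr (Fin N ⊕ Fin N)} {ρ r : ℝ} (hr : 0 < r)
    {y : ℂ → ℂ → Mat N} (hy : Fm f i E ρ y) : ContinuousOn (Wf r i y) (ball 0 ρ) := by
  intro s hs
  rw [mem_ball_zero_iff] at hs
  have h1 := ((hy.shift (s0 := s) (ρ' := ρ - ‖s‖) (by linarith) (by linarith)).loc hr
    (h := fun _ => 0) (K := 0) continuous_const fun z k _ _ => by simp).1
  have h2 : (Wf r i y) = (fun t => Wf r i (fun s' => y (s + s')) t) ∘ fun t => t - s := by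
    funext t
    simp only [Function.comp_apply, Wf_shift]
    rw [add_sub_cancel]
  rw [h2]
  refine ContinuousAt.continuousWithinAt ?_
  have h3 : ContinuousAt (fun t => Wf r i (fun s' => y (s + s')) t) ((fun t : ℂ => t - s) s) := by
    simpa using h1
  exact ContinuousAt.comp (g := fun t => Wf r i (fun s' => y (s + s')) t)
    (f := fun t : ℂ => t - s) (x := s) h3 (by fun_prop)

/-- the potential is subharmonic -/
theorem Fm.sub {i : Fin N} {E : Dr (Fin N ⊕ Fin N)} {ρ r : ℝ} (hr : 0 < r) {y : ℂ → ℂ → Mat N}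
    (hy : Fm f i E ρ y) : ∃ ε1 > 0, ∀ ε, 0 < ε → ε < ε1 → Wf r i y 0 ≤ av ε (Wf r i y) := by
  obtain ⟨-, ε1, hε1, h1⟩ := hy.loc hr (h := fun _ => 0) (K := 1) continuous_const
    fun z k _ _ => by simp
  refine ⟨ε1, hε1, fun ε h2 h3 => ?_⟩
  have h4 := h1 ε h2 h3
  have hN : (0 : ℝ) < N := by
    have : 0 < N := i.pos
    exact_mod_cast this
  have h5 : (0 : ℝ) ≤ 8 * N * 1 ^ 2 * (av ε (Wf r i y) - Wf r i y 0) := by
    refine le_trans ?_ h4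
    have h6 : av r (fun _ : ℂ => ‖(0 : ℂ)‖ ^ 2) = 0 := by
      rw [av_const]
      simp
    rw [h6]
    simp
  have h6 : 0 ≤ av ε (Wf r i y) - Wf r i y 0 := by
    have : (0 : ℝ) < 8 * N * 1 ^ 2 := by positivity
    exact nonneg_of_mul_nonneg_right h5 this
  linarith

end fm

end Run7.h418.Z
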