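import Pool.Agent.Run7.h418.Lim
import Pool.Agent.Run7.h418.Z.Ds
import Pool.Agent.Run7.h418.Z.Fm

/-!
The limit of the curves with maximal growth.
-/

set_option autoImplicit false

open Metric Set Filter Topology MvPolynomial

namespace Run7.h418.Z

open Pool.Agent.Y190.OP Pool.Agent.W602.GT Pool.Agent.N155

variable {n : ℕ} {ι κ : Type} {F : ι → MvPolynomial (Fin (n + 1)) ℂ}
  {σ : κ → (Fin (n + 1) → ℂ) → (Fin (n + 1) → ℂ) → ℂ} {m : κ → ℕ} {c : κ → ℂ}

section dat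

variable {N : ℕ} {f : ℂ → Mat N} {D : Fin N → Dr (Fin N ⊕ Fin N)} {C : ℝ}

/-- the curves are given by the flow -/
theorem Dat.pr_fl (h : Dat f D C) {i : Fin N} {φ : ℂ → Mat N} (hφ : Sol (Vs (Rel f)) univ φ)
    (hi : φ 0 i i ≠ 0) {B ρ : ℝ} (hR : Rad (D i) B ρ) (hB : ‖pr i φ 0‖ ≤ B) :
    ∀ w ∈ ball (0 : ℂ) ρ, φ w i i ≠ 0 ∧ pr i φ w = fl (D i) (pr i φ 0) w := by
  have h6 := hφ.2 0 (mem_univ 0) i hi
  obtain ⟨h7, h8⟩ := h.chart_sol (U := ball 0 ρ) isOpen_ball (i := i)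
    (γ := fun z => fl (D i) (pr i φ 0) z) (fun z hz =>
      fl_mem (fun G hG => h.stab hG) hR h6 hB (mem_ball_zero_iff.1 hz).le) (fun z hz l =>
      hR.hasDerivAt_fl hB (mem_ball_zero_iff.1 hz) l)
  have h0 : (0 : ℂ) ∈ ball (0 : ℂ) ρ := mem_ball_self hR.pos
  obtain ⟨h9, h10⟩ := h8 0 h0
  have h11 := h.unique isOpen_univ isOpen_ball hφ h7 (mem_univ 0) h0 hi h9
    (by rw [h10, fl_zero])
  have h12 := h.eqOn isOpen_univ isOpen_ball convex_univ (convex_ball _ _) hφ h7 (mem_univ 0)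
    h0 h11
  intro w hw
  have h13 : φ =ᶠ[𝓝 w] fun z => Phi (fl (D i) (pr i φ 0) z ∘ Sum.inl) := by
    filter_upwards [isOpen_ball.mem_nhds hw] with x hx
    exact h12 ⟨mem_univ x, hx⟩
  obtain ⟨h14, h15⟩ := h8 w hw
  refine ⟨?_, ?_⟩
  · rw [h13.eq_of_nhds]
    exact h14
  · rw [pr_congr h13, h15]

end dat

section lim

variable {f : ℂ → Mat (n + 1)} {D : Fin (n + 1) → Dr (Fin (n + 1) ⊕ Fin (n + 1))} {C : ℝ}

/-- the estimate for a curve with bounded mean square of the deformation -/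
theorem Tm_bound (h : Dat f D C) {i : Fin (n + 1)}
    {E : Dr (Fin (n + 1) ⊕ Fin (n + 1))} (j : κ)
    {P : Rn (n + 1)} {H : MvPolynomial (Fin (n + 1)) ℂ} (hrep : Rep F σ j P H)
    (hV : ∀ i, Vs (Rel f) i ⊆ Ep F σ c i) (k : ℕ) {B : ℝ} (hB0 : 0 < B) :
    ∃ M : ℝ, ∀ (r : ℝ) (y : ℂ → ℂ → Mat (n + 1)) (ρE : ℝ) (g : ℂ → ℂ) (A : ℝ), 2 ≤ r →
      Fm f i E ρE y → ‖pr i (y 0) 0‖ < B → Differentiable ℂ g →
      (∀ z i, y 0 z i i ≠ 0 → g z = ds σ j (pr i (y 0) z) (eta y i z)) →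
      av r (fun z => ‖g z‖ ^ 2) ≤ A →
      ‖eval (pr i (y 0) 0) (Tm (D i) (HH H) (th P H) E k)‖ ≤ M * (1 + A) / r := by
  obtain ⟨ρD, hRD⟩ := exists_rad (D i) hB0.le
  obtain ⟨MH, hMH0, hMH⟩ := exists_bd (HH H) (B + 1)
  set ρ' : ℝ := min ρD 1 / 2 with hρ'
  have hρ'0 : 0 < ρ' := by
    have := hRD.pos
    positivity
  have hρ'D : ρ' < ρD := by
    have h1 : min ρD 1 ≤ ρD := min_le_left _ _
    have h2 : 0 < min ρD 1 := lt_min hRD.pos one_pos
    rw [hρ']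
    linarith
  have hρ'1 : ρ' ≤ 1 := by
    have h1 : min ρD 1 ≤ 1 := min_le_right _ _
    rw [hρ']
    linarith
  refine ⟨k.factorial * (MH * MH) / ρ' ^ k, fun r y ρE g A hr hfm hB hgd hgs hmean => ?_⟩
  set a := pr i (y 0) 0 with ha
  have hyev := hfm.ev
  have hg0 : ∀ z i, y 0 z i i ≠ 0 → Good y z 0 i := fun z i hi => hfm.good 0 hfm.mem0 z i hi
  have hφ := hfm.sol 0 hfm.mem0
  have hi := hfm.dg 0 hfm.mem0
  have hA0 : 0 ≤ 1 + A := by
    have h1 : 0 ≤ av r (fun z => ‖g z‖ ^ 2) := by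
      rw [← av_const r 0]
      exact av_mono (by linarith) continuousOn_const
        ((hgd.continuous.norm.pow 2).continuousOn) fun z _ => by positivity
    linarith
  have hdiff : ∀ z : ℂ, ‖z‖ ≤ 1 → ‖g z - g 0‖ ≤ (1 + A) / r := fun z hz =>
    cauchy_diff hgd hr hmean hz
  have hfl : ∀ w ∈ ball (0 : ℂ) ρD, y 0 w i i ≠ 0 ∧ pr i (y 0) w = fl (D i) a w :=
    h.pr_fl hφ hi hRD hB.le
  set G : ℂ → ℂ := fun w => eval a (HH H) * hat y i (th P H) w -
    eval (pr i (y 0) w) (HH H) * hat y i (th P H) 0 with hG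
  have hD0 : (0 : ℂ) ∈ ball (0 : ℂ) ρD := mem_ball_self hRD.pos
  have hGeq : ∀ w ∈ ball (0 : ℂ) ρD,
      G w = eval a (HH H) * (eval (pr i (y 0) w) (HH H) * (g w - g 0)) := by
    intro w hw
    have h1 := hfl w hw
    have h2 := hfl 0 hD0
    rw [hG]
    simp only
    rw [hat_th hV hyev (hg0 w i h1.1) hrep, hat_th hV hyev (hg0 0 i h2.1) hrep, hgs w i h1.1,
      hgs 0 i h2.1, ← ha]
    ring
  have hGbd : ∀ w ∈ sphere (0 : ℂ) ρ', ‖G w‖ ≤ MH * MH * (1 + A) / r := by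
    intro w hw
    rw [mem_sphere_zero_iff_norm] at hw
    have hwD : w ∈ ball (0 : ℂ) ρD := mem_ball_zero_iff.2 (by rw [hw]; exact hρ'D)
    rw [hGeq w hwD, norm_mul, norm_mul]
    have h1 : ‖eval a (HH H)‖ ≤ MH := hMH a (by linarith [hB])
    have h2 : ‖eval (pr i (y 0) w) (HH H)‖ ≤ MH := by
      refine hMH _ ?_
      rw [(hfl w hwD).2]
      have h3 := hRD.norm_fl hB.le (z := w) (by rw [hw]; exact hρ'D.le)
      calc ‖fl (D i) a w‖ = ‖(fl (D i) a w - a) + a‖ := by rw [sub_add_cancel]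
        _ ≤ ‖fl (D i) a w - a‖ + ‖a‖ := norm_add_le _ _
        _ ≤ 1 / 2 + B := add_le_add h3 hB.le
        _ ≤ B + 1 := by linarith
    have h3 := hdiff w (by rw [hw]; exact hρ'1)
    have hr0 : 0 < r := by linarith
    calc ‖eval a (HH H)‖ * (‖eval (pr i (y 0) w) (HH H)‖ * ‖g w - g 0‖)
        ≤ MH * (MH * ((1 + A) / r)) := by gcongr
      _ = MH * MH * (1 + A) / r := by ring
  have hGd : DifferentiableOn ℂ G (ball 0 ρD) := by
    intro w hw
    have h1 := hfl w hw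
    refine DifferentiableAt.differentiableWithinAt ?_
    refine ((hat_deriv h hyev (hg0 w i h1.1) (th P H)).differentiableAt.const_mul _).sub ?_
    refine DifferentiableAt.mul_const ?_ _
    exact (analyticAt_eval (fun l => analyticAt_pr isOpen_univ hyev.self_of_nhds.1 (mem_univ w)
      h1.1 l) _).differentiableAt
  have hcau := Complex.norm_iteratedDeriv_le_of_forall_mem_sphere_norm_le k hρ'0
    (hGd.diffContOnCl_ball (closedBall_subset_ball hρ'D)) hGbd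
  have hiter : iteratedDeriv k G 0 = eval a (Tm (D i) (HH H) (th P H) E k) := by
    have h1 := hfl 0 hD0
    have hode := h.ode univ (y 0) isOpen_univ hyev.self_of_nhds 0 (mem_univ 0) i h1.1
    have hA1 : AnalyticAt ℂ (hat y i (th P H)) 0 := by
      rw [Complex.analyticAt_iff_eventually_differentiableAt]
      filter_upwards [isOpen_ball.mem_nhds hD0] with w hw
      exact (hat_deriv h hyev (hg0 w i (hfl w hw).1) (th P H)).differentiableAt
    have hA2 : AnalyticAt ℂ (fun w => eval (pr i (y 0) w) (HH H)) 0 :=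
      analyticAt_eval (fun l => analyticAt_pr isOpen_univ hyev.self_of_nhds.1 (mem_univ 0)
        h1.1 l) _
    have h2 : iteratedDeriv k G 0 = eval a (HH H) * iteratedDeriv k (hat y i (th P H)) 0 -
        iteratedDeriv k (fun w => eval (pr i (y 0) w) (HH H)) 0 * hat y i (th P H) 0 := by
      have e1 : G = (fun w => eval a (HH H) * hat y i (th P H) w) -
          fun w => hat y i (th P H) 0 * eval (pr i (y 0) w) (HH H) := by
        funext w
        rw [hG, Pi.sub_apply]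
        ring
      have c1 : ContDiffAt ℂ k (fun w => eval a (HH H) * hat y i (th P H) w) 0 :=
        (analyticAt_const.mul hA1).contDiffAt
      have c2 : ContDiffAt ℂ k (fun w => hat y i (th P H) 0 * eval (pr i (y 0) w) (HH H)) 0 :=
        (analyticAt_const.mul hA2).contDiffAt
      rw [e1, iteratedDeriv_sub c1 c2, iteratedDeriv_const_mul_field,
        iteratedDeriv_const_mul_field]
      ring
    rw [h2, hat_iter h hyev (hg0 0 i h1.1), hfm.hat_zero, hfm.hat_zero, hode.iter k (HH H), ← ha]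
    unfold Tm
    rw [map_sub, map_mul, map_mul]
  rw [← hiter]
  refine hcau.trans (le_of_eq ?_)
  ring

/-- the logarithm of the norm of the coordinates in a chart -/
theorem lg_chart_bd {N : ℕ} {i : Fin N} {x : Fin N → ℂ} {B : ℝ} (hi : x i = 1) (hB : ‖x‖ ≤ B) :
    0 ≤ lg x ∧ lg x ≤ Real.log (N * B ^ 2) := by
  have hx0 : x ≠ 0 := by
    intro h0
    have := congrFun h0 i
    rw [hi] at this
    exact one_ne_zero this
  have h1 : 1 ≤ ‖x‖ := by
    have := norm_le_pi_norm x i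
    rwa [hi, norm_one] at this
  have h2 : 1 ≤ sq x := by
    have := norm_sq_le x
    nlinarith
  refine ⟨Real.log_nonneg h2, Real.log_le_log (by linarith) ((sq_le x).trans ?_)⟩
  gcongr

/-- **A curve with bounded mean square of the deformation.** -/
theorem exists_mean (h : Dat f D C) (hσ : ∀ j, SymForm F (m j) (σ j))
    (hV : ∀ i, Vs (Rel f) i ⊆ Ep F σ c i) (j : κ) {B : ℝ} (hB0 : 0 < B) {η : ℝ}
    (hη : 0 < η) (L : ℝ) :
    ∃ A : ℝ, ∀ (r : ℝ) (i : Fin (n + 1)) (E : Dr (Fin (n + 1) ⊕ Fin (n + 1)))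
      (y : ℂ → ℂ → Mat (n + 1)) (ρE : ℝ), 0 < r → Fm f i E ρE y → η < ρE →
      (∀ s ∈ ball (0 : ℂ) ρE, ‖pr i (y s) 0‖ ≤ B) →
      (∀ s ∈ closedBall (0 : ℂ) η, Tr r (y s) ≤ Tr r (y 0) + L) →
      ∃ s0 ∈ ball (0 : ℂ) η, ∃ g : ℂ → ℂ, Differentiable ℂ g ∧
        (∀ z k, y s0 z k k ≠ 0 →
          g z = ds σ j (pr k (y s0) z) (eta (fun s => y (s0 + s)) k z)) ∧
        av r (fun z => ‖g z‖ ^ 2) ≤ A := by
  obtain ⟨K, hK0, hK⟩ := ds_bound (F := F) hσ j C
  set K' : ℝ := K + 1 with hK'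
  set L' : ℝ := L + Real.log ((n + 1 : ℕ) * B ^ 2) with hL'
  refine ⟨8 * (n + 1 : ℕ) * K' ^ 2 * (L' + 1) / η ^ 2, fun r i E y ρE hr hfm hηρ hyB hmax => ?_⟩
  have hKp : 0 < K' := by linarith
  have hN : (0 : ℝ) < 8 * (n + 1 : ℕ) * K' ^ 2 := by positivity
  have hbs : closedBall (0 : ℂ) η ⊆ ball 0 ρE := closedBall_subset_ball hηρ
  have hsh : ∀ s0 ∈ ball (0 : ℂ) η, ∃ ρ', 0 < ρ' ∧ Fm f i E ρ' (fun s => y (s0 + s)) := by
    intro s0 hs0
    rw [mem_ball_zero_iff] at hs0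
    exact ⟨ρE - ‖s0‖, by linarith, hfm.shift (by linarith) (by linarith)⟩
  have hg : ∀ s0 : ℂ, ∃ g : ℂ → ℂ, s0 ∈ ball (0 : ℂ) η → Differentiable ℂ g ∧
      ∀ z k, y s0 z k k ≠ 0 →
        g z = ds σ j (pr k (y s0) z) (eta (fun s => y (s0 + s)) k z) := by
    intro s0
    by_cases hs0 : s0 ∈ ball (0 : ℂ) η
    · obtain ⟨ρ', hρ', hfm'⟩ := hsh s0 hs0
      obtain ⟨g, hg1, hg2⟩ := exists_entire_ds h hσ hV hfm'.ev
        (fun z k hk => hfm'.good 0 hfm'.mem0 z k hk) j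
      refine ⟨g, fun _ => ⟨hg1, fun z k hk => ?_⟩⟩
      have h1 := hg2 z k (by simpa using hk)
      simpa using h1
    · exact ⟨0, fun h => absurd h hs0⟩
  choose g hg using hg
  have hloc : ∀ s0 ∈ ball (0 : ℂ) η, ∃ ε1 > 0, ∀ ε, 0 < ε → ε < ε1 →
      ε ^ 2 * (av r (fun z => ‖g s0 z‖ ^ 2) / (8 * (n + 1 : ℕ) * K' ^ 2)) ≤
        av ε (fun s => Wf r i y (s0 + s)) - Wf r i y s0 := by
    intro s0 hs0
    obtain ⟨ρ', hρ', hfm'⟩ := hsh s0 hs0
    obtain ⟨hg1, hg2⟩ := hg s0 hs0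
    have hyev := hfm'.ev
    obtain ⟨-, ε1, hε1, h1⟩ := hfm'.loc hr hg1.continuous (K := K') (fun z l hl hlK => by
      have hl' : y s0 z l l ≠ 0 := by simpa using hl
      rw [hg2 z l hl']
      have hg1 := hfm'.good 0 hfm'.mem0 z l hl
      obtain ⟨h1, h2⟩ := eta_Tan hV hyev hg1
      have h3 : pr l (y s0) z ∈ Vs (Rel f) l := by
        have := hyev.self_of_nhds.2 z (mem_univ z) l hl
        simpa using this
      have hlK' : chart l (y s0 z) ∈ Kc l := by simpa using hlK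
      have h4 : pr l (y s0) z ∈ Tb F l C := ⟨(hV l h3).1, hlK', h.bd l _ h3 hlK'⟩
      have h1' : Tan F (pr l (y s0) z ∘ Sum.inl) (eta (fun s => y (s0 + s)) l z) := by
        simpa using h1
      refine (hK l _ h4 _ h1' h2).trans ?_
      have h5 := (good_slice hg1).self_of_nhds.2
      have h6 : HasDerivAt (fun s => chart l (y (s0 + s) z)) (eta (fun s => y (s0 + s)) l z) 0 := by
        refine hasDerivAt_pi.2 fun q => ?_
        unfold eta Jd
        simp only [eval_X]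
        exact (differentiableAt_pi.1 h5 (Sum.inl q)).hasDerivAt
      rw [h6.deriv]
      gcongr
      linarith)
    refine ⟨ε1, hε1, fun ε h2 h3 => ?_⟩
    have h4 := h1 ε h2 h3
    have e1 : Wf r i (fun s => y (s0 + s)) = fun s => Wf r i y (s0 + s) := rfl
    have e2 : Wf r i (fun s => y (s0 + s)) 0 = Wf r i y s0 := by
      rw [Wf_shift, add_zero]
    rw [e2, e1] at h4
    rw [mul_div_assoc', div_le_iff₀ hN]
    linarith
  have hAA : ∀ s ∈ closedBall (0 : ℂ) η, Wf r i y s ≤ Wf r i y 0 + L' := by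
    intro s hs
    have h1 := hmax s hs
    have hs' := hbs hs
    have h2 := lg_chart_bd (i := i) (x := chart i (y s 0)) (B := B)
      (PM.chart_self (hfm.dg s hs'))
      ((pi_norm_le_iff_of_nonneg hB0.le).2 fun l =>
        (norm_le_pi_norm (pr i (y s) 0) (Sum.inl l)).trans (hyB s hs'))
    have h3 := lg_chart_bd (i := i) (x := chart i (y 0 0)) (B := B)
      (PM.chart_self (hfm.dg 0 hfm.mem0))
      ((pi_norm_le_iff_of_nonneg hB0.le).2 fun l =>
        (norm_le_pi_norm (pr i (y 0) 0) (Sum.inl l)).trans (hyB 0 hfm.mem0))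
    unfold Wf
    linarith [h2.2, h3.1]
  obtain ⟨s0, hs0, hq⟩ := exists_small (W := Wf r i y)
    (q := fun s0 => av r (fun z => ‖g s0 z‖ ^ 2) / (8 * (n + 1 : ℕ) * K' ^ 2)) (A := L') hη
    ((hfm.continuousOn hr).mono hbs) hloc hAA
  obtain ⟨hg1, hg2⟩ := hg s0 hs0
  refine ⟨s0, hs0, g s0, hg1, hg2, ?_⟩
  rw [div_mul_eq_mul_div, div_le_iff₀ hN] at hq
  rw [le_div_iff₀ (by positivity)]
  linarith

end lim

end Run7.h418.Z
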