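import Pool.Agent.Run7.h418.Z.Gam
import Pool.Agent.Run7.h418.Z.Lim

/-!
The derivations which commute with the derivation of the curve commute.
-/

set_option autoImplicit false

open MvPolynomial Metric Set Filter Topology

namespace Run7.h418.Z

open Pool.Agent.Y190.OP Pool.Agent.W602.GT Pool.Agent.N155

section hol

variable {N : ℕ} {f : ℂ → Mat N} {D : Fin N → Dr (Fin N ⊕ Fin N)} {C : ℝ}

theorem hf_cont {E : Type} [NormedAddCommGroup E] [NormedSpace ℂ E] {y : E → Ws f} {p : E}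
    {k : Fin N} (h : HF y p k) : ContinuousAt (fun q => (y q).1 0) p := by
  have h3 : (fun q => (y q).1 0) =ᶠ[𝓝 p] fun q => Phi (pr k (y q).1 0 ∘ Sum.inl) := by
    filter_upwards [h] with q hq
    exact (PM.Phi_chart ((y q).2.1.mem_PM (mem_univ 0)) hq.1).symm
  obtain ⟨hk, hd⟩ := h.self_of_nhds
  have h4 : ContinuousAt (fun q => pr k (y q).1 0 ∘ Sum.inl) p := by
    rw [continuousAt_pi]
    intro l
    exact (differentiableAt_pi.1 hd (Sum.inl l)).continuousAt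
  refine ContinuousAt.congr ?_ h3.symm
  have h5 : ContinuousAt (Phi : (Fin N → ℂ) → Mat N) (pr k (y p).1 0 ∘ Sum.inl) :=
    continuousAt_Phi (PM.chart_ne hk)
  exact ContinuousAt.comp (g := (Phi : (Fin N → ℂ) → Mat N))
    (f := fun q => pr k (y q).1 0 ∘ Sum.inl) (x := p) h5 h4

theorem hf_holP {y : ℂ → Ws f} {S : Set ℂ} (h : ∀ s ∈ S, ∃ k, HF y s k) :
    HolP S (fun s => (y s).1 0) := by
  intro s hs
  obtain ⟨k, hk⟩ := h s hs
  obtain ⟨V, hV, hVo, hsV⟩ := _root_.mem_nhds_iff.1 hk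
  refine ⟨V, fun t => chart k ((y t).1 0), hVo, hsV, fun t ht => ?_, fun t ht => ?_⟩
  · obtain ⟨-, h2⟩ := hV ht
    refine DifferentiableAt.differentiableWithinAt ?_
    exact differentiableAt_pi.2 fun l => differentiableAt_pi.1 h2 (Sum.inl l)
  · obtain ⟨h3, -⟩ := hV ht
    exact ⟨PM.chart_ne h3, (PM.Phi_chart ((y t).2.1.mem_PM (mem_univ 0)) h3).symm⟩

/-- families of points along the flow of a vector field -/
theorem exists_yfam (h : Dat f D C) {W : Fin N → Dr (Fin N ⊕ Fin N)} (hW : Cmp f W) (φ : Ws f)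
    {i : Fin N} {B ρ : ℝ} (hR : Rad (W i) B ρ) (hi : φ.1 0 i i ≠ 0) (hB : ‖pr i φ.1 0‖ ≤ B) :
    ∃ y : ℂ → Ws f, y 0 = φ ∧ ∀ s ∈ ball (0 : ℂ) ρ, (y s).1 0 i i ≠ 0 ∧
      pr i (y s).1 0 = fl (W i) (pr i φ.1 0) s := by
  have h1 : ∀ s : ℂ, ∃ ψ : Ws f, s ∈ ball (0 : ℂ) ρ → ψ.1 0 i i ≠ 0 ∧
      pr i ψ.1 0 = fl (W i) (pr i φ.1 0) s := by
    intro s
    by_cases hs : s ∈ ball (0 : ℂ) ρ
    · have h2 : fl (W i) (pr i φ.1 0) s ∈ Vs (Rel f) i :=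
        fl_mem (hW.pres i) hR (φ.2.2 0 (mem_univ 0) i hi) hB (mem_ball_zero_iff.1 hs).le
      obtain ⟨ψ, h3, h4, h5⟩ := h.exists_sol h2
      exact ⟨⟨ψ, h3⟩, fun _ => ⟨h4, h5⟩⟩
    · exact ⟨φ, fun h => absurd h hs⟩
  choose y hy using h1
  have h0 : (0 : ℂ) ∈ ball (0 : ℂ) ρ := mem_ball_self hR.pos
  refine ⟨y, ?_, hy⟩
  obtain ⟨h3, h4⟩ := hy 0 h0
  exact Ws.ext' h h3 hi (by rw [h4, fl_zero])

theorem hf_yfam {W : Fin N → Dr (Fin N ⊕ Fin N)} {φ : Ws f} {i : Fin N} {B ρ : ℝ}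
    (hR : Rad (W i) B ρ) (hB : ‖pr i φ.1 0‖ ≤ B) {y : ℂ → Ws f}
    (hy : ∀ s ∈ ball (0 : ℂ) ρ, (y s).1 0 i i ≠ 0 ∧
      pr i (y s).1 0 = fl (W i) (pr i φ.1 0) s) {s : ℂ} (hs : s ∈ ball (0 : ℂ) ρ) :
    HF y s i := by
  filter_upwards [Filter.Eventually.eventually_nhds (isOpen_ball.mem_nhds hs)] with t ht
  have ht0 := ht.self_of_nhds
  refine ⟨(hy t ht0).1, ?_⟩
  have h4 : (fun s => pr i (y s).1 0) =ᶠ[𝓝 t] fun s => fl (W i) (pr i φ.1 0) s := by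
    filter_upwards [ht] with t' ht'
    exact (hy t' ht').2
  refine DifferentiableAt.congr_of_eventuallyEq ?_ h4
  exact differentiableAt_pi.2 fun l =>
    (hR.hasDerivAt_fl hB (mem_ball_zero_iff.1 ht0) l).differentiableAt

variable {q : ℕ} {V : Fin q → Fin N → Dr (Fin N ⊕ Fin N)} {act : (Fin q → ℂ) → Ws f → Ws f}
  {ε : ℝ}

/-- almost maximal growth of orbits -/
theorem IsAct.exists_almost (h : Dat f D C) (hV : ∀ b, Cmp f (V b)) (hA : IsAct f C V act ε)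
    (e : Fin q → ℂ) {r : ℝ} (hr : 0 < r) :
    ∃ φ : Ws f, ∀ ψ : Ws f, Tr r (orb act e ψ) ≤ Tr r (orb act e φ) + 1 := by
  obtain ⟨K, hK⟩ := hA.orb_bd h hV e
  set S : Set ℝ := {t | ∃ φ : Ws f, t = Tr r (orb act e φ)} with hS
  have hne : S.Nonempty := ⟨_, ⟨f, sol_self h.hol⟩, rfl⟩
  have hb : BddAbove S := by
    by_contra hcon
    have h1 : ∀ k : ℕ, ∃ φ : Ws f, (k : ℝ) < Tr r (orb act e φ) := by
      intro k
      rw [not_bddAbove_iff] at hcon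
      obtain ⟨t, ⟨φ, rfl⟩, hk⟩ := hcon k
      exact ⟨φ, hk⟩
    choose φ hφk using h1
    set 𝓤 : Ultrafilter ℕ := hyperfilter ℕ with h𝓤
    have h𝓤t : (𝓤 : Filter ℕ) ≤ atTop := by
      rw [← Nat.cofinite_eq_atTop]
      exact hyperfilter_le_cofinite
    obtain ⟨ψ, hψ, -, hc, -⟩ := exists_limit (isCompact_PM N) le_rfl (𝓤 := 𝓤)
      (h := fun k => orb act e (φ k)) (K := K) (fun k => hA.orb_hol h hV (φ k) e)
      (fun k z => (hA.orb_hol h hV (φ k) e).mem_PM (mem_univ z)) fun k z => hK (φ k) z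
    have h2 := Tr_tendsto hr (fun k => hA.orb_hol h hV (φ k) e) hψ hc
    have h3 : ∀ᶠ k : ℕ in (𝓤 : Filter ℕ), Tr r ψ + 1 ≤ k :=
      h𝓤t (tendsto_natCast_atTop_atTop.eventually_ge_atTop _)
    have h4 := h2.eventually_lt_const (lt_add_one (Tr r ψ))
    obtain ⟨k, hk1, hk2⟩ := (h3.and h4).exists
    linarith [hφk k]
  obtain ⟨t, ⟨φ, rfl⟩, ht⟩ := exists_lt_of_lt_csSup hne (show sSup S - 1 < sSup S by linarith)
  refine ⟨φ, fun ψ => ?_⟩
  have := le_csSup hb ⟨ψ, rfl⟩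
  linarith

end hol

section com

variable {n : ℕ} {ι κ : Type} {F : ι → MvPolynomial (Fin (n + 1)) ℂ}
  {σ : κ → (Fin (n + 1) → ℂ) → (Fin (n + 1) → ℂ) → ℂ} {m : κ → ℕ} {c : κ → ℂ}
  {f : ℂ → Mat (n + 1)} {D : Fin (n + 1) → Dr (Fin (n + 1) ⊕ Fin (n + 1))} {C : ℝ}
  {act : (Fin 1 → ℂ) → Ws f → Ws f} {ε : ℝ}
  {U W : Fin (n + 1) → Dr (Fin (n + 1) ⊕ Fin (n + 1))}
  {M : Type} [Field M] [Algebra ℂ M] {ev : Fin (n + 1) → Rn (n + 1) →ₐ[ℂ] M}
  {δ : Derivation ℂ M M}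

/-- the local estimate for the orbits of a family -/
theorem loc_orb (h : Dat f D C) (hV : ∀ i, Vs (Rel f) i ⊆ Ep F σ c i) (hC : Cmp f U)
    (hA : IsAct f C (fun _ : Fin 1 => U) act ε) {y : ℂ → Ws f} {i : Fin (n + 1)} {ρ r : ℝ}
    (hρ : 0 < ρ) (hr : 0 < r) (hy : ∀ s ∈ ball (0 : ℂ) ρ, HF y s i) {K : ℝ} {j : κ}
    (hK : ∀ i, ∀ a ∈ Tb F i C, ∀ η : Fin (n + 1) → ℂ, Tan F (a ∘ Sum.inl) η →
      η i = 0 → ‖ds σ j a η‖ ≤ K * ‖η‖) {g : ℂ → ℂ} (hg : Differentiable ℂ g)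
    (hgs : ∀ z k, (act (z • e1) (y 0)).1 0 k k ≠ 0 →
        g z = ds σ j (gam act y k z 0) (ge act y k z)) :
    ContinuousAt (Wf r i fun s => orb act e1 (y s)) 0 ∧ ∃ ε1 > 0, ∀ ε', 0 < ε' → ε' < ε1 →
      ε' ^ 2 * av r (fun z => ‖g z‖ ^ 2) ≤ 8 * (n + 1 : ℕ) * K ^ 2 *
        (av ε' (Wf r i fun s => orb act e1 (y s)) - Wf r i (fun s => orb act e1 (y s)) 0) := by
  have h0 : (0 : ℂ) ∈ ball (0 : ℂ) ρ := mem_ball_self hρ
  have hVC : ∀ b : Fin 1, Cmp f ((fun _ : Fin 1 => U) b) := fun _ => hC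
  refine loc_low hr hρ (fun s hs => hA.orb_hol h hVC (y s) e1) (fun z => ?_) ?_ ?_
    hg.continuous fun z k hk hkK => ?_
  · refine hf_holP (y := fun s => act (z • e1) (y s)) fun s hs => ?_
    obtain ⟨k, hk⟩ := PM.exists_diag ((act (z • e1) (y s)).2.1.mem_PM (mem_univ (0 : ℂ)))
    exact ⟨k, (hy s hs).act_line h hA e1 (τ := fun _ => z)
      (Eventually.of_forall fun _ => differentiableAt_const _) hk⟩
  · rintro ⟨z, s⟩ ⟨-, hs⟩
    have hs' : s ∈ ball (0 : ℂ) ρ := hs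
    obtain ⟨k, hk⟩ := PM.exists_diag ((act (z • e1) (y s)).2.1.mem_PM (mem_univ (0 : ℂ)))
    exact (hf_cont (hf_gam h hA (hy s hs') hk)).continuousWithinAt
  · change (act ((0 : ℂ) • e1) (y 0)).1 0 i i ≠ 0
    rw [zero_smul, hA.zero h]
    exact (hy 0 h0).self_of_nhds.1
  · have hk' : (act (z • e1) (y 0)).1 0 k k ≠ 0 := hk
    rw [hgs z k hk']
    obtain ⟨h1, h2⟩ := gam_Tan h hC hA hV (hy 0 h0) hk'
    have h3 : gam act y k z 0 ∈ Vs (Rel f) k :=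
      (act (z • e1) (y 0)).2.2 0 (mem_univ 0) k hk'
    have h4 : gam act y k z 0 ∈ Tb F k C := ⟨(hV k h3).1, hkK, h.bd k _ h3 hkK⟩
    refine (hK k _ h4 _ h1 h2).trans (le_of_eq ?_)
    have h5 : HasDerivAt (fun s => chart k (orb act e1 (y s) z)) (ge act y k z) 0 := by
      refine hasDerivAt_pi.2 fun q => ?_
      exact (fo_gam h hC hA (hy 0 h0) hk').dz (Sum.inl q)
    rw [h5.deriv]

/-- **The growth argument.** -/
theorem mean_c (h : Dat f D C) (hM : IsFd f D ev δ) (hσ : ∀ j, SymForm F (m j) (σ j))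
    (hV : ∀ i, Vs (Rel f) i ⊆ Ep F σ c i) (hC : Cmp f U) (hCW : Cmp f W)
    (hA : IsAct f C (fun _ : Fin 1 => U) act ε) {u w : Derivation ℂ M M}
    (hU : ∀ k, (∃ z, f z k k ≠ 0) → ∀ G, ev k (U k G) = u (ev k G))
    (hW : ∀ k, (∃ z, f z k k ≠ 0) → ∀ G, ev k (W k G) = w (ev k G)) {e e' : κ → ℂ}
    (hw : IsC F σ f ev w e) (huw : IsC F σ f ev ⁅u, w⁆ e') (j : κ) (i : Fin (n + 1)) :
    ∃ A : ℝ, ∀ (r : ℝ) (φ : Ws f), 0 < r → φ.1 0 i i ≠ 0 → ‖pr i φ.1 0‖ ≤ max 1 C →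
      (∀ ψ : Ws f, Tr r (orb act e1 ψ) ≤ Tr r (orb act e1 φ) + 1) →
      ∃ g : ℂ → ℂ, Differentiable ℂ g ∧ deriv g 0 = -e' j ∧ av r (fun z => ‖g z‖ ^ 2) ≤ A := by
  obtain ⟨K, hK0, hK⟩ := ds_bound (F := F) hσ j C
  set K' : ℝ := K + 1 with hK'
  have hKK' : ∀ i, ∀ a ∈ Tb F i C, ∀ η : Fin (n + 1) → ℂ, Tan F (a ∘ Sum.inl) η →
      η i = 0 → ‖ds σ j a η‖ ≤ K' * ‖η‖ := fun i a ha η h1 h2 =>
    (hK i a ha η h1 h2).trans (mul_le_mul_of_nonneg_right (by linarith) (norm_nonneg _))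
  set B : ℝ := max 1 C + 1 with hB
  have hB0 : 0 < B := by positivity
  obtain ⟨ρ, hR⟩ := exists_rad (W i) (B := B) hB0.le
  have hρ := hR.pos
  set η : ℝ := ρ / 2 with hη
  have hη0 : 0 < η := by positivity
  have hηρ : η < ρ := by rw [hη]; linarith
  set L' : ℝ := 1 + Real.log ((n + 1 : ℕ) * (B + 1) ^ 2) with hL'
  refine ⟨8 * (n + 1 : ℕ) * K' ^ 2 * (L' + 1) / η ^ 2, fun r φ hr hi hφB hmax => ?_⟩
  have hKp : 0 < K' := by linarith
  have hN : (0 : ℝ) < 8 * (n + 1 : ℕ) * K' ^ 2 := by positivity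
  obtain ⟨y, hy0, hy⟩ := exists_yfam h hCW φ hR hi (hφB.trans (by linarith))
  have hφB' : ‖pr i φ.1 0‖ ≤ B := hφB.trans (by linarith)
  have hHF : ∀ s ∈ ball (0 : ℂ) ρ, HF y s i := fun s hs => hf_yfam hR hφB' hy hs
  have hbs : closedBall (0 : ℂ) η ⊆ ball 0 ρ := closedBall_subset_ball hηρ
  have hyB : ∀ s ∈ ball (0 : ℂ) ρ, ‖pr i (y s).1 0‖ ≤ B + 1 := by
    intro s hs
    rw [(hy s hs).2]
    have h4 := hR.norm_fl (a := pr i φ.1 0) hφB' (mem_ball_zero_iff.1 hs).le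
    have h5 := norm_le_norm_add_norm_sub' (fl (W i) (pr i φ.1 0) s) (pr i φ.1 0)
    linarith
  set Y : ℂ → ℂ → Mat (n + 1) := fun s => orb act e1 (y s) with hY
  -- shifted families
  have hsh : ∀ s0 ∈ ball (0 : ℂ) ρ, ∀ s ∈ ball (0 : ℂ) (ρ - ‖s0‖), s0 + s ∈ ball (0 : ℂ) ρ := by
    intro s0 hs0 s hs
    rw [mem_ball_zero_iff] at hs hs0 ⊢
    have := norm_add_le s0 s
    linarith
  have hshF : ∀ s0 ∈ ball (0 : ℂ) ρ, ∀ s ∈ ball (0 : ℂ) (ρ - ‖s0‖),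
      HF (fun s => y (s0 + s)) s i := by
    intro s0 hs0 s hs
    exact HF.comp (y := y) (g := fun s => s0 + s) (p := s) (hHF _ (hsh s0 hs0 s hs))
      (Eventually.of_forall fun x => by fun_prop)
  have hg : ∀ s0 : ℂ, ∃ g : ℂ → ℂ, s0 ∈ ball (0 : ℂ) ρ → Differentiable ℂ g ∧
      deriv g 0 = -e' j ∧ ∀ z k, (act (z • e1) (y (s0 + 0))).1 0 k k ≠ 0 →
        g z = ds σ j (gam act (fun s => y (s0 + s)) k z 0)
          (ge act (fun s => y (s0 + s)) k z) := by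
    intro s0
    by_cases hs0 : s0 ∈ ball (0 : ℂ) ρ
    · have hpos : 0 < ρ - ‖s0‖ := by
        rw [mem_ball_zero_iff] at hs0
        linarith
      have h1 : HF (fun s => y (s0 + s)) 0 i := hshF s0 hs0 0 (mem_ball_self hpos)
      obtain ⟨g, hg1, hg2, hg3⟩ := exists_g h hM hσ hV hC hA hU hW hw huw h1 (fun l => by
        have h2 : (fun s => eval (gam act (fun s => y (s0 + s)) i 0 s) (X l)) =ᶠ[𝓝 0]
            fun s => fl (W i) (pr i φ.1 0) (s0 + s) l := by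
          filter_upwards [ball_mem_nhds (0 : ℂ) hpos] with s hs
          unfold gam
          rw [eval_X, zero_smul, hA.zero h, (hy _ (hsh s0 hs0 s hs)).2]
        have h3 := hR.hasDerivAt_fl (a := pr i φ.1 0) hφB' (z := s0 + 0)
          (by rw [add_zero]; exact mem_ball_zero_iff.1 hs0) l
        have h4 := h3.comp_const_add s0 0
        unfold J
        rw [h2.deriv_eq, h4.deriv]
        simp only [add_zero]
        rw [(hy s0 hs0).2]) j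
      exact ⟨g, fun _ => ⟨hg1, hg2, hg3⟩⟩
    · exact ⟨0, fun h => absurd h hs0⟩
  choose g hg using hg
  have hlo : ∀ s0 ∈ ball (0 : ℂ) ρ, ContinuousAt (fun s => Wf r i Y (s0 + s)) 0 ∧
      ∃ ε1 > 0, ∀ ε', 0 < ε' → ε' < ε1 →
      ε' ^ 2 * av r (fun z => ‖g s0 z‖ ^ 2) ≤ 8 * (n + 1 : ℕ) * K' ^ 2 *
        (av ε' (fun s => Wf r i Y (s0 + s)) - Wf r i Y s0) := by
    intro s0 hs0
    have hpos : 0 < ρ - ‖s0‖ := by
      have := mem_ball_zero_iff.1 hs0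
      linarith
    obtain ⟨hg1, -, hg3⟩ := hg s0 hs0
    have h1 := loc_orb h hV hC hA (y := fun s => y (s0 + s)) (i := i) (r := r) hpos hr
      (hshF s0 hs0) hKK' hg1 hg3
    have e1' : (Wf r i fun s => orb act e1 (y (s0 + s))) = fun s => Wf r i Y (s0 + s) := rfl
    have e2' : Wf r i (fun s => orb act e1 (y (s0 + s))) 0 = Wf r i Y s0 := by
      change Wf r i Y (s0 + 0) = _
      rw [add_zero]
    rw [e2', e1'] at h1
    exact h1
  have hcont : ContinuousOn (Wf r i Y) (ball 0 ρ) := by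
    intro s hs
    have h1 := (hlo s hs).1
    have h2 : Wf r i Y = (fun t => Wf r i Y (s + t)) ∘ fun t => t - s := by
      funext t
      simp only [Function.comp_apply]
      rw [add_sub_cancel]
    rw [h2]
    refine ContinuousAt.continuousWithinAt ?_
    have h3 : ContinuousAt (fun t => Wf r i Y (s + t)) ((fun t : ℂ => t - s) s) := by
      simpa using h1
    exact ContinuousAt.comp (g := fun t => Wf r i Y (s + t))
      (f := fun t : ℂ => t - s) (x := s) h3 (by fun_prop)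
  have hY0 : ∀ s, Y s 0 = (y s).1 0 := by
    intro s
    change (act ((0 : ℂ) • e1) (y s)).1 0 = _
    rw [zero_smul, hA.zero h]
  have hAA : ∀ s ∈ closedBall (0 : ℂ) η, Wf r i Y s ≤ Wf r i Y 0 + L' := by
    intro s hs
    have hs' := hbs hs
    have h00 : (0 : ℂ) ∈ ball (0 : ℂ) ρ := mem_ball_self hρ
    have h1 := hmax (y s)
    have h2 := lg_chart_bd (i := i) (x := chart i ((y s).1 0)) (B := B + 1)
      (PM.chart_self (hy s hs').1)
      ((pi_norm_le_iff_of_nonneg (by linarith)).2 fun l =>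
        (norm_le_pi_norm (pr i (y s).1 0) (Sum.inl l)).trans (hyB s hs'))
    have h3 := lg_chart_bd (i := i) (x := chart i ((y 0).1 0)) (B := B + 1)
      (PM.chart_self (hy 0 h00).1)
      ((pi_norm_le_iff_of_nonneg (by linarith)).2 fun l =>
        (norm_le_pi_norm (pr i (y 0).1 0) (Sum.inl l)).trans (hyB 0 h00))
    unfold Wf
    rw [hY0, hY0]
    have h4 : Tr r (Y s) ≤ Tr r (Y 0) + 1 := by
      rw [hY]
      simp only
      rw [hy0]
      exact h1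
    linarith [h2.2, h3.1]
  obtain ⟨s0, hs0, hq⟩ := exists_small (W := Wf r i Y)
    (q := fun s0 => av r (fun z => ‖g s0 z‖ ^ 2) / (8 * (n + 1 : ℕ) * K' ^ 2)) (A := L') hη0
    (hcont.mono hbs) (fun s0 hs0 => by
      obtain ⟨-, ε1, hε1, h1⟩ := hlo s0 (hbs (ball_subset_closedBall hs0))
      refine ⟨ε1, hε1, fun ε' h2 h3 => ?_⟩
      have h4 := h1 ε' h2 h3
      rw [mul_div_assoc', div_le_iff₀ hN]
      linarith) hAA
  obtain ⟨hg1, hg2, -⟩ := hg s0 (hbs (ball_subset_closedBall hs0))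
  refine ⟨g s0, hg1, hg2, ?_⟩
  rw [div_mul_eq_mul_div, div_le_iff₀ hN] at hq
  rw [le_div_iff₀ (by positivity)]
  linarith

/-- **Commutativity.** -/
theorem comm_u (h : Dat f D C) (hM : IsFd f D ev δ) (hσ : ∀ j, SymForm F (m j) (σ j))
    (him : Immersive F σ) (hV : ∀ i, Vs (Rel f) i ⊆ Ep F σ c i)
    (hcst : ∀ v : Derivation ℂ M M, ⁅δ, v⁆ = 0 → ∃ e, IsC F σ f ev v e)
    {u w : Derivation ℂ M M} (hu : ⁅δ, u⁆ = 0) (hw : ⁅δ, w⁆ = 0) : ⁅u, w⁆ = 0 := by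
  obtain ⟨eu, heu⟩ := hcst u hu
  obtain ⟨ew, hew⟩ := hcst w hw
  have huw : ⁅δ, ⁅u, w⁆⁆ = 0 := by
    rw [leibniz_lie, hu, hw, zero_lie, lie_zero, add_zero]
  obtain ⟨e', he'⟩ := hcst _ huw
  obtain ⟨U, hU⟩ := hM.exists_V (fun k hk => heu.reg h hM hσ him hV hu hk)
  obtain ⟨W, hW⟩ := hM.exists_V (fun k hk => hew.reg h hM hσ him hV hw hk)
  have hCU : Cmp f U := Cmp.of_der h hM hU
  have hCW : Cmp f W := Cmp.of_der h hM hW
  obtain ⟨act, ε, hA⟩ := exists_isAct h (V := fun _ : Fin 1 => U) (fun _ => hCU)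
    (fun _ _ k G => by rw [lie_self]; exact zero_mem _)
  obtain ⟨i0, hi0⟩ := PM.exists_diag (h.hol.mem_PM (mem_univ (0 : ℂ)))
  refine IsC.eq_zero h hM hσ him hV ⟨0, hi0⟩ huw ?_
  have he0 : e' = 0 := by
    funext j
    choose A hAi using fun i => mean_c h hM hσ hV hCU hCW hA hU hW hew he' j i
    obtain ⟨A', hA'⟩ := Finite.exists_le A
    have hbd : ∀ r : ℝ, 2 ≤ r → ‖e' j‖ ≤ (1 + A') / r := by
      intro r hr
      have hr0 : 0 < r := by linarith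
      obtain ⟨φ, hφ⟩ := hA.exists_almost h (fun _ => hCU) e1 hr0
      obtain ⟨i, hi, hiK⟩ := exists_max (φ.2.1.mem_PM (mem_univ (0 : ℂ)))
      obtain ⟨g, hg1, hg2, hg3⟩ := hAi i r φ hr0 hi (Ws.norm_le h φ hi hiK) hφ
      have h1 : ∀ z : ℂ, ‖z‖ ≤ 1 → ‖g z - g 0‖ ≤ (1 + A') / r := fun z hz =>
        cauchy_diff hg1 hr (hg3.trans (hA' i)) hz
      have h2 := Complex.norm_deriv_le_of_forall_mem_sphere_norm_le (c := (0 : ℂ)) (R := 1)
        (f := fun z => g z - g 0) (C := (1 + A') / r) one_pos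
        ((hg1.sub_const _).diffContOnCl) (fun z hz => h1 z (by
          rw [mem_sphere_zero_iff_norm] at hz
          exact hz.le))
      rw [div_one] at h2
      have h3 : deriv (fun z => g z - g 0) 0 = deriv g 0 := deriv_sub_const _
      rw [h3, hg2, norm_neg] at h2
      exact h2
    rw [Pi.zero_apply, ← norm_le_zero_iff]
    by_contra hlt
    push Not at hlt
    have hA0 : 0 < 1 + A' := by
      have h1 := hbd 2 le_rfl
      have h2 : 0 < (1 + A') / 2 := hlt.trans_le h1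
      linarith
    have h1 := hbd (max 2 (2 * (1 + A') / ‖e' j‖)) (le_max_left _ _)
    have h2 : 2 * (1 + A') / ‖e' j‖ ≤ max 2 (2 * (1 + A') / ‖e' j‖) := le_max_right _ _
    have h3 : (0 : ℝ) < max 2 (2 * (1 + A') / ‖e' j‖) := by positivity
    rw [le_div_iff₀ h3] at h1
    rw [div_le_iff₀ hlt] at h2
    linarith
  rw [he0] at he'
  exact he'

end com

end Run7.h418.Z
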