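import Pool.Agent.Run7.h418.Alg
import Mathlib.RingTheory.NoetherNormalization

/-!
Noether normalization of an affine variety, with vector fields which lift the coordinate fields.
-/

set_option autoImplicit false

open MvPolynomial

namespace Run7.h418.Z

open Pool.Agent.Y190.OP

section noe

variable {τ M : Type} [Fintype τ] [Field M] [Algebra ℂ M]

/-- derivations of the field of fractions, up to a denominator -/
theorem exists_lift (e : MvPolynomial τ ℂ →ₐ[ℂ] M)
    (hfr : ∀ m : M, ∃ p q, e q ≠ 0 ∧ m * e q = e p) (v : Derivation ℂ M M) :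
    ∃ (q : MvPolynomial τ ℂ) (E : Dr τ), e q ≠ 0 ∧ ∀ G, e (E G) = e q * v (e G) := by
  classical
  choose p q hq hpq using fun l => hfr (v (e (X l)))
  refine ⟨∏ l, q l, mkDerivation ℂ fun l => (∏ l' ∈ Finset.univ.erase l, q l') * p l, ?_,
    fun G => ?_⟩
  · rw [map_prod]
    exact Finset.prod_ne_zero_iff.2 fun l _ => hq l
  · have h1 : ∀ l, e ((mkDerivation ℂ fun l => (∏ l' ∈ Finset.univ.erase l, q l') * p l :
        Dr τ) (X l)) = e (∏ l, q l) * v (e (X l)) := by
      intro l
      rw [mkDerivation_X, map_mul, ← hpq l, ← Finset.mul_prod_erase Finset.univ q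
        (Finset.mem_univ l), map_mul]
      ring
    induction G using MvPolynomial.induction_on with
    | C c =>
      rw [← MvPolynomial.algebraMap_eq, Derivation.map_algebraMap, AlgHom.commutes,
        Derivation.map_algebraMap]
      simp
    | add p q hp hq =>
      simp only [map_add, mul_add, hp, hq]
    | mul_X p l hp =>
      rw [Derivation.leibniz, map_add, smul_eq_mul, smul_eq_mul, map_mul, map_mul, hp, h1,
        map_mul, Derivation.leibniz, smul_eq_mul, smul_eq_mul]
      ring

/-- **Noether normalization.** -/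
theorem exists_noe (e : MvPolynomial τ ℂ →ₐ[ℂ] M)
    (hfr : ∀ m : M, ∃ p q, e q ≠ 0 ∧ m * e q = e p) :
    ∃ (w : ℕ) (x : Fin w → MvPolynomial τ ℂ),
      (∀ t, ∃ (d : ℕ) (P : Fin d → MvPolynomial (Fin w) ℂ),
        e (X t) ^ d + ∑ j, e (aeval x (P j)) * e (X t) ^ (j : ℕ) = 0) ∧
      (∀ G, e G ≠ 0 → ∃ (g : MvPolynomial (Fin w) ℂ) (G' : MvPolynomial τ ℂ), g ≠ 0 ∧
        e (aeval x g) = e (G * G')) ∧
      ∃ q : MvPolynomial τ ℂ, e q ≠ 0 ∧ ∃ E : Fin w → Dr τ,
        (∀ t G, e G = 0 → e (E t G) = 0) ∧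
        ∀ t t', e (E t (x t')) = if t = t' then e q else 0 := by
  classical
  have hch : CharZero M := charZero_of_injective_algebraMap (algebraMap ℂ M).injective
  let R := e.range
  have hft : Algebra.FiniteType ℂ R :=
    Algebra.FiniteType.of_surjective e.rangeRestrict e.rangeRestrict_surjective
  obtain ⟨w, g, hg, hint⟩ := exists_integral_inj_algHom_of_fg ℂ R
  choose x hx using fun t => e.rangeRestrict_surjective (g (X t))
  have hxe : ∀ t, e (x t) = (g (X t) : M) := fun t => congrArg Subtype.val (hx t)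
  have haev : ∀ P : MvPolynomial (Fin w) ℂ, e (aeval x P) = (g P : M) := by
    intro P
    have h1 : (e.comp (aeval x) : MvPolynomial (Fin w) ℂ →ₐ[ℂ] M) = R.val.comp g := by
      apply MvPolynomial.algHom_ext
      intro t
      rw [AlgHom.comp_apply, aeval_X, hxe]
      rfl
    exact congrArg (fun φ : MvPolynomial (Fin w) ℂ →ₐ[ℂ] M => φ P) h1
  refine ⟨w, x, fun t => ?_, fun G hG => ?_, ?_⟩
  · obtain ⟨p, hp, hp0⟩ := hint (e.rangeRestrict (X t))
    refine ⟨p.natDegree, fun j => p.coeff j, ?_⟩
    have h1 := congrArg Subtype.val hp0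
    rw [Polynomial.eval₂_eq_sum_range, Finset.sum_range_succ, hp.coeff_natDegree, map_one,
      one_mul] at h1
    have h2 : ((∑ j ∈ Finset.range p.natDegree, g.toRingHom (p.coeff j) *
        (e.rangeRestrict (X t)) ^ j + (e.rangeRestrict (X t)) ^ p.natDegree : R) : M) = 0 := h1
    rw [Finset.sum_range] at h2
    push_cast at h2
    rw [add_comm] at h2
    rw [← h2]
    congr 1
    refine Finset.sum_congr rfl fun j _ => ?_
    rw [haev]
    rfl
  · have hGR : e.rangeRestrict G ≠ 0 := fun h => hG (congrArg Subtype.val h)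
    let _ : Algebra (MvPolynomial (Fin w) ℂ) R := g.toRingHom.toAlgebra
    have hR : IsIntegral (MvPolynomial (Fin w) ℂ) (e.rangeRestrict G) := hint _
    have h1 := Ideal.comap_ne_bot_of_integral_mem (R := MvPolynomial (Fin w) ℂ)
      (I := Ideal.span {e.rangeRestrict G}) hGR (Ideal.mem_span_singleton_self _) hR
    obtain ⟨P, hP, hP0⟩ := Submodule.exists_mem_ne_zero_of_ne_bot h1
    have hP' : (g P : R) ∈ Ideal.span {e.rangeRestrict G} := hP
    obtain ⟨b, hb⟩ := Ideal.mem_span_singleton'.1 hP'
    obtain ⟨G', hG'⟩ := e.rangeRestrict_surjective b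
    refine ⟨P, G', hP0, ?_⟩
    rw [haev, ← hb, ← hG', map_mul, mul_comm]
    rfl
  · have hind : AlgebraicIndependent ℂ fun t : Fin w => (g (X t) : M) := by
      have h1 : AlgebraicIndependent ℂ fun t : Fin w => (X t : MvPolynomial (Fin w) ℂ) :=
        MvPolynomial.algebraicIndependent_X _ _
      exact h1.map' (f := R.val.comp g) (Subtype.val_injective.comp hg)
    obtain ⟨v, hv⟩ := Pool.Agent.Y191.exists_dual hind
    choose q E hq hE using fun t => exists_lift e hfr (v t)
    refine ⟨∏ t, q t, ?_, fun t => (∏ t' ∈ Finset.univ.erase t, q t') • E t, fun t G hG => ?_,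
      fun t t' => ?_⟩
    · rw [map_prod]
      exact Finset.prod_ne_zero_iff.2 fun t _ => hq t
    · rw [Derivation.smul_apply, smul_eq_mul, map_mul, hE, hG, map_zero, mul_zero, mul_zero]
    · rw [Derivation.smul_apply, smul_eq_mul, map_mul, hE, hxe, hv,
        ← Finset.mul_prod_erase Finset.univ q (Finset.mem_univ t), map_mul]
      by_cases h : t = t'
      · rw [if_pos h, if_pos h, mul_one, mul_comm]
      · rw [if_neg h, if_neg h, mul_zero, mul_zero]

end noe

end Run7.h418.Z
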