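import Pool.Agent.Run7.h418.Z.Bdry2
import Pool.Agent.Run7.h418.Z.Noe
import Pool.Agent.Run7.h418.Z.Act

/-!
Curves with large growth which are far from a hypersurface.
-/

set_option autoImplicit false

open Metric Set Filter Topology MvPolynomial

namespace Run7.h418.Z

open Pool.Agent.Y190.OP

section far

variable {N : ℕ} {f : ℂ → Mat N} {D : Fin N → Dr (Fin N ⊕ Fin N)} {C : ℝ}
variable {M : Type} [Field M] [Algebra ℂ M] {ev : Fin N → Rn N →ₐ[ℂ] M} {δ : Derivation ℂ M M}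

theorem eval_aev {τ : Type} {w : ℕ} (x : Fin w → MvPolynomial τ ℂ) (g : MvPolynomial (Fin w) ℂ)
    (a : τ → ℂ) : eval a (aeval x g) = eval (fun t => eval a (x t)) g := by
  have h1 : ((eval a : MvPolynomial τ ℂ →+* ℂ).comp
      (aeval x : MvPolynomial (Fin w) ℂ →ₐ[ℂ] MvPolynomial τ ℂ).toRingHom) =
      (eval fun t => eval a (x t)) := by
    apply MvPolynomial.ringHom_ext
    · intro c
      simp
    · intro t
      simp
  exact congrArg (fun φ : MvPolynomial (Fin w) ℂ →+* ℂ => φ g) h1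

theorem exists_far (h : Dat f D C) (hM : IsFd f D ev δ) {i : Fin N} (hi : ∃ z, f z i i ≠ 0) :
    ∃ q : Rn N, q ∉ Rel f i ∧ ∀ G : Rn N, G ∉ Rel f i → ∃ R L c : ℝ, 0 < c ∧
      ∀ (r : ℝ) (φ : ℂ → Mat N), 0 < r → Sol (Vs (Rel f)) univ φ → φ 0 i i ≠ 0 →
        ‖pr i φ 0‖ ≤ max 1 C → eval (pr i φ 0) q ≠ 0 →
        ∃ ψ : ℂ → Mat N, Sol (Vs (Rel f)) univ ψ ∧ ψ 0 i i ≠ 0 ∧ ‖pr i ψ 0‖ ≤ R ∧
          c ≤ ‖eval (pr i ψ 0) G‖ ∧ Tr r φ ≤ Tr r ψ + L := by
  classical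
  obtain ⟨w, x, hint, hnorm, q, hq, E, hE1, hE2⟩ := exists_noe (ev i) (hM.frac i hi)
  refine ⟨q, fun h1 => hq ((hM.ker i hi q).2 h1), fun G hG => ?_⟩
  have hG' : ev i G ≠ 0 := fun h1 => hG ((hM.ker i hi G).1 h1)
  obtain ⟨g, G', hg0, hgG⟩ := hnorm G hG'
  choose d P hP using hint
  obtain ⟨x1, hx1⟩ : ∃ x1 : Fin w → ℂ, eval x1 g ≠ 0 := by
    by_contra hcon
    push Not at hcon
    exact hg0 (MvPolynomial.funext fun y => by rw [hcon y, map_zero])
  -- facts on the variety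
  have hvP : ∀ a ∈ Vs (Rel f) i, ∀ t, (a t) ^ d t +
      ∑ j, eval (fun t => eval a (x t)) (P t j) * (a t) ^ (j : ℕ) = 0 := by
    intro a ha t
    have h1 : (X t ^ d t + ∑ j, aeval x (P t j) * X t ^ (j : ℕ) : Rn N) ∈ Rel f i := by
      rw [← hM.ker i hi]
      rw [map_add, map_pow, map_sum]
      rw [← hP t]
      congr 1
      exact Finset.sum_congr rfl fun j _ => by rw [map_mul, map_pow]
    have h2 := ha _ h1
    simp only [map_add, map_pow, map_sum, map_mul, eval_X, eval_aev] at h2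
    exact h2
  have hvG : ∀ a ∈ Vs (Rel f) i, eval (fun t => eval a (x t)) g = eval a G * eval a G' := by
    intro a ha
    have h1 : (aeval x g - G * G' : Rn N) ∈ Rel f i := by
      rw [← hM.ker i hi, map_sub, hgG, sub_self]
    have h2 := ha _ h1
    rw [map_sub, map_mul, eval_aev] at h2
    exact sub_eq_zero.1 h2
  -- the bounds
  set B : ℝ := max 1 C with hB
  choose mx hmx0 hmx using fun t => exists_bd (x t) B
  set Mx : ℝ := ∑ t, mx t with hMx
  have hMx0 : 0 ≤ Mx := Finset.sum_nonneg fun t _ => (hmx0 t).le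
  obtain ⟨c0, hc0, hcirc⟩ := exists_circle hx1 Mx
  set Y : ℝ := Mx + 2 * (‖x1‖ + Mx) with hY
  choose mp hmp0 hmp using fun t => fun j => exists_bd (P t j) Y
  set Rt : Fin N ⊕ Fin N → ℝ := fun t => 1 + d t * ∑ j, mp t j with hRt
  have hRt1 : ∀ t, 0 ≤ Rt t := by
    intro t
    have h1 : 0 ≤ ∑ j, mp t j := Finset.sum_nonneg fun j _ => (hmp0 t j).le
    rw [hRt]
    positivity
  set R : ℝ := ∑ t, Rt t with hR
  have hR0 : 0 ≤ R := Finset.sum_nonneg fun t _ => hRt1 t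
  obtain ⟨mG, hmG0, hmG⟩ := exists_bd G' R
  obtain ⟨mq, hmq0, hmq⟩ := exists_bd q R
  refine ⟨R, Real.log (N * R ^ 2) + Real.log (mq + 1) + 5, c0 / mG, by positivity,
    fun r φ hr hφ hφi hφB hφq => ?_⟩
  -- the analytic curve
  set x0 : Fin w → ℂ := fun t => eval (pr i φ 0) (x t) with hx0
  have hx0B : ‖x0‖ ≤ Mx := by
    rw [pi_norm_le_iff_of_nonneg hMx0]
    intro t
    refine (hmx t _ hφB).trans ?_
    exact Finset.single_le_sum (f := mx) (fun t _ => (hmx0 t).le) (Finset.mem_univ t)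
  obtain ⟨ρ, hρ1, hρ2, hρ⟩ := hcirc x0 (mem_closedBall_zero_iff.2 hx0B)
  set p : Fin w → ℂ := x1 - x0 with hp
  have hxB : ∀ a : Fin N ⊕ Fin N → ℂ, a ∈ Vs (Rel f) i → ∀ τ : ℂ, ‖τ‖ ≤ ρ →
      (∀ t, eval a (x t) = x0 t + τ * p t) → ‖a‖ ≤ R := by
    intro a ha τ hτ hat
    have h1 : (fun t => eval a (x t)) = x0 + τ • p := by
      funext t
      rw [hat t]
      rfl
    have h2 : ‖x0 + τ • p‖ ≤ Y := by
      refine (norm_add_le _ _).trans ?_
      rw [norm_smul]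
      have h3 : ‖p‖ ≤ ‖x1‖ + Mx := (norm_sub_le _ _).trans (by linarith)
      have h4 : ‖τ‖ * ‖p‖ ≤ 2 * (‖x1‖ + Mx) := by
        have := norm_nonneg p
        have h5 : ‖τ‖ ≤ 2 := hτ.trans hρ2
        gcongr
      linarith
    rw [pi_norm_le_iff_of_nonneg hR0]
    intro t
    have h3 := hvP a ha t
    rw [h1] at h3
    have h4 : ∀ j, ‖eval (x0 + τ • p) (P t j)‖ ≤ ∑ j, mp t j := fun j =>
      (hmp t j _ h2).trans (Finset.single_le_sum (f := mp t) (fun j _ => (hmp0 t j).le)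
        (Finset.mem_univ j))
    have h5 := root_bound (Finset.sum_nonneg fun j _ => (hmp0 t j).le) h4 h3
    exact h5.trans (Finset.single_le_sum (f := Rt) (fun t _ => hRt1 t) (Finset.mem_univ t))
  have hRon : ∀ φ' τ, Onc f i x x0 p ρ φ' τ → ‖pr i φ' 0‖ ≤ R := fun φ' τ h1 =>
    hxB _ h1.mem τ h1.le h1.eq
  set Ep : Dr (Fin N ⊕ Fin N) := ∑ t, p t • E t with hEp
  have hEpe : ∀ G, ev i (Ep G) = ∑ t, algebraMap ℂ M (p t) * ev i (E t G) := by
    intro G
    rw [hEp, dsum_apply, map_sum]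
    refine Finset.sum_congr rfl fun t _ => ?_
    rw [Derivation.smul_apply, map_smul, Algebra.smul_def]
  have hEp1 : ∀ G ∈ Rel f i, Ep G ∈ Rel f i := by
    intro G hG
    rw [← hM.ker i hi, hEpe]
    refine Finset.sum_eq_zero fun t _ => ?_
    rw [hE1 t G ((hM.ker i hi G).2 hG), mul_zero]
  have hEp2 : ∀ t, Ep (x t) - MvPolynomial.C (p t) * q ∈ Rel f i := by
    intro t
    rw [← hM.ker i hi, map_sub, hEpe, map_mul]
    have h1 : ∀ t', algebraMap ℂ M (p t') * ev i (E t' (x t)) =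
        if t' = t then algebraMap ℂ M (p t) * ev i q else 0 := by
      intro t'
      rw [hE2]
      by_cases h2 : t' = t
      · rw [if_pos h2, if_pos h2, h2]
      · rw [if_neg h2, if_neg h2, mul_zero]
    rw [Finset.sum_congr rfl fun t' _ => h1 t', Finset.sum_ite_eq' Finset.univ t]
    rw [if_pos (Finset.mem_univ t), ← MvPolynomial.algebraMap_eq, AlgHom.commutes, sub_self]
  set ε : ℝ := 1 / (1 + |Real.log ‖eval (pr i φ 0) q‖|) with hε
  have habs := abs_nonneg (Real.log ‖eval (pr i φ 0) q‖)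
  have hε0 : 0 < ε := by positivity
  have hε1 : ε ≤ 1 := by
    rw [hε, div_le_one (by positivity)]
    linarith
  have hε2 : -1 ≤ ε * Real.log ‖eval (pr i φ 0) q‖ := by
    have h1 : ε * |Real.log ‖eval (pr i φ 0) q‖| ≤ 1 := by
      rw [hε, one_div, inv_mul_le_iff₀ (by positivity)]
      linarith
    have h2 := neg_abs_le (Real.log ‖eval (pr i φ 0) q‖)
    have h3 := mul_le_mul_of_nonneg_left h2 hε0.le
    linarith
  have hOn0 : Onc f i x x0 p ρ φ 0 :=
    ⟨hφ, hφi, by rw [norm_zero]; linarith, fun t => by rw [zero_mul, add_zero]⟩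
  obtain ⟨ψ, τ, hψ, hτ, hH⟩ := exists_bdry h hEp1 hEp2 hRon (by linarith) hr hε0 hOn0 hφq
  have hψR := hRon _ _ hψ
  refine ⟨ψ, hψ.sol, hψ.dg, hψR, ?_, ?_⟩
  · have h1 := hρ τ hτ
    have h2 : x0 + τ • (x1 - x0) = fun t => eval (pr i ψ 0) (x t) := by
      funext t
      rw [hψ.eq t]
      rfl
    rw [h2, hvG _ hψ.mem, norm_mul] at h1
    have h3 : ‖eval (pr i ψ 0) G'‖ ≤ mG := hmG _ hψR
    rw [div_le_iff₀ hmG0]
    exact h1.trans (mul_le_mul_of_nonneg_left h3 (norm_nonneg _))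
  · unfold Hf at hH
    have h1 : 0 ≤ lg (chart i (φ 0)) := lg_nonneg (PM.chart_self hφi)
    have h2 : lg (chart i (ψ 0)) ≤ Real.log (N * R ^ 2) := by
      refine lg_le (PM.chart_ne hψ.dg) ((pi_norm_le_iff_of_nonneg hR0).2 fun l => ?_)
      exact (norm_le_pi_norm (pr i ψ 0) (Sum.inl l)).trans hψR
    have h3 : ε * Real.log ‖eval (pr i ψ 0) q‖ ≤ Real.log (mq + 1) := by
      have h4 : 0 ≤ Real.log (mq + 1) := Real.log_nonneg (by linarith)
      have h5 : Real.log ‖eval (pr i ψ 0) q‖ ≤ Real.log (mq + 1) := by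
        by_cases h6 : eval (pr i ψ 0) q = 0
        · rw [h6, norm_zero, Real.log_zero]
          exact h4
        · exact Real.log_le_log (norm_pos_iff.2 h6) ((hmq _ hψR).trans (by linarith))
      calc ε * Real.log ‖eval (pr i ψ 0) q‖ ≤ ε * Real.log (mq + 1) :=
            mul_le_mul_of_nonneg_left h5 hε0.le
        _ ≤ 1 * Real.log (mq + 1) := mul_le_mul_of_nonneg_right hε1 h4
        _ = Real.log (mq + 1) := one_mul _
    rw [norm_zero, hτ] at hH
    have h4 : ρ ^ 2 ≤ 4 := by nlinarith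
    linarith

end far

end Run7.h418.Z
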