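import Pool.Agent.Run7.h418.Z.Chg
import Pool.Agent.Run7.h418.Ext

/-!
The Lie algebra of the derivations which commute with the derivation of the curve.
-/

set_option autoImplicit false

open Metric Set Filter Topology MvPolynomial

namespace Run7.h418.Z

open Pool.Agent.Y190.OP Pool.Agent.W602.GT Pool.Agent.N155

section ker

variable {N : ℕ} {f : ℂ → Mat N} {D : Fin N → Dr (Fin N ⊕ Fin N)} {C : ℝ}
variable {M : Type} [Field M] [Algebra ℂ M] {ev : Fin N → Rn N →ₐ[ℂ] M} {δ : Derivation ℂ M M}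

/-- the constants of the derivation of the curve -/
theorem IsFd.ker_const (h : Dat f D C) (hM : IsFd f D ev δ) {i : Fin N}
    (hi : ∃ z, f z i i ≠ 0) {g : M} (hg : δ g = 0) : ∃ c : ℂ, g = algebraMap ℂ M c := by
  obtain ⟨p, q, hq, hpq⟩ := hM.frac i hi g
  have hqn : q ∉ Rel f i := fun h1 => hq ((hM.ker i hi _).2 h1)
  have h1 := congrArg δ hpq
  rw [Derivation.leibniz, hg, smul_zero, add_zero, smul_eq_mul, hM.der i hi, hM.der i hi] at h1
  have h2 : p * D i q - q * D i p ∈ Rel f i := by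
    rw [← hM.ker i hi, map_sub, map_mul, map_mul, ← h1, ← hpq]
    ring
  obtain ⟨z0, hz0, hz0q⟩ := ((ev_chart h.hol hi 0).and (ev_ne h.hol hi hqn 0)).exists
  have hd : ∀ G : Rn N, ∀ z, f z i i ≠ 0 → HasDerivAt (fun w => eval (pr i f w) G)
      (eval (pr i f z) (D i G)) z := fun G z hz =>
    hasDerivAt_eval (D i) (h.ode univ f isOpen_univ (sol_self h.hol) z (mem_univ z) i hz).self_of_nhds G
  have hev : ∀ᶠ z in 𝓝 z0, f z i i ≠ 0 ∧ eval (pr i f z) q ≠ 0 :=
    (ev_diag h.hol (mem_univ z0) hz0).and ((hd q z0 hz0).continuousAt.eventually_ne hz0q)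
  obtain ⟨ρ, hρ, hball⟩ := Metric.eventually_nhds_iff_ball.1 hev
  set c : ℂ := eval (pr i f z0) p / eval (pr i f z0) q with hc
  have hconst : ∀ z ∈ ball z0 ρ, eval (pr i f z) p / eval (pr i f z) q = c := by
    intro z hz
    have h3 : ∀ z ∈ ball z0 ρ, HasDerivAt
        (fun w => eval (pr i f w) p / eval (pr i f w) q) 0 z := by
      intro z hz
      obtain ⟨h4, h5⟩ := hball z hz
      have h6 := (hd p z h4).fun_div (hd q z h4) h5
      refine h6.congr_deriv ?_
      have h7 := h2 z h4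
      rw [map_sub, map_mul, map_mul] at h7
      rw [div_eq_zero_iff]
      left
      linear_combination -h7
    exact isOpen_ball.is_const_of_deriv_eq_zero (convex_ball z0 ρ).isPreconnected
      (fun z hz => (h3 z hz).differentiableAt.differentiableWithinAt)
      (fun z hz => (h3 z hz).deriv) hz (mem_ball_self hρ)
  refine ⟨c, ?_⟩
  have h3 : p - MvPolynomial.C c * q ∈ Rel f i := by
    by_contra hn
    have h4 := ev_ne h.hol hi hn z0
    have h5 : ∀ᶠ z in 𝓝[≠] z0, z ∈ ball z0 ρ :=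
      mem_nhdsWithin_of_mem_nhds (ball_mem_nhds z0 hρ)
    obtain ⟨z, h6, h7⟩ := (h4.and h5).exists
    apply h6
    obtain ⟨h8, h9⟩ := hball z h7
    have h10 := hconst z h7
    rw [div_eq_iff h9] at h10
    rw [map_sub, map_mul, eval_C, h10, sub_self]
  rw [← hM.ker i hi, map_sub, map_mul, ← MvPolynomial.algebraMap_eq, AlgHom.commutes, ← hpq] at h3
  have h4 : (g - algebraMap ℂ M c) * ev i q = 0 := by
    linear_combination h3
  exact sub_eq_zero.1 ((mul_eq_zero.1 h4).resolve_right hq)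

theorem IsFd.der_ext (hM : IsFd f D ev δ) {i : Fin N} (hi : ∃ z, f z i i ≠ 0)
    {v : Derivation ℂ M M} (hv : ∀ l, v (ev i (X l)) = 0) : v = 0 := by
  have h1 : ∀ G, v (ev i G) = 0 := by
    intro G
    rw [chain]
    exact Finset.sum_eq_zero fun l _ => by rw [hv, mul_zero]
  refine Derivation.ext fun x => ?_
  obtain ⟨p, q, hq, hpq⟩ := hM.frac i hi x
  have h2 := congrArg v hpq
  rw [v.leibniz, h1, h1, smul_zero, zero_add, smul_eq_mul] at h2
  exact (mul_eq_zero.1 h2).resolve_left hq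

/-- coefficients of derivations which commute with `δ` -/
theorem IsFd.comb_const (h : Dat f D C) (hM : IsFd f D ev δ) {i : Fin N}
    (hi : ∃ z, f z i i ≠ 0) {w : ℕ} {z : Fin w → M} (hz : IsTranscendenceBasis ℂ z)
    {v : Fin w → Derivation ℂ M M} (hv : ∀ s, ⁅δ, v s⁆ = 0)
    (hdet : (Matrix.of fun s t => v s (z t) : Matrix (Fin w) (Fin w) M).det ≠ 0)
    {d : Derivation ℂ M M} (hd : ⁅δ, d⁆ = 0) :
    ∃ g : Fin w → ℂ, d = ∑ a, algebraMap ℂ M (g a) • v a := by
  obtain ⟨g, hg⟩ := frame_comb hz hdet d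
  have h1 : ∑ a, δ (g a) • v a = 0 := by
    rw [← hd]
    conv_rhs => rw [hg, lie_sum_der]
    refine Finset.sum_congr rfl fun a _ => ?_
    rw [hv, smul_zero, add_zero]
  have h2 := frame_indep hdet h1
  choose g' hg' using fun a => hM.ker_const h hi (congrFun h2 a)
  refine ⟨g', ?_⟩
  rw [hg]
  exact Finset.sum_congr rfl fun a _ => by rw [hg']

end ker

section frm

variable {n : ℕ} {ι κ : Type} {F : ι → MvPolynomial (Fin (n + 1)) ℂ}
  {σ : κ → (Fin (n + 1) → ℂ) → (Fin (n + 1) → ℂ) → ℂ} {m : κ → ℕ} {c : κ → ℂ}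
variable {f : ℂ → Mat (n + 1)} {D : Fin (n + 1) → Dr (Fin (n + 1) ⊕ Fin (n + 1))} {C : ℝ}
  {M : Type} [Field M] [Algebra ℂ M] {ev : Fin (n + 1) → Rn (n + 1) →ₐ[ℂ] M}
  {δ : Derivation ℂ M M}

/-- the values of the relative forms -/
def IsC (F : ι → MvPolynomial (Fin (n + 1)) ℂ)
    (σ : κ → (Fin (n + 1) → ℂ) → (Fin (n + 1) → ℂ) → ℂ) (f : ℂ → Mat (n + 1))
    (ev : Fin (n + 1) → Rn (n + 1) →ₐ[ℂ] M) (v : Derivation ℂ M M) (e : κ → ℂ) : Prop :=
  ∀ k, (∃ z, f z k k ≠ 0) → ∀ j P H, Rep F σ j P H → ev k (rename Sum.inl H) ≠ 0 →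
    lam (ev k) P H v = algebraMap ℂ M (e j)

/-- the linear system at a point is nondegenerate -/
theorem exists_det (h : Dat f D C) (him : Immersive F σ)
    (hV : ∀ i, Vs (Rel f) i ⊆ Ep F σ c i) {i : Fin (n + 1)}
    {a : Fin (n + 1) ⊕ Fin (n + 1) → ℂ} (ha : a ∈ Vs (Rel f) i) {P : κ → Rn (n + 1)}
    {H : κ → MvPolynomial (Fin (n + 1)) ℂ} (hrep : ∀ j, Rep F σ j (P j) (H j))
    (hH : ∀ j, eval (a ∘ Sum.inl) (H j) ≠ 0) :
    ∃ b : Fin (n + 1) → (ι ⊕ (Unit ⊕ κ)),
      eval a (Matrix.of fun s k => rw' F P i (b s) k : Matrix (Fin (n + 1)) (Fin (n + 1))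
      (Rn (n + 1))).det ≠ 0 := by
  have haT : a ∈ Tg F i := (hV i ha).1
  obtain ⟨b, hb⟩ := exists_rows (fun J k => eval a (rw' F P i J k)) (by
    intro w hw
    by_contra hw0
    have hT : Tan F (a ∘ Sum.inl) w := by
      intro j
      have h1 := hw (Sum.inl j)
      simp only [rw', Sum.elim_inl, eval_inl] at h1
      exact h1
    have hwi : w i = 0 := by
      have h1 := hw (Sum.inr (Sum.inl ()))
      simp only [rw', Sum.elim_inl, Sum.elim_inr] at h1
      have h2 : ∀ k, (eval a) (if k = i then (1 : Rn (n + 1)) else 0) * w k =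
          if k = i then w k else 0 := by
        intro k
        by_cases hk : k = i
        · rw [if_pos hk, if_pos hk, map_one, one_mul]
        · rw [if_neg hk, if_neg hk, map_zero, zero_mul]
      simpa only [h2, Finset.sum_ite_eq', Finset.mem_univ, if_true] using h1
    obtain ⟨j, hj⟩ := him (a ∘ Sum.inl) (Tg.cone haT) (a ∘ Sum.inr) w haT.2.2.2 hT
      (not_mult haT.1 haT.2.1 (h.ne i a ha)) (not_mult haT.1 hwi hw0)
    apply hj
    have h1 := ds_rep haT hT (hrep j) (hH j)
    unfold ds at h1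
    rw [h1]
    have h2 := hw (Sum.inr (Sum.inr j))
    simp only [rw', Sum.elim_inr] at h2
    rw [h2, zero_div])
  refine ⟨b, ?_⟩
  rw [RingHom.map_det]
  exact hb

/-- the linear system for a derivation -/
theorem rowsum (h : Dat f D C) (hM : IsFd f D ev δ) (hV : ∀ i, Vs (Rel f) i ⊆ Ep F σ c i)
    {i : Fin (n + 1)} (hi : ∃ z, f z i i ≠ 0) {P : κ → Rn (n + 1)}
    {H : κ → MvPolynomial (Fin (n + 1)) ℂ} (hH : ∀ j, ev i (rename Sum.inl (H j)) ≠ 0)
    (v : Derivation ℂ M M) (J : ι ⊕ (Unit ⊕ κ)) :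
    ∑ k, ev i (rw' F P i J k) * v (ev i (X (Sum.inl k))) =
      (Sum.elim (fun _ => 0) (Sum.elim (fun _ => 0) fun j =>
        ev i (rename Sum.inl (H j)) * lam (ev i) (P j) (H j) v) : ι ⊕ (Unit ⊕ κ) → M) J := by
  rcases J with j | u | j
  · simp only [rw', Sum.elim_inl]
    have h1 : ev i (rename Sum.inl (F j)) = 0 := by
      rw [hM.ker i hi]
      intro z hz
      rw [eval_inl]
      exact (hV i (fun G hG => hG z hz)).1.2.2.1 j
    have h2 := chain (ev i) v (rename Sum.inl (F j))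
    rw [h1, map_zero, Fintype.sum_sum_type] at h2
    simp only [pderiv_inl_inl, pderiv_inr_inl, map_zero, zero_mul, Finset.sum_const_zero,
      add_zero] at h2
    exact h2.symm
  · simp only [rw', Sum.elim_inl, Sum.elim_inr]
    have h1 : ev i (X (Sum.inl i)) = 1 := by
      have h2 : ev i (X (Sum.inl i) - 1) = 0 := by
        rw [hM.ker i hi]
        intro z hz
        rw [map_sub, eval_X, map_one, h.inl i _ (fun G hG => hG z hz), sub_self]
      rw [map_sub, map_one] at h2
      exact sub_eq_zero.1 h2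
    have h2 : ∀ k, (ev i) (if k = i then (1 : Rn (n + 1)) else 0) * v (ev i (X (Sum.inl k))) =
        if k = i then v (ev i (X (Sum.inl k))) else 0 := by
      intro k
      by_cases hk : k = i
      · rw [if_pos hk, if_pos hk, map_one, one_mul]
      · rw [if_neg hk, if_neg hk, map_zero, zero_mul]
    simp only [h2, Finset.sum_ite_eq', Finset.mem_univ, if_true]
    rw [h1, Derivation.map_one_eq_zero]
  · simp only [rw', Sum.elim_inr]
    exact lam_mul (ev i) (hH j) v

theorem rep_ne (hM : IsFd f D ev δ) {i : Fin (n + 1)} (hi : ∃ z, f z i i ≠ 0)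
    {a : Fin (n + 1) ⊕ Fin (n + 1) → ℂ} (ha : a ∈ Vs (Rel f) i)
    {H : MvPolynomial (Fin (n + 1)) ℂ} (hH : eval (a ∘ Sum.inl) H ≠ 0) :
    ev i (rename Sum.inl H) ≠ 0 := by
  intro h3
  apply hH
  rw [← eval_inl]
  exact ha _ ((hM.ker i hi _).1 h3)

/-- a derivation which commutes with `δ` and has trivial relative forms is zero -/
theorem IsC.eq_zero (h : Dat f D C) (hM : IsFd f D ev δ) (hσ : ∀ j, SymForm F (m j) (σ j))
    (him : Immersive F σ) (hV : ∀ i, Vs (Rel f) i ⊆ Ep F σ c i) {i : Fin (n + 1)}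
    (hi : ∃ z, f z i i ≠ 0) {v : Derivation ℂ M M} (hv : ⁅δ, v⁆ = 0)
    (hc : IsC F σ f ev v 0) : v = 0 := by
  obtain ⟨z, hz⟩ := hi
  have ha : pr i f z ∈ Vs (Rel f) i := fun G hG => hG z hz
  have haT : pr i f z ∈ Tg F i := (hV i ha).1
  choose P H hH hrep using fun j => sg_rep hσ j (Tg.cone haT)
  have hHM : ∀ j, ev i (rename Sum.inl (H j)) ≠ 0 := fun j => rep_ne hM ⟨z, hz⟩ ha (hH j)
  obtain ⟨b, hb⟩ := exists_det h him hV ha hrep hH
  have hdet : ev i (Matrix.of fun s k => rw' F P i (b s) k : Matrix (Fin (n + 1)) (Fin (n + 1))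
      (Rn (n + 1))).det ≠ 0 := fun h1 => hb (ha _ ((hM.ker i ⟨z, hz⟩ _).1 h1))
  rw [AlgHom.map_det] at hdet
  have hker := Matrix.eq_zero_of_mulVec_eq_zero hdet (v := fun k => v (ev i (X (Sum.inl k))))
    (by
      funext s
      refine (rowsum h hM hV ⟨z, hz⟩ (P := P) (H := H) hHM v (b s)).trans ?_
      rcases b s with j | u | j
      · rfl
      · rfl
      · simp only [Sum.elim_inr]
        rw [hc i ⟨z, hz⟩ j _ _ (hrep j) (hHM j), Pi.zero_apply, map_zero, mul_zero]
        rfl)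
  have hcomm : ∀ x, δ (v x) = v (δ x) := by
    intro x
    have h1 := congrArg (fun w : Derivation ℂ M M => w x) hv
    simp only [Derivation.commutator_apply, Derivation.coe_zero, Pi.zero_apply] at h1
    exact sub_eq_zero.1 h1
  refine hM.der_ext ⟨z, hz⟩ fun l => ?_
  rcases l with k | k
  · exact congrFun hker k
  · have h1 := hcomm (ev i (X (Sum.inl k)))
    have h2 : v (ev i (X (Sum.inl k))) = 0 := congrFun hker k
    rw [h2, map_zero, hM.der i ⟨z, hz⟩, h.Dinl] at h1
    exact h1.symm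

/-- **Regularity.** -/
theorem IsC.reg (h : Dat f D C) (hM : IsFd f D ev δ) (hσ : ∀ j, SymForm F (m j) (σ j))
    (him : Immersive F σ) (hV : ∀ i, Vs (Rel f) i ⊆ Ep F σ c i)
    {v : Derivation ℂ M M} (hv : ⁅δ, v⁆ = 0) {e : κ → ℂ} (hc : IsC F σ f ev v e)
    {k : Fin (n + 1)} (hk : ∃ z, f z k k ≠ 0) : ∀ a ∈ (ev k).range, v a ∈ (ev k).range := by
  set I : Ideal (Rn (n + 1)) :=
    { carrier := {q | ∀ r, ev k q * v (ev k (X (Sum.inl r))) ∈ (ev k).range}
      add_mem' := fun {a b} ha hb G => by rw [map_add, add_mul]; exact add_mem (ha G) (hb G)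
      zero_mem' := fun G => by rw [map_zero, zero_mul]; exact zero_mem _
      smul_mem' := fun c a ha G => by
        rw [smul_eq_mul, map_mul, mul_assoc]
        exact mul_mem ⟨c, rfl⟩ (ha G) } with hI
  have h1 : Rel f k ≤ I := fun q hq G => by
    rw [(hM.ker k hk q).2 hq, zero_mul]
    exact zero_mem _
  have h2 : I = ⊤ := by
    by_contra hne
    obtain ⟨a, ha⟩ := exists_point hne
    have haV : a ∈ Vs (Rel f) k := fun G hG => ha G (h1 hG)
    have haT : a ∈ Tg F k := (hV k haV).1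
    choose P H hH hrep using fun j => sg_rep hσ j (Tg.cone haT)
    have hHM : ∀ j, ev k (rename Sum.inl (H j)) ≠ 0 := fun j => rep_ne hM hk haV (hH j)
    obtain ⟨b, hb⟩ := exists_det h him hV haV hrep hH
    apply hb
    refine ha _ fun r => ?_
    set A : Matrix (Fin (n + 1)) (Fin (n + 1)) (Rn (n + 1)) :=
      Matrix.of fun s k' => rw' F P k (b s) k' with hA
    set u : Fin (n + 1) → M := fun r => v (ev k (X (Sum.inl r))) with hu
    set rhs : Fin (n + 1) → M := fun s => ∑ k', ev k (rw' F P k (b s) k') * u k' with hrhs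
    have hrr : ∀ s, rhs s ∈ (ev k).range := by
      intro s
      have h3 := rowsum h hM hV hk (P := P) (H := H) hHM v (b s)
      rw [hrhs]
      simp only
      rw [h3]
      rcases b s with j | x | j
      · exact zero_mem _
      · exact zero_mem _
      · simp only [Sum.elim_inr]
        rw [hc k hk j _ _ (hrep j) (hHM j)]
        exact mul_mem ⟨_, rfl⟩ (Subalgebra.algebraMap_mem _ _)
    have h3 : ((ev k).mapMatrix A).mulVec u = rhs := by
      funext s
      rfl
    have h4 : ((ev k).mapMatrix A).adjugate.mulVec rhs = ((ev k).mapMatrix A).det • u := by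
      rw [← h3, Matrix.mulVec_mulVec, Matrix.adjugate_mul, Matrix.smul_mulVec, Matrix.one_mulVec]
    have h5 := congrFun h4 r
    rw [Pi.smul_apply, smul_eq_mul, ← AlgHom.map_det] at h5
    rw [← h5]
    have h6 : ((ev k).mapMatrix A).adjugate = (ev k).mapMatrix A.adjugate :=
      ((ev k : Rn (n + 1) →+* M).map_adjugate A).symm
    rw [h6]
    change ∑ s, ev k (A.adjugate r s) * rhs s ∈ (ev k).range
    exact sum_mem fun s _ => mul_mem ⟨_, rfl⟩ (hrr s)
  have h3 : ∀ r, v (ev k (X (Sum.inl r))) ∈ (ev k).range := by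
    intro r
    have h4 : (1 : Rn (n + 1)) ∈ I := by rw [h2]; trivial
    have h5 := h4 r
    rwa [map_one, one_mul] at h5
  have hcomm : ∀ x, δ (v x) = v (δ x) := by
    intro x
    have h1 := congrArg (fun w : Derivation ℂ M M => w x) hv
    simp only [Derivation.commutator_apply, Derivation.coe_zero, Pi.zero_apply] at h1
    exact sub_eq_zero.1 h1
  have h4 : ∀ l, v (ev k (X l)) ∈ (ev k).range := by
    rintro (r | r)
    · exact h3 r
    · obtain ⟨G, hG⟩ := h3 r
      refine ⟨D k G, ?_⟩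
      have hG' : ev k G = v (ev k (X (Sum.inl r))) := hG
      change ev k (D k G) = _
      rw [← hM.der k hk, hG', hcomm, hM.der k hk, h.Dinl]
  rintro _ ⟨G, rfl⟩
  change v (ev k G) ∈ _
  rw [chain]
  exact sum_mem fun l _ => mul_mem ⟨_, rfl⟩ (h4 l)

theorem lam_zero (ei : Rn (n + 1) →ₐ[ℂ] M) (P : Rn (n + 1)) (H : MvPolynomial (Fin (n + 1)) ℂ) :
    lam ei P H 0 = 0 := by
  unfold lam
  simp

/-- **The frame.** -/
theorem exists_frame (h : Dat f D C) (hσ : ∀ j, SymForm F (m j) (σ j)) (him : Immersive F σ)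
    (hV : ∀ i, Vs (Rel f) i ⊆ Ep F σ c i) :
    ∃ (M : Type) (_ : Field M) (_ : Algebra ℂ M) (ev : Fin (n + 1) → Rn (n + 1) →ₐ[ℂ] M)
      (δ : Derivation ℂ M M) (i : Fin (n + 1)), (∃ z, f z i i ≠ 0) ∧ IsFd f D ev δ ∧
      (∀ v : Derivation ℂ M M, ⁅δ, v⁆ = 0 → ∃ e, IsC F σ f ev v e) ∧
      (∀ v : Derivation ℂ M M, (∀ k, v (ev i (X (Sum.inl k))) = 0) → v = 0) ∧
      ∀ (w : ℕ) (z : Fin w → M), IsTranscendenceBasis ℂ z → ∃ v : Fin w → Derivation ℂ M M,
        (∀ s, ⁅δ, v s⁆ = 0) ∧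
        (Matrix.of fun s t => v s (z t) : Matrix (Fin w) (Fin w) M).det ≠ 0 := by
  classical
  obtain ⟨i0, hi0⟩ := PM.exists_diag (h.hol.mem_PM (mem_univ (0 : ℂ)))
  obtain ⟨M, hMf, hMa, ev, δ, hM⟩ := h.exists_field ⟨0, hi0⟩
  obtain ⟨i, hi, hTm⟩ := exists_chart_T h hM hσ hV
  obtain ⟨z1, hz1⟩ := hi
  have hi : ∃ z, f z i i ≠ 0 := ⟨z1, hz1⟩
  have ha : pr i f z1 ∈ Vs (Rel f) i := fun G hG => hG z1 hz1
  have haT : pr i f z1 ∈ Tg F i := (hV i ha).1
  choose P H hH hrep using fun j => sg_rep hσ j (Tg.cone haT)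
  have hrep' : ∀ j, Rep F σ j (P j) (H j) := hrep
  have hHM : ∀ j, ev i (rename Sum.inl (H j)) ≠ 0 := fun j => rep_ne hM hi ha (hH j)
  have hcomm : ∀ j v, lam (ev i) (P j) (H j) ⁅δ, v⁆ = δ (lam (ev i) (P j) (H j) v) := fun j v =>
    hM.lam_comm hi (hHM j) (fun E hE => hTm E hE j (P j) (H j) (hrep' j)) v
  obtain ⟨b0, hb0⟩ := exists_det h him hV ha hrep' hH
  have hdet0 : ev i (Matrix.of fun s k => rw' F P i (b0 s) k : Matrix (Fin (n + 1)) (Fin (n + 1))
      (Rn (n + 1))).det ≠ 0 := fun h1 => hb0 (ha _ ((hM.ker i hi _).1 h1))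
  rw [AlgHom.map_det] at hdet0
  have hsep : ∀ v : Derivation ℂ M M, (∀ j, lam (ev i) (P j) (H j) v = 0) →
      ∀ k, v (ev i (X (Sum.inl k))) = 0 := by
    intro v hv k
    have hker := Matrix.eq_zero_of_mulVec_eq_zero hdet0
      (v := fun k => v (ev i (X (Sum.inl k)))) (by
        funext s
        refine (rowsum h hM hV hi (P := P) (H := H) hHM v (b0 s)).trans ?_
        rcases b0 s with j | u | j
        · rfl
        · rfl
        · simp only [Sum.elim_inr]
          rw [hv j, mul_zero]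
          rfl)
    exact congrFun hker k
  have hzero : ∀ v : Derivation ℂ M M, (∀ j, lam (ev i) (P j) (H j) v = 0) → v = 0 := by
    intro v hv
    refine hM.der_ext hi fun l => ?_
    rcases l with k | k
    · exact hsep v hv k
    · have h1 := hsep ⁅δ, v⁆ (fun j => by rw [hcomm, hv, map_zero]) k
      rw [Derivation.commutator_apply, hsep v hv k, map_zero, zero_sub, neg_eq_zero,
        hM.der i hi, h.Dinl] at h1
      exact h1
  refine ⟨M, hMf, hMa, ev, δ, i, hi, hM, fun v hv => ?_, fun v hv => hzero v fun j => ?_,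
    fun w z hz => ?_⟩
  · have h1 : ∀ j, ∃ e : ℂ, lam (ev i) (P j) (H j) v = algebraMap ℂ M e := by
      intro j
      refine hM.ker_const h hi ?_
      rw [← hcomm, hv, lam_zero]
    choose e he using h1
    refine ⟨e, fun k hk j P' H' hrep2 hH2 => ?_⟩
    rw [← he j]
    exact (lam_chart hσ h hM hV hi hk (hrep' j) hrep2 (hHM j) hH2 v).symm
  · unfold lam
    rw [Finset.sum_eq_zero fun k _ => by rw [hv k, mul_zero], zero_div]
  · have hch : CharZero M := charZero_of_injective_algebraMap (algebraMap ℂ M).injective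
    obtain ⟨E, hE⟩ := Pool.Agent.Y191.exists_dual hz.1
    have hsum : ∀ (μ : Fin w → M) t, (∑ s, μ s • E s) (z t) = μ t := by
      intro μ t
      have h1 : ∀ S : Finset (Fin w), (∑ s ∈ S, μ s • E s) (z t) = ∑ s ∈ S, μ s * E s (z t) := by
        intro S
        induction S using Finset.cons_induction with
        | empty => simp
        | cons a s ha ih =>
          rw [Finset.sum_cons, Finset.sum_cons, Derivation.add_apply, Derivation.smul_apply, ih,
            smul_eq_mul]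
      rw [h1]
      simp [hE]
    have hexp : ∀ v : Derivation ℂ M M, v = ∑ t, v (z t) • E t := by
      intro v
      rw [← sub_eq_zero]
      refine Derivation.ext fun x => ?_
      have hx : IsAlgebraic (IntermediateField.adjoin ℂ (Set.range z)) x :=
        hz.isAlgebraic_field.isAlgebraic x
      refine Pool.Agent.Y191.der_alg0 _ (S := Set.range z) ?_ hx
      rintro _ ⟨t, rfl⟩
      rw [Derivation.sub_apply, hsum, sub_self]
    obtain ⟨b, hb⟩ := exists_rows (fun j t => lam (ev i) (P j) (H j) (E t)) (by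
      intro μ hμ
      have h1 : ∑ t, μ t • E t = 0 := hzero _ fun j => by
        rw [lam_sum, ← hμ j]
        exact Finset.sum_congr rfl fun t _ => mul_comm _ _
      funext t
      have h2 := hsum μ t
      rw [h1] at h2
      exact h2.symm)
    set Λ : Matrix (Fin w) (Fin w) M := Matrix.of fun s t => lam (ev i) (P (b s)) (H (b s)) (E t)
      with hΛ
    have hunit : IsUnit Λ.det := isUnit_iff_ne_zero.2 hb
    have hlv : ∀ s s', lam (ev i) (P (b s')) (H (b s')) (∑ t, Λ⁻¹ t s • E t) =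
        (1 : Matrix (Fin w) (Fin w) M) s' s := by
      intro s s'
      rw [← Matrix.mul_nonsing_inv Λ hunit, Matrix.mul_apply, lam_sum]
      exact Finset.sum_congr rfl fun t _ => mul_comm _ _
    refine ⟨fun s => ∑ t, Λ⁻¹ t s • E t, fun s => ?_, ?_⟩
    · have h1 := hexp ⁅δ, ∑ t, Λ⁻¹ t s • E t⁆
      set μ : Fin w → M := fun t => ⁅δ, ∑ t, Λ⁻¹ t s • E t⁆ (z t) with hμ
      have h2 : Λ.mulVec μ = 0 := by
        funext s'
        have h3 := hcomm (b s') (∑ t, Λ⁻¹ t s • E t)
        rw [hlv] at h3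
        have h4 : δ ((1 : Matrix (Fin w) (Fin w) M) s' s) = 0 := by
          rw [Matrix.one_apply]
          by_cases hs : s' = s
          · rw [if_pos hs, Derivation.map_one_eq_zero]
          · rw [if_neg hs, map_zero]
        rw [h4, h1] at h3
        have h5 := lam_sum (ev i) (P (b s')) (H (b s')) μ E
        have h6 : (∑ t, μ t * lam (ev i) (P (b s')) (H (b s')) (E t)) = 0 := by
          rw [← h5]
          exact h3
        change ∑ t, lam (ev i) (P (b s')) (H (b s')) (E t) * μ t = 0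
        rw [← h6]
        exact Finset.sum_congr rfl fun t _ => mul_comm _ _
      have h3 := Matrix.eq_zero_of_mulVec_eq_zero hb h2
      rw [h1]
      refine Finset.sum_eq_zero fun t _ => ?_
      have h4 : ⁅δ, ∑ t, Λ⁻¹ t s • E t⁆ (z t) = 0 := congrFun h3 t
      rw [h4, zero_smul]
    · have h1 : (Matrix.of fun s t => (∑ t, Λ⁻¹ t s • E t) (z t) : Matrix (Fin w) (Fin w) M) =
          (Λ⁻¹).transpose := by
        ext s t
        rw [Matrix.of_apply, hsum, Matrix.transpose_apply]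
      rw [h1, Matrix.det_transpose]
      have h2 : IsUnit (Λ⁻¹).det := (Matrix.isUnit_nonsing_inv_det_iff).2 hunit
      exact h2.ne_zero

end frm

end Run7.h418.Z
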