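import Pool.Agent.Run7.h418.Z.HF
import Pool.Agent.Run7.h418.Z.Gfr

/-!
Families of orbits of a vector field.
-/

set_option autoImplicit false

open MvPolynomial Metric Set Filter Topology

namespace Run7.h418.Z

open Pool.Agent.Y190.OP Pool.Agent.W602.GT Pool.Agent.N155

section gam

variable {n : ℕ} {ι κ : Type} {F : ι → MvPolynomial (Fin (n + 1)) ℂ}
  {σ : κ → (Fin (n + 1) → ℂ) → (Fin (n + 1) → ℂ) → ℂ} {m : κ → ℕ} {c : κ → ℂ}
  {f : ℂ → Mat (n + 1)} {D : Fin (n + 1) → Dr (Fin (n + 1) ⊕ Fin (n + 1))} {C : ℝ}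
  {act : (Fin 1 → ℂ) → Ws f → Ws f} {ε : ℝ}
  {U W : Fin (n + 1) → Dr (Fin (n + 1) ⊕ Fin (n + 1))}
  {M : Type} [Field M] [Algebra ℂ M] {ev : Fin (n + 1) → Rn (n + 1) →ₐ[ℂ] M}
  {δ : Derivation ℂ M M} {y : ℂ → Ws f} {i : Fin (n + 1)}

/-- the coordinates of the orbits of a family of points -/
noncomputable def gam (act : (Fin 1 → ℂ) → Ws f → Ws f) (y : ℂ → Ws f) (k : Fin (n + 1)) :
    ℂ → ℂ → (Fin (n + 1) ⊕ Fin (n + 1) → ℂ) := fun z s => pr k (act (z • e1) (y s)).1 0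

theorem hf_gam (h : Dat f D C) (hA : IsAct f C (fun _ : Fin 1 => U) act ε)
    {s : ℂ} (hy : HF y s i) {z : ℂ} {k : Fin (n + 1)}
    (hk : (act (z • e1) (y s)).1 0 k k ≠ 0) :
    HF (fun p : ℂ × ℂ => act (p.1 • e1) (y p.2)) (z, s) k := by
  have h1 : HF (fun p : ℂ × ℂ => y p.2) (z, s) i :=
    HF.comp (y := y) (g := fun p : ℂ × ℂ => p.2) (p := (z, s)) hy
      (Eventually.of_forall fun q => differentiableAt_snd)
  exact h1.act_line h hA e1 (τ := fun p : ℂ × ℂ => p.1)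
    (Eventually.of_forall fun q => differentiableAt_fst) hk

theorem fo_gam (h : Dat f D C) (hC : Cmp f U) (hA : IsAct f C (fun _ : Fin 1 => U) act ε)
    (hy : HF y 0 i) {z : ℂ} {k : Fin (n + 1)}
    (hk : (act (z • e1) (y 0)).1 0 k k ≠ 0) : Fo (U k) (gam act y k) z := by
  have h1 := hf_gam h hA hy hk
  refine ⟨?_, ?_⟩
  · filter_upwards [h1] with p hp
    exact differentiableAt_pi.1 hp.2
  · filter_upwards [h1] with p hp l
    have h2 := (hA.sol h (fun _ => hC) (y p.2) e1 p.1 hp.1).2.self_of_nhds l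
    rw [sum_e1] at h2
    exact h2

theorem gam_mem (h : Dat f D C) (hA : IsAct f C (fun _ : Fin 1 => U) act ε)
    (hy : HF y 0 i) {z : ℂ} {k : Fin (n + 1)}
    (hk : (act (z • e1) (y 0)).1 0 k k ≠ 0) :
    ∀ᶠ s in 𝓝 (0 : ℂ), (act (z • e1) (y s)).1 0 k k ≠ 0 := by
  have h1 := hf_gam h hA hy hk
  have h2 : ∀ᶠ s in 𝓝 (0 : ℂ), (act ((z, s).1 • e1) (y (z, s).2)).1 0 k k ≠ 0 ∧
      DifferentiableAt ℂ (fun q : ℂ × ℂ => pr k (act (q.1 • e1) (y q.2)).1 0) (z, s) :=
    eventually_slice2 h1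
  filter_upwards [h2] with s hs
  exact hs.1

theorem gam_zero (h : Dat f D C) (hA : IsAct f C (fun _ : Fin 1 => U) act ε)
    (hy : HF y 0 i) {z : ℂ} {k : Fin (n + 1)}
    (hk : (act (z • e1) (y 0)).1 0 k k ≠ 0) {G : Rn (n + 1)}
    {e : ℂ} (hG : ∀ a ∈ Vs (Rel f) k, eval a G = e) : J (gam act y k) z G = 0 := by
  unfold J
  have h1 : (fun s => eval (gam act y k z s) G) =ᶠ[𝓝 0] fun _ => e := by
    filter_upwards [gam_mem h hA hy hk] with s hs
    exact hG _ ((act (z • e1) (y s)).2.2 0 (mem_univ 0) k hs)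
  rw [h1.deriv_eq, deriv_const]

/-- the derivative of the affine coordinates -/
noncomputable def ge (act : (Fin 1 → ℂ) → Ws f → Ws f) (y : ℂ → Ws f) (k : Fin (n + 1)) (z : ℂ) :
    Fin (n + 1) → ℂ := fun r => J (gam act y k) z (X (Sum.inl r))

theorem gam_Tan (h : Dat f D C) (hC : Cmp f U) (hA : IsAct f C (fun _ : Fin 1 => U) act ε)
    (hV : ∀ i, Vs (Rel f) i ⊆ Ep F σ c i) (hy : HF y 0 i) {z : ℂ} {k : Fin (n + 1)}
    (hk : (act (z • e1) (y 0)).1 0 k k ≠ 0) :
    Tan F (gam act y k z 0 ∘ Sum.inl) (ge act y k z) ∧ ge act y k z k = 0 := by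
  have hf := fo_gam h hC hA hy hk
  constructor
  · intro j
    have h1 : J (gam act y k) z (rename Sum.inl (F j)) = 0 :=
      gam_zero h hA hy hk (e := 0) fun a ha => by
        rw [eval_inl]
        exact (hV k ha).1.2.2.1 j
    rw [hf.J_sum, Fintype.sum_sum_type] at h1
    simp only [pderiv_inl_inl, pderiv_inr_inl, map_zero, zero_mul, Finset.sum_const_zero,
      add_zero, eval_inl] at h1
    exact h1
  · exact gam_zero h hA hy hk (e := 1) fun a ha => by
      rw [eval_X]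
      exact (hV k ha).1.1

theorem gam_cc (h : Dat f D C) (hC : Cmp f U) (hA : IsAct f C (fun _ : Fin 1 => U) act ε)
    (hy : HF y 0 i) {z : ℂ} {k l : Fin (n + 1)}
    (hk : (act (z • e1) (y 0)).1 0 k k ≠ 0) (hl : (act (z • e1) (y 0)).1 0 l l ≠ 0) :
    ge act y l z = fun r => (ge act y k z r * gam act y k z 0 (Sum.inl l) -
      gam act y k z 0 (Sum.inl r) * ge act y k z l) / gam act y k z 0 (Sum.inl l) ^ 2 := by
  have hfk := fo_gam h hC hA hy hk
  have hk0 : gam act y k z 0 (Sum.inl l) ≠ 0 :=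
    (pr_cc isOpen_univ (act (z • e1) (y 0)).2.1 (mem_univ 0) hk hl).1
  have hdl : ∀ r, HasDerivAt (fun s => gam act y k z s (Sum.inl r)) (ge act y k z r) 0 :=
    fun r => hfk.dz (Sum.inl r)
  funext r
  have h1 : (fun s => eval (gam act y l z s) (X (Sum.inl r))) =ᶠ[𝓝 0] fun s =>
      gam act y k z s (Sum.inl r) / gam act y k z s (Sum.inl l) := by
    filter_upwards [gam_mem h hA hy hk, gam_mem h hA hy hl] with s hs1 hs2
    have h2 := (pr_cc isOpen_univ (act (z • e1) (y s)).2.1 (mem_univ 0) hs1 hs2).2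
    unfold gam
    rw [eval_X, h2, cc_inl]
  change J (gam act y l) z (X (Sum.inl r)) = _
  unfold J
  rw [h1.deriv_eq, ((hdl r).fun_div (hdl l) hk0).deriv]

theorem ht_th (h : Dat f D C) (hC : Cmp f U) (hA : IsAct f C (fun _ : Fin 1 => U) act ε)
    (hV : ∀ i, Vs (Rel f) i ⊆ Ep F σ c i) (hy : HF y 0 i) {z : ℂ} {k : Fin (n + 1)}
    (hk : (act (z • e1) (y 0)).1 0 k k ≠ 0) {j : κ} {P : Rn (n + 1)}
    {H : MvPolynomial (Fin (n + 1)) ℂ} (hrep : Rep F σ j P H) :
    ht (gam act y k) (th P H) z =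
      eval (gam act y k z 0) (HH H) * ds σ j (gam act y k z 0) (ge act y k z) := by
  have h1 : ht (gam act y k) (th P H) z = eval (gam act y k z 0 ∘ Sum.inl) H *
      ∑ r, eval (gam act y k z 0) (pderiv (Sum.inr r) P) * ge act y k z r := by
    unfold ht th
    rw [Fintype.sum_sum_type]
    simp only [Sum.elim_inl, Sum.elim_inr, map_zero, zero_mul, Finset.sum_const_zero, add_zero,
      map_mul, eval_inl]
    rw [Finset.mul_sum]
    exact Finset.sum_congr rfl fun k _ => by rw [mul_assoc]; rfl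
  have h2 : eval (gam act y k z 0) (HH H) = eval (gam act y k z 0 ∘ Sum.inl) H ^ 2 := by
    unfold HH
    rw [map_pow, eval_inl]
  rw [h1, h2]
  by_cases hH : eval (gam act y k z 0 ∘ Sum.inl) H = 0
  · rw [hH]
    ring
  · have ha : gam act y k z 0 ∈ Tg F k :=
      (hV k ((act (z • e1) (y 0)).2.2 0 (mem_univ 0) k hk)).1
    rw [ds_rep ha (gam_Tan h hC hA hV hy hk).1 hrep hH]
    field_simp

/-- pairings with derivations -/
theorem pair_ev (hM : IsFd f D ev δ) {k : Fin (n + 1)} {P : Rn (n + 1)}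
    {H : MvPolynomial (Fin (n + 1)) ℂ} (hH : ev k (rename Sum.inl H) ≠ 0)
    {E : Dr (Fin (n + 1) ⊕ Fin (n + 1))} {v : Derivation ℂ M M}
    (hE : ∀ G, ev k (E G) = v (ev k G)) :
    ev k (pairE (th P H) E) = ev k (HH H) * lam (ev k) P H v := by
  have h1 : ev k (pairE (th P H) E) = ev k (rename Sum.inl H) *
      ∑ r, ev k (pderiv (Sum.inr r) P) * ev k (E (X (Sum.inl r))) := by
    unfold pairE th
    rw [Fintype.sum_sum_type]
    simp only [Sum.elim_inl, Sum.elim_inr, zero_mul, Finset.sum_const_zero, add_zero, map_sum,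
      map_mul]
    rw [Finset.mul_sum]
    exact Finset.sum_congr rfl fun k _ => by ring
  rw [h1]
  have h2 : ∑ r, ev k (pderiv (Sum.inr r) P) * ev k (E (X (Sum.inl r))) =
      ∑ r, ev k (pderiv (Sum.inr r) P) * v (ev k (X (Sum.inl r))) :=
    Finset.sum_congr rfl fun r _ => by rw [hE]
  rw [h2, lam_mul _ hH]
  unfold HH
  rw [map_pow]
  ring

/-- **The entire function of a family of orbits.** -/
theorem exists_g (h : Dat f D C) (hM : IsFd f D ev δ) (hσ : ∀ j, SymForm F (m j) (σ j))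
    (hV : ∀ i, Vs (Rel f) i ⊆ Ep F σ c i) (hC : Cmp f U)
    (hA : IsAct f C (fun _ : Fin 1 => U) act ε) {u w : Derivation ℂ M M}
    (hU : ∀ k, (∃ z, f z k k ≠ 0) → ∀ G, ev k (U k G) = u (ev k G))
    (hW : ∀ k, (∃ z, f z k k ≠ 0) → ∀ G, ev k (W k G) = w (ev k G)) {e e' : κ → ℂ}
    (hw : IsC F σ f ev w e) (huw : IsC F σ f ev ⁅u, w⁆ e') (hy : HF y 0 i)
    (hyW : ∀ l, J (gam act y i) 0 (X l) = eval (pr i (y 0).1 0) (W i (X l))) (j : κ) :
    ∃ g : ℂ → ℂ, Differentiable ℂ g ∧ deriv g 0 = -e' j ∧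
      ∀ z k, (act (z • e1) (y 0)).1 0 k k ≠ 0 →
        g z = ds σ j (gam act y k z 0) (ge act y k z) := by
  choose ix hix using fun z : ℂ =>
    PM.exists_diag ((act (z • e1) (y 0)).2.1.mem_PM (mem_univ (0 : ℂ)))
  have hmem : ∀ z k, (act (z • e1) (y 0)).1 0 k k ≠ 0 → gam act y k z 0 ∈ Vs (Rel f) k :=
    fun z k hk => (act (z • e1) (y 0)).2.2 0 (mem_univ 0) k hk
  have hTg : ∀ z k, (act (z • e1) (y 0)).1 0 k k ≠ 0 → gam act y k z 0 ∈ Tg F k := fun z k hk =>
    (hV k (hmem z k hk)).1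
  have hs : ∀ z k, (act (z • e1) (y 0)).1 0 k k ≠ 0 →
      ds σ j (gam act y (ix z) z 0) (ge act y (ix z) z) =
      ds σ j (gam act y k z 0) (ge act y k z) := by
    intro z k hk
    obtain ⟨h1, h2⟩ := pr_cc isOpen_univ (act (z • e1) (y 0)).2.1 (mem_univ 0) (hix z) hk
    rw [gam_cc h hC hA hy (hix z) hk]
    have h3 : gam act y k z 0 = cc k (gam act y (ix z) z 0) := h2
    rw [h3]
    exact (ds_cc hσ (hTg z _ (hix z)) h1 (gam_Tan h hC hA hV hy (hix z)).1 j).symm
  set g : ℂ → ℂ := fun z => ds σ j (gam act y (ix z) z 0) (ge act y (ix z) z) with hg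
  -- the local formula
  have hloc : ∀ z k P H, (act (z • e1) (y 0)).1 0 k k ≠ 0 → Rep F σ j P H →
      ∀ᶠ x in 𝓝 z, g x * eval (gam act y k x 0) (HH H) = ht (gam act y k) (th P H) x := by
    intro z k P H hk hrep
    obtain ⟨hev, -⟩ := hA.sol h (fun _ => hC) (y 0) e1 z hk
    filter_upwards [hev] with x hx
    rw [hg]
    simp only
    rw [hs x k hx, ht_th h hC hA hV hy hx hrep, mul_comm]
  have hdH : ∀ z k (H : MvPolynomial (Fin (n + 1)) ℂ), (act (z • e1) (y 0)).1 0 k k ≠ 0 →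
      HasDerivAt (fun x => eval (gam act y k x 0) (HH H))
        (eval (gam act y k z 0) (U k (HH H))) z := fun z k H hk =>
    hasDerivAt_eval (U k) (γ := fun x => gam act y k x 0)
      (fo_gam h hC hA hy hk).ode.self_of_nhds (HH H)
  have hHH0 : ∀ z k (H : MvPolynomial (Fin (n + 1)) ℂ),
      eval (gam act y k z 0 ∘ Sum.inl) H ≠ 0 → eval (gam act y k z 0) (HH H) ≠ 0 := by
    intro z k H hH
    unfold HH
    rw [map_pow, eval_inl]
    exact pow_ne_zero 2 hH
  have hgd : Differentiable ℂ g := by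
    intro z
    obtain ⟨P, H, hH, hrep⟩ := sg_rep hσ j (Tg.cone (hTg z _ (hix z)))
    have hne := hHH0 z (ix z) H hH
    have h1 := (fo_gam h hC hA hy (hix z)).ht_deriv (th P H)
    have h2 := hdH z (ix z) H (hix z)
    have h3 : DifferentiableAt ℂ (fun x => ht (gam act y (ix z)) (th P H) x /
        eval (gam act y (ix z) x 0) (HH H)) z :=
      h1.differentiableAt.fun_div h2.differentiableAt hne
    refine h3.congr_of_eventuallyEq ?_
    filter_upwards [hloc z (ix z) P H (hix z) hrep, h2.continuousAt.eventually_ne hne] with x h4 h5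
    rw [eq_div_iff h5]
    exact h4
  refine ⟨g, hgd, ?_, hs⟩
  -- the derivative at zero
  have h0 : act ((0 : ℂ) • e1) (y 0) = y 0 := by rw [zero_smul, hA.zero h]
  have hi : (y 0).1 0 i i ≠ 0 := hy.self_of_nhds.1
  have hi0 : (act ((0 : ℂ) • e1) (y 0)).1 0 i i ≠ 0 := by rw [h0]; exact hi
  have hga : gam act y i 0 0 = pr i (y 0).1 0 := by unfold gam; rw [h0]
  obtain ⟨P, H, hH, hrep⟩ := sg_rep hσ j (Tg.cone (hTg 0 i hi0))
  have hrep' : Rep F σ j P H := hrep
  have haV := hmem 0 i hi0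
  have hif : ∃ z, f z i i ≠ 0 := chart_of_mem haV
  have hHM := rep_ne hM hif haV hH
  have hne := hHH0 0 i H hH
  set a := pr i (y 0).1 0 with ha
  have h1 := (fo_gam h hC hA hy hi0).ht_deriv (th P H)
  have h2 := (hgd 0).hasDerivAt.mul (hdH 0 i H hi0)
  have h3 : HasDerivAt (ht (gam act y i) (th P H)) (deriv g 0 * eval (gam act y i 0 0) (HH H) +
      g 0 * eval (gam act y i 0 0) (U i (HH H))) 0 := by
    refine h2.congr_of_eventuallyEq ?_
    filter_upwards [hloc 0 i P H hi0 hrep'] with x hx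
    exact hx.symm
  have h4 := h3.unique h1
  have hpair : ∀ θ : Fin (n + 1) ⊕ Fin (n + 1) → Rn (n + 1),
      ht (gam act y i) θ 0 = eval a (pairE θ (W i)) := by
    intro θ
    unfold ht pairE
    rw [map_sum, hga]
    refine Finset.sum_congr rfl fun l _ => ?_
    rw [hyW, map_mul]
  rw [hpair, Lie_pair, map_sub, hga] at h4
  have h5 : pairE (th P H) (W i) - MvPolynomial.C (e j) * HH H ∈ Rel f i := by
    rw [← hM.ker i hif, map_sub, map_mul, pair_ev hM hHM (hW i hif), hw i hif j P H hrep' hHM,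
      ← MvPolynomial.algebraMap_eq, AlgHom.commutes]
    ring
  have hCU : U i (MvPolynomial.C (e j)) = 0 := by
    rw [← MvPolynomial.algebraMap_eq]
    exact Derivation.map_algebraMap _ _
  have h6 : U i (pairE (th P H) (W i)) - MvPolynomial.C (e j) * U i (HH H) ∈ Rel f i := by
    have h7 := hC.pres i _ h5
    rw [map_sub, Derivation.leibniz, hCU, smul_zero, add_zero, smul_eq_mul] at h7
    exact h7
  have h7 : pairE (th P H) ⁅U i, W i⁆ - MvPolynomial.C (e' j) * HH H ∈ Rel f i := by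
    have h8 : ∀ G, ev i (⁅U i, W i⁆ G) = ⁅u, w⁆ (ev i G) := by
      intro G
      rw [Derivation.commutator_apply, Derivation.commutator_apply, map_sub, hU i hif, hW i hif,
        hW i hif, hU i hif]
    rw [← hM.ker i hif, map_sub, map_mul, pair_ev hM hHM h8, huw i hif j P H hrep' hHM,
      ← MvPolynomial.algebraMap_eq, AlgHom.commutes]
    ring
  rw [hga] at haV hne
  have e5 := haV _ h5
  have e6 := haV _ h6
  have e7 := haV _ h7
  rw [map_sub, map_mul, eval_C] at e5 e6 e7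
  have h8 := (hloc 0 i P H hi0 hrep').self_of_nhds
  rw [hpair, hga] at h8
  have h9 : (g 0 - e j) * eval a (HH H) = 0 := by
    linear_combination h8 + e5
  have h10 : g 0 = e j := sub_eq_zero.1 ((mul_eq_zero.1 h9).resolve_right hne)
  rw [h10] at h4
  have h11 : (deriv g 0 + e' j) * eval a (HH H) = 0 := by
    linear_combination h4 + e6 - e7
  exact eq_neg_of_add_eq_zero_left ((mul_eq_zero.1 h11).resolve_right hne)

end gam

end Run7.h418.Z
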