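import Pool.Agent.Run7.h418.Z.Orb
import Pool.Agent.Run7.h418.Mix
import Pool.Agent.Run7.h418.Emb

/-!
Holomorphic maps to the space of curves.
-/

set_option autoImplicit false

open MvPolynomial Metric Set Filter Topology

namespace Run7.h418.Z

open Pool.Agent.Y190.OP Pool.Agent.W602.GT Pool.Agent.N155

section hf

variable {N : ℕ} {f : ℂ → Mat N} {D : Fin N → Dr (Fin N ⊕ Fin N)} {C : ℝ}
variable {E : Type} [NormedAddCommGroup E] [NormedSpace ℂ E]

/-- the map `y` to the space of curves is holomorphic at `p`, in the chart `k` -/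
def HF (y : E → Ws f) (p : E) (k : Fin N) : Prop :=
  ∀ᶠ q in 𝓝 p, (y q).1 0 k k ≠ 0 ∧ DifferentiableAt ℂ (fun q => pr k (y q).1 0) q

theorem HF.congr {y y' : E → Ws f} {p : E} {k : Fin N} (h : HF y p k) (he : y' =ᶠ[𝓝 p] y) :
    HF y' p k := by
  filter_upwards [h, he.eventually_nhds] with q hq heq
  rw [heq.self_of_nhds]
  refine ⟨hq.1, hq.2.congr_of_eventuallyEq ?_⟩
  filter_upwards [heq] with x hx
  rw [hx]

theorem HF.change {y : E → Ws f} {p : E} {i k : Fin N} (h : HF y p i)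
    (hk : (y p).1 0 k k ≠ 0) : HF y p k := by
  obtain ⟨hi0, hd0⟩ := h.self_of_nhds
  have hk0 : pr i (y p).1 0 (Sum.inl k) ≠ 0 :=
    (pr_cc isOpen_univ (y p).2.1 (mem_univ 0) hi0 hk).1
  have hc : ContinuousAt (fun q => pr i (y q).1 0 (Sum.inl k)) p :=
    (differentiableAt_pi.1 hd0 (Sum.inl k)).continuousAt
  have h1 : ∀ᶠ q in 𝓝 p, ((y q).1 0 i i ≠ 0 ∧ DifferentiableAt ℂ (fun q => pr i (y q).1 0) q) ∧
      pr i (y q).1 0 (Sum.inl k) ≠ 0 := h.and (hc.eventually_ne hk0)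
  filter_upwards [h1.eventually_nhds] with q hq
  obtain ⟨⟨h2, h3⟩, h4⟩ := hq.self_of_nhds
  have hk' : (y q).1 0 k k ≠ 0 := diag_of_inl ((y q).2.1.mem_PM (mem_univ 0)) h2 h4
  refine ⟨hk', ?_⟩
  have h5 : (fun q => pr k (y q).1 0) =ᶠ[𝓝 q] fun q => cc k (pr i (y q).1 0) := by
    filter_upwards [hq] with x hx
    exact (pr_cc isOpen_univ (y x).2.1 (mem_univ 0) hx.1.1
      (diag_of_inl ((y x).2.1.mem_PM (mem_univ 0)) hx.1.1 hx.2)).2
  exact (diff_cc h3 h4).congr_of_eventuallyEq h5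

theorem HF.comp {E' : Type} [NormedAddCommGroup E'] [NormedSpace ℂ E'] {y : E → Ws f} {p : E'}
    {g : E' → E} {k : Fin N} (h : HF y (g p) k) (hg : ∀ᶠ q in 𝓝 p, DifferentiableAt ℂ g q) :
    HF (fun q => y (g q)) p k := by
  filter_upwards [hg.self_of_nhds.continuousAt.eventually h, hg] with q hq hgq
  exact ⟨hq.1, DifferentiableAt.comp (g := fun q => pr k (y q).1 0) (f := g) q hq.2 hgq⟩

variable {q : ℕ} {V : Fin q → Fin N → Dr (Fin N ⊕ Fin N)} {act : (Fin q → ℂ) → Ws f → Ws f}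
  {ε : ℝ}

theorem HF.small (h : Dat f D C) (hA : IsAct f C V act ε) {y : E → Ws f} {p : E}
    {i : Fin N} (hy : HF y p i) {t : Fin q → ℂ} (ht : ‖t‖ ≤ ε) :
    ∃ k, HF (fun x => act t (y x)) p k := by
  obtain ⟨k, hk, hkK⟩ := exists_max ((y p).2.1.mem_PM (mem_univ (0 : ℂ)))
  have hB := Ws.norm_le h (y p) hk hkK
  have hyk := hy.change hk
  have hc : ContinuousAt (fun x => pr k (y x).1 0) p := hyk.self_of_nhds.2.continuousAt
  have h1 := hc.norm.eventually_lt_const (show ‖pr k (y p).1 0‖ < max 1 C + 1 by linarith)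
  have h2 := hyk.and h1
  refine ⟨k, ?_⟩
  filter_upwards [h2.eventually_nhds] with x hx
  obtain ⟨⟨h3, h4⟩, h5⟩ := hx.self_of_nhds
  refine ⟨(hA.loc t ht (y x) k h3 h5.le).1, ?_⟩
  have h6 : (fun x => pr k (act t (y x)).1 0) =ᶠ[𝓝 x] fun x =>
      fl ((∑ b, t b • V b) k) (pr k (y x).1 0) 1 := by
    filter_upwards [hx] with x' hx'
    exact (hA.loc t ht (y x') k hx'.1.1 hx'.2.le).2
  refine DifferentiableAt.congr_of_eventuallyEq ?_ h6
  have h7 := (hA.sm t ht k).diff_fl h5 (z := 1) (by simp)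
  have h8 : DifferentiableAt ℂ (fun x => (pr k (y x).1 0, (1 : ℂ))) x :=
    h4.prodMk (differentiableAt_const _)
  exact DifferentiableAt.comp (g := fun p : (Fin N ⊕ Fin N → ℂ) × ℂ =>
    fl ((∑ b, t b • V b) k) p.1 p.2) (f := fun x => (pr k (y x).1 0, (1 : ℂ))) x h7 h8

theorem HF.act' (h : Dat f D C) (hA : IsAct f C V act ε) {y : E → Ws f} {p : E}
    {i : Fin N} (hy : HF y p i) (t : Fin q → ℂ) : ∃ k, HF (fun x => act t (y x)) p k := by
  obtain ⟨m, hm⟩ := exists_nat_gt (‖t‖ / ε)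
  have hε := hA.pos
  have hm0 : (0 : ℝ) < m := lt_of_le_of_lt (by positivity) hm
  have hm0' : (m : ℂ) ≠ 0 := by
    have : (m : ℝ) ≠ 0 := hm0.ne'
    exact_mod_cast this
  set τ : Fin q → ℂ := (m : ℂ)⁻¹ • t with hτ
  have hτε : ‖τ‖ ≤ ε := by
    rw [hτ, norm_smul, norm_inv, Complex.norm_natCast, inv_mul_le_iff₀ hm0]
    rw [div_lt_iff₀ hε] at hm
    exact hm.le
  have h1 : ∀ j : ℕ, ∃ k, HF (fun x => act ((j : ℂ) • τ) (y x)) p k := by
    intro j
    induction j with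
    | zero =>
      refine ⟨i, ?_⟩
      simp only [Nat.cast_zero, zero_smul]
      have : (fun x => act 0 (y x)) = y := by
        funext x
        exact hA.zero h (y x)
      rw [this]
      exact hy
    | succ j ih =>
      obtain ⟨k, hk⟩ := ih
      obtain ⟨k', hk'⟩ := hk.small h hA hτε
      refine ⟨k', ?_⟩
      have : (fun x => act (((j + 1 : ℕ) : ℂ) • τ) (y x)) =
          fun x => act τ (act ((j : ℂ) • τ) (y x)) := by
        funext x
        rw [← hA.add]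
        congr 1
        push_cast
        rw [add_smul, one_smul, add_comm]
      rw [this]
      exact hk'
  obtain ⟨k, hk⟩ := h1 m
  refine ⟨k, ?_⟩
  have : (m : ℂ) • τ = t := by rw [hτ, smul_smul, mul_inv_cancel₀ hm0', one_smul]
  rwa [this] at hk

/-- the action along a line is holomorphic in both variables -/
theorem HF.act_line (h : Dat f D C) (hA : IsAct f C V act ε) {y : E → Ws f} {p : E}
    {i : Fin N} (hy : HF y p i) (e : Fin q → ℂ) {τ : E → ℂ}
    (hτ : ∀ᶠ x in 𝓝 p, DifferentiableAt ℂ τ x) {k : Fin N}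
    (hk : (act (τ p • e) (y p)).1 0 k k ≠ 0) : HF (fun x => act (τ x • e) (y x)) p k := by
  obtain ⟨l', hy'⟩ := hy.act' h hA (τ p • e)
  set y' : E → Ws f := fun x => act (τ p • e) (y x) with hy'def
  obtain ⟨l, hl, hlK⟩ := exists_max ((y' p).2.1.mem_PM (mem_univ (0 : ℂ)))
  have hB := Ws.norm_le h (y' p) hl hlK
  have hyl := hy'.change hl
  have hc : ContinuousAt (fun x => pr l (y' x).1 0) p := hyl.self_of_nhds.2.continuousAt
  have h1 := hc.norm.eventually_lt_const (show ‖pr l (y' p).1 0‖ < max 1 C + 1 by linarith)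
  obtain ⟨ρ, hρ⟩ := exists_rad ((∑ b, e b • V b) l) (B := max 1 C + 1) (by positivity)
  have hρ0 := hρ.pos
  have hε := hA.pos
  have hτc : ContinuousAt τ p := hτ.self_of_nhds.continuousAt
  have h2 : ∀ᶠ x in 𝓝 p, ‖τ x - τ p‖ < min ρ (ε / (‖e‖ + 1)) := by
    have : ContinuousAt (fun x => ‖τ x - τ p‖) p := (hτc.sub continuousAt_const).norm
    refine this.eventually_lt_const ?_
    change ‖τ p - τ p‖ < _
    rw [sub_self, norm_zero]
    exact lt_min hρ0 (by positivity)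
  have heq : ∀ x, act (τ x • e) (y x) = act ((τ x - τ p) • e) (y' x) := by
    intro x
    rw [hy'def]
    simp only
    rw [← hA.add, ← add_smul, sub_add_cancel]
  have h3 : ∀ x, ‖τ x - τ p‖ < min ρ (ε / (‖e‖ + 1)) → ‖(τ x - τ p) • e‖ ≤ ε := by
    intro x hx
    have h4 : ‖τ x - τ p‖ < ε / (‖e‖ + 1) := hx.trans_le (min_le_right _ _)
    rw [lt_div_iff₀ (by positivity)] at h4
    rw [norm_smul]
    nlinarith [norm_nonneg (τ x - τ p), norm_nonneg e]
  have h4 : HF (fun x => act (τ x • e) (y x)) p l := by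
    filter_upwards [((hyl.and h1).and (h2.and hτ)).eventually_nhds] with x hx
    obtain ⟨⟨⟨h5, h6⟩, h7⟩, h8, h9⟩ := hx.self_of_nhds
    refine ⟨?_, ?_⟩
    · rw [heq]
      exact (hA.loc _ (h3 x h8) (y' x) l h5 h7.le).1
    · have h10 : (fun x => pr l (act (τ x • e) (y x)).1 0) =ᶠ[𝓝 x] fun x =>
          fl ((∑ b, e b • V b) l) (pr l (y' x).1 0) (τ x - τ p) := by
        filter_upwards [hx] with x' hx'
        rw [heq, (hA.loc _ (h3 x' hx'.2.1) (y' x') l hx'.1.1.1 hx'.1.2.le).2]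
        have h11 : (∑ b, ((τ x' - τ p) • e) b • V b) l = (τ x' - τ p) • (∑ b, e b • V b) l := by
          rw [Finset.sum_apply, Finset.sum_apply, Finset.smul_sum]
          refine Finset.sum_congr rfl fun b _ => ?_
          rw [Pi.smul_apply, Pi.smul_apply, Pi.smul_apply, smul_smul, smul_eq_mul]
        rw [h11, fl_smul, mul_one]
      refine DifferentiableAt.congr_of_eventuallyEq ?_ h10
      have h12 := hρ.diff_fl h7 (z := τ x - τ p) (h8.trans_le (min_le_left _ _))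
      have h13 : DifferentiableAt ℂ (fun x => (pr l (y' x).1 0, τ x - τ p)) x :=
        h6.prodMk (h9.sub_const _)
      exact DifferentiableAt.comp (g := fun p : (Fin N ⊕ Fin N → ℂ) × ℂ =>
        fl ((∑ b, e b • V b) l) p.1 p.2) (f := fun x => (pr l (y' x).1 0, τ x - τ p)) x h12 h13
  exact h4.change hk

end hf

section jets

/-- derivatives of functions along a family -/
noncomputable def J {τ : Type} (γ : ℂ → ℂ → τ → ℂ) (z : ℂ) (G : MvPolynomial τ ℂ) : ℂ :=
  deriv (fun s => eval (γ z s) G) 0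

/-- the value of a form on the derivative of a family -/
noncomputable def ht {τ : Type} [Fintype τ] (γ : ℂ → ℂ → τ → ℂ) (θ : τ → MvPolynomial τ ℂ)
    (z : ℂ) : ℂ := ∑ l, eval (γ z 0) (θ l) * J γ z (X l)

/-- families of solutions of a vector field -/
structure Fo {τ : Type} (U : Dr τ) (γ : ℂ → ℂ → τ → ℂ) (z : ℂ) : Prop where
  diff : ∀ᶠ p : ℂ × ℂ in 𝓝 (z, 0), ∀ l, DifferentiableAt ℂ (fun p : ℂ × ℂ => γ p.1 p.2 l) p
  ode : ∀ᶠ p : ℂ × ℂ in 𝓝 (z, 0), ∀ l,
    HasDerivAt (fun w => γ w p.2 l) (eval (γ p.1 p.2) (U (X l))) p.1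

variable {τ : Type} [Fintype τ] {U : Dr τ} {γ : ℂ → ℂ → τ → ℂ} {z : ℂ}

omit [Fintype τ] in
theorem Fo.dz (h : Fo U γ z) (l : τ) : HasDerivAt (fun s => γ z s l) (J γ z (X l)) 0 := by
  have h1 := h.diff.self_of_nhds l
  have h2 : DifferentiableAt ℂ (fun s : ℂ => (z, s)) 0 := by fun_prop
  have h3 : DifferentiableAt ℂ (fun s => γ z s l) 0 :=
    DifferentiableAt.comp (g := fun p : ℂ × ℂ => γ p.1 p.2 l) (f := fun s : ℂ => (z, s)) 0 h1 h2
  unfold J
  simp only [eval_X]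
  exact h3.hasDerivAt

theorem Fo.J_sum (h : Fo U γ z) (G : MvPolynomial τ ℂ) :
    J γ z G = ∑ l, eval (γ z 0) (pderiv l G) * J γ z (X l) :=
  (hasDerivAt_eval' (fun l => h.dz l) G).deriv

theorem Fo.J_deriv (h : Fo U γ z) (G : MvPolynomial τ ℂ) :
    HasDerivAt (fun w => J γ w G) (J γ z (U G)) z := by
  have h1 : ∀ᶠ p : ℂ × ℂ in 𝓝 (z, 0), DifferentiableAt ℂ
      (fun p : ℂ × ℂ => eval (γ p.1 p.2) G) p := by
    filter_upwards [h.diff] with p hp
    exact diff_eval (g := fun p : ℂ × ℂ => γ p.1 p.2) (differentiableAt_pi.2 hp) G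
  have h2 := mixed h1
  have h3 : (fun t => deriv (fun w => eval (γ w t) G) z) =ᶠ[𝓝 0]
      fun t => eval (γ z t) (U G) := by
    filter_upwards [eventually_slice2 h.ode] with t ht
    exact (hasDerivAt_eval U (γ := fun w => γ w t) ht G).deriv
  have h5 : deriv (fun t => deriv (fun w => (fun p : ℂ × ℂ => eval (γ p.1 p.2) G) (w, t)) z) 0
      = J γ z (U G) := by
    unfold J
    exact h3.deriv_eq
  rw [h5] at h2
  exact h2

theorem Fo.ht_deriv (h : Fo U γ z) (θ : τ → MvPolynomial τ ℂ) :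
    HasDerivAt (ht γ θ) (ht γ (Lie U θ) z) z := by
  have hz : ∀ l, HasDerivAt (fun w => γ w 0 l) (eval (γ z 0) (U (X l))) z := h.ode.self_of_nhds
  have h1 : HasDerivAt (ht γ θ) (∑ l, (eval (γ z 0) (U (θ l)) * J γ z (X l) +
      eval (γ z 0) (θ l) * J γ z (U (X l)))) z := by
    unfold ht
    refine HasDerivAt.fun_sum fun l _ => ?_
    exact (hasDerivAt_eval U (γ := fun w => γ w 0) hz (θ l)).mul (h.J_deriv (X l))
  refine h1.congr_deriv ?_
  unfold ht Lie
  simp only [map_add, map_sum, map_mul, add_mul, Finset.sum_add_distrib]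
  congr 1
  simp only [Finset.sum_mul]
  rw [Finset.sum_comm]
  refine Finset.sum_congr rfl fun m _ => ?_
  rw [h.J_sum (U (X m)), Finset.mul_sum]
  exact Finset.sum_congr rfl fun l _ => by ring

end jets

end Run7.h418.Z
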