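import Pool.Agent.Run7.h418.Z.Nrm

/-!
The closure of a curve is not of general type.
-/

set_option autoImplicit false

open MvPolynomial FF Set Filter Topology Metric

namespace Run7.h418.Z

open Pool.Agent.Y190.OP Pool.Agent.W602.GT Pool.Agent.N155
open Pool.Agent.H436R3.Fol (DVal IsLocalRing')

section ngt

variable {n : ℕ}
  {f : ℂ → Mat (n + 1)} {D : Fin (n + 1) → Dr (Fin (n + 1) ⊕ Fin (n + 1))} {C : ℝ}
  {M : Type} [Field M] [Algebra ℂ M] {ev : Fin (n + 1) → Rn (n + 1) →ₐ[ℂ] M}
  {δ : Derivation ℂ M M} {w : ℕ} {z0 : Fin w → M} {v0 : Fin w → Derivation ℂ M M}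
  {V : Fin w → Fin (n + 1) → Dr (Fin (n + 1) ⊕ Fin (n + 1))}
  {act : (Fin w → ℂ) → Ws f → Ws f} {ε : ℝ} {d : Fin w → ℂ}

/-- frames and transcendence bases -/
theorem Td.det_ne (T : Td f D C ev δ z0 v0 V act ε d) {z : Fin w → M}
    (hz : IsTranscendenceBasis ℂ z) :
    (Matrix.of fun s t => v0 s (z t) : Matrix (Fin w) (Fin w) M).det ≠ 0 := by
  intro h0
  obtain ⟨x, hx, hx0⟩ := Matrix.exists_vecMul_eq_zero_iff.2 h0
  apply hx
  refine frame_indep T.det (der_zero hz fun t => ?_)
  rw [sum_smul_apply]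
  exact congrFun hx0 t

/-- fields which contain the coordinates -/
theorem Td.not_general (T : Td f D C ev δ z0 v0 V act ε d) {i : Fin (n + 1)}
    (hi : ∃ z, f z i i ≠ 0)
    (hx : ∀ v : Derivation ℂ M M, (∀ k, v (ev i (X (Sum.inl k))) = 0) → v = 0)
    {K : Type} [Field K] [Algebra ℂ K] [Algebra K M] [IsScalarTower ℂ K M]
    [Algebra.EssFiniteType ℂ K] {y : Fin (n + 1) → K}
    (hy : ∀ k, algebraMap K M (y k) = ev i (X (Sum.inl k))) :
    Algebra.trdeg ℂ K = w ∧ ¬ GeneralType ℂ K w := by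
  classical
  have hch : CharZero M := charZero_of_injective_algebraMap (algebraMap ℂ M).injective
  -- `M` is algebraic over `K`
  have halg : Algebra.IsAlgebraic K M := by
    have hchK : CharZero K := charZero_of_injective_algebraMap (algebraMap ℂ K).injective
    refine ⟨fun t => ?_⟩
    by_contra ht
    have h1 : AlgebraicIndependent K (fun _ : Fin 1 => t) := by
      rw [algebraicIndependent_unique_type_iff]
      exact ht
    obtain ⟨E, hE⟩ := Pool.Agent.Y191.exists_dual h1
    have h2 : (E 0).restrictScalars ℂ = 0 := by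
      apply hx
      intro k
      change E 0 _ = 0
      rw [← hy k, Derivation.map_algebraMap]
    have h3 := hE 0 0
    rw [if_pos rfl] at h3
    have h4 : (E 0).restrictScalars ℂ t = 1 := h3
    rw [h2] at h4
    exact zero_ne_one h4
  have hMw : Algebra.trdeg ℂ M = w := tb_card T.tb
  have hw : Algebra.trdeg ℂ K = w := by
    have h1 := trdeg_add_eq ℂ K (A := M)
    rw [trdeg_eq_zero_iff.2 halg, add_zero, hMw] at h1
    exact h1
  refine ⟨hw, ?_⟩
  rintro ⟨-, N, hN, ω, hpl, hreg, D0, hD0, hind⟩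
  have hw1 : 1 ≤ w := T.pos hi
  obtain ⟨z, hz⟩ : ∃ z : Fin w → K, IsTranscendenceBasis ℂ z := by
    obtain ⟨B, hB⟩ := exists_isTranscendenceBasis ℂ K
    have hcard := hB.cardinalMk_eq_trdeg
    rw [hw] at hcard
    have hfin : Finite B := by
      rw [← Cardinal.lt_aleph0_iff_finite, hcard]
      exact Cardinal.natCast_lt_aleph0
    obtain ⟨m', ⟨e⟩⟩ := Finite.exists_equiv_fin B
    obtain rfl : m' = w := by
      rw [Cardinal.mk_congr e, Cardinal.mk_fin] at hcard
      exact_mod_cast hcard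
    exact ⟨_, hB.comp_equiv e.symm⟩
  have hzM : IsTranscendenceBasis ℂ (fun t => algebraMap K M (z t)) := by
    have h1 : AlgebraicIndependent ℂ (fun t => algebraMap K M (z t)) :=
      hz.1.map' (f := IsScalarTower.toAlgHom ℂ K M) (algebraMap K M).injective
    refine h1.isTranscendenceBasis_of_trdeg_le_of_finite ?_
    rw [hMw, Cardinal.mk_fin]
  have hv2 := T.det_ne hzM
  obtain ⟨E, hE⟩ := Pool.Agent.Y191.exists_dual hz.1
  have hexp : ∀ j, ω j D0 = (Matrix.of fun a b => D0 a (z b) : Matrix (Fin w) (Fin w) K).det ^ N *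
      ω j E := by
    intro j
    have h1 := hpl j (Matrix.of fun a b => D0 a (z b)) E
    have h2 : (fun a => ∑ b, (Matrix.of fun a b => D0 a (z b) : Matrix (Fin w) (Fin w) K) a b •
        E b) = D0 := by
      funext a
      exact (der_expand hz hE (D0 a)).symm
    rw [h2] at h1
    exact h1
  set Δ : M := (Matrix.of fun s t => v0 s (algebraMap K M (z t)) :
    Matrix (Fin w) (Fin w) M).det with hΔ
  have hg : ∀ j, ∃ c : ℂ, Δ ^ N * algebraMap K M (ω j E) = algebraMap ℂ M c := by
    intro j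
    refine T.fd.const T.dat hi fun k hk => ?_
    exact mem_of_pluri hw hMw hz hE (hpl j) (fun P hP => hreg P hP j) (fg_range (ev k))
      (T.fd.fr hk) (T.normal hk) fun s => T.pres s hk
  choose c hc using hg
  have hE0 : ω 0 E ≠ 0 := fun h0 => hD0 (by rw [hexp, h0, mul_zero])
  have hA0 : (Matrix.of fun a b => D0 a (z b) : Matrix (Fin w) (Fin w) K).det ^ N ≠ 0 :=
    fun h0 => hD0 (by rw [hexp, h0, zero_mul])
  have hΔ0 : Δ ^ N ≠ 0 := pow_ne_zero _ hv2
  have hc0 : algebraMap ℂ M (c 0) ≠ 0 := by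
    rw [← hc]
    exact mul_ne_zero hΔ0 ((_root_.map_ne_zero _).2 hE0)
  have hrat : ∀ j : Fin w, ω j.succ D0 / ω 0 D0 = algebraMap ℂ K (c j.succ / c 0) := by
    intro j
    apply (algebraMap K M).injective
    rw [← IsScalarTower.algebraMap_apply ℂ K M, map_div₀ (algebraMap ℂ M), ← hc, ← hc, hexp,
      hexp, mul_div_mul_left _ _ hA0, mul_div_mul_left _ _ hΔ0, map_div₀]
  have h1 := hind.transcendental ⟨0, hw1⟩
  rw [hrat] at h1
  exact h1 (isAlgebraic_algebraMap _)

end ngt

section hom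

variable {n : ℕ}

/-- homogenization -/
theorem exists_homog (i : Fin (n + 1)) (G : MvPolynomial (Fin (n + 1)) ℂ) :
    ∃ H : MvPolynomial (Fin (n + 1)) ℂ, IsForm H ∧ ∀ (K : Type) [Field K] [Algebra ℂ K]
      (y : Fin (n + 1) → K), y i = 1 → aeval y H = aeval y G := by
  classical
  refine ⟨∑ d ∈ Finset.range (G.totalDegree + 1), X i ^ (G.totalDegree - d) *
    homogeneousComponent d G, ⟨G.totalDegree, ?_⟩, fun K _ _ y hy => ?_⟩
  · refine IsHomogeneous.sum _ _ _ fun d hd => ?_
    have h1 := ((isHomogeneous_X ℂ i).pow (G.totalDegree - d)).mul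
      (homogeneousComponent_isHomogeneous d G)
    have h2 : 1 * (G.totalDegree - d) + d = G.totalDegree := by
      have := Finset.mem_range.1 hd
      omega
    rwa [h2] at h1
  · rw [map_sum]
    conv_rhs => rw [← sum_homogeneousComponent G]
    rw [map_sum]
    refine Finset.sum_congr rfl fun d _ => ?_
    rw [map_mul, map_pow, aeval_X, hy, one_pow, one_mul]

end hom

end Run7.h418.Z
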