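import Pool.Agent.Run7.h418.Z.Bro
import Pool.Agent.Run7.h418.Gt

/-!
The closure of a curve is not of general type.
-/

set_option autoImplicit false

open MvPolynomial FF Set Filter Topology Metric

namespace Run7.h418.Z

open Pool.Agent.Y190.OP Pool.Agent.W602.GT Pool.Agent.N155
open Pool.Agent.H436R3.Fol (DVal IsLocalRing')

section nrm

variable {n : ℕ}
  {f : ℂ → Mat (n + 1)} {D : Fin (n + 1) → Dr (Fin (n + 1) ⊕ Fin (n + 1))} {C : ℝ}
  {M : Type} [Field M] [Algebra ℂ M] {ev : Fin (n + 1) → Rn (n + 1) →ₐ[ℂ] M}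
  {δ : Derivation ℂ M M} {w : ℕ} {z0 : Fin w → M} {v0 : Fin w → Derivation ℂ M M}
  {V : Fin w → Fin (n + 1) → Dr (Fin (n + 1) ⊕ Fin (n + 1))}
  {act : (Fin w → ℂ) → Ws f → Ws f} {ε : ℝ} {d : Fin w → ℂ}

theorem Td.pres (T : Td f D C ev δ z0 v0 V act ε d) (s : Fin w) {k : Fin (n + 1)}
    (hk : ∃ z, f z k k ≠ 0) : ∀ a ∈ (ev k).range, v0 s a ∈ (ev k).range := by
  rintro a ⟨G, rfl⟩
  exact ⟨V s k G, T.lift s k hk G⟩

/-- the coordinate rings are integrally closed -/
theorem Td.normal (T : Td f D C ev δ z0 v0 V act ε d) {k : Fin (n + 1)} (hk : ∃ z, f z k k ≠ 0)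
    (b : M) (hb : IsIntegral (ev k).range b) : b ∈ (ev k).range := by
  have hess := T.fd.ess hk
  obtain ⟨c, hc, hc0, hcb⟩ := exists_conductor (fg_range (ev k)) (T.fd.fr hk)
  have hδ : ∀ s, ∀ a ∈ (ev k).range, v0 s a ∈ (ev k).range := fun s => T.pres s hk
  set I : Ideal (Rn (n + 1)) :=
    { carrier := {q | ∀ b : M, IsIntegral (ev k).range b → ev k q * b ∈ (ev k).range}
      add_mem' := fun {a b} ha hb x hx => by
        rw [map_add, add_mul]
        exact add_mem (ha x hx) (hb x hx)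
      zero_mem' := fun x _ => by rw [map_zero, zero_mul]; exact zero_mem _
      smul_mem' := fun c a ha x hx => by
        rw [smul_eq_mul, map_mul, mul_assoc]
        exact mul_mem ⟨c, rfl⟩ (ha x hx) } with hI
  have h1 : Rel f k ≤ I := fun q hq x _ => by
    rw [(T.fd.ker k hk q).2 hq, zero_mul]
    exact zero_mem _
  have h2 : ∀ s, ∀ q ∈ I, V s k q ∈ I := by
    intro s q hq x hx
    have h3 := hδ s _ (hq x hx)
    rw [Derivation.leibniz, smul_eq_mul, smul_eq_mul, ← T.lift s k hk] at h3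
    have h4 := hq _ (seidenberg (fg_range (ev k)) (T.fd.fr hk) (hδ s) hx)
    have h5 : ev k (V s k q) * x = (ev k q * v0 s x + x * ev k (V s k q)) - ev k q * v0 s x := by
      ring
    rw [h5]
    exact sub_mem h3 h4
  have h3 : I ≠ Rel f k := by
    obtain ⟨q, rfl⟩ := hc
    intro h4
    have h5 : q ∈ I := hcb
    rw [h4] at h5
    exact hc0 ((T.fd.ker k hk q).2 h5)
  have h4 : I = ⊤ := by
    by_contra h5
    exact h3 (le_antisymm (T.gsimple h1 h2 h5) h1)
  have h5 : (1 : Rn (n + 1)) ∈ I := by rw [h4]; trivial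
  have h6 := h5 b hb
  rw [map_one, one_mul] at h6
  exact h6

end nrm

section const

variable {n : ℕ}
  {f : ℂ → Mat (n + 1)} {D : Fin (n + 1) → Dr (Fin (n + 1) ⊕ Fin (n + 1))} {C : ℝ}

/-- functions which are regular on all charts are constant -/
theorem IsFd.const {M : Type} [Field M] [Algebra ℂ M] {ev : Fin (n + 1) → Rn (n + 1) →ₐ[ℂ] M}
    {δ : Derivation ℂ M M} (h : Dat f D C) (hM : IsFd f D ev δ) {i : Fin (n + 1)}
    (hi : ∃ z, f z i i ≠ 0) {g : M} (hg : ∀ k, (∃ z, f z k k ≠ 0) → g ∈ (ev k).range) :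
    ∃ c : ℂ, g = algebraMap ℂ M c := by
  have hg' : ∀ k, (∃ z, f z k k ≠ 0) → ∃ G, ev k G = g := fun k hk => hg k hk
  choose! G hG using hg'
  choose ix hix hixK using fun z => exists_max (h.hol.mem_PM (mem_univ z))
  set φ : ℂ → ℂ := fun z => eval (pr (ix z) f z) (G (ix z)) with hφ
  have hφk : ∀ z k, f z k k ≠ 0 → φ z = eval (pr k f z) (G k) := by
    intro z k hk
    exact hM.val (ix z) k ⟨z, hix z⟩ ⟨z, hk⟩ (G (ix z)) (G k)
      (by rw [hG _ ⟨z, hix z⟩, hG _ ⟨z, hk⟩]) z (hix z) hk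
  have hd : Differentiable ℂ φ := by
    intro z
    have h1 : φ =ᶠ[𝓝 z] fun w => eval (pr (ix z) f w) (G (ix z)) := by
      filter_upwards [ev_diag h.hol (mem_univ z) (hix z)] with w hw
      exact hφk w _ hw
    refine DifferentiableAt.congr_of_eventuallyEq ?_ h1
    exact (analyticAt_eval (fun l => analyticAt_pr isOpen_univ h.hol (mem_univ z) (hix z) l)
      (G (ix z))).differentiableAt
  choose B hB0 hB using fun k => exists_bd (G k) (max 1 C)
  obtain ⟨B', hB'⟩ := Finite.exists_le B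
  have hb : Bornology.IsBounded (range φ) := by
    rw [isBounded_iff_forall_norm_le]
    refine ⟨B', ?_⟩
    rintro _ ⟨z, rfl⟩
    refine (hB (ix z) _ ?_).trans (hB' _)
    rw [pi_norm_le_iff_of_nonneg (by positivity)]
    have h1 : pr (ix z) f z ∈ Vs (Rel f) (ix z) := fun G hG => hG z (hix z)
    rintro (l | l)
    · exact (norm_le_pi_norm (pr (ix z) f z ∘ Sum.inl) l).trans
        ((hixK z).2.trans (le_max_left _ _))
    · exact (norm_le_pi_norm (pr (ix z) f z ∘ Sum.inr) l).trans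
        ((h.bd _ _ h1 (hixK z)).trans (le_max_right _ _))
  have hconst : ∀ z, φ z = φ 0 := fun z => hd.apply_eq_apply_of_bounded hb z 0
  refine ⟨φ 0, ?_⟩
  have h1 : ev i (G i - MvPolynomial.C (φ 0)) = 0 := by
    rw [hM.ker i hi]
    intro z hz
    rw [map_sub, eval_C, ← hφk z i hz, hconst z, sub_self]
  rw [map_sub, ← MvPolynomial.algebraMap_eq, AlgHom.commutes, hG i hi] at h1
  exact sub_eq_zero.1 h1

end const

end Run7.h418.Z
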