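import Pool.Agent.Run7.h418.Orb
import Pool.Agent.Run7.h418.Z.Act

/-!
Orbits of actions of vector groups on the space of curves.
-/

set_option autoImplicit false

open MvPolynomial Metric Set Filter Topology

namespace Run7.h418.Z

open Pool.Agent.Y190.OP Pool.Agent.W602.GT Pool.Agent.N155

section fl

variable {τ : Type}

end fl

section act

variable {N : ℕ} {f : ℂ → Mat N} {D : Fin N → Dr (Fin N ⊕ Fin N)} {C : ℝ}

/-- an action of a vector group on the space of curves, given by vector fields -/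
structure IsAct (f : ℂ → Mat N) (C : ℝ) {q : ℕ} (V : Fin q → Fin N → Dr (Fin N ⊕ Fin N))
    (act : (Fin q → ℂ) → Ws f → Ws f) (ε : ℝ) : Prop where
  pos : 0 < ε
  add : ∀ t t' φ, act (t + t') φ = act t (act t' φ)
  sm : ∀ t : Fin q → ℂ, ‖t‖ ≤ ε → Sm C (∑ b, t b • V b)
  loc : ∀ t : Fin q → ℂ, ‖t‖ ≤ ε → ∀ (φ : Ws f) (k : Fin N), φ.1 0 k k ≠ 0 →
    ‖pr k φ.1 0‖ ≤ max 1 C + 1 → (act t φ).1 0 k k ≠ 0 ∧
      pr k (act t φ).1 0 = fl ((∑ b, t b • V b) k) (pr k φ.1 0) 1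

theorem exists_isAct (h : Dat f D C) {q : ℕ} {V : Fin q → Fin N → Dr (Fin N ⊕ Fin N)}
    (hV : ∀ b, Cmp f (V b)) (hc : ∀ b b' k G, ⁅V b k, V b' k⁆ G ∈ Rel f k) :
    ∃ (act : (Fin q → ℂ) → Ws f → Ws f) (ε : ℝ), IsAct f C V act ε := by
  obtain ⟨act, ε, hε, h1, h2, h3⟩ := exists_act h hV hc
  refine ⟨act, ε, hε, h1, h2, fun t ht φ k hk hkB => ?_⟩
  rw [h3 t ht]
  exact stp_spec h (Cmp.sum hV t) (h2 t ht) φ hk hkB

variable {q : ℕ} {V : Fin q → Fin N → Dr (Fin N ⊕ Fin N)} {act : (Fin q → ℂ) → Ws f → Ws f}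
  {ε : ℝ}

theorem IsAct.zero (h : Dat f D C) (hA : IsAct f C V act ε) (φ : Ws f) : act 0 φ = φ := by
  obtain ⟨i, hi, hiK⟩ := exists_max (φ.2.1.mem_PM (mem_univ (0 : ℂ)))
  have haB := Ws.norm_le h φ hi hiK
  obtain ⟨h1, h2⟩ := hA.loc 0 (by simpa using hA.pos.le) φ i hi (by linarith)
  refine Ws.ext' h h1 hi ?_
  rw [h2]
  have h3 : (∑ b, (0 : Fin q → ℂ) b • V b) i = 0 := by simp
  rw [h3, fl_zero_vf]

/-- a chart around a point of an orbit -/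
theorem IsAct.near (h : Dat f D C) (hA : IsAct f C V act ε) (φ : Ws f) (t0 : Fin q → ℂ) :
    ∃ i, (act t0 φ).1 0 i i ≠ 0 ∧ chart i ((act t0 φ).1 0) ∈ Kc i ∧
      ‖pr i (act t0 φ).1 0‖ ≤ max 1 C ∧
      ∀ t, ‖t - t0‖ ≤ ε → (act t φ).1 0 i i ≠ 0 ∧
        pr i (act t φ).1 0 = fl ((∑ b, (t - t0) b • V b) i) (pr i (act t0 φ).1 0) 1 := by
  obtain ⟨i, hi, hiK⟩ := exists_max ((act t0 φ).2.1.mem_PM (mem_univ (0 : ℂ)))
  have haB := Ws.norm_le h (act t0 φ) hi hiK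
  refine ⟨i, hi, hiK, haB, fun t ht => ?_⟩
  have h1 : act t φ = act (t - t0) (act t0 φ) := by
    rw [← hA.add, sub_add_cancel]
  rw [h1]
  exact hA.loc _ ht _ i hi (by linarith)

/-- orbits of one-parameter groups are solutions of the vector field -/
theorem IsAct.sol (h : Dat f D C) (hV : ∀ b, Cmp f (V b)) (hA : IsAct f C V act ε) (φ : Ws f)
    (e : Fin q → ℂ) (s0 : ℂ) {k : Fin N} (hk : (act (s0 • e) φ).1 0 k k ≠ 0) :
    (∀ᶠ s in 𝓝 s0, (act (s • e) φ).1 0 k k ≠ 0) ∧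
      SolAt ((∑ b, e b • V b) k) (fun s => pr k (act (s • e) φ).1 0) s0 := by
  obtain ⟨i, hi, hiK, haB, hnear⟩ := hA.near h φ (s0 • e)
  set a := pr i (act (s0 • e) φ).1 0 with ha
  set U : Fin N → Dr (Fin N ⊕ Fin N) := ∑ b, e b • V b with hU
  have hUC : Cmp f U := Cmp.sum hV e
  have hsmall : ∀ᶠ s in 𝓝 s0, ‖s • e - s0 • e‖ ≤ ε := by
    have h1 : ContinuousAt (fun s : ℂ => ‖s • e - s0 • e‖) s0 := by fun_prop
    have h2 : ∀ᶠ s in 𝓝 s0, ‖s • e - s0 • e‖ < ε :=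
      h1.eventually_lt_const (by simpa using hA.pos)
    filter_upwards [h2] with s hs
    exact hs.le
  have hfl : ∀ᶠ s in 𝓝 s0, (act (s • e) φ).1 0 i i ≠ 0 ∧
      pr i (act (s • e) φ).1 0 = fl (U i) a (s - s0) := by
    filter_upwards [hsmall] with s hs
    obtain ⟨h1, h2⟩ := hnear _ hs
    refine ⟨h1, ?_⟩
    rw [h2]
    have h3 : (∑ b, (s • e - s0 • e) b • V b) i = (s - s0) • U i := by
      rw [hU, Finset.sum_apply, Finset.sum_apply, Finset.smul_sum]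
      refine Finset.sum_congr rfl fun b _ => ?_
      rw [Pi.smul_apply, Pi.smul_apply, smul_smul]
      congr 1
      simp only [Pi.sub_apply, Pi.smul_apply, smul_eq_mul]
      ring
    rw [h3, fl_smul, mul_one]
  obtain ⟨ρ, hρ⟩ := exists_rad (U i) (B := max 1 C + 1) (by positivity)
  have hsol : SolAt (U i) (fun s => pr i (act (s • e) φ).1 0) s0 := by
    have h1 := hρ.solAt (a := a) (by linarith) s0 (z := s0) (by simpa using hρ.pos)
    refine h1.congr ?_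
    filter_upwards [hfl] with s hs
    exact hs.2
  have hmem : ∀ᶠ s in 𝓝 s0, pr i (act (s • e) φ).1 0 ∈ Vs (Rel f) i := by
    filter_upwards [hfl] with s hs
    exact (act (s • e) φ).2.2 0 (mem_univ 0) i hs.1
  obtain ⟨h1, h2⟩ := pr_cc isOpen_univ (act (s0 • e) φ).2.1 (mem_univ (0 : ℂ)) hi hk
  have hne : ∀ᶠ s in 𝓝 s0, pr i (act (s • e) φ).1 0 (Sum.inl k) ≠ 0 :=
    ((hsol.self_of_nhds) (Sum.inl k)).continuousAt.eventually_ne h1
  have hk' : ∀ᶠ s in 𝓝 s0, (act (s • e) φ).1 0 k k ≠ 0 := by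
    filter_upwards [hfl, hne] with s hs hs'
    exact diag_of_inl ((act (s • e) φ).2.1.mem_PM (mem_univ (0 : ℂ))) hs.1 hs'
  refine ⟨hk', (hsol.cc hUC hmem h1).congr ?_⟩
  filter_upwards [hfl, hk'] with s hs hs'
  exact (pr_cc isOpen_univ (act (s • e) φ).2.1 (mem_univ (0 : ℂ)) hs.1 hs').2

theorem IsAct.pr_orb (h : Dat f D C) (hV : ∀ b, Cmp f (V b)) (hA : IsAct f C V act ε) (φ : Ws f)
    (e : Fin q → ℂ) (s : ℂ) {k : Fin N} (hk : orb act e φ s k k ≠ 0) :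
    HasDerivAt (fun s => chart k (orb act e φ s)) (fun l =>
      eval (pr k (act (s • e) φ).1 0) ((∑ b, e b • V b) k (X (Sum.inl l)))) s := by
  obtain ⟨-, h2⟩ := hA.sol h hV φ e s hk
  exact hasDerivAt_pi.2 fun l => h2.self_of_nhds (Sum.inl l)

theorem IsAct.orb_hol (h : Dat f D C) (hV : ∀ b, Cmp f (V b)) (hA : IsAct f C V act ε) (φ : Ws f)
    (e : Fin q → ℂ) : HolP univ (orb act e φ) := by
  intro s0 _
  obtain ⟨k, hk⟩ := PM.exists_diag ((act (s0 • e) φ).2.1.mem_PM (mem_univ (0 : ℂ)))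
  obtain ⟨h1, -⟩ := hA.sol h hV φ e s0 hk
  obtain ⟨W, hW, hWo, hs0⟩ := _root_.mem_nhds_iff.1 h1
  refine ⟨W, fun s => chart k (orb act e φ s), hWo, hs0, fun s hs => ?_, fun s hs => ?_⟩
  · exact (hA.pr_orb h hV φ e s (hW hs)).differentiableAt.differentiableWithinAt
  · have h2 : orb act e φ s ∈ PM := (act (s • e) φ).2.1.mem_PM (mem_univ (0 : ℂ))
    exact ⟨PM.chart_ne (hW hs), (PM.Phi_chart h2 (hW hs)).symm⟩

theorem IsAct.orb_bd (h : Dat f D C) (hV : ∀ b, Cmp f (V b)) (hA : IsAct f C V act ε)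
    (e : Fin q → ℂ) : ∃ K : ℝ, ∀ (φ : Ws f) (s : ℂ), ‖fderiv ℝ (orb act e φ) s‖ ≤ K := by
  obtain ⟨A, hA0, hAb⟩ := norm_der N
  choose B hB0 hB using fun p : Fin N × Fin N =>
    exists_bd ((∑ b, e b • V b) p.1 (X (Sum.inl p.2))) (max 1 C)
  obtain ⟨B', hB'⟩ := Finite.exists_le B
  refine ⟨A * |B'|, fun φ s => ?_⟩
  obtain ⟨i, hi, hiK⟩ := exists_max ((act (s • e) φ).2.1.mem_PM (mem_univ (0 : ℂ)))
  have haB := Ws.norm_le h (act (s • e) φ) hi hiK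
  refine ((hAb univ _ isOpen_univ (hA.orb_hol h hV φ e) s (mem_univ s) i hi hiK).1).trans ?_
  rw [(hA.pr_orb h hV φ e s hi).deriv]
  gcongr
  rw [pi_norm_le_iff_of_nonneg (abs_nonneg _)]
  intro l
  exact (hB (i, l) _ haB).trans ((hB' _).trans (le_abs_self _))

end act

end Run7.h418.Z
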