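import Pool.Agent.Run7.h418.Z.Simp
import Pool.Agent.Run7.h418.Lat

/-!
The periods of the action.
-/

set_option autoImplicit false

open MvPolynomial Metric Set Filter Topology

namespace Run7.h418.Z

open Pool.Agent.Y190.OP Pool.Agent.W602.GT Pool.Agent.N155

section gen

variable {n : ℕ} {f : ℂ → Mat (n + 1)} {D : Fin (n + 1) → Dr (Fin (n + 1) ⊕ Fin (n + 1))} {C : ℝ}
  {M : Type} [Field M] [Algebra ℂ M] {ev : Fin (n + 1) → Rn (n + 1) →ₐ[ℂ] M}
  {δ : Derivation ℂ M M}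

/-- **Generic smoothness.** -/
theorem exists_gen (hM : IsFd f D ev δ) {w : ℕ} {z0 : Fin w → M}
    (hz0 : IsTranscendenceBasis ℂ z0) {v0 : Fin w → Derivation ℂ M M}
    (hdet0 : (Matrix.of fun s t => v0 s (z0 t) : Matrix (Fin w) (Fin w) M).det ≠ 0)
    {V : Fin w → Fin (n + 1) → Dr (Fin (n + 1) ⊕ Fin (n + 1))}
    (hV : ∀ b k, (∃ z, f z k k ≠ 0) → ∀ G, ev k (V b k G) = v0 b (ev k G)) {k : Fin (n + 1)}
    (hk : ∃ z, f z k k ≠ 0) :
    ∃ (l : Fin w → Fin (n + 1) ⊕ Fin (n + 1)) (g : Fin (n + 1) ⊕ Fin (n + 1) → Rn (n + 1)),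
      (∀ t, g t ∈ Rel f k ∨ ∃ s, g t = X (l s)) ∧
      (Matrix.of fun t t' => pderiv t' (g t)).det ∉ Rel f k ∧
      (Matrix.of fun b s => V b k (X (l s))).det ∉ Rel f k := by
  classical
  obtain ⟨l, hl⟩ := exists_rows (fun (t : Fin (n + 1) ⊕ Fin (n + 1)) (s : Fin w) =>
    v0 s (ev k (X t))) (by
      intro x hx
      refine frame_indep hdet0 (hM.der_ext hk fun t => ?_)
      rw [sum_smul_apply, ← hx t]
      exact Finset.sum_congr rfl fun s _ => mul_comm _ _)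
  have hl' : ((ev k).mapMatrix (Matrix.of fun b s => V b k (X (l s)))).det ≠ 0 := by
    have h1 : (ev k).mapMatrix (Matrix.of fun b s => V b k (X (l s))) =
        (Matrix.of fun b s => v0 s (ev k (X (l b)))).transpose := by
      ext b s
      rw [AlgHom.mapMatrix_apply, Matrix.map_apply, Matrix.of_apply, Matrix.transpose_apply,
        Matrix.of_apply, hV b k hk]
    rw [h1, Matrix.det_transpose]
    exact hl
  have hcl : ∀ d : Derivation ℂ M M, (∀ s, d (ev k (X (l s))) = 0) → d = 0 := by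
    intro d hd
    obtain ⟨g, hg⟩ := frame_comb hz0 hdet0 d
    have h1 : (Matrix.of fun b s => v0 s (ev k (X (l b)))).mulVec g = 0 := by
      funext b
      have h2 := hd b
      rw [hg, sum_smul_apply] at h2
      change ∑ s, v0 s (ev k (X (l b))) * g s = 0
      rw [← h2]
      exact Finset.sum_congr rfl fun s _ => mul_comm _ _
    have h3 := Matrix.eq_zero_of_mulVec_eq_zero hl h1
    rw [hg, h3]
    simp
  let e : Fin (Fintype.card (Fin (n + 1) ⊕ Fin (n + 1))) ≃ Fin (n + 1) ⊕ Fin (n + 1) :=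
    (Fintype.equivFin (Fin (n + 1) ⊕ Fin (n + 1))).symm
  let g0 : (Rel f k) ⊕ Fin w → Rn (n + 1) := Sum.elim (fun G => G.1) fun s => X (l s)
  obtain ⟨a, ha⟩ := exists_rows (fun (j : (Rel f k) ⊕ Fin w)
      (c : Fin (Fintype.card (Fin (n + 1) ⊕ Fin (n + 1)))) =>
    ev k (pderiv (e c) (g0 j))) (by
      intro x hx
      choose p q hq hpq using fun c => hM.frac k hk (x c)
      set Q : Rn (n + 1) := ∏ c, q c with hQ
      have hQ0 : ev k Q ≠ 0 := by
        rw [hQ, map_prod]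
        exact Finset.prod_ne_zero_iff.2 fun c _ => hq c
      set P : Fin (Fintype.card (Fin (n + 1) ⊕ Fin (n + 1))) → Rn (n + 1) :=
        fun c => (∏ c' ∈ Finset.univ.erase c, q c') * p c
        with hP
      have hPx : ∀ c, ev k (P c) = ev k Q * x c := by
        intro c
        have h1 : (∏ c' ∈ Finset.univ.erase c, q c') * q c = Q :=
          Finset.prod_erase_mul _ _ (Finset.mem_univ c)
        rw [hP, ← h1, map_mul, map_mul, ← hpq c]
        ring
      set E : Dr (Fin (n + 1) ⊕ Fin (n + 1)) := mkDerivation ℂ fun t => P (e.symm t) with hE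
      have hEG : ∀ G, ev k (E G) = ev k Q * ∑ c, ev k (pderiv (e c) G) * x c := by
        intro G
        rw [der_sum E G, map_sum, Finset.mul_sum, ← e.sum_comp]
        refine Finset.sum_congr rfl fun c _ => ?_
        rw [smul_eq_mul, map_mul, hE, mkDerivation_X, Equiv.symm_apply_apply, hPx]
        ring
      obtain ⟨d, hd⟩ := exists_der (ev k) (hM.frac k hk) (E := E) (fun G hG => by
        have h2 := hx (Sum.inl ⟨G, (hM.ker k hk G).1 hG⟩)
        rw [hEG]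
        exact mul_eq_zero_of_right _ h2)
      have hd0 : d = 0 := hcl d fun s => by
        have h2 := hx (Sum.inr s)
        rw [hd, hEG]
        exact mul_eq_zero_of_right _ h2
      funext c
      have h1 := hd (X (e c))
      rw [hd0, hE, mkDerivation_X, Equiv.symm_apply_apply, hPx] at h1
      exact (mul_eq_zero.1 h1.symm).resolve_left hQ0)
  refine ⟨l, fun t => g0 (a (e.symm t)), fun t => ?_, fun hmem => ?_, fun hmem => ?_⟩
  · change g0 (a (e.symm t)) ∈ Rel f k ∨ ∃ s, g0 (a (e.symm t)) = X (l s)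
    generalize a (e.symm t) = j
    rcases j with G | s
    · exact Or.inl G.2
    · exact Or.inr ⟨s, rfl⟩
  · apply ha
    have h1 := (hM.ker k hk _).2 hmem
    rw [AlgHom.map_det] at h1
    have h2 : (ev k).mapMatrix (Matrix.of fun t t' => pderiv t' (g0 (a (e.symm t)))) =
        (Matrix.of fun b c => ev k (pderiv (e c) (g0 (a b)))).submatrix e.symm e.symm := by
      ext t t'
      rw [AlgHom.mapMatrix_apply, Matrix.map_apply, Matrix.of_apply, Matrix.submatrix_apply,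
        Matrix.of_apply, Equiv.apply_symm_apply]
    rw [h2, Matrix.det_submatrix_equiv_self] at h1
    exact h1
  · apply hl'
    have h1 := (hM.ker k hk _).2 hmem
    rwa [AlgHom.map_det] at h1

end gen

section per

variable {n : ℕ}
  {f : ℂ → Mat (n + 1)} {D : Fin (n + 1) → Dr (Fin (n + 1) ⊕ Fin (n + 1))} {C : ℝ}
  {M : Type} [Field M] [Algebra ℂ M] {ev : Fin (n + 1) → Rn (n + 1) →ₐ[ℂ] M}
  {δ : Derivation ℂ M M} {w : ℕ} {z0 : Fin w → M} {v0 : Fin w → Derivation ℂ M M}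
  {V : Fin w → Fin (n + 1) → Dr (Fin (n + 1) ⊕ Fin (n + 1))}
  {act : (Fin w → ℂ) → Ws f → Ws f} {ε : ℝ} {d : Fin w → ℂ}

/-- translations belong to the action -/
theorem Td.shf_eq (T : Td f D C ev δ z0 v0 V act ε d) (z : ℂ) (φ : Ws f) :
    shf z φ = act (z • d) φ := by
  have hsmall : ∃ ρ > 0, ∀ z : ℂ, ‖z‖ < ρ → ∀ φ : Ws f, shf z φ = act (z • d) φ := by
    obtain ⟨ρ, hρ, hR⟩ := T.dat.radii
    have hε := T.isact.pos
    refine ⟨min ρ (ε / (‖d‖ + 1)), lt_min hρ (by positivity), fun z hz φ => ?_⟩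
    have hz1 : ‖z‖ < ρ := hz.trans_le (min_le_left _ _)
    have hz2 : ‖z • d‖ ≤ ε := by
      have h1 : ‖z‖ < ε / (‖d‖ + 1) := hz.trans_le (min_le_right _ _)
      rw [lt_div_iff₀ (by positivity)] at h1
      rw [norm_smul]
      nlinarith [norm_nonneg z, norm_nonneg d]
    obtain ⟨i, hi, hiK⟩ := exists_max (φ.2.1.mem_PM (mem_univ (0 : ℂ)))
    have haB := Ws.norm_le T.dat φ hi hiK
    have ha := φ.2.2 0 (mem_univ 0) i hi
    obtain ⟨B, hB, hBa⟩ := hR i _ ha hiK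
    obtain ⟨h1, h2⟩ := T.dat.pr_fl φ.2 hi hB hBa.le z (mem_ball_zero_iff.2 hz1)
    obtain ⟨h3, h4⟩ := T.isact.loc _ hz2 φ i hi (by linarith)
    refine Ws.ext' T.dat (k := i) ?_ h3 ?_
    · rw [shf_zero]
      exact h1
    · rw [pr_shf_zero, h2, h4, sum_k, sum_smul_single, fl_smul, mul_one, ← sum_k]
      exact fl_congr (fun G hG => T.dat.stab hG) (T.dir i) ha z
  obtain ⟨ρ, hρ, hsm⟩ := hsmall
  obtain ⟨m, hm⟩ := exists_nat_gt (‖z‖ / ρ)
  have hm0 : (0 : ℝ) < m := lt_of_le_of_lt (by positivity) hm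
  have hm0' : (m : ℂ) ≠ 0 := by
    have : (m : ℝ) ≠ 0 := hm0.ne'
    exact_mod_cast this
  set y : ℂ := z / m with hy
  have hyρ : ‖y‖ < ρ := by
    rw [hy, norm_div, Complex.norm_natCast, div_lt_iff₀ hm0]
    rw [div_lt_iff₀ hρ] at hm
    linarith
  have h1 : ∀ j : ℕ, ∀ φ : Ws f, shf ((j : ℂ) * y) φ = act (((j : ℂ) * y) • d) φ := by
    intro j
    induction j with
    | zero =>
      intro φ
      simp only [Nat.cast_zero, zero_mul, zero_smul]
      rw [T.isact.zero T.dat]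
      apply Subtype.ext
      funext w
      change φ.1 (w + 0) = _
      rw [add_zero]
    | succ j ih =>
      intro φ
      have h2 : shf (((j + 1 : ℕ) : ℂ) * y) φ = shf y (shf ((j : ℂ) * y) φ) := by
        apply Subtype.ext
        funext w
        change φ.1 (w + _) = φ.1 (w + y + _)
        congr 1
        push_cast
        ring
      rw [h2, hsm y hyρ, ih, ← T.isact.add]
      congr 1
      push_cast
      rw [← add_smul]
      congr 1
      ring
  have h2 := h1 m φ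
  have h3 : (m : ℂ) * y = z := by rw [hy]; field_simp
  rwa [h3] at h2

theorem Td.cancel (T : Td f D C ev δ z0 v0 V act ε d) {t s : Fin w → ℂ} {φ χ : Ws f}
    (he : act t φ = act s χ) : act (t - s) φ = χ := by
  have h1 : t - s = -s + t := by abel
  rw [h1, T.isact.add, he, ← T.isact.add, neg_add_cancel, T.isact.zero T.dat]

/-- **Orbits contain general points.** -/
theorem Td.exists_genr (T : Td f D C ev δ z0 v0 V act ε d) (φ : Ws f) {ρ : ℝ} (hρ : 0 < ρ) :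
    ∃ (t : Fin w → ℂ) (k : Fin (n + 1)), ‖t‖ < ρ ∧ (act t φ).1 0 k k ≠ 0 ∧
      ‖pr k (act t φ).1 0‖ ≤ max 1 C + 1 ∧ Genr f V k (pr k (act t φ).1 0) := by
  obtain ⟨k, hk, hkK⟩ := exists_max (φ.2.1.mem_PM (mem_univ (0 : ℂ)))
  have haB := Ws.norm_le T.dat φ hk hkK
  have hB' : ‖pr k φ.1 0‖ ≤ max 1 C + 1 := by linarith
  have hkf : ∃ z, f z k k ≠ 0 := chart_of_mem (φ.2.2 0 (mem_univ 0) k hk)
  obtain ⟨l, g, h1, h2, h3⟩ := exists_gen T.fd T.tb T.det T.lift hkf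
  have hQ : (Matrix.of fun t t' => pderiv t' (g t)).det *
      (Matrix.of fun b s => V b k (X (l s))).det ∉ Rel f k := by
    rw [← T.fd.ker k hkf] at h2 h3 ⊢
    rw [map_mul]
    exact mul_ne_zero h2 h3
  have hfr : ∃ᶠ t in 𝓝 (0 : Fin w → ℂ), ¬ eval (pr k (act t φ).1 0)
      ((Matrix.of fun t t' => pderiv t' (g t)).det *
      (Matrix.of fun b s => V b k (X (l s))).det) = 0 :=
    Filter.not_eventually.1 fun h4 => hQ (T.dense hk hB' h4)
  have hact0 : act 0 φ = φ := T.isact.zero T.dat φ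
  have hc : ContinuousAt (fun t : Fin w → ℂ => pr k (act t φ).1 0) 0 :=
    continuousAt_pi.2 fun l => (T.ana hk hB' l).continuousAt
  have h4 : ∀ᶠ t in 𝓝 (0 : Fin w → ℂ), ‖pr k (act t φ).1 0‖ < max 1 C + 1 := by
    refine hc.norm.eventually_lt_const ?_
    change ‖pr k (act 0 φ).1 0‖ < _
    rw [hact0]
    linarith
  have h5 : ∀ᶠ t in 𝓝 (0 : Fin w → ℂ), ‖t‖ < ρ := by
    filter_upwards [ball_mem_nhds (0 : Fin w → ℂ) hρ] with t ht
    exact mem_ball_zero_iff.1 ht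
  obtain ⟨t, ht1, ht2, ht3, ht4⟩ :=
    (hfr.and_eventually (h4.and (h5.and (T.ev_diag hk hB')))).exists
  rw [map_mul] at ht1
  exact ⟨t, k, ht3, ht4, ht2.le, l, g, h1, left_ne_zero_of_mul ht1, right_ne_zero_of_mul ht1⟩

/-- **The periods are cocompact.** -/
theorem Td.cocompact (T : Td f D C ev δ z0 v0 V act ε d) (φ0 : Ws f) :
    ∃ R : ℝ, ∀ t, ∃ p ∈ Per act φ0, ‖t - p‖ ≤ R := by
  by_contra hcon
  push Not at hcon
  choose t ht using fun n : ℕ => hcon n
  set 𝓤 : Ultrafilter ℕ := hyperfilter ℕ with h𝓤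
  have hcof : ∀ R : ℝ, ∀ᶠ n : ℕ in (𝓤 : Filter ℕ), R ≤ n := by
    intro R
    have h2 : ∀ᶠ n : ℕ in atTop, R ≤ n := by
      filter_upwards [eventually_ge_atTop ⌈R⌉₊] with n hn
      exact (Nat.le_ceil R).trans (by exact_mod_cast hn)
    have h3 : (𝓤 : Filter ℕ) ≤ atTop := by
      rw [← Nat.cofinite_eq_atTop]
      exact hyperfilter_le_cofinite
    exact h3 h2
  obtain ⟨ψ, hψ, hconv⟩ := T.dat.compact (𝓤 := 𝓤) (φ := fun n => (act (t n) φ0).1)
    fun n => (act (t n) φ0).2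
  have hε := T.isact.pos
  let ψ' : Ws f := ⟨ψ, hψ⟩
  obtain ⟨t', k, ht', hk, hB, l, g, h1, h2, h3⟩ := T.exists_genr ψ' hε
  set χ : Ws f := act t' ψ' with hχ
  have ha : pr k χ.1 0 ∈ Vs (Rel f) k := χ.2.2 0 (mem_univ 0) k hk
  obtain ⟨hlt, -⟩ := local_trans T.cmp T.isact.pos T.isact.sm ha hB h1 h2 h3
  -- continuity of the action
  obtain ⟨i, hi, hiK⟩ := exists_max (ψ'.2.1.mem_PM (mem_univ (0 : ℂ)))
  have hiB := Ws.norm_le T.dat ψ' hi hiK
  obtain ⟨h4, h5⟩ := tendsto_pr (fun n => (act (t n) φ0).2.1) hψ.1 hconv hi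
  have hiB' : ‖pr i ψ'.1 0‖ < max 1 C + 1 := by linarith
  have h6 : ∀ᶠ n in (𝓤 : Filter ℕ), ‖pr i (act (t n) φ0).1 0‖ < max 1 C + 1 :=
    h5.norm.eventually_lt_const hiB'
  have hcfl : ContinuousAt (fun a => fl ((∑ b, t' b • V b) i) a 1) (pr i ψ'.1 0) := by
    have h7 := (T.isact.sm t' ht'.le i).diff_fl hiB' (z := 1) (by simp)
    have h8 : ContinuousAt (fun a : Fin (n + 1) ⊕ Fin (n + 1) → ℂ => (a, (1 : ℂ)))
        (pr i ψ'.1 0) := by fun_prop
    exact ContinuousAt.comp (g := fun p : (Fin (n + 1) ⊕ Fin (n + 1) → ℂ) × ℂ =>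
      fl ((∑ b, t' b • V b) i) p.1 p.2) (f := fun a => (a, (1 : ℂ))) h7.continuousAt h8
  obtain ⟨h7, h8⟩ := T.isact.loc t' ht'.le ψ' i hi hiB'.le
  have h9 : Tendsto (fun n => pr i (act t' (act (t n) φ0)).1 0) 𝓤 (𝓝 (pr i χ.1 0)) := by
    rw [h8]
    refine Tendsto.congr' ?_ (hcfl.tendsto.comp h5)
    filter_upwards [h4, h6] with n hn1 hn2
    exact (T.isact.loc t' ht'.le (act (t n) φ0) i hn1 hn2.le).2.symm
  have h10 : ∀ᶠ n in (𝓤 : Filter ℕ), (act t' (act (t n) φ0)).1 0 i i ≠ 0 := by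
    filter_upwards [h4, h6] with n hn1 hn2
    exact (T.isact.loc t' ht'.le (act (t n) φ0) i hn1 hn2.le).1
  have hik : pr i χ.1 0 (Sum.inl k) ≠ 0 ∧ pr k χ.1 0 = cc k (pr i χ.1 0) :=
    pr_cc isOpen_univ χ.2.1 (mem_univ 0) h7 hk
  have h11 : ∀ᶠ n in (𝓤 : Filter ℕ), pr i (act t' (act (t n) φ0)).1 0 (Sum.inl k) ≠ 0 :=
    ((tendsto_pi_nhds.1 h9) (Sum.inl k)).eventually_ne hik.1
  have hkn : ∀ᶠ n in (𝓤 : Filter ℕ), (act t' (act (t n) φ0)).1 0 k k ≠ 0 := by
    filter_upwards [h10, h11] with n hn1 hn2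
    exact diag_of_inl ((act t' (act (t n) φ0)).2.1.mem_PM (mem_univ 0)) hn1 hn2
  have h12 : Tendsto (fun n => pr k (act t' (act (t n) φ0)).1 0) 𝓤 (𝓝 (pr k χ.1 0)) := by
    rw [hik.2]
    have h13 : ContinuousAt (fun a : Fin (n + 1) ⊕ Fin (n + 1) → ℂ => cc k a) (pr i χ.1 0) :=
      (diff_cc (g := fun a : Fin (n + 1) ⊕ Fin (n + 1) → ℂ => a) differentiableAt_id
        hik.1).continuousAt
    refine Tendsto.congr' ?_ (h13.tendsto.comp h9)
    filter_upwards [h10, hkn] with n hn1 hn2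
    exact (pr_cc isOpen_univ (act t' (act (t n) φ0)).2.1 (mem_univ 0) hn1 hn2).2.symm
  have h13 : ∀ᶠ n in (𝓤 : Filter ℕ), ∃ s : Fin w → ℂ, ‖s‖ < ε ∧
      act (t' + t n - s) φ0 = χ := by
    filter_upwards [hkn, h12.eventually (hlt ε hε)] with n hn1 hn2
    obtain ⟨s, hs, hs2⟩ := hn2 ((act t' (act (t n) φ0)).2.2 0 (mem_univ 0) k hn1)
    refine ⟨s, hs, T.cancel ?_⟩
    rw [T.isact.add]
    obtain ⟨h14, h15⟩ := T.isact.loc s hs.le χ k hk hB
    exact Ws.ext' T.dat (k := k) hn1 h14 (by rw [h15]; exact hs2)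
  obtain ⟨m, sm, hsm, hm⟩ := h13.exists
  obtain ⟨n', ⟨sn, hsn, hn⟩, hnR⟩ := (h13.and (hcof (2 * ε + ‖t m‖))).exists
  have h14 : act ((t' + t n' - sn) - (t' + t m - sm)) φ0 = φ0 := by
    refine T.cancel ?_
    rw [hn, hm]
  have h15 := ht n' _ h14
  have h16 : t n' - ((t' + t n' - sn) - (t' + t m - sm)) = sn + t m - sm := by abel
  rw [h16] at h15
  have h17 : ‖sn + t m - sm‖ ≤ ‖sn‖ + ‖t m‖ + ‖sm‖ :=
    (norm_sub_le _ _).trans (add_le_add (norm_add_le _ _) le_rfl)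
  linarith

/-- **The periods are discrete.** -/
theorem Td.discrete (T : Td f D C ev δ z0 v0 V act ε d) (φ0 : Ws f) :
    ∃ r > 0, ∀ t ∈ Per act φ0, ‖t‖ < r → t = 0 := by
  obtain ⟨t', k, -, hk, hB, l, g, h1, h2, h3⟩ := T.exists_genr φ0 T.isact.pos
  have ha : pr k (act t' φ0).1 0 ∈ Vs (Rel f) k := (act t' φ0).2.2 0 (mem_univ 0) k hk
  obtain ⟨-, r, hr, hlt⟩ := local_trans T.cmp T.isact.pos T.isact.sm ha hB h1 h2 h3
  refine ⟨min r ε, lt_min hr T.isact.pos, fun t ht htr =>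
    hlt t (htr.trans_le (min_le_left _ _)) ?_⟩
  obtain ⟨-, h5⟩ := T.isact.loc t (htr.le.trans (min_le_right _ _)) (act t' φ0) k hk hB
  have h6 : act t (act t' φ0) = act t' φ0 := by
    have h7 : act t φ0 = φ0 := ht
    rw [← T.isact.add, add_comm t t', T.isact.add, h7]
  rw [h6] at h5
  exact h5.symm

/-- **The periods contain a lattice.** -/
theorem Td.exists_basis (T : Td f D C ev δ z0 v0 V act ε d) (φ0 : Ws f) :
    ∃ b : Module.Basis (Fin (2 * w)) ℝ (Fin w → ℂ), ∀ i, act (b i) φ0 = φ0 :=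
  Run7.h418.exists_basis (P := Per act φ0) (T.isact.zero T.dat φ0)
    (fun x hx y hy => by
      change act (x + y) φ0 = φ0
      rw [T.isact.add]
      have h1 : act y φ0 = φ0 := hy
      rw [h1]
      exact hx)
    (fun x hx => by
      have h1 : act x φ0 = act 0 φ0 := by
        rw [T.isact.zero T.dat]
        exact hx
      have h2 : act 0 φ0 = act x φ0 := h1.symm
      have h3 := T.cancel h2
      rw [zero_sub] at h3
      exact h3) (T.discrete φ0) (T.cocompact φ0)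

end per

end Run7.h418.Z
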