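import Pool.Agent.Run7.h418.Z.Td
import Pool.Agent.Run7.h418.Gen
import Pool.Agent.Run7.h418.Cen

/-!
Orbits of the action are dense.
-/

set_option autoImplicit false

open MvPolynomial Metric Set Filter Topology

namespace Run7.h418.Z

open Pool.Agent.Y190.OP Pool.Agent.W602.GT Pool.Agent.N155

theorem ana_eval {E τ : Type} [NormedAddCommGroup E] [NormedSpace ℂ E]
    {g : E → τ → ℂ} {p : E} (hg : ∀ l, AnalyticAt ℂ (fun q => g q l) p) (G : MvPolynomial τ ℂ) :
    AnalyticAt ℂ (fun q => eval (g q) G) p := by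
  induction G using MvPolynomial.induction_on with
  | C c => simp only [eval_C]; exact analyticAt_const
  | add p q hp hq => simp only [map_add]; exact hp.add hq
  | mul_X p l hp => simp only [map_mul, eval_X]; exact hp.mul (hg l)

section simp

variable {n : ℕ}
  {f : ℂ → Mat (n + 1)} {D : Fin (n + 1) → Dr (Fin (n + 1) ⊕ Fin (n + 1))} {C : ℝ}
  {M : Type} [Field M] [Algebra ℂ M] {ev : Fin (n + 1) → Rn (n + 1) →ₐ[ℂ] M}
  {δ : Derivation ℂ M M} {w : ℕ} {z0 : Fin w → M} {v0 : Fin w → Derivation ℂ M M}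
  {V : Fin w → Fin (n + 1) → Dr (Fin (n + 1) ⊕ Fin (n + 1))}
  {act : (Fin w → ℂ) → Ws f → Ws f} {ε : ℝ} {d : Fin w → ℂ}

theorem Td.ana (T : Td f D C ev δ z0 v0 V act ε d) {φ : Ws f} {k : Fin (n + 1)}
    (hk : φ.1 0 k k ≠ 0) (hB : ‖pr k φ.1 0‖ ≤ max 1 C + 1) (l : Fin (n + 1) ⊕ Fin (n + 1)) :
    AnalyticAt ℂ (fun t : Fin w → ℂ => pr k (act t φ).1 0 l) 0 := by
  have hsm' : ∀ t : Fin w → ℂ, ‖t‖ ≤ ε → Rad (∑ b, t b • V b k) (max 1 C + 1) 2 := by
    intro t ht
    rw [← sum_k]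
    exact T.isact.sm t ht k
  have h1 := ana_fl T.isact.pos hsm' (by norm_num) (by positivity) hB l
  refine h1.congr ?_
  filter_upwards [ball_mem_nhds (0 : Fin w → ℂ) T.isact.pos] with t ht
  rw [(T.isact.loc t (mem_ball_zero_iff.1 ht).le φ k hk hB).2, sum_k]

theorem Td.ev_diag (T : Td f D C ev δ z0 v0 V act ε d) {φ : Ws f} {k : Fin (n + 1)}
    (hk : φ.1 0 k k ≠ 0) (hB : ‖pr k φ.1 0‖ ≤ max 1 C + 1) :
    ∀ᶠ t in 𝓝 (0 : Fin w → ℂ), (act t φ).1 0 k k ≠ 0 := by
  filter_upwards [ball_mem_nhds (0 : Fin w → ℂ) T.isact.pos] with t ht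
  exact (T.isact.loc t (mem_ball_zero_iff.1 ht).le φ k hk hB).1

/-- **Orbits are dense.** -/
theorem Td.dense (T : Td f D C ev δ z0 v0 V act ε d) {φ : Ws f} {k : Fin (n + 1)}
    (hk : φ.1 0 k k ≠ 0) (hB : ‖pr k φ.1 0‖ ≤ max 1 C + 1) {G : Rn (n + 1)}
    (hG : ∀ᶠ t in 𝓝 (0 : Fin w → ℂ), eval (pr k (act t φ).1 0) G = 0) : G ∈ Rel f k := by
  classical
  have hact0 : act 0 φ = φ := T.isact.zero T.dat φ
  have haV : pr k φ.1 0 ∈ Vs (Rel f) k := φ.2.2 0 (mem_univ 0) k hk
  have hkf : ∃ z, f z k k ≠ 0 := chart_of_mem haV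
  have hana : ∀ G : Rn (n + 1), AnalyticAt ℂ
      (fun t : Fin w → ℂ => eval (pr k (act t φ).1 0) G) 0 := fun G =>
    ana_eval (fun l => T.ana hk hB l) G
  set Jd : Ideal (Rn (n + 1)) :=
    { carrier := {G | ∀ᶠ t in 𝓝 (0 : Fin w → ℂ), eval (pr k (act t φ).1 0) G = 0}
      add_mem' := fun {x y} hx hy => by
        filter_upwards [hx, hy] with t h1 h2
        rw [map_add, h1, h2, add_zero]
      zero_mem' := Eventually.of_forall fun t => map_zero _
      smul_mem' := fun c x hx => by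
        filter_upwards [hx] with t h1
        rw [smul_eq_mul, map_mul, h1, mul_zero] } with hJd
  have hmem : ∀ G, G ∈ Jd ↔ ∀ᶠ t in 𝓝 (0 : Fin w → ℂ), eval (pr k (act t φ).1 0) G = 0 :=
    fun G => Iff.rfl
  have hRel : ∀ G ∈ Rel f k, G ∈ Jd := by
    intro G hG
    rw [hmem]
    filter_upwards [T.ev_diag hk hB] with t ht
    exact (act t φ).2.2 0 (mem_univ 0) k ht G hG
  have hval : ∀ G ∈ Jd, eval (pr k φ.1 0) G = 0 := by
    intro G hG
    have h1 := ((hmem G).1 hG).self_of_nhds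
    rwa [hact0] at h1
  have hprime : Jd.IsPrime := by
    refine ⟨fun htop => ?_, fun {x y} hxy => ?_⟩
    · have h1 : (1 : Rn (n + 1)) ∈ Jd := by rw [htop]; trivial
      have h2 := hval 1 h1
      rw [map_one] at h2
      exact one_ne_zero h2
    · by_cases hx : x ∈ Jd
      · exact Or.inl hx
      right
      rw [hmem] at hx ⊢
      have h1 := ((hmem _).1 hxy)
      have h2 : ∀ᶠ t in 𝓝 (0 : Fin w → ℂ),
          AnalyticAt ℂ (fun t : Fin w → ℂ => eval (pr k (act t φ).1 0) x) t ∧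
          AnalyticAt ℂ (fun t : Fin w → ℂ => eval (pr k (act t φ).1 0) y) t ∧
          eval (pr k (act t φ).1 0) (x * y) = 0 :=
        (hana x).eventually_analyticAt.and ((hana y).eventually_analyticAt.and h1)
      obtain ⟨ρ, hρ, hball⟩ := Metric.eventually_nhds_iff_ball.1 h2
      have hx' : ∃ᶠ t in 𝓝 (0 : Fin w → ℂ), ¬ eval (pr k (act t φ).1 0) x = 0 :=
        Filter.not_eventually.1 hx
      obtain ⟨t0, ht0, ht0b⟩ := (hx'.and_eventually (ball_mem_nhds (0 : Fin w → ℂ) hρ)).exists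
      have h3 : (fun t : Fin w → ℂ => eval (pr k (act t φ).1 0) y) =ᶠ[𝓝 t0] 0 := by
        filter_upwards [(hball t0 ht0b).1.continuousAt.eventually_ne ht0,
          isOpen_ball.mem_nhds ht0b] with t h4 h5
        have h6 := (hball t h5).2.2
        rw [map_mul] at h6
        exact (mul_eq_zero.1 h6).resolve_left h4
      have h4 : AnalyticOnNhd ℂ (fun t : Fin w → ℂ => eval (pr k (act t φ).1 0) y)
          (ball 0 ρ) := fun t ht => (hball t ht).2.1
      have h5 := h4.eqOn_zero_of_preconnected_of_eventuallyEq_zero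
        (convex_ball (0 : Fin w → ℂ) ρ).isPreconnected ht0b h3
      filter_upwards [ball_mem_nhds (0 : Fin w → ℂ) hρ] with t ht
      exact h5 ht
  have hstab : ∀ s, ∀ G ∈ Jd, V s k G ∈ Jd := by
    intro s G hG
    rw [hmem] at hG ⊢
    filter_upwards [hG.eventually_nhds, T.ev_diag hk hB] with t ht htk
    set e : Fin w → ℂ := Pi.single s 1 with he
    have h0 : act ((0 : ℂ) • e) (act t φ) = act t φ := by
      rw [zero_smul]
      exact T.isact.zero T.dat _
    have h1 := (T.isact.sol T.dat T.cmp (act t φ) e 0 (k := k) (by rw [h0]; exact htk)).2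
    have h2 := hasDerivAt_eval _ h1.self_of_nhds G
    have h3 : (fun s' : ℂ => eval (pr k (act (s' • e) (act t φ)).1 0) G) =ᶠ[𝓝 0] fun _ => 0 := by
      have h4 : Tendsto (fun s' : ℂ => s' • e + t) (𝓝 0) (𝓝 t) := by
        have : Continuous fun s' : ℂ => s' • e + t := by fun_prop
        have h5 := this.tendsto 0
        rwa [zero_smul, zero_add] at h5
      filter_upwards [h4.eventually ht] with s' hs'
      rw [← T.isact.add]
      exact hs'
    have h4 := h2.deriv
    rw [h3.deriv_eq, deriv_const, h0] at h4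
    have h5 : (∑ b, e b • V b) k = V s k := by
      rw [sum_k, he]
      rw [Finset.sum_eq_single s (fun b _ hb => by rw [Pi.single_eq_of_ne hb, zero_smul])
        (fun h => absurd (Finset.mem_univ s) h), Pi.single_eq_same, one_smul]
    rw [h5] at h4
    exact h4.symm
  obtain ⟨M', hM'f, hM'a, e', hker, hfr⟩ := exists_frac hprime
  have hder : ∀ s, ∃ v' : Derivation ℂ M' M', ∀ G, v' (e' G) = e' (V s k G) := fun s =>
    exists_der e' hfr fun G hG => (hker _).2 (hstab s G ((hker G).1 hG))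
  choose v' hv' using hder
  -- independence
  obtain ⟨l, hl⟩ := exists_rows (fun (r : Fin (n + 1)) (s : Fin w) =>
    eval (pr k φ.1 0) (V s k (X (Sum.inl r)))) (by
      intro x hx
      refine T.ind k _ haV x fun r => ?_
      rw [sum_k, dsum_apply, map_sum]
      refine Eq.trans ?_ (hx r)
      refine Finset.sum_congr rfl fun b _ => ?_
      rw [Derivation.smul_apply, MvPolynomial.smul_eval, mul_comm])
  have hdet : e' (Matrix.of fun b s => V s k (X (Sum.inl (l b)))).det ≠ 0 := by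
    intro h1
    have h2 := hval _ ((hker _).1 h1)
    rw [RingHom.map_det] at h2
    exact hl h2
  rw [AlgHom.map_det] at hdet
  have hind : ∀ x : Fin w → M', (∑ s, x s • v' s) = 0 → x = 0 := by
    intro x hx
    refine Matrix.eq_zero_of_mulVec_eq_zero hdet ?_
    funext b
    have h1 := congrArg (fun d : Derivation ℂ M' M' => d (e' (X (Sum.inl (l b))))) hx
    simp only [Derivation.coe_zero, Pi.zero_apply] at h1
    rw [sum_smul_apply] at h1
    change ∑ s, e' (V s k (X (Sum.inl (l b)))) * x s = 0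
    rw [← h1]
    exact Finset.sum_congr rfl fun s _ => by rw [hv', mul_comm]
  obtain ⟨w', x', hx'⟩ := exists_tb e' (fun m => by
    obtain ⟨p, q, hq, hpq⟩ := hfr m
    exact ⟨e' p, e' q, ⟨p, rfl⟩, ⟨q, rfl⟩, hq, hpq⟩)
  have hle : w ≤ w' := by
    let L : (Fin w → M') →ₗ[M'] (Fin w' → M') :=
      { toFun := fun x t => ∑ s, x s * v' s (e' (x' t))
        map_add' := fun x y => by
          funext t
          simp only [Pi.add_apply, add_mul, Finset.sum_add_distrib]
        map_smul' := fun c x => by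
          funext t
          simp only [Pi.smul_apply, smul_eq_mul, RingHom.id_apply, Finset.mul_sum, mul_assoc] }
    have hL : Function.Injective L := by
      rw [injective_iff_map_eq_zero]
      intro x hx
      refine hind x (der_zero hx' fun t => ?_)
      rw [sum_smul_apply]
      exact congrFun hx t
    have h1 := LinearMap.finrank_le_finrank_of_injective hL
    rwa [Module.finrank_fin_fun, Module.finrank_fin_fun] at h1
  have hgoal : ev k G = 0 := by
    refine eq_zero_of_mem (ev k) (R := Jd) (fun a ha => hRel a ((T.fd.ker k hkf a).1 ha))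
      (x := fun t : Fin w => x' (Fin.castLE hle t)) (fun P hP => ?_) (tb_card T.tb) hG
    have h1 := (hker _).2 hP
    have h2 : aeval (fun t : Fin w => e' (x' (Fin.castLE hle t))) P = 0 := by
      rw [← h1]
      have h3 : (e'.comp (aeval fun t : Fin w => x' (Fin.castLE hle t)) :
          MvPolynomial (Fin w) ℂ →ₐ[ℂ] M') = aeval fun t => e' (x' (Fin.castLE hle t)) :=
        MvPolynomial.algHom_ext fun t => by simp
      rw [← h3]
      rfl
    have h3 : AlgebraicIndependent ℂ (fun t : Fin w => e' (x' (Fin.castLE hle t))) :=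
      hx'.1.comp _ (Fin.castLE_injective hle)
    exact (algebraicIndependent_iff.1 h3) P h2
  exact (T.fd.ker k hkf G).1 hgoal

/-- **The coordinate rings are simple for the action.** -/
theorem Td.gsimple (T : Td f D C ev δ z0 v0 V act ε d) {l : Fin (n + 1)}
    {I : Ideal (Rn (n + 1))} (hI : Rel f l ≤ I) (hIV : ∀ b, ∀ G ∈ I, V b l G ∈ I)
    (hne : I ≠ ⊤) : I ≤ Rel f l := by
  obtain ⟨a, ha⟩ := exists_point hne
  have haV : a ∈ Vs (Rel f) l := fun G hG => ha G (hI hG)
  obtain ⟨φ0, hφ0, hφl, hφa⟩ := T.dat.exists_sol haV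
  set φ : Ws f := ⟨φ0, hφ0⟩ with hφ
  obtain ⟨k, hk, hkK⟩ := exists_max (φ.2.1.mem_PM (mem_univ (0 : ℂ)))
  have hB := Ws.norm_le T.dat φ hk hkK
  have hB' : ‖pr k φ.1 0‖ ≤ max 1 C + 1 := by linarith
  have hlf : ∃ z, f z l l ≠ 0 := chart_of_mem haV
  have hkf : ∃ z, f z k k ≠ 0 := chart_of_mem (φ.2.2 0 (mem_univ 0) k hk)
  have hact0 : act 0 φ = φ := T.isact.zero T.dat φ
  have hl0 : φ.1 0 l l ≠ 0 := hφl
  have hla : pr l φ.1 0 = a := hφa
  -- the chart `l` near the point
  have hev : ∀ᶠ t in 𝓝 (0 : Fin w → ℂ), (act t φ).1 0 k k ≠ 0 ∧ (act t φ).1 0 l l ≠ 0 := by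
    have h1 := (pr_cc isOpen_univ φ.2.1 (mem_univ (0 : ℂ)) hk hl0).1
    have h2 := (T.ana hk hB' (Sum.inl l)).continuousAt
    have h3 : ∀ᶠ t in 𝓝 (0 : Fin w → ℂ), pr k (act t φ).1 0 (Sum.inl l) ≠ 0 := by
      refine h2.eventually_ne ?_
      rw [hact0]
      exact h1
    filter_upwards [T.ev_diag hk hB', h3] with t h4 h5
    exact ⟨h4, diag_of_inl ((act t φ).2.1.mem_PM (mem_univ 0)) h4 h5⟩
  obtain ⟨r0, hr0, hball⟩ := Metric.eventually_nhds_iff_ball.1 hev
  intro G hG
  obtain ⟨e, G', hG', hGe⟩ := T.fd.homog T.dat hkf hlf G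
  have hvan : ∀ t ∈ ball (0 : Fin w → ℂ) (r0 / 2), eval (pr l (act t φ).1 0) G = 0 := by
    intro t ht
    rw [mem_ball_zero_iff] at ht
    have hin : ∀ s ∈ ball (0 : ℂ) 2, s • t ∈ ball (0 : Fin w → ℂ) r0 := by
      intro s hs
      rw [mem_ball_zero_iff] at hs ⊢
      rw [norm_smul]
      nlinarith [norm_nonneg s, norm_nonneg t]
    have hsol : ∀ s ∈ ball (0 : ℂ) 2, SolAt ((∑ b, t b • V b) l)
        (fun s => pr l (act (s • t) φ).1 0) s := fun s hs =>
      (T.isact.sol T.dat T.cmp φ t s (hball _ (hin s hs)).2).2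
    have hana : AnalyticOnNhd ℂ (fun s : ℂ => eval (pr l (act (s • t) φ).1 0) G) (ball 0 2) :=
      fun s hs => analyticAt_eval (γ := fun s => pr l (act (s • t) φ).1 0)
        (fun r => (hsol s hs).analyticAt r) G
    have h02 : (0 : ℂ) ∈ ball (0 : ℂ) 2 := mem_ball_self two_pos
    have hstab : ∀ G ∈ I, (∑ b, t b • V b) l G ∈ I := by
      intro G hG
      rw [sum_k, dsum_apply]
      refine Ideal.sum_mem _ fun b _ => ?_
      rw [Derivation.smul_apply, MvPolynomial.smul_eq_C_mul]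
      exact I.mul_mem_left _ (hIV b G hG)
    have h1 : (fun s : ℂ => eval (pr l (act (s • t) φ).1 0) G) =ᶠ[𝓝 0] 0 := by
      refine eq_of_iter (g := fun _ => (0 : ℂ)) (hana 0 h02) analyticAt_const fun j => ?_
      rw [(hsol 0 h02).iter j G, zero_smul, hact0, hla, ha _ (iter_mem hstab j hG)]
      rcases j with _ | j
      · simp
      · simp
    have h2 := hana.eqOn_zero_of_preconnected_of_eventuallyEq_zero
      (convex_ball (0 : ℂ) 2).isPreconnected h02 h1
    have h3 := h2 (show (1 : ℂ) ∈ ball (0 : ℂ) 2 by simp)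
    simp only [one_smul, Pi.zero_apply] at h3
    exact h3
  have h1 : G' ∈ Rel f k := by
    refine T.dense hk hB' ?_
    filter_upwards [ball_mem_nhds (0 : Fin w → ℂ) (half_pos hr0),
      ball_mem_nhds (0 : Fin w → ℂ) hr0] with t ht ht2
    obtain ⟨h2, h3⟩ := hball t ht2
    obtain ⟨h4, h5⟩ := pr_cc isOpen_univ (act t φ).2.1 (mem_univ (0 : ℂ)) h2 h3
    rw [hG' _ h4, ← h5, hvan t ht, mul_zero]
  rw [← T.fd.ker k hkf, hGe] at h1
  rw [← T.fd.ker l hlf]
  exact (mul_eq_zero.1 h1).resolve_left (pow_ne_zero _ (T.fd.X_ne T.dat hkf hlf))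

end simp

end Run7.h418.Z
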