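import Pool.Agent.Run7.h418.Lat
import Pool.Agent.Run7.h418.Z.Far
import Pool.Agent.Run7.h418.Z.Lim
import Pool.Agent.Run7.h418.Z.Cmp

/-!
The relative forms are invariant.
-/

set_option autoImplicit false

open Metric Set Filter Topology MvPolynomial

namespace Run7.h418.Z

open Pool.Agent.Y190.OP Pool.Agent.W602.GT Pool.Agent.N155

section sup

variable {N : ℕ} {f : ℂ → Mat N} {D : Fin N → Dr (Fin N ⊕ Fin N)} {C : ℝ}
variable {M : Type} [Field M] [Algebra ℂ M] {ev : Fin N → Rn N →ₐ[ℂ] M} {δ : Derivation ℂ M M}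

/-- the curves outside given hypersurfaces -/
structure Zo (f : ℂ → Mat N) (q : Fin N → Rn N) (φ : ℂ → Mat N) : Prop where
  sol : Sol (Vs (Rel f)) univ φ
  dg : ∀ k, (∃ z, f z k k ≠ 0) → φ 0 k k ≠ 0
  q : ∀ k, (∃ z, f z k k ≠ 0) → eval (pr k φ 0) (q k) ≠ 0

theorem Dat.exists_Zo (h : Dat f D C) {q : Fin N → Rn N}
    (hq : ∀ k, (∃ z, f z k k ≠ 0) → q k ∉ Rel f k) : ∃ φ, Zo f q φ := by
  have h1 : ∀ᶠ z in 𝓝[≠] (0 : ℂ), ∀ k, (∃ z, f z k k ≠ 0) → f z k k ≠ 0 ∧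
      eval (pr k f z) (q k) ≠ 0 := by
    rw [eventually_all]
    intro k
    by_cases hk : ∃ z, f z k k ≠ 0
    · filter_upwards [ev_chart h.hol hk 0, ev_ne h.hol hk (hq k hk) 0] with z h1 h2 _
      exact ⟨h1, h2⟩
    · exact Eventually.of_forall fun z h2 => absurd h2 hk
  obtain ⟨z, hz⟩ := h1.exists
  refine ⟨fun w => f (w + z), sol_shf (sol_self h.hol) z, fun k hk => ?_, fun k hk => ?_⟩
  · change f (0 + z) k k ≠ 0
    rw [zero_add]
    exact (hz k hk).1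
  · rw [pr_shf, zero_add]
    exact (hz k hk).2

/-- almost maximal growth outside hypersurfaces -/
theorem Dat.exists_almost (h : Dat f D C) {q : Fin N → Rn N}
    (hq : ∀ k, (∃ z, f z k k ≠ 0) → q k ∉ Rel f k) {r : ℝ} (hr : 0 < r) :
    ∃ φ, Zo f q φ ∧ ∀ ψ, Zo f q ψ → Tr r ψ ≤ Tr r φ + 1 := by
  obtain ⟨φm, hφm, hmax⟩ := h.exists_Tr hr
  obtain ⟨φ0, hφ0⟩ := h.exists_Zo hq
  set S : Set ℝ := {t | ∃ φ, Zo f q φ ∧ t = Tr r φ} with hS
  have hne : S.Nonempty := ⟨_, φ0, hφ0, rfl⟩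
  have hb : BddAbove S := ⟨Tr r φm, by
    rintro t ⟨φ, hφ, rfl⟩
    exact hmax φ hφ.sol⟩
  obtain ⟨t, ⟨φ, hφ, rfl⟩, ht⟩ := exists_lt_of_lt_csSup hne
    (show sSup S - 1 < sSup S by linarith)
  refine ⟨φ, hφ, fun ψ hψ => ?_⟩
  have := le_csSup hb ⟨ψ, hψ, rfl⟩
  linarith

/-- the product of the equations of the hypersurfaces in a chart -/
theorem IsFd.exists_Q (h : Dat f D C) (hM : IsFd f D ev δ) {q : Fin N → Rn N}
    (hq : ∀ k, (∃ z, f z k k ≠ 0) → q k ∉ Rel f k) {k : Fin N} (hk : ∃ z, f z k k ≠ 0) :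
    ∃ Q : Rn N, ev k Q ≠ 0 ∧ ∀ φ : ℂ → Mat N, Sol (Vs (Rel f)) univ φ → φ 0 k k ≠ 0 →
      eval (pr k φ 0) Q ≠ 0 → Zo f q φ := by
  classical
  have h1 : ∀ l, ∃ G' : Rn N, (∃ z, f z l l ≠ 0) → ev k G' ≠ 0 ∧
      ∀ a : Fin N ⊕ Fin N → ℂ, a (Sum.inl l) ≠ 0 → eval a G' ≠ 0 →
        eval (cc l a) (q l) ≠ 0 := by
    intro l
    by_cases hl : ∃ z, f z l l ≠ 0
    · obtain ⟨e, G', hG1, hG2⟩ := hM.homog h hk hl (q l)
      refine ⟨G', fun _ => ⟨?_, fun a ha hG => ?_⟩⟩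
      · rw [hG2]
        exact mul_ne_zero (pow_ne_zero _ (hM.X_ne h hk hl)) fun h1 =>
          hq l hl ((hM.ker l hl _).1 h1)
      · rw [hG1 a ha] at hG
        exact right_ne_zero_of_mul hG
    · exact ⟨0, fun h1 => absurd h1 hl⟩
  choose G' hG' using h1
  refine ⟨∏ l, if (∃ z, f z l l ≠ 0) then X (Sum.inl l) * G' l else 1, ?_,
    fun φ hφ hφk hQ => ?_⟩
  · rw [map_prod]
    refine Finset.prod_ne_zero_iff.2 fun l _ => ?_
    by_cases hl : ∃ z, f z l l ≠ 0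
    · rw [if_pos hl, map_mul]
      exact mul_ne_zero (hM.X_ne h hk hl) (hG' l hl).1
    · rw [if_neg hl, map_one]
      exact one_ne_zero
  · rw [map_prod] at hQ
    have h2 : ∀ l, (∃ z, f z l l ≠ 0) → pr k φ 0 (Sum.inl l) ≠ 0 ∧
        eval (pr k φ 0) (G' l) ≠ 0 := by
      intro l hl
      have h3 := Finset.prod_ne_zero_iff.1 hQ l (Finset.mem_univ l)
      rw [if_pos hl, map_mul, eval_X] at h3
      exact ⟨left_ne_zero_of_mul h3, right_ne_zero_of_mul h3⟩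
    have h3 : ∀ l, (∃ z, f z l l ≠ 0) → φ 0 l l ≠ 0 := fun l hl =>
      diag_of_inl (hφ.1.mem_PM (mem_univ 0)) hφk (h2 l hl).1
    refine ⟨hφ, h3, fun l hl => ?_⟩
    obtain ⟨h4, h5⟩ := pr_cc isOpen_univ hφ.1 (mem_univ 0) hφk (h3 l hl)
    rw [h5]
    exact (hG' l hl).2 _ h4 (h2 l hl).2

end sup

section main

variable {n : ℕ} {ι κ : Type} {F : ι → MvPolynomial (Fin (n + 1)) ℂ}
  {σ : κ → (Fin (n + 1) → ℂ) → (Fin (n + 1) → ℂ) → ℂ} {m : κ → ℕ} {c : κ → ℂ}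
variable {f : ℂ → Mat (n + 1)} {D : Fin (n + 1) → Dr (Fin (n + 1) ⊕ Fin (n + 1))} {C : ℝ}
  {M : Type} [Field M] [Algebra ℂ M] {ev : Fin (n + 1) → Rn (n + 1) →ₐ[ℂ] M}
  {δ : Derivation ℂ M M}

/-- **The relative forms are invariant, in some chart.** -/
theorem exists_chart_T (h : Dat f D C) (hM : IsFd f D ev δ) (hσ : ∀ j, SymForm F (m j) (σ j))
    (hV : ∀ i, Vs (Rel f) i ⊆ Ep F σ c i) :
    ∃ k, (∃ z, f z k k ≠ 0) ∧ ∀ (E : Dr (Fin (n + 1) ⊕ Fin (n + 1))),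
      (∀ G ∈ Rel f k, E G ∈ Rel f k) → ∀ (j : κ) (P : Rn (n + 1))
        (H : MvPolynomial (Fin (n + 1)) ℂ), Rep F σ j P H →
        Tm (D k) (HH H) (th P H) E 1 ∈ Rel f k := by
  classical
  -- the hypersurfaces
  have h1 : ∀ k, ∃ q : Rn (n + 1), (∃ z, f z k k ≠ 0) → q ∉ Rel f k ∧
      ∀ G : Rn (n + 1), G ∉ Rel f k → ∃ R L c : ℝ, 0 < c ∧
      ∀ (r : ℝ) (φ : ℂ → Mat (n + 1)), 0 < r → Sol (Vs (Rel f)) univ φ → φ 0 k k ≠ 0 →
        ‖pr k φ 0‖ ≤ max 1 C → eval (pr k φ 0) q ≠ 0 →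
        ∃ ψ : ℂ → Mat (n + 1), Sol (Vs (Rel f)) univ ψ ∧ ψ 0 k k ≠ 0 ∧ ‖pr k ψ 0‖ ≤ R ∧
          c ≤ ‖eval (pr k ψ 0) G‖ ∧ Tr r φ ≤ Tr r ψ + L := by
    intro k
    by_cases hk : ∃ z, f z k k ≠ 0
    · obtain ⟨q, hq⟩ := exists_far h hM hk
      exact ⟨q, fun _ => hq⟩
    · exact ⟨0, fun h1 => absurd h1 hk⟩
  choose q hq using h1
  have hqn : ∀ k, (∃ z, f z k k ≠ 0) → q k ∉ Rel f k := fun k hk => (hq k hk).1
  -- the curves with almost maximal growth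
  have h2 : ∀ a : ℕ, ∃ φ, Zo f q φ ∧ ∀ ψ, Zo f q ψ → Tr ((a : ℝ) + 2) ψ ≤
      Tr ((a : ℝ) + 2) φ + 1 := fun a => h.exists_almost hqn (by positivity)
  choose φ hφ hmax using h2
  have h3 : ∀ a : ℕ, ∃ k, φ a 0 k k ≠ 0 ∧ chart k (φ a 0) ∈ Kc k := fun a =>
    exists_max ((hφ a).sol.1.mem_PM (mem_univ (0 : ℂ)))
  choose kk hkk hkK using h3
  obtain ⟨k, hk⟩ : ∃ k, ∃ᶠ a in atTop, kk a = k := by
    by_contra hcon
    push Not at hcon
    have h4 : ∀ᶠ a in atTop, ∀ k, ¬ kk a = k := by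
      rw [eventually_all]
      intro k
      have := hcon k
      simpa using this
    obtain ⟨a, ha⟩ := h4.exists
    exact ha _ rfl
  have hkf : ∃ z, f z k k ≠ 0 := by
    obtain ⟨a, ha⟩ := hk.exists
    have h4 := (hφ a).sol.2 0 (mem_univ 0) (kk a) (hkk a)
    rw [ha] at h4
    exact chart_of_mem h4
  refine ⟨k, hkf, fun E hE j P H hrep => ?_⟩
  by_contra hcon
  -- the polynomial
  obtain ⟨Q, hQ0, hQ⟩ := hM.exists_Q h hqn hkf
  set G0 := Tm (D k) (HH H) (th P H) E 1 with hG0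
  have hG0' : ev k G0 ≠ 0 := fun h1 => hcon ((hM.ker k hkf _).1 h1)
  set G := G0 * Q with hG
  have hGn : G ∉ Rel f k := by
    rw [← hM.ker k hkf, hG, map_mul]
    exact mul_ne_zero hG0' hQ0
  obtain ⟨R0, L, cG, hcG, hfar⟩ := (hq k hkf).2 G hGn
  set R : ℝ := max R0 0 with hR
  have hR0 : 0 ≤ R := le_max_right _ _
  obtain ⟨ρE, hRE⟩ := exists_rad E (B := R + 1) (by positivity)
  have hρE := hRE.pos
  obtain ⟨mE, hmE0, hmE⟩ := exists_bd (E G) (R + 1)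
  obtain ⟨mQ, hmQ0, hmQ⟩ := exists_bd Q (R + 1)
  set η : ℝ := min (ρE / 2) (cG / (2 * mE)) with hη
  have hη0 : 0 < η := lt_min (by positivity) (by positivity)
  have hηρ : η < ρE := (min_le_left _ _).trans_lt (by linarith)
  have hηc : mE * η ≤ cG / 2 := by
    have h4 : η ≤ cG / (2 * mE) := min_le_right _ _
    rw [le_div_iff₀ (by positivity)] at h4
    linarith
  obtain ⟨A, hA⟩ := exists_mean h hσ hV j (B := R + 1) (by positivity) hη0 (L + 1)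
  obtain ⟨T, hT⟩ := Tm_bound (i := k) (E := E) h j hrep hV 1 (B := R + 2) (by positivity)
  -- a large radius
  obtain ⟨a, hak, har⟩ : ∃ a : ℕ, kk a = k ∧ |T| * (1 + |A|) / (cG / (2 * mQ)) < (a : ℝ) + 2 := by
    have h4 : ∀ᶠ a : ℕ in atTop, |T| * (1 + |A|) / (cG / (2 * mQ)) < (a : ℝ) + 2 := by
      filter_upwards [tendsto_natCast_atTop_atTop.eventually_gt_atTop
        (|T| * (1 + |A|) / (cG / (2 * mQ)))] with a ha
      linarith
    exact (hk.and_eventually h4).exists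
  set r : ℝ := (a : ℝ) + 2 with hr
  have hr2 : 2 ≤ r := by
    have : (0 : ℝ) ≤ a := Nat.cast_nonneg a
    linarith
  have hr0 : 0 < r := by linarith
  have hφi : φ a 0 k k ≠ 0 := hak ▸ hkk a
  have hφK : chart k (φ a 0) ∈ Kc k := hak ▸ hkK a
  have hφB : ‖pr k (φ a) 0‖ ≤ max 1 C := Ws.norm_le h ⟨φ a, (hφ a).sol⟩ hφi hφK
  obtain ⟨ψ, hψ, hψk, hψR, hψG, hψT⟩ := hfar r (φ a) hr0 (hφ a).sol hφi hφB ((hφ a).q k hkf)
  have hψR' : ‖pr k ψ 0‖ ≤ R := hψR.trans (le_max_left _ _)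
  obtain ⟨y, hy0, hfm, hyfl⟩ := h.exists_fm hψ hψk hE hRE (by linarith : ‖pr k ψ 0‖ < R + 1)
  have hyB : ∀ s ∈ ball (0 : ℂ) ρE, ‖pr k (y s) 0‖ ≤ R + 1 := by
    intro s hs
    rw [hyfl s hs]
    have h4 := hRE.norm_fl (a := pr k ψ 0) (by linarith) (mem_ball_zero_iff.1 hs).le
    have h5 := norm_le_norm_add_norm_sub' (fl E (pr k ψ 0) s) (pr k ψ 0)
    linarith
  have hGs : ∀ s ∈ closedBall (0 : ℂ) η, cG / 2 ≤ ‖eval (pr k (y s) 0) G‖ := by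
    intro s hs
    rw [mem_closedBall_zero_iff] at hs
    have hsb : s ∈ ball (0 : ℂ) ρE := mem_ball_zero_iff.2 (hs.trans_lt hηρ)
    have h4 : ∀ s ∈ ball (0 : ℂ) ρE, HasDerivWithinAt (fun s => eval (pr k (y s) 0) G)
        (eval (pr k (y s) 0) (E G)) (ball 0 ρE) s := fun s hs =>
      (hasDerivAt_eval E (hfm.ode s hs).self_of_nhds G).hasDerivWithinAt
    have h5 := (convex_ball (0 : ℂ) ρE).norm_image_sub_le_of_norm_hasDerivWithin_le (C := mE) h4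
      (fun s hs => hmE _ (hyB s hs)) hfm.mem0 hsb
    simp only [sub_zero] at h5
    rw [hy0] at h5
    have h6 : mE * ‖s‖ ≤ cG / 2 := (mul_le_mul_of_nonneg_left hs hmE0.le).trans hηc
    have h7 := norm_sub_norm_le (eval (pr k ψ 0) G) (eval (pr k ψ 0) G - eval (pr k (y s) 0) G)
    rw [sub_sub_cancel, norm_sub_rev (eval (pr k ψ 0) G) (eval (pr k (y s) 0) G)] at h7
    linarith
  have hsup : ∀ s ∈ closedBall (0 : ℂ) η, Tr r (y s) ≤ Tr r (y 0) + (L + 1) := by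
    intro s hs
    have hsb : s ∈ ball (0 : ℂ) ρE := closedBall_subset_ball hηρ hs
    have h4 : eval (pr k (y s) 0) Q ≠ 0 := by
      have h5 := hGs s hs
      intro h6
      rw [hG, map_mul, h6, mul_zero, norm_zero] at h5
      linarith
    have h5 := hmax a (y s) (hQ _ (hfm.sol s hsb) (hfm.dg s hsb) h4)
    rw [hy0]
    linarith
  obtain ⟨s0, hs0, g, hgd, hgs, hgA⟩ := hA r k E y ρE hr0 hfm hηρ hyB hsup
  have hs0' : ‖s0‖ < η := mem_ball_zero_iff.1 hs0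
  have hfm' : Fm f k E (ρE - ‖s0‖) (fun s => y (s0 + s)) :=
    hfm.shift (by linarith) (by linarith)
  have h4 := hT r (fun s => y (s0 + s)) (ρE - ‖s0‖) g A hr2 hfm' (by
    simp only [add_zero]
    have := hyB s0 (mem_ball_zero_iff.2 (by linarith))
    linarith) hgd (fun z l hl => by
      simp only [add_zero] at hl ⊢
      exact hgs z l hl) hgA
  simp only [add_zero] at h4
  rw [← hG0] at h4
  have h5 := hGs s0 (mem_closedBall_zero_iff.2 hs0'.le)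
  rw [hG, map_mul, norm_mul] at h5
  have h6 : ‖eval (pr k (y s0) 0) Q‖ ≤ mQ := hmQ _ (hyB s0 (mem_ball_zero_iff.2 (by linarith)))
  have h7 : cG / (2 * mQ) ≤ ‖eval (pr k (y s0) 0) G0‖ := by
    rw [div_le_iff₀ (by positivity)]
    have := mul_le_mul_of_nonneg_left h6 (norm_nonneg (eval (pr k (y s0) 0) G0))
    linarith
  have h8 : T * (1 + A) / r ≤ |T| * (1 + |A|) / r := by
    refine div_le_div_of_nonneg_right ?_ hr0.le
    have h9 : T * (1 + A) ≤ |T * (1 + A)| := le_abs_self _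
    rw [abs_mul] at h9
    refine h9.trans (mul_le_mul_of_nonneg_left ?_ (abs_nonneg _))
    refine (abs_add_le _ _).trans ?_
    rw [abs_one]
  have h9 : |T| * (1 + |A|) / r < cG / (2 * mQ) := by
    have h10 : 0 < cG / (2 * mQ) := by positivity
    rw [div_lt_iff₀ hr0]
    rw [div_lt_iff₀ h10] at har
    linarith
  linarith

end main

end Run7.h418.Z
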