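import Pool.Agent.Run7.h418.Z.Com
import Pool.Agent.Run7.h418.Ana
import Pool.Agent.Run7.h418.Lt
import Pool.Agent.Run7.h418.Trd

/-!
The action of a vector group on the closure of a curve.
-/

set_option autoImplicit false

open MvPolynomial Metric Set Filter Topology

namespace Run7.h418.Z

open Pool.Agent.Y190.OP Pool.Agent.W602.GT Pool.Agent.N155

/-- the data of the action -/
structure Td {N : ℕ} (f : ℂ → Mat N) (D : Fin N → Dr (Fin N ⊕ Fin N)) (C : ℝ) {M : Type} [Field M]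
    [Algebra ℂ M] (ev : Fin N → Rn N →ₐ[ℂ] M) (δ : Derivation ℂ M M) {w : ℕ} (z0 : Fin w → M)
    (v0 : Fin w → Derivation ℂ M M) (V : Fin w → Fin N → Dr (Fin N ⊕ Fin N))
    (act : (Fin w → ℂ) → Ws f → Ws f) (ε : ℝ) (d : Fin w → ℂ) : Prop where
  dat : Dat f D C
  fd : IsFd f D ev δ
  tb : IsTranscendenceBasis ℂ z0
  cm : ∀ s, ⁅δ, v0 s⁆ = 0
  det : (Matrix.of fun s t => v0 s (z0 t) : Matrix (Fin w) (Fin w) M).det ≠ 0
  lift : ∀ b k, (∃ z, f z k k ≠ 0) → ∀ G, ev k (V b k G) = v0 b (ev k G)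
  cmp : ∀ b, Cmp f (V b)
  comm : ∀ b b' k G, ⁅V b k, V b' k⁆ G ∈ Rel f k
  isact : IsAct f C V act ε
  ind : ∀ k, ∀ a ∈ Vs (Rel f) k, ∀ e : Fin w → ℂ,
    (∀ l, eval a ((∑ b, e b • V b) k (X (Sum.inl l))) = 0) → e = 0
  dir : ∀ k G, D k G - (∑ b, d b • V b) k G ∈ Rel f k

section td

variable {n : ℕ} {ι κ : Type} {F : ι → MvPolynomial (Fin (n + 1)) ℂ}
  {σ : κ → (Fin (n + 1) → ℂ) → (Fin (n + 1) → ℂ) → ℂ} {m : κ → ℕ} {c : κ → ℂ}
  {f : ℂ → Mat (n + 1)} {D : Fin (n + 1) → Dr (Fin (n + 1) ⊕ Fin (n + 1))} {C : ℝ}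

theorem exists_td (h : Dat f D C) (hσ : ∀ j, SymForm F (m j) (σ j)) (him : Immersive F σ)
    (hV : ∀ i, Vs (Rel f) i ⊆ Ep F σ c i) :
    ∃ (M : Type) (_ : Field M) (_ : Algebra ℂ M) (ev : Fin (n + 1) → Rn (n + 1) →ₐ[ℂ] M)
      (δ : Derivation ℂ M M) (i : Fin (n + 1)) (w : ℕ) (z0 : Fin w → M)
      (v0 : Fin w → Derivation ℂ M M) (V : Fin w → Fin (n + 1) → Dr (Fin (n + 1) ⊕ Fin (n + 1)))
      (act : (Fin w → ℂ) → Ws f → Ws f) (ε : ℝ) (d : Fin w → ℂ), (∃ z, f z i i ≠ 0) ∧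
      Td f D C ev δ z0 v0 V act ε d ∧
      ∀ v : Derivation ℂ M M, (∀ k, v (ev i (X (Sum.inl k))) = 0) → v = 0 := by
  classical
  obtain ⟨M, hMf, hMa, ev, δ, i, hi, hM, hcst, hx, hfr⟩ := exists_frame h hσ him hV
  obtain ⟨w, x, hx0⟩ := exists_tb (ev i) (hM.fr hi)
  set z0 : Fin w → M := fun t => ev i (x t) with hz0
  obtain ⟨v0, hv0, hdet0⟩ := hfr w z0 hx0
  have hcomm : ∀ a b, ⁅v0 a, v0 b⁆ = 0 := fun a b =>
    comm_u h hM hσ him hV hcst (hv0 a) (hv0 b)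
  choose e he using fun b => hcst (v0 b) (hv0 b)
  choose V hVl using fun b => hM.exists_V (fun k hk => (he b).reg h hM hσ him hV (hv0 b) hk)
  have hC : ∀ b, Cmp f (V b) := fun b => Cmp.of_der h hM (hVl b)
  have hz : ∀ (k : Fin (n + 1)) (G : Rn (n + 1)), (∀ (_ : ∃ z, f z k k ≠ 0), ev k G = 0) →
      G ∈ Rel f k := by
    intro k G hG
    by_cases hk : ∃ z, f z k k ≠ 0
    · exact (hM.ker k hk G).1 (hG hk)
    · push Not at hk
      exact fun z hz => absurd (hk z) hz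
  have hcm : ∀ b b' k G, ⁅V b k, V b' k⁆ G ∈ Rel f k := by
    intro b b' k G
    refine hz k _ fun hk => ?_
    rw [Derivation.commutator_apply, map_sub, hVl b k hk, hVl b' k hk, hVl b' k hk, hVl b k hk,
      ← Derivation.commutator_apply, hcomm, Derivation.zero_apply]
  obtain ⟨act, ε, hA⟩ := exists_isAct h hC hcm
  obtain ⟨d, hd⟩ := hM.comb_const h hi hx0 hv0 hdet0 (lie_self δ)
  have hVe : ∀ (e : Fin w → ℂ) (k : Fin (n + 1)), (∃ z, f z k k ≠ 0) → ∀ G,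
      ev k ((∑ b, e b • V b) k G) = (∑ b, algebraMap ℂ M (e b) • v0 b) (ev k G) := by
    intro e k hk G
    rw [sum_k, dsum_apply, map_sum, sum_smul_apply]
    refine Finset.sum_congr rfl fun b _ => ?_
    rw [Derivation.smul_apply, map_smul (ev k), hVl b k hk, Algebra.smul_def]
  have hdD : ∀ k G, D k G - (∑ b, d b • V b) k G ∈ Rel f k := by
    intro k G
    refine hz k _ fun hk => ?_
    rw [map_sub, hVe d k hk, ← hd, hM.der k hk, sub_self]
  refine ⟨M, hMf, hMa, ev, δ, i, w, z0, v0, V, act, ε, d, hi,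
    ⟨h, hM, hx0, hv0, hdet0, hVl, hC, hcm, hA, fun k a ha e0 he0 => ?_, hdD⟩, hx⟩
  -- pointwise independence
  have hk : ∃ z, f z k k ≠ 0 := chart_of_mem ha
  set v : Derivation ℂ M M := ∑ b, algebraMap ℂ M (e0 b) • v0 b with hv
  have hδv : ⁅δ, v⁆ = 0 := by
    rw [hv, lie_sum_der]
    refine Finset.sum_eq_zero fun b _ => ?_
    rw [Derivation.map_algebraMap, zero_smul, zero_add, hv0, smul_zero]
  obtain ⟨e', he'⟩ := hcst v hδv
  have haT : a ∈ Tg F k := (hV k ha).1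
  have he0' : e' = 0 := by
    funext j
    obtain ⟨P, H, hH, hrep⟩ := sg_rep hσ j (Tg.cone haT)
    have hHM := rep_ne hM hk ha hH
    have h1 : pairE (th P H) ((∑ b, e0 b • V b) k) - MvPolynomial.C (e' j) * HH H ∈
        Rel f k := by
      rw [← hM.ker k hk, map_sub, map_mul, pair_ev hM hHM (hVe e0 k hk),
        he' k hk j P H hrep hHM, ← MvPolynomial.algebraMap_eq, AlgHom.commutes]
      ring
    have h2 := ha _ h1
    have h3 : eval a (pairE (th P H) ((∑ b, e0 b • V b) k)) = 0 := by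
      unfold pairE th
      rw [map_sum, Fintype.sum_sum_type]
      simp only [Sum.elim_inl, Sum.elim_inr, zero_mul, map_zero, Finset.sum_const_zero, add_zero]
      refine Finset.sum_eq_zero fun r _ => ?_
      rw [map_mul, he0, mul_zero]
    rw [map_sub, map_mul, eval_C, h3, zero_sub, neg_eq_zero] at h2
    unfold HH at h2
    rw [map_pow, eval_inl] at h2
    exact (mul_eq_zero.1 h2).resolve_right (pow_ne_zero 2 hH)
  rw [he0'] at he'
  have hv0' := IsC.eq_zero h hM hσ him hV hk hδv he'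
  have h3 := frame_indep hdet0 hv0'
  funext b
  have h4 := congrFun h3 b
  exact (_root_.map_eq_zero _).1 h4

end td

section frac

variable {τ : Type} {J : Ideal (MvPolynomial τ ℂ)}

theorem exists_frac (hJ : J.IsPrime) : ∃ (M : Type) (_ : Field M) (_ : Algebra ℂ M)
    (e : MvPolynomial τ ℂ →ₐ[ℂ] M), (∀ G, e G = 0 ↔ G ∈ J) ∧
      ∀ m : M, ∃ p q, e q ≠ 0 ∧ m * e q = e p := by
  let B := MvPolynomial τ ℂ ⧸ J
  let M := FractionRing B
  let e : MvPolynomial τ ℂ →ₐ[ℂ] M :=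
    (IsScalarTower.toAlgHom ℂ B M).comp (Ideal.Quotient.mkₐ ℂ J)
  have he : ∀ G, e G = algebraMap B M (Ideal.Quotient.mk J G) := fun G => rfl
  refine ⟨M, inferInstance, inferInstance, e, fun G => ?_, fun m => ?_⟩
  · rw [he, ← map_zero (algebraMap B M), (IsFractionRing.injective B M).eq_iff,
      Ideal.Quotient.eq_zero_iff_mem]
  · obtain ⟨a, b, hb, rfl⟩ := IsFractionRing.div_surjective B m
    obtain ⟨p, rfl⟩ := Ideal.Quotient.mk_surjective a
    obtain ⟨q, rfl⟩ := Ideal.Quotient.mk_surjective b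
    have h1 : algebraMap B M (Ideal.Quotient.mk J q) ≠ 0 :=
      IsFractionRing.to_map_ne_zero_of_mem_nonZeroDivisors hb
    exact ⟨p, q, h1, div_mul_cancel₀ _ h1⟩

end frac

end Run7.h418.Z
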