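import Pool.Agent.Run7.h418.Z.Per
import Pool.Agent.Run7.h418.Tor2

/-!
The torus which contains a curve.
-/

set_option autoImplicit false

open MvPolynomial Metric Set Filter Topology

namespace Run7.h418.Z

open Pool.Agent.Y190.OP Pool.Agent.W602.GT Pool.Agent.N155 Pool.Agent.TH182.TC

section tor

variable {n : ℕ} {ι κ : Type} {F : ι → MvPolynomial (Fin (n + 1)) ℂ}
  {σ : κ → (Fin (n + 1) → ℂ) → (Fin (n + 1) → ℂ) → ℂ} {m : κ → ℕ} {c : κ → ℂ}
  {f : ℂ → Mat (n + 1)} {D : Fin (n + 1) → Dr (Fin (n + 1) ⊕ Fin (n + 1))} {C : ℝ}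

/-- local homogeneous coordinates of the orbit map -/
theorem IsAct.local_lift {q : ℕ} {V : Fin q → Fin (n + 1) → Dr (Fin (n + 1) ⊕ Fin (n + 1))}
    {act : (Fin q → ℂ) → Ws f → Ws f} {ε : ℝ} (h : Dat f D C) (hA : IsAct f C V act ε) (φ : Ws f)
    (t0 : Fin q → ℂ) : ∃ (i : Fin (n + 1)) (G : (Fin q → ℂ) → Fin (n + 1) → ℂ),
      (act t0 φ).1 0 i i ≠ 0 ∧ AnalyticAt ℂ G t0 ∧
      (∀ᶠ t in 𝓝 t0, G t i = 1 ∧ (act t φ).1 0 = Phi (G t)) ∧
      ∀ e l, fderiv ℂ G t0 e l =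
        eval (pr i (act t0 φ).1 0) ((∑ b, e b • V b) i (X (Sum.inl l))) := by
  obtain ⟨i, hi, hiK, haB, hnear⟩ := hA.near h φ t0
  set a := pr i (act t0 φ).1 0 with ha
  have hsm' : ∀ t : Fin q → ℂ, ‖t‖ ≤ ε → Rad (∑ b, t b • V b i) (max 1 C + 1) 2 := by
    intro t ht
    rw [← sum_k]
    exact hA.sm t ht i
  have hB0 : 0 ≤ max 1 C + 1 := by positivity
  have haB' : ‖a‖ ≤ max 1 C + 1 := by linarith
  set Γ : (Fin q → ℂ) → Fin (n + 1) → ℂ := fun t l => fl (∑ b, t b • V b i) a 1 (Sum.inl l)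
    with hΓ
  have hΓana : AnalyticAt ℂ Γ 0 := analyticAt_pi_iff.2 fun l =>
    ana_fl hA.pos hsm' (by norm_num) hB0 haB' (Sum.inl l)
  have hsub : AnalyticAt ℂ (fun t : Fin q → ℂ => t - t0) t0 := by fun_prop
  have hG : AnalyticAt ℂ (fun t => Γ (t - t0)) t0 :=
    AnalyticAt.fun_comp (by rw [sub_self]; exact hΓana) hsub
  refine ⟨i, fun t => Γ (t - t0), hi, hG, ?_, fun e l => ?_⟩
  · have hsmall : ∀ᶠ t in 𝓝 t0, ‖t - t0‖ ≤ ε := by
      filter_upwards [ball_mem_nhds t0 hA.pos] with t ht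
      exact (mem_ball_iff_norm.1 ht).le
    filter_upwards [hsmall] with t ht
    obtain ⟨h1, h2⟩ := hnear t ht
    have h3 : Γ (t - t0) = chart i ((act t φ).1 0) := by
      funext l
      have h4 := congrFun h2 (Sum.inl l)
      rw [sum_k] at h4
      exact h4.symm
    refine ⟨?_, ?_⟩
    · rw [h3]
      exact PM.chart_self h1
    · rw [h3]
      exact (PM.Phi_chart ((act t φ).2.1.mem_PM (mem_univ (0 : ℂ))) h1).symm
  · rw [fderiv_comp_apply hG.differentiableAt]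
    have h1 : HasFDerivAt (fun t => Γ t l) (fderiv ℂ (fun t => Γ t l) 0) (t0 - t0) := by
      rw [sub_self]
      exact ((analyticAt_pi_iff.1 hΓana l).differentiableAt).hasFDerivAt
    have h2 : HasFDerivAt (fun t => Γ (t - t0) l) (fderiv ℂ (fun t => Γ t l) 0) t0 := by
      have h3 : HasFDerivAt (fun t : Fin q → ℂ => t - t0) (ContinuousLinearMap.id ℂ _) t0 :=
        (hasFDerivAt_id t0).sub_const t0
      have h4 := HasFDerivAt.comp (g := fun t => Γ t l) (f := fun t => t - t0) t0 h1 h3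
      rw [ContinuousLinearMap.comp_id] at h4
      exact h4
    rw [h2.fderiv, sum_k, dsum_apply, map_sum]
    have h3 := fderiv_fl hA.pos hsm' (by norm_num) hB0 haB' (Sum.inl l) e
    change fderiv ℂ (fun t => Γ t l) 0 e = _ at h3
    rw [h3]
    refine Finset.sum_congr rfl fun b _ => ?_
    rw [Derivation.smul_apply, MvPolynomial.smul_eval]

variable {M : Type} [Field M] [Algebra ℂ M] {ev : Fin (n + 1) → Rn (n + 1) →ₐ[ℂ] M}
  {δ : Derivation ℂ M M} {w : ℕ} {z0 : Fin w → M} {v0 : Fin w → Derivation ℂ M M}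
  {V : Fin w → Fin (n + 1) → Dr (Fin (n + 1) ⊕ Fin (n + 1))}
  {act : (Fin w → ℂ) → Ws f → Ws f} {ε : ℝ} {d : Fin w → ℂ}

theorem Td.pos (T : Td f D C ev δ z0 v0 V act ε d) {i : Fin (n + 1)} (hi : ∃ z, f z i i ≠ 0) :
    0 < w := by
  by_contra hw0
  obtain rfl : w = 0 := by omega
  obtain ⟨z2, hz2⟩ := hi
  apply T.dat.ne i (pr i f z2) (fun G hG => hG z2 hz2)
  funext l
  have h1 := T.dir i (X (Sum.inl l)) z2 hz2
  rw [T.dat.Dinl, sum_k] at h1
  simpa using h1

/-- forms at points with the same matrix -/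
theorem form_zero {G : MvPolynomial (Fin (n + 1)) ℂ} (hG : IsForm G) {u v : Fin (n + 1) → ℂ}
    (hu : u ≠ 0) (hv : v ≠ 0) (huv : Phi u = Phi v) (h : eval u G = 0) : eval v G = 0 := by
  obtain ⟨a, ha, ha'⟩ := Phi_inj hu hv huv
  obtain ⟨e, he⟩ := hG
  first
  | (subst ha'; rw [eval_hom he, h, mul_zero])
  | (subst ha'; rw [eval_hom he] at h; exact (mul_eq_zero.1 h).resolve_left (pow_ne_zero _ ha))

/-- **The torus of a curve.** -/
theorem Td.torus (T : Td f D C ev δ z0 v0 V act ε d) (hF : ∀ j, IsForm (F j))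
    (hV : ∀ i, Vs (Rel f) i ⊆ Ep F σ c i) :
    ∃ (b : Module.Basis (Fin (2 * w)) ℝ (Fin w → ℂ)) (g : (Fin w → ℂ) → PS n),
      (∀ z, ImmAt g z) ∧ (∀ z, OnX F (g z)) ∧ (∀ z i, g (z + b i) = g z) ∧
      (∀ z : ℂ, Phi (g (z • d)).rep = f z) ∧
      ∀ G : MvPolynomial (Fin (n + 1)) ℂ, IsForm G → (∀ z : ℂ, eval (g (z • d)).rep G = 0) →
        ∀ t, eval (g t).rep G = 0 := by
  classical
  let f0 : Ws f := ⟨f, sol_self T.dat.hol⟩
  obtain ⟨b, hb⟩ := T.exists_basis f0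
  choose u huC hu using fun t => exists_pt hV (act t f0)
  have hu0 : ∀ t, u t ≠ 0 := fun t => (huC t).1
  have hrep : ∀ t, Phi (Projectivization.mk ℂ (u t) (hu0 t)).rep = (act t f0).1 0 := by
    intro t
    obtain ⟨a, ha⟩ := Projectivization.exists_smul_eq_mk_rep ℂ (u t) (hu0 t)
    rw [← ha]
    have h1 : Phi ((a : ℂ) • u t) = Phi (u t) := Phi_smul a.ne_zero _
    rw [← hu t, ← h1]
    rfl
  have hline : ∀ z : ℂ, (act (z • d) f0).1 0 = f z := by
    intro z
    rw [← T.shf_eq z f0]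
    exact shf_zero z f0
  refine ⟨b, fun t => Projectivization.mk ℂ (u t) (hu0 t), fun t0 => ?_, fun t =>
    onX_of_cone hF (huC t) (hu0 t), fun t j => ?_, fun z => ?_, fun G hG hGf t => ?_⟩
  · obtain ⟨j, G, hj, hG, hGev, hGd⟩ := IsAct.local_lift T.dat T.isact f0 t0
    have hGne : ∀ᶠ t in 𝓝 t0, ∃ h0 : G t ≠ 0,
        Projectivization.mk ℂ (u t) (hu0 t) = Projectivization.mk ℂ (G t) h0 := by
      filter_upwards [hGev] with t ht
      have h0 : G t ≠ 0 := by
        intro h1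
        have h2 := ht.1
        rw [h1] at h2
        exact zero_ne_one h2
      refine ⟨h0, pt_eq (hu0 t) h0 ?_⟩
      rw [hu t, ht.2]
    refine ⟨G, hG, hGne, fun e he a hea => ?_⟩
    have h1 : fderiv ℂ G t0 e j = 0 := by
      rw [fderiv_comp_apply hG.differentiableAt]
      have h2 : (fun t => G t j) =ᶠ[𝓝 t0] fun _ => (1 : ℂ) := by
        filter_upwards [hGev] with t ht
        exact ht.1
      rw [h2.fderiv_eq]
      simp
    have ha0 : a = 0 := by
      have h2 := congrFun hea j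
      rw [h1, Pi.smul_apply, smul_eq_mul, hGev.self_of_nhds.1, mul_one] at h2
      exact h2.symm
    apply he
    refine T.ind j _ ((act t0 f0).2.2 0 (mem_univ 0) j hj) e fun l => ?_
    rw [← hGd, hea, ha0, zero_smul]
    rfl
  · refine pt_eq _ _ ?_
    rw [hu, hu, T.isact.add, hb j]
  · change Phi (Projectivization.mk ℂ (u (z • d)) (hu0 (z • d))).rep = f z
    rw [hrep, hline]
  · change eval (Projectivization.mk ℂ (u t) (hu0 t)).rep G = 0
    have hrel : ∀ k, rename Sum.inl G ∈ Rel f k := by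
      intro k z hz
      rw [eval_inl]
      have h1 := hGf z
      change eval (Projectivization.mk ℂ (u (z • d)) (hu0 (z • d))).rep G = 0 at h1
      refine form_zero hG (Projectivization.rep_nonzero _) (PM.chart_ne hz) ?_ h1
      rw [hrep, hline]
      exact (PM.Phi_chart (T.dat.hol.mem_PM (mem_univ z)) hz).symm
    obtain ⟨k, hk⟩ := PM.exists_diag ((act t f0).2.1.mem_PM (mem_univ (0 : ℂ)))
    have h1 := (act t f0).2.2 0 (mem_univ 0) k hk _ (hrel k)
    rw [eval_inl] at h1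
    refine form_zero hG (PM.chart_ne hk) (Projectivization.rep_nonzero _) ?_ h1
    rw [hrep]
    exact PM.Phi_chart ((act t f0).2.1.mem_PM (mem_univ (0 : ℂ))) hk

end tor

end Run7.h418.Z
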